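import Pool.Agent.Lib.H18E.CM

/-!
# Chunk CC: counting compatible classes
-/

open Finset Pool.Agent.Lib.H68T

namespace Pool.Agent.Lib.H18E

theorem CC_zmod (r x : ℕ) [NeZero r] :
    open Classical in
    (compat r x).card =
      (univ.filter (fun y : ZMod r => IsUnit ((x : ZMod r) + y) ∧ IsUnit ((x : ZMod r) - y))).card := by
  classical
  have h := CM_compat r x (fun _ => True)
  have h1 : (compat r x) = (compat r x).filter (fun _ => True) := by
    ext y; simp
  rw [h1]
  refine Eq.trans ?_ (h.trans ?_)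
  · exact congrArg Finset.card (by congr!)
  · congr 1
    ext y
    simp

theorem CC_mul (a b x : ℕ) (ha : 0 < a) (hb : 0 < b) (hab : Nat.Coprime a b) :
    (compat (a * b) x).card = (compat a x).card * (compat b x).card := by
  classical
  have : NeZero a := ⟨ha.ne'⟩
  have : NeZero b := ⟨hb.ne'⟩
  have : NeZero (a * b) := ⟨(Nat.mul_pos ha hb).ne'⟩
  rw [CC_zmod (a * b), CC_zmod a, CC_zmod b, ← card_product]
  have e := ZMod.chineseRemainder hab
  apply Finset.card_bij (fun y _ => e y)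
  · intro y hy
    rw [mem_filter] at hy
    rw [mem_product, mem_filter, mem_filter]
    have h1 : IsUnit (e ((x : ZMod (a * b)) + y)) := hy.2.1.map e
    have h2 : IsUnit (e ((x : ZMod (a * b)) - y)) := hy.2.2.map e
    rw [map_add, map_natCast, Prod.isUnit_iff] at h1
    rw [map_sub, map_natCast, Prod.isUnit_iff] at h2
    exact ⟨⟨mem_univ _, h1.1, h2.1⟩, ⟨mem_univ _, h1.2, h2.2⟩⟩
  · intro y _ z _ hyz
    exact e.injective hyz
  · intro z hz
    rw [mem_product, mem_filter, mem_filter] at hz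
    refine ⟨e.symm z, ?_, by simp⟩
    rw [mem_filter]
    refine ⟨mem_univ _, ?_, ?_⟩
    · have h1 : IsUnit (e ((x : ZMod (a * b)) + e.symm z)) := by
        rw [map_add, map_natCast, Prod.isUnit_iff, e.apply_symm_apply]
        exact ⟨hz.1.2.1, hz.2.2.1⟩
      have := h1.map e.symm
      rwa [e.symm_apply_apply] at this
    · have h1 : IsUnit (e ((x : ZMod (a * b)) - e.symm z)) := by
        rw [map_sub, map_natCast, Prod.isUnit_iff, e.apply_symm_apply]
        exact ⟨hz.1.2.2, hz.2.2.2⟩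
      have := h1.map e.symm
      rwa [e.symm_apply_apply] at this

theorem CC_count (p k v : ℕ) (hp : 0 < p) (hk : 0 < k) :
    ((range (p ^ k)).filter (fun y => y ≡ v [MOD p])).card = p ^ (k - 1) := by
  have h := Nat.count_modEq_card (p ^ k) hp v
  rw [Nat.count_eq_card_filter_range] at h
  rw [h]
  obtain ⟨j, rfl⟩ : ∃ j, k = j + 1 := ⟨k - 1, by omega⟩
  have h1 : p ^ (j + 1) % p = 0 := by
    rw [pow_succ]; exact Nat.mul_mod_left _ _
  rw [h1]
  simp only [Nat.not_lt_zero, if_false, add_zero, Nat.add_sub_cancel]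
  rw [pow_succ, Nat.mul_div_cancel _ hp]

theorem CC_pow (p k x : ℕ) (hp : p.Prime) (hk : 0 < k) :
    ((compat (p ^ k) x).card : ℝ) =
      ((p ^ k : ℕ) : ℝ) * (if p ∣ 2 * x then 1 - 1 / (p : ℝ) else 1 - 2 / (p : ℝ)) := by
  classical
  have hpp : Prime (p : ℤ) := Nat.prime_iff_prime_int.1 hp
  have hcop : ∀ z : ℤ, IsCoprime z ((p ^ k : ℕ) : ℤ) ↔ ¬ (p : ℤ) ∣ z := by
    intro z
    push_cast
    rw [IsCoprime.pow_right_iff hk, isCoprime_comm, hpp.coprime_iff_not_dvd]
  set x' : ℕ := (p - x % p) with hx'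
  have hxp : x % p < p := Nat.mod_lt _ hp.pos
  have hxx : (x : ℤ) + x' ≡ 0 [ZMOD p] := by
    have h1 : (x : ℤ) + x' = p * (x / p + 1 : ℕ) := by
      have h2 := Nat.div_add_mod x p
      have h3 : x + x' = p * (x / p + 1) := by
        rw [hx', mul_add, mul_one]; omega
      exact_mod_cast h3
    rw [h1]
    exact (Int.modEq_zero_iff_dvd).2 (Dvd.intro _ rfl)
  have hA : ∀ y : ℕ, (p : ℤ) ∣ (x : ℤ) - y ↔ y ≡ x [MOD p] := by
    intro y
    rw [← Int.natCast_modEq_iff, Int.modEq_iff_dvd]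
  have hB : ∀ y : ℕ, (p : ℤ) ∣ (x : ℤ) + y ↔ y ≡ x' [MOD p] := by
    intro y
    rw [← Int.natCast_modEq_iff, ← Int.modEq_zero_iff_dvd]
    constructor
    · intro h
      exact Int.ModEq.add_left_cancel' (x : ℤ) (h.trans hxx.symm)
    · intro h
      exact (Int.ModEq.add_left (x : ℤ) h).trans hxx
  have hset : compat (p ^ k) x = range (p ^ k) \
      ((range (p ^ k)).filter (fun y => y ≡ x [MOD p]) ∪
        (range (p ^ k)).filter (fun y => y ≡ x' [MOD p])) := by
    ext y
    simp only [compat, mem_filter, mem_sdiff, mem_union, hcop, hA, hB]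
    tauto
  have hsub : ((range (p ^ k)).filter (fun y => y ≡ x [MOD p]) ∪
        (range (p ^ k)).filter (fun y => y ≡ x' [MOD p])) ⊆ range (p ^ k) :=
    union_subset (filter_subset _ _) (filter_subset _ _)
  have hc1 := CC_count p k x hp.pos hk
  have hc2 := CC_count p k x' hp.pos hk
  have hp0 : (p : ℝ) ≠ 0 := by exact_mod_cast hp.pos.ne'
  have hpk : (p : ℝ) ^ (k - 1) * p = (p : ℝ) ^ k := by
    rw [← pow_succ]
    congr 1
    omega
  have hcard : ((compat (p ^ k) x).card : ℝ) = (p : ℝ) ^ k -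
      (((range (p ^ k)).filter (fun y => y ≡ x [MOD p]) ∪
        (range (p ^ k)).filter (fun y => y ≡ x' [MOD p])).card : ℝ) := by
    rw [hset, card_sdiff_of_subset hsub, Nat.cast_sub (card_le_card hsub), card_range]
    push_cast
    ring
  rw [hcard]
  by_cases h2x : p ∣ 2 * x
  · have hxx2 : x ≡ x' [MOD p] := by
      rw [← hB]
      have h1 : ((p : ℤ)) ∣ ((2 * x : ℕ) : ℤ) := Int.natCast_dvd_natCast.2 h2x
      push_cast at h1
      have h2 : (x : ℤ) + x = 2 * x := by ring
      rw [h2]; exact h1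
    have heq : (range (p ^ k)).filter (fun y => y ≡ x' [MOD p]) =
        (range (p ^ k)).filter (fun y => y ≡ x [MOD p]) := by
      apply filter_congr
      intro y _
      exact ⟨fun h => h.trans hxx2.symm, fun h => h.trans hxx2⟩
    rw [heq, union_self, hc1, if_pos h2x]
    push_cast
    rw [← hpk]
    field_simp
  · have hdis : Disjoint ((range (p ^ k)).filter (fun y => y ≡ x [MOD p]))
        ((range (p ^ k)).filter (fun y => y ≡ x' [MOD p])) := by
      rw [Finset.disjoint_left]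
      intro y hy1 hy2
      rw [mem_filter] at hy1 hy2
      apply h2x
      have h1 : (p : ℤ) ∣ (x : ℤ) + x := (hB x).2 (hy1.2.symm.trans hy2.2)
      have h2 : (p : ℤ) ∣ ((2 * x : ℕ) : ℤ) := by
        push_cast
        have h2 : (x : ℤ) + x = 2 * x := by ring
        rwa [h2] at h1
      exact Int.natCast_dvd_natCast.1 h2
    rw [card_union_of_disjoint hdis, hc1, hc2, if_neg h2x]
    push_cast
    rw [← hpk]
    field_simp
    ring

/-- The number of compatible classes. The condition depends on `y` modulo the radical `R` of `r`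
only, so it is enough to count the classes modulo `R` (`r / R` lifts each), and for squarefree `R` one
multiplies over the primes `p ∣ R` (Chinese remainders, induction on the set of primes): `y ≢ -x` and
`y ≢ x` modulo `p`, two different classes if `p ∤ 2 x` and one class otherwise. -/
theorem compat_card (r x : ℕ) (hr : 0 < r) :
    ((compat r x).card : ℝ) =
      r * ∏ p ∈ r.primeFactors, (if p ∣ 2 * x then 1 - 1 / (p : ℝ) else 1 - 2 / (p : ℝ)) := by
  classical
  revert hr
  induction r using Nat.recOnPosPrimePosCoprime with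
  | prime_pow p k hp hk =>
    intro _
    rw [CC_pow p k x hp hk, Nat.primeFactors_prime_pow hk.ne' hp, prod_singleton]
  | zero => intro h; omega
  | one =>
    intro _
    have : compat 1 x = {0} := by
      ext y
      simp only [compat, mem_filter, mem_range, mem_singleton, Nat.cast_one]
      constructor
      · intro h; omega
      · rintro rfl
        exact ⟨by norm_num, isCoprime_one_right, isCoprime_one_right⟩
    rw [this]
    simp
  | coprime a b ha hb hab iha ihb =>
    intro _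
    rw [CC_mul a b x (by omega) (by omega) hab]
    push_cast
    rw [iha (by omega), ihb (by omega), Nat.Coprime.primeFactors_mul hab,
      prod_union hab.disjoint_primeFactors]
    ring

theorem CC_tel (M : ℕ) (hM : 2 ≤ M) :
    ∏ m ∈ Icc 3 M, (1 - 1 / ((m : ℝ) - 1) ^ 2) = (M : ℝ) / (2 * ((M : ℝ) - 1)) := by
  induction M, hM using Nat.le_induction with
  | base => norm_num
  | succ M hM ih =>
    rw [Finset.prod_Icc_succ_top (by omega : 3 ≤ M + 1), ih]
    have : (2 : ℝ) ≤ M := by exact_mod_cast hM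
    have h1 : (M : ℝ) - 1 ≠ 0 := by linarith
    have h2 : (M : ℝ) ≠ 0 := by linarith
    push_cast
    have h3 : (M : ℝ) + 1 - 1 = M := by ring
    rw [h3]
    field_simp
    ring

theorem CC_half (S : Finset ℕ) (hS : ∀ p ∈ S, 3 ≤ p) :
    1 / 2 ≤ ∏ p ∈ S, (1 - 1 / ((p : ℝ) - 1) ^ 2) := by
  obtain ⟨M, hM2, hM⟩ : ∃ M, 2 ≤ M ∧ S ⊆ Icc 3 M := by
    refine ⟨S.sup id + 2, by omega, fun p hp => ?_⟩
    rw [mem_Icc]
    have := Finset.le_sup (f := id) hp
    simp only [id] at this
    exact ⟨hS p hp, by omega⟩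
  have h01 : ∀ p ∈ Icc 3 M, 0 ≤ 1 - 1 / ((p : ℝ) - 1) ^ 2 ∧ 1 - 1 / ((p : ℝ) - 1) ^ 2 ≤ 1 := by
    intro p hp
    rw [mem_Icc] at hp
    have h3 : (3 : ℝ) ≤ p := by exact_mod_cast hp.1
    have h4 : (1 : ℝ) ≤ ((p : ℝ) - 1) ^ 2 := by nlinarith
    have h5 : 1 / ((p : ℝ) - 1) ^ 2 ≤ 1 := by
      rw [div_le_one (by linarith)]; exact h4
    have h6 : 0 ≤ 1 / ((p : ℝ) - 1) ^ 2 := by positivity
    exact ⟨by linarith, by linarith⟩
  have h1 := Finset.prod_le_prod_of_subset_of_le_one hM (fun p hp => (h01 p hp).1)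
    (fun p hp _ => (h01 p hp).2)
  refine le_trans ?_ h1
  rw [CC_tel M hM2]
  have : (2 : ℝ) ≤ M := by exact_mod_cast hM2
  rw [div_le_div_iff₀ (by norm_num) (by linarith)]
  linarith

/-- The constant of the main term. With `r / φ(r) = ∏_{p ∣ r} p/(p-1)` (`Nat.totient_eq_mul_prod_factors`)
and `compat_card` the right-hand side is
`∏_{p ∣ r, p ∤ 2x} (1 - 1/(p-1)^2) * ∏_{p ∣ 2x} p/(p-1)`, and
`∏_{p ∣ 2x} p/(p-1) = 2 ∏_{p ∣ x, p > 2} p/(p-1) = 2 SE x ∏_{p ∣ x, p > 2} (1 - 1/(p-1)^2)`. Every product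
of `1 - 1/(p-1)^2` over a finite set of primes `p ≥ 3` is at least `∏_{2 ≤ m ≤ M} (1 - 1/m^2) ≥ 1/2`
(telescoping). -/
theorem compat_gp (r x : ℕ) (hr : 0 < r) (hx : 0 < x) :
    1 / 2 * SE x ≤ ((compat r x).card : ℝ) * (r / (Nat.totient r : ℝ) ^ 2) * Gp r (2 * (x : ℤ)) := by
  classical
  have hr0 : (r : ℝ) ≠ 0 := by exact_mod_cast hr.ne'
  have hphi : (Nat.totient r : ℝ) = r * ∏ p ∈ r.primeFactors, (1 - 1 / (p : ℝ)) := by
    have h := Nat.totient_eq_mul_prod_factors r
    have h' := congrArg (fun q : ℚ => (q : ℝ)) h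
    push_cast at h'
    rw [h']
    simp only [one_div]
  have hpr : ∀ p ∈ r.primeFactors, (0 : ℝ) < 1 - 1 / (p : ℝ) := by
    intro p hp
    have h2 : (2 : ℝ) ≤ p := by exact_mod_cast (Nat.prime_of_mem_primeFactors hp).two_le
    have : 1 / (p : ℝ) ≤ 1 / 2 := by
      apply div_le_div_of_nonneg_left zero_le_one (by norm_num) h2
    linarith
  have hprod0 : ∏ p ∈ r.primeFactors, (1 - 1 / (p : ℝ)) ≠ 0 :=
    (Finset.prod_pos hpr).ne'
  have h1 : ((compat r x).card : ℝ) * (r / (Nat.totient r : ℝ) ^ 2) =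
      ∏ p ∈ r.primeFactors, (if p ∣ 2 * x then 1 + 1 / ((p : ℝ) - 1) else
        1 - 1 / ((p : ℝ) - 1) ^ 2) := by
    rw [compat_card r x hr, hphi]
    have h2 : (r : ℝ) * (∏ p ∈ r.primeFactors, (if p ∣ 2 * x then 1 - 1 / (p : ℝ) else 1 - 2 / (p : ℝ))) *
        (r / (r * ∏ p ∈ r.primeFactors, (1 - 1 / (p : ℝ))) ^ 2) =
        (∏ p ∈ r.primeFactors, (if p ∣ 2 * x then 1 - 1 / (p : ℝ) else 1 - 2 / (p : ℝ))) /
        (∏ p ∈ r.primeFactors, (1 - 1 / (p : ℝ))) ^ 2 := by
      field_simp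
    rw [h2, ← Finset.prod_pow, ← Finset.prod_div_distrib]
    apply Finset.prod_congr rfl
    intro p hp
    have h3 : (2 : ℝ) ≤ p := by exact_mod_cast (Nat.prime_of_mem_primeFactors hp).two_le
    have h4 : (p : ℝ) ≠ 0 := by linarith
    have h5 : (p : ℝ) - 1 ≠ 0 := by linarith
    have h6 : 1 - 1 / (p : ℝ) = ((p : ℝ) - 1) / p := by field_simp
    split_ifs
    · rw [h6]
      field_simp
      ring
    · rw [h6]
      field_simp
      ring
  have hab : (2 * (x : ℤ)).natAbs = 2 * x := by omega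
  -- split the primes of `r`
  have h2 : (∏ p ∈ r.primeFactors, (if p ∣ 2 * x then 1 + 1 / ((p : ℝ) - 1) else
        1 - 1 / ((p : ℝ) - 1) ^ 2)) =
      (∏ p ∈ r.primeFactors.filter (fun p => p ∣ 2 * x), (1 + 1 / ((p : ℝ) - 1))) *
      ∏ p ∈ r.primeFactors.filter (fun p => ¬ p ∣ 2 * x), (1 - 1 / ((p : ℝ) - 1) ^ 2) := by
    rw [Finset.prod_ite]
  have h3 : (∏ p ∈ r.primeFactors.filter (fun p => p ∣ 2 * x), (1 + 1 / ((p : ℝ) - 1))) *
      Gp r (2 * (x : ℤ)) = ∏ p ∈ (2 * x).primeFactors, (1 + 1 / ((p : ℝ) - 1)) := by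
    unfold Gp
    rw [hab, ← Finset.prod_filter_mul_prod_filter_not (2 * x).primeFactors (fun p => p ∣ r)]
    congr 1
    apply Finset.prod_congr _ (fun _ _ => rfl)
    ext p
    simp only [mem_filter, Nat.mem_primeFactors]
    constructor
    · rintro ⟨⟨a, b, _⟩, d⟩
      exact ⟨⟨a, d, by omega⟩, b⟩
    · rintro ⟨⟨a, b, _⟩, d⟩
      exact ⟨⟨a, d, by omega⟩, b⟩
  -- the primes of `2 x`
  have h4 : (2 * x).primeFactors = insert 2 (x.primeFactors.filter (fun p => 2 < p)) := by
    ext p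
    simp only [mem_insert, mem_filter, Nat.mem_primeFactors]
    constructor
    · rintro ⟨a, b, _⟩
      rcases (Nat.Prime.dvd_mul a).1 b with h | h
      · left
        exact (Nat.prime_dvd_prime_iff_eq a Nat.prime_two).1 h
      · by_cases h2 : p = 2
        · left; exact h2
        · right
          have := a.two_le
          exact ⟨⟨a, h, hx.ne'⟩, by omega⟩
    · rintro (rfl | ⟨⟨a, b, _⟩, _⟩)
      · exact ⟨Nat.prime_two, Dvd.intro _ rfl, by omega⟩
      · exact ⟨a, Dvd.dvd.mul_left b 2, by omega⟩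
  have h5 : ∏ p ∈ (2 * x).primeFactors, (1 + 1 / ((p : ℝ) - 1)) =
      2 * (SE x * ∏ p ∈ x.primeFactors.filter (fun p => 2 < p), (1 - 1 / ((p : ℝ) - 1) ^ 2)) := by
    rw [h4, prod_insert (by simp), SE, ← Finset.prod_mul_distrib]
    congr 1
    · norm_num
    · apply Finset.prod_congr rfl
      intro p hp
      have h3 : (3 : ℝ) ≤ p := by
        have := (mem_filter.1 hp).2
        exact_mod_cast (by omega : 3 ≤ p)
      have h5 : (p : ℝ) - 1 ≠ 0 := by linarith
      have h6 : (p : ℝ) - 2 ≠ 0 := by linarith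
      field_simp
      ring
  have hSE : 0 ≤ SE x := by
    unfold SE
    apply Finset.prod_nonneg
    intro p hp
    have h3 : (3 : ℝ) ≤ p := by
      have := (mem_filter.1 hp).2
      exact_mod_cast (by omega : 3 ≤ p)
    exact div_nonneg (by linarith) (by linarith)
  have h6 : ((compat r x).card : ℝ) * (r / (Nat.totient r : ℝ) ^ 2) * Gp r (2 * (x : ℤ)) =
      2 * SE x * ∏ p ∈ (r.primeFactors.filter (fun p => ¬ p ∣ 2 * x)) ∪
        (x.primeFactors.filter (fun p => 2 < p)), (1 - 1 / ((p : ℝ) - 1) ^ 2) := by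
    rw [h1, h2, mul_right_comm, h3, h5, prod_union]
    · ring
    · rw [Finset.disjoint_left]
      intro p hp1 hp2
      rw [mem_filter] at hp1 hp2
      exact hp1.2 (Dvd.dvd.mul_left (Nat.dvd_of_mem_primeFactors hp2.1) 2)
  rw [h6]
  have h7 := CC_half ((r.primeFactors.filter (fun p => ¬ p ∣ 2 * x)) ∪
        (x.primeFactors.filter (fun p => 2 < p))) (by
    intro p hp
    rw [mem_union, mem_filter, mem_filter] at hp
    rcases hp with ⟨h, h'⟩ | ⟨_, h⟩
    · have h2 := (Nat.prime_of_mem_primeFactors h).two_le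
      by_contra hlt
      have : p = 2 := by omega
      rw [this] at h'
      exact h' (Dvd.intro _ rfl)
    · omega)
  nlinarith [mul_le_mul_of_nonneg_left h7 hSE]

end Pool.Agent.Lib.H18E
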