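import Pool.Agent.Lib.H18E.Defs

/-!
# Chunk DE0: sums over classes, error terms
-/

open Finset Pool.Agent.Lib.H68T Pool.Agent.Lib.GoldbachGraph

namespace Pool.Agent.Lib.H18E

/-- The sum over the classes: `hdeg n x ≥ ∑_{y0} cdeg n r x y0` over any set of classes. -/
theorem sum_cdeg (n r x : ℕ) (S : Finset ℕ) (hS : S ⊆ compat r x) :
    ∑ y0 ∈ S, cdeg n r x y0 ≤ hdeg n x := by
  classical
  unfold cdeg hdeg
  rw [← Finset.card_biUnion]
  · apply card_le_card
    intro Y hY
    rw [mem_biUnion] at hY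
    obtain ⟨y0, _, hY⟩ := hY
    rw [mem_filter] at hY ⊢
    exact ⟨hY.1, hY.2.1⟩
  · intro a _ b _ hab
    rw [Function.onFun, Finset.disjoint_left]
    intro Y h1 h2
    rw [mem_filter] at h1 h2
    exact hab (h1.2.2.symm.trans h2.2.2)

/-- The error terms are smaller than a power of `r`. `X ≥ n / 4`,
`sw K Q X = exp (- log X/(K log Q)) + Q^(-1/K)`: with `E` large in terms of `K` the hypotheses give
`exp (- log X/(2 K log Q)), Q^(-1/(2K)) ≤ r^(-10)` (for the first, `log X ≥ (1/2) log n`), and `Reg K' Q n`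
with `K'` large gives `exp (- log X/(2 K log Q)), Q^(-1/(2K)) ≤ (1/8) (log n)^(-10)`. Similarly for
`Q^(-1/20)`, `Q^(-1/8)` and the constant `C`. -/
theorem de_err (K C : ℝ) (hK : 1 ≤ K) (hC : 1 ≤ C) : ∃ K' : ℝ, ∃ E : ℕ, 100 ≤ E ∧ K ≤ K' ∧
    ∀ n Q X r : ℕ, Reg K' Q n → n ≤ 4 * X → X ≤ n → 1 ≤ r → (r : ℝ) ^ E ≤ Q →
    E * Real.log r * Real.log Q ≤ Real.log n →
    sw K Q X * (Real.log n) ^ 10 ≤ 1 / (4 * (r : ℝ) ^ 10) ∧
      C * (Q : ℝ) ^ (-(1 / 20) : ℝ) ≤ 1 / (4 * (r : ℝ) ^ 10) ∧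
      C * (Q : ℝ) ^ (-(1 / 8) : ℝ) ≤ 1 / (4 * (r : ℝ) ^ 10) := by
  have hE1 : 400 * K ≤ (⌈400 * K⌉₊ : ℝ) := Nat.le_ceil _
  refine ⟨160 * C + 60 * K, ⌈400 * K⌉₊, ?_, by linarith, ?_⟩
  · have : (100 : ℝ) ≤ (⌈400 * K⌉₊ : ℝ) := by linarith
    exact_mod_cast this
  generalize ⌈400 * K⌉₊ = E at hE1
  intro n Q X r hreg hnX hXn hr hrQ hrn
  obtain ⟨h1, h2, h3⟩ := hreg
  set L := Real.log n with hL
  set l := Real.log L with hl
  set q := Real.log Q with hq
  set ρ := Real.log r with hρ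
  have hl1 : 160 ≤ l := by linarith
  have hq1 : 160 ≤ q := by nlinarith
  have hr0 : (0 : ℝ) < r := by exact_mod_cast hr
  have hρ0 : 0 ≤ ρ := Real.log_natCast_nonneg r
  have hQ0 : (0 : ℝ) < Q := by
    by_contra h
    have h' : (Q : ℝ) = 0 := le_antisymm (not_lt.1 h) (Nat.cast_nonneg Q)
    rw [hq, h', Real.log_zero] at hq1
    linarith
  have hLl : L = Real.exp l := by
    have : 0 < L := by
      by_contra h
      have h' : Real.log L ≤ 1 := by
        rcases lt_or_eq_of_le (not_lt.1 h) with h4 | h4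
        · have : 0 ≤ L := Real.log_natCast_nonneg n
          linarith
        · rw [h4, Real.log_zero]; norm_num
      linarith
    rw [hl, Real.exp_log this]
  have hLge : 160 ≤ L := by
    rw [hLl]
    linarith [Real.add_one_le_exp l]
  have hn0 : (0 : ℝ) < n := by
    by_contra h
    have h' : (n : ℝ) = 0 := le_antisymm (not_lt.1 h) (Nat.cast_nonneg n)
    rw [hL, h', Real.log_zero] at hLge
    linarith
  have hEρ : E * ρ ≤ q := by
    have h4 := Real.log_le_log (by positivity) hrQ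
    rw [Real.log_pow] at h4
    exact h4
  have hX0 : (0 : ℝ) < X := by
    have : (n : ℝ) ≤ 4 * X := by exact_mod_cast hnX
    linarith
  have hlX : L / 2 ≤ Real.log X := by
    have h4 : (n : ℝ) ≤ 4 * X := by exact_mod_cast hnX
    have h5 := Real.log_le_log hn0 h4
    rw [Real.log_mul (by norm_num) hX0.ne'] at h5
    have h6 : Real.log 4 ≤ 4 := by
      have := Real.log_le_sub_one_of_pos (show (0 : ℝ) < 4 by norm_num)
      linarith
    linarith
  have hKE : 400 * K * ρ ≤ E * ρ := mul_le_mul_of_nonneg_right hE1 hρ0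
  -- the two quantities
  have hA : 13 * l + 10 * ρ ≤ Real.log X / (K * q) := by
    rw [le_div_iff₀ (by positivity)]
    have h4 : 60 * K * (q * l) ≤ L := by
      refine le_trans ?_ h3
      apply mul_le_mul_of_nonneg_right _ (by positivity)
      linarith
    have h5 : 400 * K * ρ * q ≤ L := by
      refine le_trans ?_ hrn
      exact mul_le_mul_of_nonneg_right hKE (by positivity)
    nlinarith
  have hB : 13 * l + 10 * ρ ≤ q / K := by
    rw [le_div_iff₀ (by linarith)]
    have h4 : 60 * K * l ≤ q := by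
      refine le_trans ?_ h2
      apply mul_le_mul_of_nonneg_right _ (by positivity)
      linarith
    nlinarith
  have hD : Real.log (4 * C) + 10 * ρ ≤ q / 20 := by
    have h4 : 160 * C ≤ q := by
      have : 160 * C * l ≤ q := by
        refine le_trans ?_ h2
        apply mul_le_mul_of_nonneg_right _ (by positivity)
        linarith
      nlinarith
    have h5 : Real.log (4 * C) ≤ 4 * C := by
      have := Real.log_le_sub_one_of_pos (show (0 : ℝ) < 4 * C by linarith)
      linarith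
    nlinarith
  have hr10 : Real.exp (-(10 * ρ)) = 1 / (r : ℝ) ^ 10 := by
    rw [Real.exp_neg, hρ, mul_comm, Real.exp_mul, Real.exp_log hr0, one_div]
    norm_cast
  have hL10 : L ^ 10 = Real.exp (10 * l) := by
    rw [hLl, ← Real.exp_nat_mul]
    norm_num
  have h8 : Real.exp (-(3 * l)) ≤ 1 / 8 := by
    have h4 : Real.exp (3 * l) ≥ 8 := by linarith [Real.add_one_le_exp (3 * l)]
    rw [Real.exp_neg, ← one_div]
    apply one_div_le_one_div_of_le (by norm_num) h4
  have hmain : ∀ y : ℝ, 13 * l + 10 * ρ ≤ y → Real.exp (-y) * L ^ 10 ≤ 1 / 8 * (1 / (r : ℝ) ^ 10) := by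
    intro y hy
    rw [hL10, ← Real.exp_add, ← hr10]
    calc Real.exp (-y + 10 * l) ≤ Real.exp (-(3 * l) + -(10 * ρ)) := by
          apply Real.exp_le_exp.2; linarith
      _ = Real.exp (-(3 * l)) * Real.exp (-(10 * ρ)) := Real.exp_add _ _
      _ ≤ _ := mul_le_mul_of_nonneg_right h8 (Real.exp_pos _).le
  have h20 : C * (Q : ℝ) ^ (-(1 / 20) : ℝ) ≤ 1 / (4 * (r : ℝ) ^ 10) := by
    rw [Real.rpow_def_of_pos hQ0]
    have h4 : 1 / (4 * (r : ℝ) ^ 10) = 1 / 4 * Real.exp (-(10 * ρ)) := by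
      rw [hr10]; ring
    rw [h4]
    have h5 : C = 1 / 4 * Real.exp (Real.log (4 * C)) := by
      rw [Real.exp_log (by linarith)]; ring
    calc C * Real.exp (Real.log Q * -(1 / 20)) =
          1 / 4 * (Real.exp (Real.log (4 * C)) * Real.exp (Real.log Q * -(1 / 20))) := by
          rw [← mul_assoc, ← h5]
      _ ≤ 1 / 4 * Real.exp (-(10 * ρ)) := by
          apply mul_le_mul_of_nonneg_left _ (by norm_num)
          rw [← Real.exp_add]
          apply Real.exp_le_exp.2
          linarith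
  refine ⟨?_, h20, ?_⟩
  · unfold sw
    rw [add_mul]
    have h4 := hmain _ hA
    have h5 := hmain _ hB
    have h6 : (Q : ℝ) ^ (-(1 / K)) = Real.exp (-(q / K)) := by
      rw [Real.rpow_def_of_pos hQ0]
      congr 1
      rw [hq]; ring
    rw [h6]
    have h7 : 1 / (4 * (r : ℝ) ^ 10) = 1 / 8 * (1 / (r : ℝ) ^ 10) + 1 / 8 * (1 / (r : ℝ) ^ 10) := by
      ring
    rw [h7]
    exact add_le_add h4 h5
  · refine le_trans ?_ h20
    apply mul_le_mul_of_nonneg_left _ (by linarith)
    apply Real.rpow_le_rpow_of_exponent_le _ (by norm_num)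
    by_contra h
    have : q ≤ 0 := Real.log_nonpos hQ0.le (not_le.1 h).le
    linarith

end Pool.Agent.Lib.H18E
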