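import Mathlib

/-!
# Chunk BC: the counting argument for the exceptional vertices
-/

open Finset

namespace Pool.Agent.Lib.H18E

/-- The abstract counting argument: each bad `x ∈ P` gives at least `h` pairs `(s,t)` with
`e s t > θ`, and these pairs are different for different `(x, j)`. -/
theorem bad_count (I : Finset ℕ) (e : ℕ → ℕ → ℝ) (V θ : ℝ) (hθ : 0 < θ)
    (he : ∑ s ∈ I, ∑ t ∈ I, (e s t) ^ 2 ≤ V) (P : Finset ℕ) (J : ℕ → Finset ℕ) (h : ℕ)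
    (hJ : ∀ x ∈ P, h ≤ (J x).card) (f g : ℕ → ℕ → ℕ)
    (hI : ∀ x ∈ P, ∀ j ∈ J x, f x j ∈ I ∧ g x j ∈ I)
    (hinj : ∀ x ∈ P, ∀ j ∈ J x, ∀ x' ∈ P, ∀ j' ∈ J x', f x j = f x' j' → g x j = g x' j' →
      x = x' ∧ j = j')
    (hbad : ∀ x ∈ P, ∀ j ∈ J x, θ < e (f x j) (g x j)) :
    (P.card : ℝ) * h * θ ^ 2 ≤ V := by
  classical
  refine le_trans ?_ he
  rw [← sum_product']
  have h1 : ∑ q ∈ (P.sigma J), (e (f q.1 q.2) (g q.1 q.2)) ^ 2 ≤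
      ∑ q ∈ I ×ˢ I, (e q.1 q.2) ^ 2 := by
    have h2 : ∑ q ∈ (P.sigma J), (e (f q.1 q.2) (g q.1 q.2)) ^ 2 =
        ∑ q ∈ (P.sigma J).image (fun q => (f q.1 q.2, g q.1 q.2)), (e q.1 q.2) ^ 2 := by
      rw [sum_image]
      rintro ⟨x, j⟩ hx ⟨x', j'⟩ hx' heq
      have hx1 := mem_sigma.1 (mem_coe.1 hx)
      have hx2 := mem_sigma.1 (mem_coe.1 hx')
      simp only at hx1 hx2
      have heq' := Prod.mk.inj heq
      obtain ⟨ha, hb⟩ := hinj x hx1.1 j hx1.2 x' hx2.1 j' hx2.2 heq'.1 heq'.2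
      subst ha; subst hb; rfl
    rw [h2]
    refine sum_le_sum_of_subset_of_nonneg ?_ (fun q _ _ => sq_nonneg _)
    intro q hq
    obtain ⟨⟨x, j⟩, hx, rfl⟩ := mem_image.1 hq
    have hx1 := mem_sigma.1 hx
    exact mem_product.2 (hI x hx1.1 j hx1.2)
  refine le_trans ?_ h1
  have h3 : ∑ q ∈ (P.sigma J), θ ^ 2 ≤ ∑ q ∈ (P.sigma J), (e (f q.1 q.2) (g q.1 q.2)) ^ 2 := by
    refine sum_le_sum ?_
    rintro ⟨x, j⟩ hx
    have hx1 := mem_sigma.1 hx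
    exact pow_le_pow_left₀ hθ.le (hbad x hx1.1 j hx1.2).le 2
  refine le_trans ?_ h3
  rw [sum_const, nsmul_eq_mul, card_sigma]
  have h4 : P.card * h ≤ ∑ x ∈ P, (J x).card := by
    rw [← smul_eq_mul, ← sum_const]
    exact sum_le_sum hJ
  have h5 : (P.card : ℝ) * h ≤ ((∑ x ∈ P, (J x).card : ℕ) : ℝ) := by exact_mod_cast h4
  exact mul_le_mul_of_nonneg_right h5 (by positivity)

end Pool.Agent.Lib.H18E
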