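import Pool.Agent.Lib.H18E.Defs
import Pool.Agent.Lib.H68T.DA
import Pool.Agent.Lib.H68X.XDA

/-!
# Chunk ST: the structure `Str` in the two cases
-/

open Finset Pool.Agent.Lib.H68T

namespace Pool.Agent.Lib.H18E

/-- The relation between the parameters at `n` and at a comparable `X`: `log log X ≤ log log n`,
`log X ≥ log n - log 4 ≥ (1/2) log n`. -/
theorem reg_shift : ∃ K0 : ℝ, 0 ≤ K0 ∧ ∀ K : ℝ, 0 ≤ K → ∀ Q n X : ℕ, Reg (2 * K + K0) Q n →
    n ≤ 4 * X → X ≤ n → Reg K Q X := by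
  refine ⟨4, by norm_num, fun K hK Q n X hR h4 hXn => ?_⟩
  have hKp : (0 : ℝ) < 2 * K + 4 := by linarith
  obtain ⟨h1, h2, h3⟩ := hR
  have hln := (show Reg (2 * K + 4) Q n from ⟨h1, h2, h3⟩).logX_ge hKp
  have hn0 : 0 < n := (show Reg (2 * K + 4) Q n from ⟨h1, h2, h3⟩).X_pos hKp
  have hX0 : 0 < X := by omega
  have hX0R : (0 : ℝ) < X := by exact_mod_cast hX0
  have hn0R : (0 : ℝ) < n := by exact_mod_cast hn0
  have hexp4 : (4 : ℝ) ≤ Real.exp (2 * K + 4) := by
    have := Real.add_one_le_exp (2 * K + 4)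
    linarith
  set l := Real.log n with hl
  set x := Real.log X with hx
  have hl4 : 4 ≤ l := by linarith
  have hxl : x ≤ l := Real.log_le_log hX0R (by exact_mod_cast hXn)
  have hlx : l ≤ 2 * x := by
    have h5 : Real.log n ≤ Real.log (4 * X) := Real.log_le_log hn0R (by exact_mod_cast h4)
    rw [Real.log_mul (by norm_num) hX0R.ne'] at h5
    have h6 : Real.log 4 ≤ 2 := by
      have : Real.log 4 = 2 * Real.log 2 := by
        rw [show (4 : ℝ) = 2 ^ 2 by norm_num, Real.log_pow]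
        norm_num
      rw [this]
      linarith [Real.log_two_lt_d9]
    linarith
  have hx0 : 0 < x := by linarith
  have hllx : Real.log x ≤ Real.log l := Real.log_le_log hx0 hxl
  have hllx' : Real.log l ≤ Real.log x + 1 := by
    have h5 : Real.log l ≤ Real.log (2 * x) := Real.log_le_log (by linarith) hlx
    rw [Real.log_mul (by norm_num) hx0.ne'] at h5
    linarith [Real.log_two_lt_d9]
  have hlogQ0 : 0 ≤ Real.log Q := by
    have : 0 ≤ (2 * K + 4) * Real.log l := mul_nonneg hKp.le (by linarith)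
    linarith
  refine ⟨by linarith, ?_, ?_⟩
  · have h5 : K * Real.log x ≤ (2 * K + 4) * Real.log l := by
      have h6 : 0 ≤ Real.log l := by linarith
      calc K * Real.log x ≤ K * Real.log l := mul_le_mul_of_nonneg_left hllx hK
        _ ≤ (2 * K + 4) * Real.log l := mul_le_mul_of_nonneg_right (by linarith) h6
    linarith
  · have h6 : 0 ≤ Real.log Q * Real.log l := mul_nonneg hlogQ0 (by linarith)
    have h7 : Real.log Q * Real.log x ≤ Real.log Q * Real.log l :=
      mul_le_mul_of_nonneg_left hllx hlogQ0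
    have h8 : 2 * (K * (Real.log Q * Real.log x)) ≤ l := by
      calc 2 * (K * (Real.log Q * Real.log x)) ≤ 2 * (K * (Real.log Q * Real.log l)) := by
            have := mul_le_mul_of_nonneg_left h7 hK
            linarith
        _ ≤ (2 * K + 4) * (Real.log Q * Real.log l) := by nlinarith
        _ ≤ l := h3
    linarith

/-- From `structured` with `A = 20`. -/
theorem str_good (c : ℝ) (hc : 0 < c) : ∃ K : ℝ, 1 ≤ K ∧ ∀ Q X : ℕ, Reg K Q X → Good c Q →
    Str Q X 1 ((Real.log X) ^ (-20 : ℝ)) 1 (fun _ => 0) := by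
  obtain ⟨K, hK⟩ := structured c hc 20
  refine ⟨|K| + 1, by linarith [abs_nonneg K], fun Q X hR hG => ?_⟩
  have hK0 : (0 : ℝ) ≤ |K| + 1 := by positivity
  have hR' := hR.mono (K' := K) hK0 (by linarith [le_abs_self K])
  have hlX := hR.logX_pos (by positivity)
  refine ⟨one_pos, Real.rpow_nonneg hlX.le _, by norm_num, le_rfl, fun m => by simp,
    fun m k => rfl, fun m h1 h2 => ?_⟩
  have h3 := hK Q X hR' hG m h1 h2
  have h4 : Pool.Agent.Lib.H68T.Mod Q 1 0 1 m = G Q m := by
    unfold Pool.Agent.Lib.H68T.Mod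
    ring
  rw [h4]
  exact h3

/-- From `structured_exc`: real parts. -/
theorem str_exc (c' C : ℝ) (hc' : 0 < c') : ∃ K : ℝ, 1 ≤ K ∧ ∀ Q X : ℕ, Reg K Q X →
    ∀ (r : ℕ) (ψ : DirichletCharacter ℂ r) (β : ℝ), 0 < r → ExcData c' C Q r ψ β →
    Str Q X r (sw K Q X) β (fun m => (ψ (m : ZMod r)).re) := by
  obtain ⟨K, hK1, hK⟩ := structured_exc c' C hc'
  refine ⟨K, hK1, fun Q X hR r ψ β hr hE => ?_⟩
  have hQ1 : 1 ≤ Q := hR.Q_pos hK1
  refine ⟨hr, (sw_pos K Q X hQ1).le, hE.half, hE.lt.le, fun m => ?_, fun m k => ?_,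
    fun m h1 h2 => ?_⟩
  · exact (Complex.abs_re_le_norm _).trans (DirichletCharacter.norm_le_one ψ _)
  · have : ((m + r * k : ℤ) : ZMod r) = (m : ZMod r) := by
      push_cast
      rw [ZMod.natCast_self, zero_mul, add_zero]
    simp only [this]
  · have h3 := hK Q X hR r ψ β hE m h1 h2
    refine le_trans ?_ h3
    refine le_trans (le_of_eq ?_) (Complex.abs_re_le_norm _)
    congr 1
    unfold Pool.Agent.Lib.H68T.Mod
    rw [Complex.add_re, Complex.ofReal_re, Complex.re_mul_ofReal, Complex.re_ofReal_mul]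
    ring

end Pool.Agent.Lib.H18E
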