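import Pool.Agent.Lib.H18E.CP
import Pool.Agent.Lib.H18E.BC
import Pool.Agent.Lib.H18E.ST

open Finset Pool.Agent.Lib.H68T

namespace Pool.Agent.Lib.H18E

/-! ## Geometry -/

/-- the difference `y0 - x` resp. `x - y0` -/
def xcD (σ : Bool) (x y0 : ℕ) : ℤ := if σ then (y0 : ℤ) - x else (x : ℤ) - y0

def xcu (r x y0 : ℕ) : ℕ := (x + y0) % r

def xcv (σ : Bool) (r x y0 : ℕ) : ℕ := (xcD σ x y0 % (r : ℤ)).toNat

def xcs (r y0 x j : ℕ) : ℕ := (x + y0) / r + j

def xct (σ : Bool) (H r y0 x j : ℕ) : ℕ :=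
  (xcD σ x y0 / (r : ℤ) + (if σ then (j : ℤ) else -(j : ℤ) - ((H : ℤ) - 1))).toNat

/-- the range of `j` -/
def xcJ (σ : Bool) (n r H : ℕ) : Finset ℕ :=
  if σ then Ico (7 * n / (8 * r) + 1) (7 * n / (8 * r) + 1 + H) else Ico 1 (1 + H)

theorem xcJ_card (σ : Bool) (n r H : ℕ) : (xcJ σ n r H).card = H := by
  unfold xcJ
  split_ifs <;> simp

theorem xcu_lt {r x y0 : ℕ} (hr : 0 < r) : xcu r x y0 < r := Nat.mod_lt _ hr

theorem xcv_eq {σ : Bool} {r x y0 : ℕ} (hr : 0 < r) :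
    ((xcv σ r x y0 : ℕ) : ℤ) = xcD σ x y0 % (r : ℤ) := by
  unfold xcv
  exact Int.toNat_of_nonneg (Int.emod_nonneg _ (by omega))

theorem xcv_lt {σ : Bool} {r x y0 : ℕ} (hr : 0 < r) : xcv σ r x y0 < r := by
  have h1 := xcv_eq (σ := σ) (x := x) (y0 := y0) hr
  have h2 : xcD σ x y0 % (r : ℤ) < r := Int.emod_lt_of_pos _ (by exact_mod_cast hr)
  omega

/-- the main geometric lemma -/
theorem xc_geom {n r x y0 j : ℕ} (hr : 0 < r) (hn : 100 * r ≤ n) (hx1 : 1 ≤ x) (hx : x ≤ n)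
    (hy0 : y0 < r) {σ : Bool} (hσ : σ = true ↔ 2 * x ≤ n)
    (hj : j ∈ xcJ σ n r (n / (32 * r))) :
    xcs r y0 x j ∈ Ico (3 * n / (8 * r)) (4 * (3 * n / (8 * r)) - n / (32 * r)) ∧
    xct σ (n / (32 * r)) r y0 x j ∈ Ico (3 * n / (8 * r)) (4 * (3 * n / (8 * r)) - n / (32 * r)) ∧
    ((xct σ (n / (32 * r)) r y0 x j : ℕ) : ℤ) = xcD σ x y0 / (r : ℤ) +
      (if σ then (j : ℤ) else -(j : ℤ) - (((n / (32 * r) : ℕ) : ℤ) - 1)) ∧
    ∀ c < n / (32 * r), 1 ≤ y0 + r * (j + c) ∧ y0 + r * (j + c) ≤ n := by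
  have hr8 : 0 < 8 * r := by omega
  have hr32 : 0 < 32 * r := by omega
  set M := 3 * n / (8 * r) with hM
  set H := n / (32 * r) with hH
  set J0 := 7 * n / (8 * r) with hJ0
  have m1 : 8 * (r * M) ≤ 3 * n := by
    have := Nat.div_mul_le_self (3 * n) (8 * r)
    rw [← hM] at this
    nlinarith
  have m2 : 3 * n < 8 * (r * M) + 8 * r := by
    have := Nat.lt_div_mul_add hr8 (a := 3 * n)
    rw [← hM] at this
    nlinarith
  have k1 : 32 * (r * H) ≤ n := by
    have := Nat.div_mul_le_self n (32 * r)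
    rw [← hH] at this
    nlinarith
  have k2 : n < 32 * (r * H) + 32 * r := by
    have := Nat.lt_div_mul_add hr32 (a := n)
    rw [← hH] at this
    nlinarith
  have j1 : 8 * (r * J0) ≤ 7 * n := by
    have := Nat.div_mul_le_self (7 * n) (8 * r)
    rw [← hJ0] at this
    nlinarith
  have j2 : 7 * n < 8 * (r * J0) + 8 * r := by
    have := Nat.lt_div_mul_add hr8 (a := 7 * n)
    rw [← hJ0] at this
    nlinarith
  have hH1 : 1 ≤ H := by
    rw [hH, Nat.le_div_iff_mul_le hr32]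
    omega
  have hMr : r ≤ r * M := by
    have : 1 ≤ M := by
      rw [hM, Nat.le_div_iff_mul_le hr8]
      omega
    nlinarith
  have hrH : r ≤ r * H := by nlinarith
  have hHM : H ≤ 4 * M := by
    have : r * H ≤ r * (4 * M) := by nlinarith
    exact Nat.le_of_mul_le_mul_left this hr
  have hrZ : (0 : ℤ) < r := by exact_mod_cast hr
  -- integer versions
  have M1 : 8 * ((r : ℤ) * M) ≤ 3 * n := by exact_mod_cast m1
  have M2 : 3 * (n : ℤ) < 8 * ((r : ℤ) * M) + 8 * r := by exact_mod_cast m2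
  have K1 : 32 * ((r : ℤ) * H) ≤ n := by exact_mod_cast k1
  have K2 : (n : ℤ) < 32 * ((r : ℤ) * H) + 32 * r := by exact_mod_cast k2
  have J1 : 8 * ((r : ℤ) * J0) ≤ 7 * n := by exact_mod_cast j1
  have J2 : 7 * (n : ℤ) < 8 * ((r : ℤ) * J0) + 8 * r := by exact_mod_cast j2
  have Hn : 100 * (r : ℤ) ≤ n := by exact_mod_cast hn
  have HH : (r : ℤ) ≤ r * H := by exact_mod_cast hrH
  have Hx1 : (1 : ℤ) ≤ x := by exact_mod_cast hx1
  have Hx : (x : ℤ) ≤ n := by exact_mod_cast hx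
  have Hy : (y0 : ℤ) < r := by exact_mod_cast hy0
  have Hy0 : (0 : ℤ) ≤ y0 := Int.natCast_nonneg _
  have hsub : ((4 * M - H : ℕ) : ℤ) = 4 * M - H := by
    rw [Nat.cast_sub hHM]
    push_cast
    ring
  -- a criterion
  have crit : ∀ a : ℤ, ∀ l : ℤ, (M : ℤ) * r ≤ a + l * r → a + l * r < (4 * M - H) * r →
      (M : ℤ) ≤ a / r + l ∧ a / r + l < 4 * M - H := by
    intro a l h1 h2
    constructor
    · have : (M : ℤ) - l ≤ a / r := by
        rw [Int.le_ediv_iff_mul_le hrZ]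
        nlinarith
      linarith
    · have : a / r < 4 * (M : ℤ) - H - l := by
        rw [Int.ediv_lt_iff_lt_mul hrZ]
        nlinarith
      linarith
  have hs : ((xcs r y0 x j : ℕ) : ℤ) = ((x : ℤ) + y0) / r + j := by
    unfold xcs
    push_cast
    rfl
  cases σ with
  | true =>
    have h2x : 2 * (x : ℤ) ≤ n := by exact_mod_cast hσ.mp rfl
    simp only [xcJ, if_true, mem_Ico] at hj
    have b1 : (r : ℤ) * J0 + r ≤ r * j := by
      have : r * (J0 + 1) ≤ r * j := Nat.mul_le_mul_left _ hj.1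
      have h3 : ((r * (J0 + 1) : ℕ) : ℤ) ≤ ((r * j : ℕ) : ℤ) := by exact_mod_cast this
      push_cast at h3
      linarith
    have b2 : (r : ℤ) * j ≤ r * J0 + r * H := by
      have : r * j ≤ r * (J0 + H) := Nat.mul_le_mul_left _ (by omega)
      have h3 : ((r * j : ℕ) : ℤ) ≤ ((r * (J0 + H) : ℕ) : ℤ) := by exact_mod_cast this
      push_cast at h3
      linarith
    obtain ⟨s1, s2⟩ := crit ((x : ℤ) + y0) j (by linarith) (by linarith)
    obtain ⟨t1, t2⟩ := crit ((y0 : ℤ) - x) j (by linarith) (by linarith)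
    have ht : ((xct true H r y0 x j : ℕ) : ℤ) = ((y0 : ℤ) - x) / r + j := by
      unfold xct
      simp only [xcD, if_true]
      apply Int.toNat_of_nonneg
      have : (0 : ℤ) ≤ M := Int.natCast_nonneg _
      linarith
    refine ⟨?_, ?_, ?_, ?_⟩
    · rw [mem_Ico]
      constructor
      · zify; rw [hs]; exact s1
      · zify; rw [hsub, hs]; exact s2
    · rw [mem_Ico]
      constructor
      · zify; rw [ht]; exact t1
      · zify; rw [hsub, ht]; exact t2
    · rw [ht]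
      simp [xcD]
    · intro c hc
      have c1 : (r : ℤ) * c + r ≤ r * H := by
        have : r * (c + 1) ≤ r * H := Nat.mul_le_mul_left _ hc
        have h3 : ((r * (c + 1) : ℕ) : ℤ) ≤ ((r * H : ℕ) : ℤ) := by exact_mod_cast this
        push_cast at h3
        linarith
      have c0 : (0 : ℤ) ≤ (r : ℤ) * c := by positivity
      constructor
      · zify
        linarith
      · zify
        linarith
  | false =>
    have h2x : (n : ℤ) < 2 * (x : ℤ) := by
      have : ¬ (2 * x ≤ n) := fun h => by simpa using hσ.mpr h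
      exact_mod_cast not_le.mp this
    simp only [xcJ, Bool.false_eq_true, if_false, mem_Ico] at hj
    have b1 : (r : ℤ) ≤ r * j := by
      have : r * 1 ≤ r * j := Nat.mul_le_mul_left _ hj.1
      have h3 : ((r * 1 : ℕ) : ℤ) ≤ ((r * j : ℕ) : ℤ) := by exact_mod_cast this
      push_cast at h3
      linarith
    have b2 : (r : ℤ) * j ≤ r * H := by
      have : r * j ≤ r * H := Nat.mul_le_mul_left _ (by omega)
      exact_mod_cast this
    obtain ⟨s1, s2⟩ := crit ((x : ℤ) + y0) j (by linarith) (by linarith)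
    obtain ⟨t1, t2⟩ := crit ((x : ℤ) - y0) (-(j : ℤ) - ((H : ℤ) - 1)) (by linarith) (by linarith)
    have ht : ((xct false H r y0 x j : ℕ) : ℤ) =
        ((x : ℤ) - y0) / r + (-(j : ℤ) - ((H : ℤ) - 1)) := by
      unfold xct
      simp only [xcD, Bool.false_eq_true, if_false]
      apply Int.toNat_of_nonneg
      have : (0 : ℤ) ≤ M := Int.natCast_nonneg _
      linarith
    refine ⟨?_, ?_, ?_, ?_⟩
    · rw [mem_Ico]
      constructor
      · zify; rw [hs]; exact s1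
      · zify; rw [hsub, hs]; exact s2
    · rw [mem_Ico]
      constructor
      · zify; rw [ht]; exact t1
      · zify; rw [hsub, ht]; exact t2
    · rw [ht]
      simp [xcD]
    · intro c hc
      have c1 : (r : ℤ) * c + r ≤ r * H := by
        have : r * (c + 1) ≤ r * H := Nat.mul_le_mul_left _ hc
        have h3 : ((r * (c + 1) : ℕ) : ℤ) ≤ ((r * H : ℕ) : ℤ) := by exact_mod_cast this
        push_cast at h3
        linarith
      have c0 : (0 : ℤ) ≤ (r : ℤ) * c := by positivity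
      constructor
      · zify
        linarith
      · zify
        linarith

/-- `x + y = u + r (s + c)` -/
theorem xc_sum {r x y0 j c : ℕ} :
    xcu r x y0 + r * (xcs r y0 x j + c) = x + (y0 + r * (j + c)) := by
  unfold xcu xcs
  have := Nat.mod_add_div (x + y0) r
  nlinarith

/-- `|x - y| = v + r ix` -/
theorem xc_diff {σ : Bool} {H r x y0 j c : ℕ} (hr : 0 < r) (hc : c < H)
    (ht : ((xct σ H r y0 x j : ℕ) : ℤ) = xcD σ x y0 / (r : ℤ) +
      (if σ then (j : ℤ) else -(j : ℤ) - ((H : ℤ) - 1))) :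
    ((xcv σ r x y0 + r * ix H σ (xct σ H r y0 x j) c : ℕ) : ℤ) =
      if σ then ((y0 + r * (j + c) : ℕ) : ℤ) - x else (x : ℤ) - ((y0 + r * (j + c) : ℕ) : ℤ) := by
  have h1 := xcv_eq (σ := σ) (x := x) (y0 := y0) hr
  have h2 := Int.emod_add_mul_ediv (xcD σ x y0) r
  push_cast
  rw [h1]
  cases σ with
  | true =>
    simp only [ix, cond_true, if_true] at ht ⊢
    push_cast
    rw [ht]
    simp only [xcD, if_true] at h2 ⊢
    linear_combination h2
  | false =>
    simp only [ix, cond_false, Bool.false_eq_true, if_false] at ht ⊢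
    have h3 : ((H - 1 - c : ℕ) : ℤ) = (H : ℤ) - 1 - c := by omega
    push_cast
    rw [h3, ht]
    simp only [xcD, Bool.false_eq_true, if_false] at h2 ⊢
    linear_combination h2

/-- `dd = 2 x` -/
theorem xc_dd {σ : Bool} {H r x y0 j : ℕ} (hr : 0 < r) (hH : 1 ≤ H)
    (ht : ((xct σ H r y0 x j : ℕ) : ℤ) = xcD σ x y0 / (r : ℤ) +
      (if σ then (j : ℤ) else -(j : ℤ) - ((H : ℤ) - 1))) :
    dd H r σ (xcu r x y0) (xcv σ r x y0) (xcs r y0 x j) (xct σ H r y0 x j) = 2 * (x : ℤ) := by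
  have h1 := xcv_eq (σ := σ) (x := x) (y0 := y0) hr
  have h2 := Int.emod_add_mul_ediv (xcD σ x y0) r
  have h3 : ((xcu r x y0 : ℕ) : ℤ) + r * (xcs r y0 x j : ℕ) = (x : ℤ) + y0 + r * j := by
    have := xc_sum (r := r) (x := x) (y0 := y0) (j := j) (c := 0)
    have h4 : ((xcu r x y0 + r * (xcs r y0 x j + 0) : ℕ) : ℤ) =
      ((x + (y0 + r * (j + 0)) : ℕ) : ℤ) := by exact_mod_cast this
    push_cast at h4
    linarith
  unfold dd
  rw [h1]
  cases σ with
  | true =>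
    simp only [cond_true, if_true] at ht ⊢
    rw [ht]
    simp only [xcD, if_true] at h2 ⊢
    linear_combination h3 - h2
  | false =>
    simp only [cond_false, Bool.false_eq_true, if_false] at ht ⊢
    have h5 : ((H - 1 : ℕ) : ℤ) = (H : ℤ) - 1 := by omega
    rw [ht, h5]
    simp only [xcD, Bool.false_eq_true, if_false] at h2 ⊢
    linear_combination h3 + h2

theorem xc_inj {σ : Bool} {n r y0 : ℕ} (hr : 0 < r) (hn : 100 * r ≤ n) (hy0 : y0 < r)
    {x j x' j' : ℕ} (hx : x ∈ Icc 1 n) (hx' : x' ∈ Icc 1 n) (hσ : σ = true ↔ 2 * x ≤ n)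
    (hσ' : σ = true ↔ 2 * x' ≤ n) (hj : j ∈ xcJ σ n r (n / (32 * r)))
    (hj' : j' ∈ xcJ σ n r (n / (32 * r))) (hu : xcu r x y0 = xcu r x' y0)
    (hv : xcv σ r x y0 = xcv σ r x' y0) (hs : xcs r y0 x j = xcs r y0 x' j')
    (ht : xct σ (n / (32 * r)) r y0 x j = xct σ (n / (32 * r)) r y0 x' j') : x = x' ∧ j = j' := by
  rw [mem_Icc] at hx hx'
  have hH : 1 ≤ n / (32 * r) := by
    rw [Nat.le_div_iff_mul_le (by omega)]
    omega
  obtain ⟨-, -, g1, -⟩ := xc_geom hr hn hx.1 hx.2 hy0 hσ hj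
  obtain ⟨-, -, g2, -⟩ := xc_geom hr hn hx'.1 hx'.2 hy0 hσ' hj'
  have d1 := xc_dd hr hH g1
  have d2 := xc_dd hr hH g2
  rw [hu, hv, hs, ht, d2] at d1
  have hxx : x = x' := by omega
  subst hxx
  refine ⟨rfl, ?_⟩
  unfold xcs at hs
  omega

open Classical in
/-- the bad vertices for one choice of the classes -/
noncomputable def xcP (σ : Bool) (n r y0 u v : ℕ) (e : ℕ → ℕ → ℝ) (θ : ℝ) : Finset ℕ :=
  (Icc 1 n).filter (fun x => (σ = true ↔ 2 * x ≤ n) ∧ xcu r x y0 = u ∧ xcv σ r x y0 = v ∧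
    ∀ j ∈ xcJ σ n r (n / (32 * r)),
      θ < e (xcs r y0 x j) (xct σ (n / (32 * r)) r y0 x j))

theorem xc_bad {σ : Bool} {n r y0 u v : ℕ} (hr : 0 < r) (hn : 100 * r ≤ n) (hy0 : y0 < r)
    (e : ℕ → ℕ → ℝ) (V θ : ℝ) (hθ : 0 < θ)
    (he : ∑ s ∈ Ico (3 * n / (8 * r)) (4 * (3 * n / (8 * r)) - n / (32 * r)),
      ∑ t ∈ Ico (3 * n / (8 * r)) (4 * (3 * n / (8 * r)) - n / (32 * r)), (e s t) ^ 2 ≤ V) :
    ((xcP σ n r y0 u v e θ).card : ℝ) * (n / (32 * r) : ℕ) * θ ^ 2 ≤ V := by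
  classical
  refine bad_count _ e V θ hθ he (xcP σ n r y0 u v e θ) (fun _ => xcJ σ n r (n / (32 * r)))
    (n / (32 * r)) (fun x _ => (xcJ_card _ _ _ _).ge) (fun x j => xcs r y0 x j)
    (fun x j => xct σ (n / (32 * r)) r y0 x j) ?_ ?_ ?_
  · intro x hx j hj
    simp only [xcP, mem_filter, mem_Icc] at hx
    obtain ⟨g1, g2, -, -⟩ := xc_geom hr hn hx.1.1 hx.1.2 hy0 hx.2.1 hj
    exact ⟨g1, g2⟩
  · intro x hx j hj x' hx' j' hj' h1 h2
    simp only [xcP, mem_filter] at hx hx'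
    exact xc_inj hr hn hy0 hx.1 hx'.1 hx.2.1 hx'.2.1 hj hj' (hx.2.2.1.trans hx'.2.2.1.symm)
      (hx.2.2.2.1.trans hx'.2.2.2.1.symm) h1 h2
  · intro x hx j hj
    simp only [xcP, mem_filter] at hx
    exact hx.2.2.2.2 j hj

/-- the sum over `c` is at most the weighted number of neighbours in the class -/
theorem xc_cdeg {σ : Bool} {n r x y0 j : ℕ} (hr : 0 < r) (hn : 100 * r ≤ n) (hx : x ∈ Icc 1 n)
    (hy0 : y0 < r) (hσ : σ = true ↔ 2 * x ≤ n) (hj : j ∈ xcJ σ n r (n / (32 * r))) :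
    ∑ c ∈ range (n / (32 * r)), lp ((xcu r x y0 + r * (xcs r y0 x j + c) : ℕ) : ℤ) *
      lp ((xcv σ r x y0 + r * ix (n / (32 * r)) σ (xct σ (n / (32 * r)) r y0 x j) c : ℕ) : ℤ) ≤
      cdeg n r x y0 * (Real.log (2 * n)) ^ 2 := by
  classical
  rw [mem_Icc] at hx
  obtain ⟨g1, g2, g3, g4⟩ := xc_geom hr hn hx.1 hx.2 hy0 hσ hj
  set H := n / (32 * r) with hH
  have hr8 : 0 < 8 * r := by omega
  have hM3 : 3 ≤ r * (3 * n / (8 * r)) := by
    have h1 : 3 * n < (3 * n / (8 * r)) * (8 * r) + 8 * r := Nat.lt_div_mul_add hr8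
    nlinarith
  rw [mem_Ico] at g1 g2
  -- the set of the c with a nonzero term
  set Cs := (range H).filter (fun c => Pool.Agent.Lib.GoldbachGraph.hadj x (y0 + r * (j + c)))
    with hCs
  have hlog0 : 0 ≤ Real.log (2 * n) := Real.log_nonneg (by
    have : (1 : ℝ) ≤ n := by exact_mod_cast hx.1.trans hx.2
    linarith)
  have hlp : ∀ k : ℕ, k ≤ 2 * n → lp (k : ℤ) ≤ Real.log (2 * n) := by
    intro k hk
    unfold Pool.Agent.Lib.H68T.lp
    split_ifs with h
    · have hk0 : 0 < k := by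
        rw [Int.toNat_natCast] at h
        exact h.pos
      apply Real.log_le_log
      · exact_mod_cast hk0
      · exact_mod_cast hk
    · exact hlog0
  have hlp0 : ∀ k : ℕ, 0 ≤ lp (k : ℤ) := by
    intro k
    unfold Pool.Agent.Lib.H68T.lp
    split_ifs with h
    · rw [Int.toNat_natCast] at h
      exact Real.log_nonneg (by exact_mod_cast h.one_lt.le)
    · exact le_rfl
  have hlpne : ∀ k : ℕ, lp (k : ℤ) ≠ 0 → k.Prime := by
    intro k hk
    unfold Pool.Agent.Lib.H68T.lp at hk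
    by_contra h
    rw [if_neg (by rwa [Int.toNat_natCast])] at hk
    exact hk rfl
  have hterm : ∀ c ∈ range H, lp ((xcu r x y0 + r * (xcs r y0 x j + c) : ℕ) : ℤ) *
      lp ((xcv σ r x y0 + r * ix H σ (xct σ H r y0 x j) c : ℕ) : ℤ) ≤
      if Pool.Agent.Lib.GoldbachGraph.hadj x (y0 + r * (j + c)) then (Real.log (2 * n)) ^ 2
        else 0 := by
    intro c hc
    rw [mem_range] at hc
    obtain ⟨y1, y2⟩ := g4 c hc
    have e1 := xc_sum (r := r) (x := x) (y0 := y0) (j := j) (c := c)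
    have e2 := xc_diff (σ := σ) (x := x) (y0 := y0) (j := j) (c := c) hr hc g3
    set y := y0 + r * (j + c) with hy
    set m := xcu r x y0 + r * (xcs r y0 x j + c) with hm
    set m' := xcv σ r x y0 + r * ix H σ (xct σ H r y0 x j) c with hm'
    have hm2 : m ≤ 2 * n := by omega
    have hdist : m' = Nat.dist x y := by
      rw [Nat.dist]
      cases σ with
      | true => simp only [if_true] at e2; omega
      | false => simp only [Bool.false_eq_true, if_false] at e2; omega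
    have hm2' : m' ≤ 2 * n := by
      rw [hdist, Nat.dist]; omega
    have hbig : 3 ≤ m := by
      have : r * (3 * n / (8 * r)) ≤ r * (xcs r y0 x j + c) := Nat.mul_le_mul_left _ (by omega)
      omega
    have hbig' : 3 ≤ m' := by
      have h1 : 3 * n / (8 * r) ≤ ix H σ (xct σ H r y0 x j) c := by
        unfold ix
        cases σ <;> simp <;> omega
      have : r * (3 * n / (8 * r)) ≤ r * ix H σ (xct σ H r y0 x j) c := Nat.mul_le_mul_left _ h1
      omega
    by_cases h0 : lp (m : ℤ) = 0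
    · rw [h0, zero_mul]
      split_ifs <;> positivity
    by_cases h0' : lp (m' : ℤ) = 0
    · rw [h0', mul_zero]
      split_ifs <;> positivity
    have p1 := hlpne m h0
    have p2 := hlpne m' h0'
    rw [if_pos]
    · rw [pow_two]
      exact mul_le_mul (hlp m hm2) (hlp m' hm2') (hlp0 m') hlog0
    · refine ⟨?_, ?_, ?_, ?_⟩
      · rw [← e1]; exact p1
      · rw [← e1]; exact p1.odd_of_ne_two (by omega)
      · rw [← hdist]; exact p2
      · rw [← hdist]; exact p2.odd_of_ne_two (by omega)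
  refine (sum_le_sum hterm).trans ?_
  rw [← sum_filter, sum_const, nsmul_eq_mul]
  apply mul_le_mul_of_nonneg_right _ (by positivity)
  have : ((range H).filter (fun c => Pool.Agent.Lib.GoldbachGraph.hadj x (y0 + r * (j + c)))).card ≤
      cdeg n r x y0 := by
    unfold cdeg
    apply card_le_card_of_injOn (fun c => y0 + r * (j + c))
    · intro c hc
      rw [mem_coe, mem_filter, mem_range] at hc
      rw [mem_coe, mem_filter, mem_Icc]
      refine ⟨g4 c hc.1, hc.2, ?_⟩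
      rw [Nat.add_mul_mod_self_left]
      exact Nat.mod_eq_of_lt hy0
    · intro c _ c' _ h
      simp only at h
      have : r * (j + c) = r * (j + c') := by omega
      have := Nat.eq_of_mul_eq_mul_left hr this
      omega
  exact_mod_cast this

theorem xc_ix {σ : Bool} {H M t c : ℕ} (h : M ≤ t) : M ≤ ix H σ t c := by
  unfold ix
  cases σ <;> simp <;> omega

/-- the coprimality of `u` -/
theorem xc_cop_u {r x y0 : ℕ} (h : IsCoprime ((x : ℤ) + y0) r) : Nat.Coprime (xcu r x y0) r := by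
  unfold xcu
  rw [Nat.coprime_iff_gcd_eq_one, ← Nat.gcd_rec, Nat.gcd_comm]
  have h1 : IsCoprime (((x + y0 : ℕ) : ℤ)) r := by push_cast; exact h
  exact Nat.isCoprime_iff_coprime.mp h1

theorem xc_cop_v {σ : Bool} {r x y0 : ℕ} (hr : 0 < r) (h : IsCoprime ((x : ℤ) - y0) r) :
    Nat.Coprime (xcv σ r x y0) r := by
  rw [← Nat.isCoprime_iff_coprime, xcv_eq hr]
  have h1 : IsCoprime (xcD σ x y0) r := by
    unfold xcD
    cases σ with
    | true =>
      simp only [if_true]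
      have := h.neg_left
      rwa [neg_sub] at this
    | false => simpa using h
  rw [Int.emod_def, show xcD σ x y0 - (r : ℤ) * (xcD σ x y0 / r) =
    xcD σ x y0 + (r : ℤ) * (-(xcD σ x y0 / r)) by ring]
  exact h1.add_mul_left_left _

/-- **From classes to vertices.** `M = 3 n / (8 r)`, `X = M r`, `H = n / (32 r)`.

Let `x ∈ [1, n]`, `y0 ∈ compat r x`, `y = y0 + r (j + c)`, `c < H`.
* `2 x ≤ n` (`σ = true`): `j ∈ [J, J + H)`, `J = 7 n / (8 r) + 1`; `m = x + y = u + r (s + c)` with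
  `u = (x + y0) % r`, `s = (x + y0)/r + j`; `m' = y - x = v + r (t + c)`, `v = (y0 - x) mod r`,
  `t = (y0 - x) div r + j` (integer division, `t > 0`); `dd = 2 x`.
* `2 x > n` (`σ = false`): `j ∈ [1, 1 + H)`; `m = x + y` as before, `m' = x - y = v + r (t + (H-1-c))`,
  `v = (x - y0) mod r`, `t = (x - y0) div r - j - (H - 1)`; `dd = 2 x`.
In both cases `y ∈ [1, n]`, `y ≠ x`, `s, t ∈ [M, 4M - H)` for large `n`, and `(s, t)` determines `x` (given
its class modulo `r`) and `j`. Here `r ≤ Q^(1/100)` is very small compared with `n`.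
Apply `class_pair` to the (at most `2 r²`) choices of `σ`, `y0`, and the class of `x`; let `B` be the
set of the `x` such that for some `y0 ∈ compat r x` all `j` have `e(s,t) > θ = Q^(-1/20)`: by `bad_count`
at most `2 r² M² Q^(-1/5) Q^(1/10)/H ≤ 10^3 r n Q^(-1/10)`, together with the `x` with `Rk (2x) > Q^(1/8)` (at
most `C n Q^(-1/8)`, `rk_mean`). For `x ∉ B` choose `j` with `e ≤ θ`. In the sum of
`class_pair` all `c` with nonzero term give a neighbour `Y = y` of `x` (two primes `> 2`, since they are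
`≥ X`), different for different `c`, with weight `≤ (log 2n)²`. `n/4 ≤ m, m'`, so the product in the sum
is at least `κ`. `H ≥ n/(64 r)`, `M ≤ 64 H`. The bracket on the left may be assumed `≥ 0`. -/
theorem x_class : ∃ K C : ℝ, 1 ≤ K ∧ 1 ≤ C ∧ ∀ (n Q r : ℕ) (τ β : ℝ) (χ : ℤ → ℝ),
    Reg K Q n → Str Q (3 * n / (8 * r) * r) r τ β χ → r ^ 100 ≤ Q →
    ∃ B : Finset ℕ, (B.card : ℝ) ≤ n * (Q : ℝ) ^ (-(1 / 20) : ℝ) ∧
      ∀ x ∈ Icc 1 n, x ∉ B → ∀ y0 ∈ compat r x, ∀ κ : ℝ, 0 ≤ κ →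
        (∀ m m' : ℝ, n / 4 ≤ m → n / 4 ≤ m' →
          κ ≤ (1 - χ ((x : ℤ) + y0) * m ^ (β - 1)) *
            (1 - χ (if 2 * x ≤ n then (y0 : ℤ) - x else (x : ℤ) - y0) * m' ^ (β - 1))) →
        (((r : ℝ) / Nat.totient r) ^ 2 *
            (κ * (1 / 2 * Gp r (2 * (x : ℤ))) - C * (Q : ℝ) ^ (-(1 / 8) : ℝ)) -
          τ * (Real.log n) ^ 10 - C * (Q : ℝ) ^ (-(1 / 20) : ℝ)) * (n / (64 * r)) ≤
        cdeg n r x y0 * (Real.log (2 * n)) ^ 2 := by
  classical
  obtain ⟨K1, C1, hK1, hC1, hcp⟩ := class_pair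
  obtain ⟨Cr, hCr, hrk⟩ := rk_mean
  obtain ⟨K0, hK0, hsh⟩ := reg_shift
  obtain ⟨K2, hK2, hreg2⟩ := reg_log_le 96 0 (3 / 100) (by norm_num)
  obtain ⟨K3, hK3, hreg3⟩ := reg_log_le (2 * Cr) 0 (3 / 40) (by norm_num)
  refine ⟨2 * K1 + K0 + K2 + K3 + 100, C1 + 64, by linarith, by linarith, ?_⟩
  intro n Q r τ β χ hR hS hrQ
  have hKpos : (0 : ℝ) ≤ 2 * K1 + K0 + K2 + K3 + 100 := by linarith
  have hR1 : Reg (2 * K1 + K0) Q n := hR.mono hKpos (by linarith)
  have hR2 : Reg K2 Q n := hR.mono hKpos (by linarith)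
  have hR3 : Reg K3 Q n := hR.mono hKpos (by linarith)
  have hR100 : Reg 100 Q n := hR.mono hKpos (by linarith)
  have hr := hS.r0
  have hQ100 : (100 : ℝ) ≤ Q := hR100.Q_ge (by norm_num)
  have hQ0 : (0 : ℝ) < Q := by linarith
  have hQ1 : (1 : ℝ) ≤ Q := by linarith
  have hlogQ : 0 < Real.log Q := Real.log_pos (by linarith)
  have hn0 : 0 < n := hR100.X_pos (by norm_num)
  have hn0R : (0 : ℝ) < n := by exact_mod_cast hn0
  have hQn : (Q : ℝ) ^ 2 ≤ n := by
    have h1 := hR100.logQ_le (by norm_num)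
    have h2 : Real.log ((Q : ℝ) ^ 2) ≤ Real.log n := by
      rw [Real.log_pow]
      push_cast
      nlinarith
    exact (Real.log_le_log_iff (by positivity) hn0R).mp h2
  have hrQ' : r ≤ Q := (Nat.le_self_pow (by norm_num) r).trans hrQ
  have hn100 : 100 * r ≤ n := by
    have h1 : (100 : ℝ) * r ≤ n := by
      have h2 : (r : ℝ) ≤ Q := by exact_mod_cast hrQ'
      calc (100 : ℝ) * r ≤ Q * Q := mul_le_mul hQ100 h2 (Nat.cast_nonneg _) hQ0.le
        _ = (Q : ℝ) ^ 2 := by ring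
        _ ≤ n := hQn
    exact_mod_cast h1
  set M := 3 * n / (8 * r) with hM
  set H := n / (32 * r) with hH
  have hr8 : 0 < 8 * r := by omega
  have hr32 : 0 < 32 * r := by omega
  have m1 : 8 * (r * M) ≤ 3 * n := by
    have := Nat.div_mul_le_self (3 * n) (8 * r)
    rw [← hM] at this
    nlinarith
  have m2 : 3 * n < 8 * (r * M) + 8 * r := by
    have := Nat.lt_div_mul_add hr8 (a := 3 * n)
    rw [← hM] at this
    nlinarith
  have k1 : 32 * (r * H) ≤ n := by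
    have := Nat.div_mul_le_self n (32 * r)
    rw [← hH] at this
    nlinarith
  have k2 : n < 32 * (r * H) + 32 * r := by
    have := Nat.lt_div_mul_add hr32 (a := n)
    rw [← hH] at this
    nlinarith
  have hH1 : 1 ≤ H := by
    rw [hH, Nat.le_div_iff_mul_le hr32]
    omega
  have hHM : H ≤ M := by
    have : r * H ≤ r * M := by omega
    exact Nat.le_of_mul_le_mul_left this hr
  have hMH : M ≤ 64 * H := by
    have : r * M ≤ r * (64 * H) := by nlinarith
    exact Nat.le_of_mul_le_mul_left this hr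
  have hX4 : n ≤ 4 * (M * r) := by nlinarith
  have hXn : M * r ≤ n := by nlinarith
  have hRX : Reg K1 Q (M * r) := hsh K1 (by linarith) Q n (M * r) hR1 hX4 hXn
  -- real versions
  have hrR : (0 : ℝ) < r := by exact_mod_cast hr
  have hr1R : (1 : ℝ) ≤ r := by exact_mod_cast hr
  have hHR : (1 : ℝ) ≤ H := by exact_mod_cast hH1
  have hHn : (n : ℝ) / (64 * r) ≤ H := by
    rw [div_le_iff₀ (by positivity)]
    have h1 : (n : ℝ) < 32 * (r * H) + 32 * r := by exact_mod_cast k2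
    have h2 : (r : ℝ) ≤ r * H := by nlinarith
    nlinarith
  have hMn : (M : ℝ) * (8 * r) ≤ 3 * n := by
    have : (8 : ℝ) * (r * M) ≤ 3 * n := by exact_mod_cast m1
    linarith
  have hMHR : (M : ℝ) ≤ 64 * H := by exact_mod_cast hMH
  -- the choice of the functions e
  set θ : ℝ := (Q : ℝ) ^ (-(1 / 20) : ℝ) with hθ
  have hθ0 : 0 < θ := Real.rpow_pos_of_pos hQ0 _
  set V : ℝ := (M : ℝ) ^ 2 * (Q : ℝ) ^ (-(1 / 5) : ℝ) with hV
  have hE : ∀ (σ : Bool) (u v : ℕ), ∃ e : ℕ → ℕ → ℝ, u < 2 * r → v < 2 * r →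
      Nat.Coprime u r → Nat.Coprime v r → (∀ s t, 0 ≤ e s t) ∧
      ∑ s ∈ Ico M (4 * M - H), ∑ t ∈ Ico M (4 * M - H), (e s t) ^ 2 ≤ V ∧
      ∀ s ∈ Ico M (4 * M - H), ∀ t ∈ Ico M (4 * M - H), dd H r σ u v s t ≠ 0 →
        (2 ∣ r ∨ (2 : ℤ) ∣ dd H r σ u v s t) →
        ((r : ℝ) / Nat.totient r) ^ 2 *
          ((∑ c ∈ range H, (1 - χ u * ((u + r * (s + c) : ℕ) : ℝ) ^ (β - 1)) *
              (1 - χ v * ((v + r * ix H σ t c : ℕ) : ℝ) ^ (β - 1))) *
                (1 / 2 * Gp r (dd H r σ u v s t)) -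
            C1 * H * (Q : ℝ) ^ (-(1 / 4) : ℝ) * Rk (dd H r σ u v s t)) -
          H * (τ * (Real.log (M * r : ℕ)) ^ 10) - M * e s t ≤
        ∑ c ∈ range H, lp ((u + r * (s + c) : ℕ) : ℤ) * lp ((v + r * ix H σ t c : ℕ) : ℤ) := by
    intro σ u v
    by_cases h : u < 2 * r ∧ v < 2 * r ∧ Nat.Coprime u r ∧ Nat.Coprime v r
    · obtain ⟨h1, h2, h3, h4⟩ := h
      obtain ⟨e, he⟩ := hcp Q M H r τ β χ hRX hS hrQ hHM hMH hH1 σ u v h1 h2 h3 h4
      exact ⟨e, fun _ _ _ _ => he⟩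
    · exact ⟨fun _ _ => 0, fun h1 h2 h3 h4 => absurd ⟨h1, h2, h3, h4⟩ h⟩
  choose E hE using hE
  -- the exceptional set
  set B1 := (Icc 1 n).filter (fun x : ℕ => (Q : ℝ) ^ (1 / 8 : ℝ) < Rk (2 * (x : ℤ))) with hB1
  set P : Bool × ℕ × ℕ × ℕ → Finset ℕ := fun q =>
    if Nat.Coprime q.2.2.1 r ∧ Nat.Coprime q.2.2.2 r then
      xcP q.1 n r q.2.1 q.2.2.1 q.2.2.2 (E q.1 q.2.2.1 q.2.2.2) θ else ∅ with hP
  set I4 : Finset (Bool × ℕ × ℕ × ℕ) := univ ×ˢ (range r ×ˢ (range r ×ˢ range r)) with hI4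
  refine ⟨B1 ∪ I4.biUnion P, ?_, ?_⟩
  · -- counting
    have c1 : (B1.card : ℝ) ≤ 1 / 2 * (n * (Q : ℝ) ^ (-(1 / 20) : ℝ)) := by
      have h1 : (B1.card : ℝ) * (Q : ℝ) ^ (1 / 8 : ℝ) ≤ Cr * n := by
        refine le_trans ?_ (hrk n)
        calc (B1.card : ℝ) * (Q : ℝ) ^ (1 / 8 : ℝ) = ∑ x ∈ B1, (Q : ℝ) ^ (1 / 8 : ℝ) := by
              rw [sum_const, nsmul_eq_mul]
          _ ≤ ∑ x ∈ B1, Rk (2 * (x : ℤ)) := sum_le_sum fun x hx => (mem_filter.mp hx).2.le
          _ ≤ ∑ x ∈ Icc 1 n, Rk (2 * (x : ℤ)) :=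
              sum_le_sum_of_subset_of_nonneg (filter_subset _ _) fun x _ _ =>
                zero_le_one.trans (one_le_Rk _)
      have h2 := hreg3 Q n hR3
      rw [Real.rpow_zero, mul_one] at h2
      have h3 : (Q : ℝ) ^ (1 / 8 : ℝ) * (Q : ℝ) ^ (-(1 / 20) : ℝ) = (Q : ℝ) ^ (3 / 40 : ℝ) := by
        rw [← Real.rpow_add hQ0]
        norm_num
      have h4 : 0 < (Q : ℝ) ^ (1 / 8 : ℝ) := Real.rpow_pos_of_pos hQ0 _
      rw [← mul_le_mul_iff_left₀ h4]
      calc (B1.card : ℝ) * (Q : ℝ) ^ (1 / 8 : ℝ) ≤ Cr * n := h1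
        _ ≤ (1 / 2 * (Q : ℝ) ^ (3 / 40 : ℝ)) * n := by
            apply mul_le_mul_of_nonneg_right _ hn0R.le
            linarith
        _ = 1 / 2 * (n * (Q : ℝ) ^ (-(1 / 20) : ℝ)) * (Q : ℝ) ^ (1 / 8 : ℝ) := by
            rw [← h3]; ring
    have c2 : ∀ q ∈ I4, ((P q).card : ℝ) ≤ 24 * (n / r) * (Q : ℝ) ^ (-(1 / 10) : ℝ) := by
      intro q hq
      have hnn : 0 ≤ 24 * ((n : ℝ) / r) * (Q : ℝ) ^ (-(1 / 10) : ℝ) := by positivity
      rw [hI4, mem_product, mem_product, mem_product, mem_range, mem_range, mem_range] at hq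
      obtain ⟨-, q1, q2, q3⟩ := hq
      simp only [hP]
      split_ifs with hc
      · obtain ⟨-, e2, -⟩ := hE q.1 q.2.2.1 q.2.2.2 (by omega) (by omega) hc.1 hc.2
        have h1 := xc_bad (σ := q.1) (u := q.2.2.1) (v := q.2.2.2) hr hn100 q1
          (E q.1 q.2.2.1 q.2.2.2) V θ hθ0 e2
        set p := ((xcP q.1 n r q.2.1 q.2.2.1 q.2.2.2 (E q.1 q.2.2.1 q.2.2.2) θ).card : ℝ) with hp
        have h2 : θ ^ 2 = (Q : ℝ) ^ (-(1 / 10) : ℝ) := by
          rw [hθ, ← Real.rpow_natCast, ← Real.rpow_mul hQ0.le]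
          norm_num
        have h3 : (Q : ℝ) ^ (-(1 / 5) : ℝ) =
            (Q : ℝ) ^ (-(1 / 10) : ℝ) * (Q : ℝ) ^ (-(1 / 10) : ℝ) := by
          rw [← Real.rpow_add hQ0]
          norm_num
        have h4 : 0 < (Q : ℝ) ^ (-(1 / 10) : ℝ) := Real.rpow_pos_of_pos hQ0 _
        rw [h2, hV, h3, ← mul_assoc, mul_le_mul_iff_left₀ h4] at h1
        -- p * H ≤ M ^ 2 * Q ^ (-1/10)
        have h5 : (M : ℝ) ^ 2 ≤ 24 * (n / r) * H := by
          have h6 : (M : ℝ) ≤ 3 * n / (8 * r) := by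
            rw [le_div_iff₀ (by positivity)]
            exact hMn
          calc (M : ℝ) ^ 2 = M * M := by ring
            _ ≤ (3 * n / (8 * r)) * (64 * H) :=
                mul_le_mul h6 hMHR (Nat.cast_nonneg _) (by positivity)
            _ = 24 * (n / r) * H := by field_simp; ring
        have h7 : p * H ≤ (24 * (n / r) * (Q : ℝ) ^ (-(1 / 10) : ℝ)) * H := by
          calc p * H ≤ (M : ℝ) ^ 2 * (Q : ℝ) ^ (-(1 / 10) : ℝ) := h1
            _ ≤ (24 * (n / r) * H) * (Q : ℝ) ^ (-(1 / 10) : ℝ) :=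
                mul_le_mul_of_nonneg_right h5 h4.le
            _ = _ := by ring
        exact le_of_mul_le_mul_right h7 (by linarith)
      · simpa using hnn
    have c3 : ((I4.biUnion P).card : ℝ) ≤ 1 / 2 * (n * (Q : ℝ) ^ (-(1 / 20) : ℝ)) := by
      have h1 : ((I4.biUnion P).card : ℝ) ≤ ∑ q ∈ I4, ((P q).card : ℝ) := by
        exact_mod_cast card_biUnion_le
      have h2 : (I4.card : ℝ) = 2 * (r : ℝ) ^ 3 := by
        rw [hI4]
        simp only [card_product, card_univ, Fintype.card_bool, card_range]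
        push_cast
        ring
      have h3 : (r : ℝ) ^ 2 ≤ (Q : ℝ) ^ (1 / 50 : ℝ) := by
        have h4 : ((r : ℝ) ^ 2) ^ (50 : ℕ) ≤ Q := by
          rw [← pow_mul]
          exact_mod_cast hrQ
        have h5 : (r : ℝ) ^ 2 = (((r : ℝ) ^ 2) ^ (50 : ℕ)) ^ (1 / 50 : ℝ) := by
          rw [← Real.rpow_natCast ((r : ℝ) ^ 2) 50, ← Real.rpow_mul (by positivity)]
          norm_num
        rw [h5]
        exact Real.rpow_le_rpow (by positivity) h4 (by norm_num)
      have h6 := hreg2 Q n hR2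
      rw [Real.rpow_zero, mul_one] at h6
      have h7 : (Q : ℝ) ^ (1 / 50 : ℝ) * (Q : ℝ) ^ (-(1 / 10) : ℝ) * (Q : ℝ) ^ (3 / 100 : ℝ) =
          (Q : ℝ) ^ (-(1 / 20) : ℝ) := by
        rw [← Real.rpow_add hQ0, ← Real.rpow_add hQ0]
        norm_num
      have h8 : 0 < (Q : ℝ) ^ (-(1 / 10) : ℝ) := Real.rpow_pos_of_pos hQ0 _
      calc ((I4.biUnion P).card : ℝ) ≤ ∑ q ∈ I4, ((P q).card : ℝ) := h1
        _ ≤ ∑ q ∈ I4, 24 * (n / r) * (Q : ℝ) ^ (-(1 / 10) : ℝ) := sum_le_sum c2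
        _ = 48 * (r : ℝ) ^ 2 * (n * (Q : ℝ) ^ (-(1 / 10) : ℝ)) := by
            rw [sum_const, nsmul_eq_mul, h2]
            field_simp
            ring
        _ ≤ 48 * (Q : ℝ) ^ (1 / 50 : ℝ) * (n * (Q : ℝ) ^ (-(1 / 10) : ℝ)) := by
            apply mul_le_mul_of_nonneg_right _ (by positivity)
            linarith
        _ = 48 * (n * ((Q : ℝ) ^ (1 / 50 : ℝ) * (Q : ℝ) ^ (-(1 / 10) : ℝ))) := by ring
        _ ≤ (1 / 2 * (Q : ℝ) ^ (3 / 100 : ℝ)) *
              (n * ((Q : ℝ) ^ (1 / 50 : ℝ) * (Q : ℝ) ^ (-(1 / 10) : ℝ))) := by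
            apply mul_le_mul_of_nonneg_right _ (by positivity)
            linarith
        _ = 1 / 2 * (n * (Q : ℝ) ^ (-(1 / 20) : ℝ)) := by
            rw [← h7]; ring
    have c4 : ((B1 ∪ I4.biUnion P).card : ℝ) ≤ B1.card + (I4.biUnion P).card := by
      exact_mod_cast card_union_le _ _
    linarith
  · -- the main estimate
    intro x hx hxB y0 hy0 κ hκ0 hκ
    rw [mem_union, not_or] at hxB
    obtain ⟨hxB1, hxB2⟩ := hxB
    have hx' := mem_Icc.mp hx
    unfold compat at hy0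
    rw [mem_filter, mem_range] at hy0
    obtain ⟨hy0r, hcop1, hcop2⟩ := hy0
    have hRk : Rk (2 * (x : ℤ)) ≤ (Q : ℝ) ^ (1 / 8 : ℝ) := by
      by_contra h
      exact hxB1 (mem_filter.mpr ⟨hx, not_le.mp h⟩)
    obtain ⟨σ, hσ⟩ : ∃ σ : Bool, (σ = true ↔ 2 * x ≤ n) := ⟨decide (2 * x ≤ n), by simp⟩
    have hcu := xc_cop_u hcop1
    have hcv := xc_cop_v (σ := σ) hr hcop2
    have hult := xcu_lt (x := x) (y0 := y0) hr
    have hvlt := xcv_lt (σ := σ) (x := x) (y0 := y0) hr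
    obtain ⟨e1, e2, e3⟩ := hE σ (xcu r x y0) (xcv σ r x y0) (by omega) (by omega) hcu hcv
    obtain ⟨j, hj, hje⟩ : ∃ j ∈ xcJ σ n r H,
        E σ (xcu r x y0) (xcv σ r x y0) (xcs r y0 x j) (xct σ H r y0 x j) ≤ θ := by
      by_contra hcon
      push Not at hcon
      apply hxB2
      rw [mem_biUnion]
      refine ⟨(σ, y0, xcu r x y0, xcv σ r x y0), ?_, ?_⟩
      · rw [hI4, mem_product, mem_product, mem_product, mem_range, mem_range, mem_range]
        exact ⟨mem_univ _, hy0r, hult, hvlt⟩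
      · simp only [hP]
        rw [if_pos ⟨hcu, hcv⟩]
        unfold xcP
        simp only [mem_filter]
        exact ⟨hx, hσ, trivial, trivial, hcon⟩
    obtain ⟨g1, g2, g3, g4⟩ := xc_geom hr hn100 hx'.1 hx'.2 hy0r hσ hj
    have hdd := xc_dd (σ := σ) hr hH1 g3
    have main := e3 (xcs r y0 x j) g1 (xct σ H r y0 x j) g2 (by rw [hdd]; omega)
      (Or.inr (by rw [hdd]; exact Dvd.intro _ rfl))
    rw [hdd] at main
    have hcd := xc_cdeg (σ := σ) hr hn100 hx hy0r hσ hj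
    have hGp := one_le_Gp r (2 * (x : ℤ))
    -- the sum with κ
    have hχu : χ ((xcu r x y0 : ℕ) : ℤ) = χ ((x : ℤ) + y0) := by
      have h1 := hS.per ((xcu r x y0 : ℕ) : ℤ) (((x + y0) / r : ℕ) : ℤ)
      rw [← h1]
      congr 1
      have h2 := Nat.mod_add_div (x + y0) r
      unfold xcu
      have h3 : ((((x + y0) % r + r * ((x + y0) / r) : ℕ)) : ℤ) = ((x + y0 : ℕ) : ℤ) := by
        exact_mod_cast h2
      push_cast at h3 ⊢
      linarith
    have hχv : χ ((xcv σ r x y0 : ℕ) : ℤ) =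
        χ (if 2 * x ≤ n then (y0 : ℤ) - x else (x : ℤ) - y0) := by
      have h1 := hS.per ((xcv σ r x y0 : ℕ) : ℤ) (xcD σ x y0 / (r : ℤ))
      rw [← h1]
      congr 1
      rw [xcv_eq hr, Int.emod_add_mul_ediv]
      unfold xcD
      cases σ with
      | true =>
        have h2 := hσ.mp rfl
        simp [h2]
      | false =>
        have h2 : ¬ 2 * x ≤ n := fun h => by simpa using hσ.mpr h
        simp [h2]
    have hMr : (n : ℝ) / 4 ≤ ((r * M : ℕ) : ℝ) := by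
      have : (n : ℝ) ≤ 4 * ((M * r : ℕ) : ℝ) := by exact_mod_cast hX4
      rw [mul_comm r M]
      linarith
    have hsum : κ * H ≤ ∑ c ∈ range H,
        (1 - χ (xcu r x y0 : ℕ) * ((xcu r x y0 + r * (xcs r y0 x j + c) : ℕ) : ℝ) ^ (β - 1)) *
          (1 - χ (xcv σ r x y0 : ℕ) *
            ((xcv σ r x y0 + r * ix H σ (xct σ H r y0 x j) c : ℕ) : ℝ) ^ (β - 1)) := by
      calc κ * H = ∑ c ∈ range H, κ := by rw [sum_const, card_range, nsmul_eq_mul, mul_comm]
        _ ≤ _ := by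
          apply sum_le_sum
          intro c hc
          rw [hχu, hχv]
          rw [mem_Ico] at g1 g2
          apply hκ
          · refine hMr.trans ?_
            have : r * M ≤ xcu r x y0 + r * (xcs r y0 x j + c) := by
              have : r * M ≤ r * (xcs r y0 x j + c) := Nat.mul_le_mul_left _ (by omega)
              omega
            exact_mod_cast this
          · refine hMr.trans ?_
            have h1 : M ≤ ix H σ (xct σ H r y0 x j) c := xc_ix g2.1
            have : r * M ≤ xcv σ r x y0 + r * ix H σ (xct σ H r y0 x j) c := by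
              have : r * M ≤ r * ix H σ (xct σ H r y0 x j) c := Nat.mul_le_mul_left _ h1
              omega
            exact_mod_cast this
    -- assembly
    set S0 := ∑ c ∈ range H,
        (1 - χ (xcu r x y0 : ℕ) * ((xcu r x y0 + r * (xcs r y0 x j + c) : ℕ) : ℝ) ^ (β - 1)) *
          (1 - χ (xcv σ r x y0 : ℕ) *
            ((xcv σ r x y0 + r * ix H σ (xct σ H r y0 x j) c : ℕ) : ℝ) ^ (β - 1)) with hS0
    set ρ2 := ((r : ℝ) / Nat.totient r) ^ 2 with hρ2
    have hρ0 : 0 ≤ ρ2 := sq_nonneg _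
    set g := Gp r (2 * (x : ℤ)) with hg
    set Rx := Rk (2 * (x : ℤ)) with hRx
    have hq8 : (Q : ℝ) ^ (-(1 / 4) : ℝ) * (Q : ℝ) ^ (1 / 8 : ℝ) = (Q : ℝ) ^ (-(1 / 8) : ℝ) := by
      rw [← Real.rpow_add hQ0]
      norm_num
    have hq4 : 0 ≤ (Q : ℝ) ^ (-(1 / 4) : ℝ) := (Real.rpow_pos_of_pos hQ0 _).le
    have hq80 : 0 ≤ (Q : ℝ) ^ (-(1 / 8) : ℝ) := (Real.rpow_pos_of_pos hQ0 _).le
    have a1 : C1 * H * (Q : ℝ) ^ (-(1 / 4) : ℝ) * Rx ≤ C1 * H * (Q : ℝ) ^ (-(1 / 8) : ℝ) := by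
      calc C1 * H * (Q : ℝ) ^ (-(1 / 4) : ℝ) * Rx
          ≤ C1 * H * (Q : ℝ) ^ (-(1 / 4) : ℝ) * (Q : ℝ) ^ (1 / 8 : ℝ) :=
            mul_le_mul_of_nonneg_left hRk (by positivity)
        _ = C1 * H * ((Q : ℝ) ^ (-(1 / 4) : ℝ) * (Q : ℝ) ^ (1 / 8 : ℝ)) := by ring
        _ = _ := by rw [hq8]
    have a2 : τ * (Real.log (M * r : ℕ)) ^ 10 ≤ τ * (Real.log n) ^ 10 := by
      apply mul_le_mul_of_nonneg_left _ hS.tau0
      apply pow_le_pow_left₀
      · apply Real.log_nonneg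
        have : 1 ≤ M * r := by nlinarith
        exact_mod_cast this
      · apply Real.log_le_log
        · have : 0 < M * r := by nlinarith
          exact_mod_cast this
        · exact_mod_cast hXn
    have a3 : (M : ℝ) * E σ (xcu r x y0) (xcv σ r x y0) (xcs r y0 x j) (xct σ H r y0 x j) ≤
        64 * H * θ := mul_le_mul hMHR hje (e1 _ _) (by positivity)
    have a4 : ρ2 * (κ * H * (1 / 2 * g) - C1 * H * (Q : ℝ) ^ (-(1 / 8) : ℝ)) ≤
        ρ2 * (S0 * (1 / 2 * g) - C1 * H * (Q : ℝ) ^ (-(1 / 4) : ℝ) * Rx) := by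
      apply mul_le_mul_of_nonneg_left _ hρ0
      have : κ * H * (1 / 2 * g) ≤ S0 * (1 / 2 * g) :=
        mul_le_mul_of_nonneg_right hsum (by linarith)
      linarith
    set T := ρ2 * (κ * (1 / 2 * g) - (C1 + 64) * (Q : ℝ) ^ (-(1 / 8) : ℝ)) -
          τ * (Real.log n) ^ 10 - (C1 + 64) * (Q : ℝ) ^ (-(1 / 20) : ℝ) with hT
    have a5 : T * H ≤ ∑ c ∈ range H, lp ((xcu r x y0 + r * (xcs r y0 x j + c) : ℕ) : ℤ) *
      lp ((xcv σ r x y0 + r * ix H σ (xct σ H r y0 x j) c : ℕ) : ℤ) := by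
      refine le_trans ?_ main
      have b1 : (H : ℝ) * (τ * (Real.log (M * r : ℕ)) ^ 10) ≤ H * (τ * (Real.log n) ^ 10) :=
        mul_le_mul_of_nonneg_left a2 (by positivity)
      have b2 : 0 ≤ ρ2 * (64 * H * (Q : ℝ) ^ (-(1 / 8) : ℝ)) := by positivity
      have b3 : 0 ≤ C1 * H * θ := by positivity
      have b4 : T * H = ρ2 * (κ * H * (1 / 2 * g) - C1 * H * (Q : ℝ) ^ (-(1 / 8) : ℝ)) -
          ρ2 * (64 * H * (Q : ℝ) ^ (-(1 / 8) : ℝ)) - H * (τ * (Real.log n) ^ 10) -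
          C1 * H * θ - 64 * H * θ := by
        rw [hT]; ring
      rw [b4]
      linarith
    have hcd0 : 0 ≤ (cdeg n r x y0 : ℝ) * (Real.log (2 * n)) ^ 2 := by positivity
    by_cases hT0 : T ≤ 0
    · exact (mul_nonpos_of_nonpos_of_nonneg hT0 (by positivity)).trans hcd0
    · push Not at hT0
      calc T * (n / (64 * r)) ≤ T * H := mul_le_mul_of_nonneg_left hHn hT0.le
        _ ≤ _ := a5
        _ ≤ _ := hcd

end Pool.Agent.Lib.H18E
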