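import Pool.Agent.Lib.H18E.ST
import Pool.Agent.Lib.H18E.XC
import Pool.Agent.Lib.H18E.CC
import Pool.Agent.Lib.H18E.DE0

/-!
# Chunk DG: degrees, good levels
-/

open Finset Pool.Agent.Lib.H68T Pool.Agent.Lib.GoldbachGraph

namespace Pool.Agent.Lib.H18E

theorem DG_X (n r : ℕ) (hr : 0 < r) (hn : 8 * r ≤ n) :
    n ≤ 4 * (3 * n / (8 * r) * r) ∧ 3 * n / (8 * r) * r ≤ n := by
  have h1 := Nat.div_add_mod (3 * n) (8 * r)
  have h2 := Nat.mod_lt (3 * n) (show 8 * r > 0 by omega)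
  set q := 3 * n / (8 * r) with hq
  have h3 : 8 * r * q = 8 * (q * r) := by ring
  rw [h3] at h1
  generalize q * r = w at h1 ⊢
  omega

theorem DG_Q (C : ℝ) (hC : 1 ≤ C) (Q : ℕ) (h : 240 * C ≤ Real.log Q) :
    C * (Q : ℝ) ^ (-(1 / 20) : ℝ) ≤ 1 / 12 ∧ C * (Q : ℝ) ^ (-(1 / 8) : ℝ) ≤ 1 / 12 := by
  have hQ0 : (0 : ℝ) < Q := by
    by_contra h0
    have h' : (Q : ℝ) = 0 := le_antisymm (not_lt.1 h0) (Nat.cast_nonneg Q)
    rw [h', Real.log_zero] at h
    linarith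
  have h20 : C * (Q : ℝ) ^ (-(1 / 20) : ℝ) ≤ 1 / 12 := by
    rw [Real.rpow_def_of_pos hQ0]
    have h1 : Real.exp (Real.log Q * -(1 / 20)) ≤ Real.exp (-(12 * C)) :=
      Real.exp_le_exp.2 (by linarith)
    have h2 : Real.exp (-(12 * C)) ≤ 1 / (12 * C) := by
      rw [Real.exp_neg, ← one_div]
      apply one_div_le_one_div_of_le (by linarith)
      linarith [Real.add_one_le_exp (12 * C)]
    calc C * Real.exp (Real.log Q * -(1 / 20)) ≤ C * (1 / (12 * C)) :=
          mul_le_mul_of_nonneg_left (h1.trans h2) (by linarith)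
      _ = 1 / 12 := by
          have : C ≠ 0 := by linarith
          field_simp
  refine ⟨h20, le_trans ?_ h20⟩
  apply mul_le_mul_of_nonneg_left _ (by linarith)
  apply Real.rpow_le_rpow_of_exponent_le _ (by norm_num)
  by_contra h0
  have : Real.log Q ≤ 0 := Real.log_nonpos hQ0.le (not_le.1 h0).le
  linarith

theorem DG_SE (x : ℕ) : 1 ≤ SE x := by
  unfold SE
  apply Finset.one_le_prod
  intro p hp
  have h3 : (3 : ℝ) ≤ p := by
    have := (mem_filter.1 hp).2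
    exact_mod_cast (by omega : 3 ≤ p)
  rw [le_div_iff₀ (by linarith)]
  linarith

theorem DG_log (n : ℕ) (hn : 2 ≤ n) :
    0 < Real.log (2 * n) ∧ (Real.log (2 * n)) ^ 2 ≤ 4 * (Real.log n) ^ 2 := by
  have h2 : (2 : ℝ) ≤ n := by exact_mod_cast hn
  have h1 : Real.log (2 * n) ≤ 2 * Real.log n := by
    rw [Real.log_mul (by norm_num) (by linarith)]
    have := Real.log_le_log (by norm_num) h2
    linarith
  have h0 : 0 < Real.log (2 * n) := Real.log_pos (by linarith)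
  refine ⟨h0, ?_⟩
  nlinarith

/-- `x_class` with `r = 1`, `χ = 0`, `β = 1`, `y0 = 0`, `κ = 1`, `τ = (log X)^(-20)`
(`X = 3 n / 8 ≥ n / 4`, `reg_shift`, `str_good`): `compat 1 x = {0}`, `cdeg n 1 x 0 = hdeg n x`,
`Gp 1 (2x) ≥ (1/2) SE x ≥ 1/2` by `compat_gp`, `Gp 1 (2x) ≥ 1`; the three error terms are small for large
`K` (`Q ≥ (log n)^K`), `log (2n) ≤ 2 log n`. Replace `B` by `B ∩ [1, n]`. -/
theorem deg_good (c : ℝ) (hc : 0 < c) : ∃ K c0 : ℝ, 1 ≤ K ∧ 0 < c0 ∧ ∀ n Q : ℕ, Reg K Q n →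
    Good c Q → ∃ B : Finset ℕ, B ⊆ Icc 1 n ∧ (B.card : ℝ) ≤ n * (Q : ℝ) ^ (-(1 / 20) : ℝ) ∧
      ∀ x ∈ Icc 1 n, x ∉ B → c0 * SE x * n / (Real.log n) ^ 2 ≤ hdeg n x := by
  classical
  obtain ⟨K1, C, hK1, hC, hxc⟩ := x_class
  obtain ⟨K2, hK2, hst⟩ := str_good c hc
  obtain ⟨K0, hK0, hsh⟩ := reg_shift
  refine ⟨K1 + 2 * K2 + K0 + 240 * C + 100, 1 / 2048, by linarith, by norm_num, ?_⟩
  intro n Q hR hG
  have hKpos : (0 : ℝ) ≤ K1 + 2 * K2 + K0 + 240 * C + 100 := by linarith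
  have hR1 : Reg K1 Q n := hR.mono hKpos (by linarith)
  have hR2 : Reg (2 * K2 + K0) Q n := hR.mono hKpos (by linarith)
  have hn100 : (100 : ℝ) ≤ n := by
    have := hR.X_ge (by linarith : 0 < K1 + 2 * K2 + K0 + 240 * C + 100)
    linarith
  have hn8 : 100 ≤ n := by exact_mod_cast hn100
  have hL100 : 100 ≤ Real.log n := by
    have h1 := hR.logX_ge (by linarith : 0 < K1 + 2 * K2 + K0 + 240 * C + 100)
    have h2 := Real.add_one_le_exp (K1 + 2 * K2 + K0 + 240 * C + 100)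
    linarith
  have hX := DG_X n 1 one_pos (by omega)
  have hR3 : Reg K2 Q (3 * n / (8 * 1) * 1) := hsh K2 (by linarith) Q n _ hR2 hX.1 hX.2
  have hS := hst Q _ hR3 hG
  have hQ1 : 1 ≤ Q := hR1.Q_pos hK1
  obtain ⟨B, hB, hBx⟩ := hxc n Q 1 _ 1 (fun _ => 0) hR1 hS (by simpa using hQ1)
  have hlogQ : 240 * C ≤ Real.log Q := by
    have := hR.logQ_ge (by linarith)
    linarith
  obtain ⟨hq20, hq8⟩ := DG_Q C hC Q hlogQ
  -- the error `τ`
  have htau : (Real.log ((3 * n / (8 * 1) * 1 : ℕ) : ℝ)) ^ (-20 : ℝ) * (Real.log n) ^ 10 ≤ 1 / 12 := by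
    set X := 3 * n / (8 * 1) * 1 with hXdef
    have hX0 : (0 : ℝ) < X := by
      have : 0 < X := by omega
      exact_mod_cast this
    have hlX : Real.log n / 2 ≤ Real.log X := by
      have h4 : (n : ℝ) ≤ 4 * X := by exact_mod_cast hX.1
      have h5 := Real.log_le_log (by linarith) h4
      rw [Real.log_mul (by norm_num) hX0.ne'] at h5
      have h6 : Real.log 4 ≤ 4 := by
        have := Real.log_le_sub_one_of_pos (show (0 : ℝ) < 4 by norm_num)
        linarith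
      linarith
    set L := Real.log n with hLdef
    have hL0 : 0 < L := by linarith
    have h1 : (Real.log X) ^ (-20 : ℝ) ≤ (L / 2) ^ (-20 : ℝ) :=
      Real.rpow_le_rpow_of_nonpos (by linarith) hlX (by norm_num)
    have h2 : (L / 2) ^ (-20 : ℝ) * L ^ 10 = 2 ^ 20 / L ^ 10 := by
      have h3 : (L / 2) ^ (-20 : ℝ) = ((L / 2) ^ 20)⁻¹ := by
        rw [Real.rpow_neg (by linarith)]
        norm_cast
      rw [h3]
      field_simp
    calc (Real.log X) ^ (-20 : ℝ) * L ^ 10 ≤ (L / 2) ^ (-20 : ℝ) * L ^ 10 :=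
          mul_le_mul_of_nonneg_right h1 (by positivity)
      _ = 2 ^ 20 / L ^ 10 := h2
      _ ≤ 2 ^ 20 / 100 ^ 10 := by
          apply div_le_div_of_nonneg_left (by norm_num) (by norm_num)
          exact pow_le_pow_left₀ (by norm_num) hL100 10
      _ ≤ 1 / 12 := by norm_num
  refine ⟨B ∩ Icc 1 n, inter_subset_right, ?_, ?_⟩
  · refine le_trans ?_ hB
    exact_mod_cast card_le_card inter_subset_left
  · intro x hx hxB
    have hxB' : x ∉ B := fun h => hxB (mem_inter.2 ⟨h, hx⟩)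
    have hx1 : 1 ≤ x := (mem_Icc.1 hx).1
    have hc1 : compat 1 x = {0} := by
      ext y
      simp only [compat, mem_filter, mem_range, mem_singleton, Nat.cast_one]
      constructor
      · intro h; omega
      · rintro rfl
        exact ⟨by norm_num, isCoprime_one_right, isCoprime_one_right⟩
    have h1 := hBx x hx hxB' 0 (by rw [hc1]; simp) 1 zero_le_one (fun m m' _ _ => by simp)
    have hdg : cdeg n 1 x 0 ≤ hdeg n x := by
      have := sum_cdeg n 1 x {0} (by rw [hc1])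
      simpa using this
    have hgp := compat_gp 1 x one_pos hx1
    rw [hc1] at hgp
    simp only [card_singleton, Nat.cast_one, Nat.totient_one, one_pow, div_one, one_mul] at hgp h1
    have hgp1 := one_le_Gp 1 (2 * (x : ℤ))
    have hSE := DG_SE x
    obtain ⟨hl0, hl2⟩ := DG_log n (by omega)
    have hd0 : (0 : ℝ) ≤ cdeg n 1 x 0 := Nat.cast_nonneg _
    have hd1 : (cdeg n 1 x 0 : ℝ) ≤ hdeg n x := by exact_mod_cast hdg
    have hL0 : 0 < Real.log n := by linarith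
    have hbr : 1 / 8 * SE x ≤ (1 / 2 * Gp 1 (2 * (x : ℤ)) - C * (Q : ℝ) ^ (-(1 / 8) : ℝ)) -
          (Real.log ((3 * n / (8 * 1) * 1 : ℕ) : ℝ)) ^ (-20 : ℝ) * (Real.log n) ^ 10 -
          C * (Q : ℝ) ^ (-(1 / 20) : ℝ) := by
      linarith
    have hn0 : (0 : ℝ) ≤ n / 64 := by positivity
    rw [div_le_iff₀ (by positivity)]
    have h3 : 1 / 8 * SE x * (n / 64) ≤ hdeg n x * (4 * (Real.log n) ^ 2) := by
      calc 1 / 8 * SE x * ((n : ℝ) / 64) ≤ _ := mul_le_mul_of_nonneg_right hbr hn0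
        _ ≤ cdeg n 1 x 0 * (Real.log (2 * n)) ^ 2 := by
            refine le_trans (le_of_eq ?_) h1
            norm_num
        _ ≤ hdeg n x * (4 * (Real.log n) ^ 2) := by
            apply mul_le_mul hd1 hl2 (by positivity) (by positivity)
    nlinarith

end Pool.Agent.Lib.H18E
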