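import Pool.Agent.Lib.H18E.Defs
import Pool.Agent.Lib.H68T.PV

/-!
# Chunk BS: Bessel's inequality
-/

open Finset Pool.Agent.Lib.H68T

namespace Pool.Agent.Lib.H18E

/-- If all exponential sums of `w` over `[0, H)` are at most `D`, the correlations with `v` are small in
mean square. Same proof as the first part of `corr_sq_le` (file `H68T/PV.lean`; `PV_parseval`,
`PV_ortho`): discrete Fourier transform modulo a large `N`. -/
theorem bessel (H a b : ℕ) (w v : ℕ → ℝ) (D : ℝ)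
    (hw : ∀ θ : ℝ, ‖∑ c ∈ range H, (w c : ℂ) * e (c * θ)‖ ≤ D) :
    ∑ t ∈ Ico a b, (∑ c ∈ range H, w c * v (t + c)) ^ 2 ≤
      D ^ 2 * ∑ l ∈ Ico a (b + H), v l ^ 2 := by
  rcases Nat.lt_or_ge a b with hab | hab
  swap
  · rw [Finset.Ico_eq_empty (by omega), Finset.sum_empty]
    positivity
  obtain ⟨N, hNdef⟩ : ∃ N : ℕ, a + N = b + H := ⟨b + H - a, by omega⟩
  have hN : 0 < N := by omega
  have hNr : (0 : ℝ) < N := by exact_mod_cast hN
  rw [← hNdef]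
  have hD : 0 ≤ D := (norm_nonneg _).trans (hw 0)
  set U : ℕ → ℂ := fun j => ∑ c ∈ range H, (w c : ℂ) * e (c * ((j : ℝ) / N)) with hU
  set Vf : ℕ → ℂ := fun j => ∑ l ∈ Ico a (a + N), (v l : ℂ) * e ((j : ℝ) * ((l : ℝ) / N)) with hVf
  set B : ℕ → ℂ := fun j => Vf j * (starRingEnd ℂ) (U j) with hB
  have hUD : ∀ j, ‖U j‖ ≤ D := fun j => hw _
  -- the Fourier expansion of the correlation
  have hA : ∀ t ∈ Ico a b, ((N : ℝ) * ∑ c ∈ range H, w c * v (t + c) : ℝ) =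
      (∑ j ∈ Ico 0 (0 + N), B j * e (-((j : ℝ) * ((t : ℝ) / N))) : ℂ) := by
    intro t ht
    rw [mem_Ico] at ht
    have e1 : ∀ j : ℕ, B j * e (-((j : ℝ) * ((t : ℝ) / N))) =
        ∑ l ∈ Ico a (a + N), ∑ c ∈ range H, ((v l : ℂ) * w c) *
          e ((j : ℝ) * ((((l : ℤ) - c - t : ℤ) : ℝ) / N)) := by
      intro j
      simp only [hB, hVf, hU, map_sum, Finset.sum_mul_sum]
      rw [Finset.sum_mul]
      refine Finset.sum_congr rfl fun l _ => ?_
      rw [Finset.sum_mul]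
      refine Finset.sum_congr rfl fun c _ => ?_
      rw [map_mul, PV_e_conj, Complex.conj_ofReal]
      have e2 : (j : ℝ) * ((((l : ℤ) - c - t : ℤ) : ℝ) / N) =
          (j : ℝ) * ((l : ℝ) / N) + (-((c : ℝ) * ((j : ℝ) / N)) + -((j : ℝ) * ((t : ℝ) / N))) := by
        push_cast
        ring
      rw [e2, PV_e_add, PV_e_add]
      ring
    simp only [e1]
    rw [Finset.sum_comm]
    have e3 : ∀ l ∈ Ico a (a + N), ∑ j ∈ Ico 0 (0 + N), ∑ c ∈ range H,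
        ((v l : ℂ) * w c) * e ((j : ℝ) * ((((l : ℤ) - c - t : ℤ) : ℝ) / N)) =
        ∑ c ∈ range H, if l = t + c then (N : ℂ) * ((v l : ℂ) * w c) else 0 := by
      intro l hl
      rw [Finset.sum_comm]
      refine Finset.sum_congr rfl fun c hc => ?_
      rw [mem_Ico] at hl
      rw [mem_range] at hc
      rw [← Finset.mul_sum, PV_ortho N hN 0 ((l : ℤ) - c - t) (by rw [abs_lt]; omega)]
      by_cases h : l = t + c
      · rw [if_pos (by omega), if_pos h]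
        ring
      · rw [if_neg (by omega), if_neg h, mul_zero]
    rw [Finset.sum_congr rfl e3, Finset.sum_comm]
    push_cast
    rw [Finset.mul_sum]
    refine Finset.sum_congr rfl fun c hc => ?_
    rw [mem_range] at hc
    rw [Finset.sum_ite_eq', if_pos (by rw [mem_Ico]; omega)]
    ring
  have hle1 : ∑ t ∈ Ico a b, ((N : ℝ) * ∑ c ∈ range H, w c * v (t + c)) ^ 2 ≤
      ∑ t ∈ Ico a (a + N), ‖∑ j ∈ Ico 0 (0 + N), (starRingEnd ℂ) (B j) *
        e ((t : ℝ) * ((j : ℝ) / N))‖ ^ 2 := by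
    have h1 : ∀ t ∈ Ico a b, ((N : ℝ) * ∑ c ∈ range H, w c * v (t + c)) ^ 2 =
        ‖∑ j ∈ Ico 0 (0 + N), (starRingEnd ℂ) (B j) * e ((t : ℝ) * ((j : ℝ) / N))‖ ^ 2 := by
      intro t ht
      have h2 := congrArg (fun z : ℂ => ‖z‖) (hA t ht)
      rw [Complex.norm_real, Real.norm_eq_abs] at h2
      rw [← sq_abs, h2, ← RCLike.norm_conj (∑ j ∈ Ico 0 (0 + N), B j *
        e (-((j : ℝ) * ((t : ℝ) / N)))), map_sum]
      congr 2
      refine Finset.sum_congr rfl fun j _ => ?_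
      rw [map_mul, PV_e_conj, neg_neg]
      congr 2
      ring
    rw [Finset.sum_congr rfl h1]
    refine Finset.sum_le_sum_of_subset_of_nonneg ?_ fun _ _ _ => by positivity
    intro t ht
    rw [mem_Ico] at ht ⊢
    omega
  rw [PV_parseval N hN 0 a (fun j => (starRingEnd ℂ) (B j))] at hle1
  have hle2 : ∑ j ∈ Ico 0 (0 + N), ‖(starRingEnd ℂ) (B j)‖ ^ 2 ≤
      D ^ 2 * ((N : ℝ) * ∑ l ∈ Ico a (a + N), ‖((v l : ℝ) : ℂ)‖ ^ 2) := by
    rw [← PV_parseval N hN a 0 (fun l => ((v l : ℝ) : ℂ)), Finset.mul_sum]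
    refine Finset.sum_le_sum fun j _ => ?_
    rw [RCLike.norm_conj]
    simp only [hB]
    rw [norm_mul, RCLike.norm_conj, mul_pow, mul_comm]
    exact mul_le_mul_of_nonneg_right (pow_le_pow_left₀ (norm_nonneg _) (hUD j) 2) (by positivity)
  have hle3 : (N : ℝ) ^ 2 * ∑ t ∈ Ico a b, (∑ c ∈ range H, w c * v (t + c)) ^ 2 ≤
      (N : ℝ) ^ 2 * (D ^ 2 * ∑ l ∈ Ico a (a + N), v l ^ 2) := by
    have h4 : ∑ l ∈ Ico a (a + N), ‖((v l : ℝ) : ℂ)‖ ^ 2 = ∑ l ∈ Ico a (a + N), v l ^ 2 := by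
      refine Finset.sum_congr rfl fun l _ => ?_
      rw [Complex.norm_real, Real.norm_eq_abs, sq_abs]
    rw [h4] at hle2
    calc (N : ℝ) ^ 2 * ∑ t ∈ Ico a b, (∑ c ∈ range H, w c * v (t + c)) ^ 2
        = ∑ t ∈ Ico a b, ((N : ℝ) * ∑ c ∈ range H, w c * v (t + c)) ^ 2 := by
          rw [Finset.mul_sum]
          exact Finset.sum_congr rfl fun t _ => by ring
      _ ≤ _ := hle1
      _ ≤ (N : ℝ) * (D ^ 2 * ((N : ℝ) * ∑ l ∈ Ico a (a + N), v l ^ 2)) :=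
          mul_le_mul_of_nonneg_left hle2 hNr.le
      _ = _ := by ring
  exact le_of_mul_le_mul_left hle3 (by positivity)

theorem bs_ix (H : ℕ) (σ : Bool) (s t : ℕ) (u v : ℕ → ℝ) :
    ∑ c ∈ range H, u (s + c) * v (ix H σ t c) = ∑ c ∈ range H, u (ix H σ s c) * v (t + c) := by
  cases σ with
  | true => rfl
  | false =>
    simp only [ix, cond_false]
    rw [← sum_range_reflect (fun c => u (s + (H - 1 - c)) * v (t + c)) H]
    refine sum_congr rfl fun c hc => ?_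
    rw [mem_range] at hc
    have : H - 1 - (H - 1 - c) = c := by omega
    rw [this]

/-- the exponential sums of the reflected sequence -/
theorem bs_refl (H : ℕ) (σ : Bool) (s : ℕ) (u : ℕ → ℝ) (D : ℝ)
    (hu : ∀ θ : ℝ, ‖∑ c ∈ range H, (u (s + c) : ℂ) * e (c * θ)‖ ≤ D) (θ : ℝ) :
    ‖∑ c ∈ range H, (u (ix H σ s c) : ℂ) * e (c * θ)‖ ≤ D := by
  cases σ with
  | true => exact hu θ
  | false =>
    simp only [ix, cond_false]
    rw [← sum_range_reflect]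
    have h1 : ∀ c ∈ range H, ((u (s + (H - 1 - (H - 1 - c))) : ℝ) : ℂ) *
        e (((H - 1 - c : ℕ) : ℝ) * θ) =
        e (((H - 1 : ℕ) : ℝ) * θ) * ((u (s + c) : ℂ) * e (c * (-θ))) := by
      intro c hc
      rw [mem_range] at hc
      have h2 : H - 1 - (H - 1 - c) = c := by omega
      have h3 : ((H - 1 - c : ℕ) : ℝ) * θ = ((H - 1 : ℕ) : ℝ) * θ + c * (-θ) := by
        rw [Nat.cast_sub (by omega)]
        ring
      rw [h2, h3, PV_e_add]
      ring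
    rw [sum_congr rfl h1, ← mul_sum, norm_mul]
    have h4 : ‖e (((H - 1 : ℕ) : ℝ) * θ)‖ = 1 := by
      unfold e
      have : 2 * (Real.pi : ℂ) * ((((H - 1 : ℕ) : ℝ) * θ : ℝ) : ℂ) * Complex.I =
        ((2 * Real.pi * (((H - 1 : ℕ) : ℝ) * θ) : ℝ) : ℂ) * Complex.I := by push_cast; ring
      rw [this, Complex.norm_exp_ofReal_mul_I]
    rw [h4, one_mul]
    exact hu (-θ)

/-- Hence for `u` with small exponential sums over the intervals `[s, s + H)`, `s ∈ S`, for both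
directions `σ`. For `σ = false` use `∑_c u(s+c) v(t+(H-1-c)) = ∑_c u(s+(H-1-c)) v(t+c)`
(`Finset.sum_range_reflect`) and that `w(c) = u(s + (H-1-c))` has the same bound. -/
theorem corr_sq (H a b : ℕ) (σ : Bool) (u v : ℕ → ℝ) (D : ℝ) (S : Finset ℕ)
    (hu : ∀ s ∈ S, ∀ θ : ℝ, ‖∑ c ∈ range H, (u (s + c) : ℂ) * e (c * θ)‖ ≤ D) :
    ∑ s ∈ S, ∑ t ∈ Ico a b, (∑ c ∈ range H, u (s + c) * v (ix H σ t c)) ^ 2 ≤
      S.card * (D ^ 2 * ∑ l ∈ Ico a (b + H), v l ^ 2) := by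
  have h1 : ∀ s ∈ S, ∑ t ∈ Ico a b, (∑ c ∈ range H, u (s + c) * v (ix H σ t c)) ^ 2 ≤
      D ^ 2 * ∑ l ∈ Ico a (b + H), v l ^ 2 := by
    intro s hs
    have h2 : ∑ t ∈ Ico a b, (∑ c ∈ range H, u (s + c) * v (ix H σ t c)) ^ 2 =
        ∑ t ∈ Ico a b, (∑ c ∈ range H, (fun c => u (ix H σ s c)) c * v (t + c)) ^ 2 :=
      sum_congr rfl fun t _ => by rw [bs_ix]
    rw [h2]
    exact bessel H a b (fun c => u (ix H σ s c)) v D (bs_refl H σ s u D (hu s hs))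
  refine (sum_le_sum h1).trans ?_
  rw [sum_const, nsmul_eq_mul]

/-- The same with the roles exchanged: `v` has small exponential sums. -/
theorem corr_sq' (H a b : ℕ) (σ : Bool) (u v : ℕ → ℝ) (D : ℝ) (S : Finset ℕ)
    (hv : ∀ t ∈ S, ∀ θ : ℝ, ‖∑ c ∈ range H, (v (t + c) : ℂ) * e (c * θ)‖ ≤ D) :
    ∑ s ∈ Ico a b, ∑ t ∈ S, (∑ c ∈ range H, u (s + c) * v (ix H σ t c)) ^ 2 ≤
      S.card * (D ^ 2 * ∑ l ∈ Ico a (b + H), u l ^ 2) := by
  rw [sum_comm]
  have h1 : ∀ t ∈ S, ∑ s ∈ Ico a b, (∑ c ∈ range H, u (s + c) * v (ix H σ t c)) ^ 2 ≤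
      D ^ 2 * ∑ l ∈ Ico a (b + H), u l ^ 2 := by
    intro t ht
    have h2 : ∑ s ∈ Ico a b, (∑ c ∈ range H, u (s + c) * v (ix H σ t c)) ^ 2 =
        ∑ s ∈ Ico a b, (∑ c ∈ range H, (fun c => v (ix H σ t c)) c * u (s + c)) ^ 2 :=
      sum_congr rfl fun s _ => by
        congr 1
        exact sum_congr rfl fun c _ => mul_comm _ _
    rw [h2]
    exact bessel H a b (fun c => v (ix H σ t c)) u D (bs_refl H σ t v D (hv t ht))
  refine (sum_le_sum h1).trans ?_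
  rw [sum_const, nsmul_eq_mul]

end Pool.Agent.Lib.H18E
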