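import Pool.Agent.Lib.H18E.Defs
import Pool.Agent.Lib.H68T.BA1

/-!
# Chunk FS: exponential sums of `lp - Lk` along a class
-/

open Finset Pool.Agent.Lib.H68T

namespace Pool.Agent.Lib.H18E

/-- `BA1_prog` with a general end point of the interval. -/
theorem FS_prog (u : ℤ → ℂ) (W M : ℕ) (hW : 0 < W) (a E : ℤ) (hE1 : a + W * ((M : ℤ) - 1) < E)
    (hE2 : E ≤ a + W * M) (θ : ℝ) :
    (W : ℂ) * ∑ c ∈ range M, u (a + W * c) * e (c * θ) =
      ∑ j ∈ range W, e (-(a : ℝ) * ((j + θ) / W)) *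
        ∑ m ∈ Ico a E, u m * e (m * ((j + θ) / W)) := by
  have hW' : (W : ℝ) ≠ 0 := by exact_mod_cast hW.ne'
  have hWi : (0 : ℤ) < W := by exact_mod_cast hW
  have h1 : ∀ j ∈ range W, e (-(a : ℝ) * ((j + θ) / W)) *
        ∑ m ∈ Ico a E, u m * e (m * ((j + θ) / W)) =
      ∑ m ∈ Ico a E, u m * e (((m - a : ℤ) : ℝ) / W * θ) *
        e ((j : ℝ) * (((m - a : ℤ) : ℝ) / W)) := by
    intro j _
    rw [mul_sum]
    refine sum_congr rfl fun m _ => ?_
    have : e (-(a : ℝ) * ((j + θ) / W)) * e (m * ((j + θ) / W)) =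
        e (((m - a : ℤ) : ℝ) / W * θ) * e ((j : ℝ) * (((m - a : ℤ) : ℝ) / W)) := by
      rw [← BA1_e_add, ← BA1_e_add]
      congr 1
      push_cast
      field_simp
      ring
    calc e (-(a : ℝ) * ((j + θ) / W)) * (u m * e (m * ((j + θ) / W)))
        = u m * (e (-(a : ℝ) * ((j + θ) / W)) * e (m * ((j + θ) / W))) := by ring
      _ = _ := by rw [this]; ring
  rw [sum_congr rfl h1, sum_comm]
  have h2 : ∀ m ∈ Ico a E, ∑ j ∈ range W, u m * e (((m - a : ℤ) : ℝ) / W * θ) *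
        e ((j : ℝ) * (((m - a : ℤ) : ℝ) / W)) =
      if (W : ℤ) ∣ m - a then (W : ℂ) * (u m * e (((m - a : ℤ) : ℝ) / W * θ)) else 0 := by
    intro m _
    rw [← mul_sum, BA1_detect W hW (m - a)]
    split_ifs <;> ring
  rw [sum_congr rfl h2, ← sum_filter, mul_sum]
  refine sum_bij (fun c _ => a + W * c) ?_ ?_ ?_ ?_
  · intro c hc
    rw [mem_range] at hc
    rw [mem_filter, mem_Ico]
    refine ⟨⟨?_, ?_⟩, ?_⟩
    · have : (0 : ℤ) ≤ W * c := by positivity
      linarith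
    · have h3 : (c : ℤ) ≤ (M : ℤ) - 1 := by
        have : (c : ℤ) < M := by exact_mod_cast hc
        omega
      have := mul_le_mul_of_nonneg_left h3 hWi.le
      linarith
    · simp
  · intro c _ c' _ h
    have h1 : (W : ℤ) * c = W * c' := by linarith
    have h2 := mul_left_cancel₀ hWi.ne' h1
    exact_mod_cast h2
  · intro m hm
    rw [mem_filter, mem_Ico] at hm
    obtain ⟨⟨hm1, hm2⟩, t, ht⟩ := hm
    have ht0 : 0 ≤ t := by
      by_contra hneg
      push Not at hneg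
      have : (W : ℤ) * t < 0 := mul_neg_of_pos_of_neg hWi hneg
      linarith
    have htM : t < M := by
      have h3 : (W : ℤ) * t < W * M := by linarith
      exact lt_of_mul_lt_mul_left h3 hWi.le
    refine ⟨t.toNat, ?_, ?_⟩
    · rw [mem_range]
      omega
    · have : ((t.toNat : ℕ) : ℤ) = t := Int.toNat_of_nonneg ht0
      rw [this]
      linarith
  · intro c _
    have : (((a + W * c - a : ℤ) : ℝ) / W * θ) = c * θ := by
      push_cast
      field_simp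
      ring
    rw [this]

/-- Copy of `class_fourier` (file `H68T/BA1.lean`) for windows of length `H` inside `[M W, 4 M W]`:
`s ≥ M`, `s + H + 1 ≤ 4 M`, so that `b + W (s + c) < 4 M W` as `b < 2 W`. -/
theorem class_fourier' : ∃ K : ℝ, 1 ≤ K ∧ ∀ Q M W H : ℕ, Reg K Q (M * W) → 0 < W → ∀ b : ℕ,
    b < 2 * W → ∀ s : ℕ, M ≤ s → s + H + 1 ≤ 4 * M → ∀ θ : ℝ,
    ‖∑ c ∈ range H, ((lp ((b : ℤ) + W * (s + c : ℕ)) -
      Lk Q (M * W / Q ^ 2) ((b : ℤ) + W * (s + c : ℕ)) : ℝ) : ℂ) * e (c * θ)‖ ≤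
      (M * W : ℕ) * (Q : ℝ) ^ (-(1 / 4) : ℝ) := by
  obtain ⟨K0, hK0⟩ := fourier_small
  refine ⟨max 1 K0, le_max_left _ _, fun Q M W H hR hW b hb s hs1 hs2 θ => ?_⟩
  have hR0 : Reg K0 Q (M * W) :=
    hR.mono (le_trans zero_le_one (le_max_left _ _)) (le_max_right _ _)
  set u : ℤ → ℂ := fun m => ((lp m - Lk Q (M * W / Q ^ 2) m : ℝ) : ℂ) with hu
  set a : ℤ := (b : ℤ) + W * s with ha
  have hW0 : (0 : ℝ) < W := by exact_mod_cast hW
  have hWi : (0 : ℤ) < W := by exact_mod_cast hW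
  have hsum : ∑ c ∈ range H, ((lp ((b : ℤ) + W * (s + c : ℕ)) -
      Lk Q (M * W / Q ^ 2) ((b : ℤ) + W * (s + c : ℕ)) : ℝ) : ℂ) * e (c * θ) =
      ∑ c ∈ range H, u (a + W * c) * e (c * θ) := by
    refine sum_congr rfl fun c _ => ?_
    have : (b : ℤ) + W * (s + c : ℕ) = a + W * c := by
      rw [ha]; push_cast; ring
    rw [this]
  rw [hsum]
  have hb' : (b : ℤ) < 2 * W := by exact_mod_cast hb
  have hs2' : (s : ℤ) + H + 1 ≤ 4 * M := by exact_mod_cast hs2
  have hE1 : a + W * ((H : ℤ) - 1) < min (a + W * H) (4 * ((M * W : ℕ) : ℤ)) := by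
    rw [lt_min_iff]
    constructor
    · linarith
    · rw [ha]
      have := mul_le_mul_of_nonneg_left hs2' hWi.le
      push_cast
      linarith
  have hkey := FS_prog u W H hW a _ hE1 (min_le_left _ _) θ
  have hbound : ∀ j ∈ range W, ‖e (-(a : ℝ) * ((j + θ) / W)) *
        ∑ m ∈ Ico a (min (a + W * H) (4 * ((M * W : ℕ) : ℤ))), u m * e (m * ((j + θ) / W))‖ ≤
      (M * W : ℕ) * (Q : ℝ) ^ (-(1 / 4) : ℝ) := by
    intro j _
    rw [norm_mul, BA1_norm_e, one_mul]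
    refine hK0 Q (M * W) hR0 ((j + θ) / W) a _ ?_ (min_le_right _ _)
    rw [ha]
    have h1 : (M : ℤ) * W ≤ W * s := by
      have : (M : ℤ) ≤ s := by exact_mod_cast hs1
      nlinarith [this, hWi.le]
    push_cast
    have : (0 : ℤ) ≤ b := by positivity
    linarith
  have h1 : ‖(W : ℂ) * ∑ c ∈ range H, u (a + W * c) * e (c * θ)‖ ≤
      W * ((M * W : ℕ) * (Q : ℝ) ^ (-(1 / 4) : ℝ)) := by
    rw [hkey]
    refine (norm_sum_le _ _).trans ((sum_le_sum hbound).trans ?_)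
    simp
  rw [norm_mul, Complex.norm_natCast] at h1
  exact le_of_mul_le_mul_left h1 hW0

end Pool.Agent.Lib.H18E
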