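import Pool.Agent.Lib.H18E.ML
import Pool.Agent.Lib.H18E.BS
import Pool.Agent.Lib.H18E.FS
import Pool.Agent.Lib.H68X.XBA1

/-!
# Chunk CP: pairs of primes in two classes, lower bound
-/

open Finset Pool.Agent.Lib.H68T

namespace Pool.Agent.Lib.H18E

theorem cp_MM_neg (Q r : ℕ) (ε β : ℝ) (m : ℤ) : MM Q r ε β (-m) = MM Q r ε β m := by
  unfold MM
  have h1 : G Q (-m) = G Q m := by
    unfold G
    exact sum_congr rfl fun q _ => by rw [cq_neg]
  have h2 : Gam Q r (-m) = Gam Q r m := by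
    unfold Gam
    refine sum_congr rfl fun q _ => ?_
    refine sum_congr ?_ fun _ _ => rfl
    refine filter_congr fun d _ => ?_
    rw [IsCoprime.neg_right_iff]
  rw [h1, h2]
  push_cast
  rw [abs_neg]

theorem cp_MM_pos (Q r : ℕ) (ε β : ℝ) (m : ℤ) (hm : 0 < m) :
    MM Q r ε β m = Mod Q r ε β m := by
  unfold MM Pool.Agent.Lib.H68T.Mod
  rw [abs_of_pos (by exact_mod_cast hm)]

/-- reflection -/
theorem cp_ix_sum (H : ℕ) (σ : Bool) (t : ℕ) (f : ℕ → ℝ) :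
    ∑ c ∈ range H, f (ix H σ t c) = ∑ c ∈ range H, f (t + c) := by
  cases σ with
  | true => rfl
  | false =>
    simp only [ix, cond_false]
    exact sum_range_reflect (fun c => f (t + c)) H

theorem cp_range {M r b l : ℕ} (hM : 1 ≤ M) (hr : 0 < r) (hb : b < 2 * r) (h1 : M ≤ l)
    (h2 : l + 2 ≤ 4 * M) : ((M * r : ℕ) : ℤ) ≤ (b : ℤ) + r * (l : ℕ) ∧
      (b : ℤ) + r * (l : ℕ) ≤ 4 * ((M * r : ℕ) : ℤ) := by
  have h0 : ((M * r : ℕ) : ℤ) = (M : ℤ) * r := by push_cast; ring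
  have h3 : (M : ℤ) ≤ l := by exact_mod_cast h1
  have h4 : (l : ℤ) + 2 ≤ 4 * M := by exact_mod_cast h2
  have h5 : (0 : ℤ) < r := by exact_mod_cast hr
  have h6 : (b : ℤ) < 2 * r := by exact_mod_cast hb
  have h7 : (1 : ℤ) ≤ M := by exact_mod_cast hM
  rw [h0]
  constructor
  · nlinarith
  · nlinarith

theorem cp_ix_bd {H M t c : ℕ} {σ : Bool} (h : M ≤ t) (h2 : t + H ≤ 4 * M - 1) (hc : c < H) :
    M ≤ ix H σ t c ∧ ix H σ t c + 2 ≤ 4 * M := by
  unfold ix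
  cases σ <;> simp <;> omega

/-- `|Σ x y| ≤ ...` for the small parts -/
theorem cp_small {H : ℕ} {f g d d' : ℕ → ℝ} {A B D : ℝ} (hA : 0 ≤ A) (hB : 0 ≤ B)
    (hf : ∀ c ∈ range H, |f c| ≤ A * d c) (hg : ∀ c ∈ range H, |g c| ≤ B * d' c)
    (h0 : ∀ c ∈ range H, 0 ≤ d c) (h0' : ∀ c ∈ range H, 0 ≤ d' c)
    (hd : ∑ c ∈ range H, d c ^ 2 ≤ D) (hd' : ∑ c ∈ range H, d' c ^ 2 ≤ D) :
    |∑ c ∈ range H, f c * g c| ≤ A * B * D := by
  refine (abs_sum_le_sum_abs _ _).trans ?_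
  have h1 : ∀ c ∈ range H, |f c * g c| ≤ A * B * ((d c ^ 2 + d' c ^ 2) / 2) := by
    intro c hc
    rw [abs_mul]
    calc |f c| * |g c| ≤ (A * d c) * (B * d' c) :=
          mul_le_mul (hf c hc) (hg c hc) (abs_nonneg _) (mul_nonneg hA (h0 c hc))
      _ = A * B * (d c * d' c) := by ring
      _ ≤ A * B * ((d c ^ 2 + d' c ^ 2) / 2) := by
          apply mul_le_mul_of_nonneg_left _ (mul_nonneg hA hB)
          nlinarith [sq_nonneg (d c - d' c)]
  refine (sum_le_sum h1).trans ?_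
  rw [← mul_sum, ← sum_div, sum_add_distrib]
  apply mul_le_mul_of_nonneg_left _ (mul_nonneg hA hB)
  linarith

/-- **Pairs of primes in two classes modulo `r`** (both directions `σ`). `X = M r`; all
`m = u + r(s+c)`, `m' = v + r ix(t,c)` are in `[X, 4X]`.

Proof (cf. `x_class_pair`, file `H68X/XBA2.lean`, which is the upper bound for one class and `σ = true`).
Write `lp = g + u' + v'` with `g = Mod Q r (χ u) β` (by `Str.per` `χ m = χ u` in the class),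
`u' = Lk - g` (`|u'| ≤ τ dQ`, `Str.main`), `v' = lp - Lk` (`class_fourier'`); similarly for `m'`. Then
`lp lp' = g g' + g u'_{'} + g v'_{'} + u' lp' + v' lp'`.
* `g g'`: `MM = Mod` at positive integers; `MM Q r ε β` is even (`cq_neg`; `Gam` is even: `cq` and the
  coprimality condition are). For `σ = true` use `model_low` with `W = r`, `x = u + r s`,
  `y = v + r t`; for `σ = false` with `y = -(v + r (t + (H-1)))`, so that `y + r c = - m'`. Here
  `x - y = dd H r σ u v s t`.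
* `g u'_{'}` and `u' lp'`: at most `τ (abs_Mod_le) (dQ + dQ')²`-like terms, `dQ_moment`
  (`≤ H (1 + log Q)^3 + Q^2 ≤ 2 H (log X)^3`, in either direction, by `sum_range_reflect`),
  `0 ≤ lp ≤ log (4X)`, `dQ ≥ 1`: in total at most `H τ (log X)^10`, with `ℓ = log X` large (`Reg`).
* `M e(s,t) = |∑ g(m) v'(m')| + |∑ v'(m) lp(m')| + Q^9`: `corr_sq'`, `corr_sq` with
  `D = X Q^(-1/4)`; `∑_{l ∈ [M,4M)} g(l)² ≤ 200² ℓ^6 (4 M ℓ^3 + Q²)` and
  `∑ lp² ≤ 4 M (2ℓ)²`: `∑ e² ≤ M² r² Q^(-1/2) ℓ^12 · 10^7 + ... ≤ M² Q^(-1/5)`, as `r² ≤ Q^(1/50)`,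
  `Q^9 ≤ M Q^(-1)` (`Reg`, `r ≤ Q`). -/
theorem class_pair : ∃ K C : ℝ, 1 ≤ K ∧ 1 ≤ C ∧ ∀ (Q M H r : ℕ) (τ β : ℝ) (χ : ℤ → ℝ),
    Reg K Q (M * r) → Str Q (M * r) r τ β χ → r ^ 100 ≤ Q → H ≤ M → M ≤ 64 * H → 1 ≤ H →
    ∀ (σ : Bool) (u v : ℕ), u < 2 * r → v < 2 * r → Nat.Coprime u r → Nat.Coprime v r →
    ∃ e : ℕ → ℕ → ℝ, (∀ s t, 0 ≤ e s t) ∧
      ∑ s ∈ Ico M (4 * M - H), ∑ t ∈ Ico M (4 * M - H), (e s t) ^ 2 ≤
        (M : ℝ) ^ 2 * (Q : ℝ) ^ (-(1 / 5) : ℝ) ∧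
      ∀ s ∈ Ico M (4 * M - H), ∀ t ∈ Ico M (4 * M - H), dd H r σ u v s t ≠ 0 →
        (2 ∣ r ∨ (2 : ℤ) ∣ dd H r σ u v s t) →
        ((r : ℝ) / Nat.totient r) ^ 2 *
          ((∑ c ∈ range H, (1 - χ u * ((u + r * (s + c) : ℕ) : ℝ) ^ (β - 1)) *
              (1 - χ v * ((v + r * ix H σ t c : ℕ) : ℝ) ^ (β - 1))) *
                (1 / 2 * Gp r (dd H r σ u v s t)) -
            C * H * (Q : ℝ) ^ (-(1 / 4) : ℝ) * Rk (dd H r σ u v s t)) -
          H * (τ * (Real.log (M * r : ℕ)) ^ 10) - M * e s t ≤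
        ∑ c ∈ range H, lp ((u + r * (s + c) : ℕ) : ℤ) * lp ((v + r * ix H σ t c : ℕ) : ℤ) := by
  obtain ⟨K2, hK2, hfs⟩ := class_fourier'
  obtain ⟨C, hC, hml⟩ := model_low
  obtain ⟨K3, hK3, hpre⟩ := XBA1_pre
  obtain ⟨K6, hK61, hK6⟩ := reg_log_le 2880216 9 (1 / 10) (by norm_num)
  refine ⟨K2 + K3 + K6, C, by linarith, hC, ?_⟩
  intro Q M H r τ β χ hR hS hrQ hHM hMH hH σ a b ha hb hca hcb
  set K := K2 + K3 + K6 with hK
  have hK0 : (0 : ℝ) ≤ K := by linarith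
  have R2 := hR.mono (K' := K2) hK0 (by linarith)
  have R6 := hR.mono (K' := K6) hK0 (by linarith)
  have hr := hS.r0
  obtain ⟨hlX, hlQX, hQge, hM0, hrleQ, hrQ', hQM⟩ := hpre K Q M r (by linarith) hR hr hrQ
  have hQ0 : (0 : ℝ) < Q := by linarith
  have hQ1r : (1 : ℝ) ≤ Q := by linarith
  have hQ1 : 1 ≤ Q := by exact_mod_cast hQ1r
  have hMr : (0 : ℝ) < M := by exact_mod_cast hM0
  have hrr : (0 : ℝ) < r := by exact_mod_cast hr
  have hX0 : 0 < M * r := Nat.mul_pos hM0 hr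
  set X := M * r with hX
  have hXr : (0 : ℝ) < X := by exact_mod_cast hX0
  have hXMr : (X : ℝ) = M * r := by rw [hX]; push_cast; ring
  set ℓ := Real.log (X : ℕ) with hℓ
  have hlX0 : 0 < ℓ := by linarith
  have hHr : (1 : ℝ) ≤ H := by exact_mod_cast hH
  have hMHr : (M : ℝ) ≤ 64 * H := by exact_mod_cast hMH
  have hτ := hS.tau0
  have hlogQ : 0 ≤ Real.log Q := Real.log_nonneg hQ1r
  have hQ2H : (Q : ℝ) ^ 2 ≤ H := by
    have h1 : (Q : ℝ) ^ 10 ≤ 64 * H := hQM.trans hMHr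
    have h2 : (1000 : ℝ) ^ 8 ≤ (Q : ℝ) ^ 8 := pow_le_pow_left₀ (by norm_num) hQge 8
    have h3 : (Q : ℝ) ^ 10 = (Q : ℝ) ^ 8 * (Q : ℝ) ^ 2 := by ring
    have h4 : (64 : ℝ) * (Q : ℝ) ^ 2 ≤ (Q : ℝ) ^ 8 * (Q : ℝ) ^ 2 := by
      apply mul_le_mul_of_nonneg_right _ (by positivity)
      exact le_trans (by norm_num) h2
    linarith
  have hQ2M : (Q : ℝ) ^ 2 ≤ M := le_trans (pow_le_pow_right₀ hQ1r (by norm_num)) hQM
  have hℓQ : (1 + Real.log Q) ^ 3 ≤ ℓ ^ 3 := pow_le_pow_left₀ (by linarith) hlQX _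
  have hℓ3 : (1 : ℝ) ≤ ℓ ^ 3 := one_le_pow₀ (by linarith)
  -- the functions
  set ma : ℕ → ℤ := fun l => (a : ℤ) + r * (l : ℕ) with hma
  set mb : ℕ → ℤ := fun l => (b : ℤ) + r * (l : ℕ) with hmb
  set Y := X / Q ^ 2 with hY
  set ga : ℕ → ℝ := fun l => Mod Q r (χ a) β (ma l) with hga
  set gb : ℕ → ℝ := fun l => Mod Q r (χ b) β (mb l) with hgb
  set va : ℕ → ℝ := fun l => lp (ma l) - Lk Q Y (ma l) with hva
  set vb : ℕ → ℝ := fun l => lp (mb l) - Lk Q Y (mb l) with hvb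
  set ua : ℕ → ℝ := fun l => Lk Q Y (ma l) - ga l with hua
  set ub : ℕ → ℝ := fun l => Lk Q Y (mb l) - gb l with hub
  set da : ℕ → ℝ := fun l => dQ Q (ma l) with hda
  set db : ℕ → ℝ := fun l => dQ Q (mb l) with hdb
  have hd1a : ∀ l, 1 ≤ da l := fun l => one_le_dQ Q hQ1 _
  have hd1b : ∀ l, 1 ≤ db l := fun l => one_le_dQ Q hQ1 _
  have hposa : ∀ l, M ≤ l → (1 : ℤ) ≤ ma l := by
    intro l hl
    have h1 : 1 ≤ r * l := Nat.mul_pos hr (by omega)
    have h2 : (1 : ℤ) ≤ ((r * l : ℕ) : ℤ) := by exact_mod_cast h1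
    simp only [hma]
    push_cast at h2 ⊢
    have : (0 : ℤ) ≤ a := Int.natCast_nonneg _
    linarith
  have hposb : ∀ l, M ≤ l → (1 : ℤ) ≤ mb l := by
    intro l hl
    have h1 : 1 ≤ r * l := Nat.mul_pos hr (by omega)
    have h2 : (1 : ℤ) ≤ ((r * l : ℕ) : ℤ) := by exact_mod_cast h1
    simp only [hmb]
    push_cast at h2 ⊢
    have : (0 : ℤ) ≤ b := Int.natCast_nonneg _
    linarith
  have habs : ∀ (m : ℤ) (ε : ℝ), |ε| ≤ 1 → 1 ≤ m → |Mod Q r ε β m| ≤ 200 * ℓ ^ 3 * dQ Q m := by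
    intro m ε hε hm
    refine (abs_Mod_le Q r hr hrleQ β ε hS.be1 hε m hm).trans ?_
    apply mul_le_mul_of_nonneg_right _ (by linarith [one_le_dQ Q hQ1 m])
    linarith
  have hgabs : ∀ l, M ≤ l → |ga l| ≤ 200 * ℓ ^ 3 * da l := fun l hl =>
    habs _ _ (hS.chi1 _) (hposa l hl)
  have huabs : ∀ l, M ≤ l → l + 2 ≤ 4 * M → |ua l| ≤ τ * da l := by
    intro l h1 h2
    obtain ⟨h3, h4⟩ := cp_range (by omega) hr ha h1 h2
    have h5 := hS.main (ma l) h3 h4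
    have h6 : χ (ma l) = χ a := hS.per a l
    rw [h6] at h5
    exact h5
  have hubabs : ∀ l, M ≤ l → l + 2 ≤ 4 * M → |ub l| ≤ τ * db l := by
    intro l h1 h2
    obtain ⟨h3, h4⟩ := cp_range (by omega) hr hb h1 h2
    have h5 := hS.main (mb l) h3 h4
    have h6 : χ (mb l) = χ b := hS.per b l
    rw [h6] at h5
    exact h5
  have hlpb : ∀ l, M ≤ l → l ≤ 4 * M → 0 ≤ lp (mb l) ∧ lp (mb l) ≤ 2 * ℓ := by
    intro l h1 h2
    have h3 : (mb l : ℤ) ≤ ((6 * X : ℕ) : ℤ) := by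
      have h4 : r * l ≤ r * (4 * M) := Nat.mul_le_mul_left _ h2
      have h5 : b + r * l ≤ 6 * X := by
        rw [hX]
        have : 2 * r ≤ 2 * (M * r) := by nlinarith
        nlinarith
      simp only [hmb]
      exact_mod_cast h5
    obtain ⟨h6, h7⟩ := BA2_lp_bounds (mb l) (6 * X) (hposb l h1) (by exact_mod_cast h3)
    refine ⟨h6, h7.trans ?_⟩
    rw [Real.log_mul (by norm_num) hXr.ne']
    have : Real.log 6 ≤ 6 := by
      have := Real.log_le_sub_one_of_pos (show (0 : ℝ) < 6 by norm_num)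
      linarith
    linarith
  -- moments
  have hdma : ∀ s, ∑ c ∈ range H, da (s + c) ^ 2 ≤ 2 * H * ℓ ^ 3 := by
    intro s
    refine (dQ_moment Q H r a s hr hca).trans ?_
    have h3 : (H : ℝ) * (1 + Real.log Q) ^ 3 ≤ H * ℓ ^ 3 :=
      mul_le_mul_of_nonneg_left hℓQ (by linarith)
    have h6 : (H : ℝ) * 1 ≤ H * ℓ ^ 3 := mul_le_mul_of_nonneg_left hℓ3 (by linarith)
    linarith
  have hdmb : ∀ s, ∑ c ∈ range H, db (s + c) ^ 2 ≤ 2 * H * ℓ ^ 3 := by
    intro s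
    refine (dQ_moment Q H r b s hr hcb).trans ?_
    have h3 : (H : ℝ) * (1 + Real.log Q) ^ 3 ≤ H * ℓ ^ 3 :=
      mul_le_mul_of_nonneg_left hℓQ (by linarith)
    have h6 : (H : ℝ) * 1 ≤ H * ℓ ^ 3 := mul_le_mul_of_nonneg_left hℓ3 (by linarith)
    linarith
  -- exponential sums
  have hDa : ∀ s ∈ Ico M (4 * M - H), ∀ θ : ℝ,
      ‖∑ c ∈ range H, (va (s + c) : ℂ) * e (c * θ)‖ ≤ X * (Q : ℝ) ^ (-(1 / 4) : ℝ) := by
    intro s hs θ
    rw [mem_Ico] at hs
    exact hfs Q M r H R2 hr a ha s hs.1 (by omega) θ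
  have hDb : ∀ s ∈ Ico M (4 * M - H), ∀ θ : ℝ,
      ‖∑ c ∈ range H, (vb (s + c) : ℂ) * e (c * θ)‖ ≤ X * (Q : ℝ) ^ (-(1 / 4) : ℝ) := by
    intro s hs θ
    rw [mem_Ico] at hs
    exact hfs Q M r H R2 hr b hb s hs.1 (by omega) θ
  set D := (X : ℝ) * (Q : ℝ) ^ (-(1 / 4) : ℝ) with hD
  have hlpe : ∀ l, lp (mb l) = gb l + ub l + vb l := by
    intro l
    simp only [hub, hvb]
    ring
  have hlpea : ∀ l, lp (ma l) = ga l + ua l + va l := by
    intro l
    simp only [hua, hva]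
    ring
  refine ⟨fun s t => (|∑ c ∈ range H, ga (s + c) * vb (ix H σ t c)| +
      |∑ c ∈ range H, va (s + c) * lp (mb (ix H σ t c))| + (Q : ℝ) ^ 9) / M, ?_, ?_, ?_⟩
  · intro s t
    positivity
  · -- mean square
    have hIcard : ((Ico M (4 * M - H)).card : ℝ) ≤ 3 * M := by
      rw [Nat.card_Ico]
      have : 4 * M - H - M ≤ 3 * M := by omega
      exact_mod_cast this
    have hend : 4 * M - H + H = 4 * M := by omega
    have hgs : ∑ l ∈ Ico M (4 * M), ga l ^ 2 ≤ 160000 * M * ℓ ^ 9 := by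
      have h1 : ∑ l ∈ Ico M (4 * M), ga l ^ 2 ≤ ∑ l ∈ Ico M (4 * M), 40000 * ℓ ^ 6 * da l ^ 2 := by
        refine sum_le_sum fun l hl => ?_
        have hl' := mem_Ico.mp hl
        have := hgabs l hl'.1
        have h2 : ga l ^ 2 ≤ (200 * ℓ ^ 3 * da l) ^ 2 := by
          rw [← sq_abs (ga l)]
          exact pow_le_pow_left₀ (abs_nonneg _) this 2
        calc ga l ^ 2 ≤ (200 * ℓ ^ 3 * da l) ^ 2 := h2
          _ = 40000 * ℓ ^ 6 * da l ^ 2 := by ring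
      have h2 : ∑ l ∈ Ico M (4 * M), da l ^ 2 ≤ 4 * M * ℓ ^ 3 := by
        rw [sum_Ico_eq_sum_range]
        have e1 : 4 * M - M = 3 * M := by omega
        rw [e1]
        refine (dQ_moment Q (3 * M) r a M hr hca).trans ?_
        push_cast
        have h3 : (3 : ℝ) * M * (1 + Real.log Q) ^ 3 ≤ 3 * M * ℓ ^ 3 :=
          mul_le_mul_of_nonneg_left hℓQ (by positivity)
        have h6 : (M : ℝ) * 1 ≤ M * ℓ ^ 3 := mul_le_mul_of_nonneg_left hℓ3 hMr.le
        linarith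
      rw [← mul_sum] at h1
      calc ∑ l ∈ Ico M (4 * M), ga l ^ 2 ≤ _ := h1
        _ ≤ 40000 * ℓ ^ 6 * (4 * M * ℓ ^ 3) := by gcongr
        _ = 160000 * M * ℓ ^ 9 := by ring
    have hps : ∑ l ∈ Ico M (4 * M), (lp (mb l)) ^ 2 ≤ 12 * M * ℓ ^ 9 := by
      calc ∑ l ∈ Ico M (4 * M), (lp (mb l)) ^ 2 ≤ ∑ l ∈ Ico M (4 * M), (2 * ℓ) ^ 2 := by
            refine sum_le_sum fun l hl => ?_
            have hl' := mem_Ico.mp hl
            obtain ⟨h1, h2⟩ := hlpb l hl'.1 hl'.2.le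
            exact pow_le_pow_left₀ h1 h2 2
        _ = 3 * M * (2 * ℓ) ^ 2 := by
            rw [sum_const, Nat.card_Ico, nsmul_eq_mul]
            have : 4 * M - M = 3 * M := by omega
            rw [this]
            push_cast
            ring
        _ = 12 * M * ℓ ^ 2 := by ring
        _ ≤ 12 * M * ℓ ^ 9 := by
            have : ℓ ^ 2 ≤ ℓ ^ 9 := pow_le_pow_right₀ (by linarith) (by norm_num)
            gcongr
    have h1 := corr_sq' H M (4 * M - H) σ ga vb D (Ico M (4 * M - H)) hDb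
    have h2 := corr_sq H M (4 * M - H) σ va (fun l => lp (mb l)) D (Ico M (4 * M - H)) hDa
    rw [hend] at h1 h2
    set S1 := ∑ s ∈ Ico M (4 * M - H), ∑ t ∈ Ico M (4 * M - H),
      (∑ c ∈ range H, ga (s + c) * vb (ix H σ t c)) ^ 2 with hS1
    set S2 := ∑ s ∈ Ico M (4 * M - H), ∑ t ∈ Ico M (4 * M - H),
      (∑ c ∈ range H, va (s + c) * lp (mb (ix H σ t c))) ^ 2 with hS2
    have h1' : S1 ≤ 3 * M * (D ^ 2 * (160000 * M * ℓ ^ 9)) := by
      refine h1.trans ?_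
      gcongr
    have h2' : S2 ≤ 3 * M * (D ^ 2 * (12 * M * ℓ ^ 9)) := by
      refine h2.trans ?_
      gcongr
    have h3 : ∑ s ∈ Ico M (4 * M - H), ∑ t ∈ Ico M (4 * M - H),
        ((|∑ c ∈ range H, ga (s + c) * vb (ix H σ t c)| +
          |∑ c ∈ range H, va (s + c) * lp (mb (ix H σ t c))| + (Q : ℝ) ^ 9) / M) ^ 2 ≤
        3 / (M : ℝ) ^ 2 * (S1 + S2 + 9 * M ^ 2 * (Q : ℝ) ^ 18) := by
      have h4 : ∀ s ∈ Ico M (4 * M - H), ∀ t ∈ Ico M (4 * M - H),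
          ((|∑ c ∈ range H, ga (s + c) * vb (ix H σ t c)| +
          |∑ c ∈ range H, va (s + c) * lp (mb (ix H σ t c))| + (Q : ℝ) ^ 9) / M) ^ 2 ≤
          3 / (M : ℝ) ^ 2 * ((∑ c ∈ range H, ga (s + c) * vb (ix H σ t c)) ^ 2 +
            (∑ c ∈ range H, va (s + c) * lp (mb (ix H σ t c))) ^ 2 + (Q : ℝ) ^ 18) := by
        intro s _ t _
        rw [← sq_abs (∑ c ∈ range H, ga (s + c) * vb (ix H σ t c)),
          ← sq_abs (∑ c ∈ range H, va (s + c) * lp (mb (ix H σ t c)))]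
        set x1 := |∑ c ∈ range H, ga (s + c) * vb (ix H σ t c)|
        set x2 := |∑ c ∈ range H, va (s + c) * lp (mb (ix H σ t c))|
        rw [div_pow, div_mul_eq_mul_div]
        apply div_le_div_of_nonneg_right _ (by positivity)
        have : (Q : ℝ) ^ 18 = ((Q : ℝ) ^ 9) ^ 2 := by ring
        rw [this]
        nlinarith [sq_nonneg (x1 - x2), sq_nonneg (x1 - (Q : ℝ) ^ 9), sq_nonneg (x2 - (Q : ℝ) ^ 9)]
      refine (sum_le_sum fun s hs => sum_le_sum fun t ht => h4 s hs t ht).trans ?_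
      simp only [← mul_sum, sum_add_distrib]
      apply mul_le_mul_of_nonneg_left _ (by positivity)
      have h5 : ∑ s ∈ Ico M (4 * M - H), ∑ t ∈ Ico M (4 * M - H), (Q : ℝ) ^ 18 ≤
          9 * M ^ 2 * (Q : ℝ) ^ 18 := by
        rw [sum_const, sum_const, nsmul_eq_mul, nsmul_eq_mul, ← mul_assoc]
        apply mul_le_mul_of_nonneg_right _ (by positivity)
        calc ((Ico M (4 * M - H)).card : ℝ) * (Ico M (4 * M - H)).card ≤ (3 * M) * (3 * M) :=
              mul_le_mul hIcard hIcard (Nat.cast_nonneg _) (by positivity)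
          _ = 9 * M ^ 2 := by ring
      linarith
    refine h3.trans ?_
    have hDsq : D ^ 2 = (M : ℝ) ^ 2 * ((r : ℝ) * r * (Q : ℝ) ^ (-(1 / 2) : ℝ)) := by
      have e1 : ((Q : ℝ) ^ (-(1 / 4) : ℝ)) ^ 2 = (Q : ℝ) ^ (-(1 / 2) : ℝ) := by
        rw [← Real.rpow_natCast, ← Real.rpow_mul hQ0.le]
        norm_num
      rw [hD, mul_pow, e1, hXMr]
      ring
    have e2 : 3 / (M : ℝ) ^ 2 * (3 * M * (D ^ 2 * (160000 * M * ℓ ^ 9)) +
        3 * M * (D ^ 2 * (12 * M * ℓ ^ 9)) + 9 * M ^ 2 * (Q : ℝ) ^ 18) =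
        (M : ℝ) ^ 2 * (1440108 * ℓ ^ 9 * ((r : ℝ) * r * (Q : ℝ) ^ (-(1 / 2) : ℝ))) +
          27 * (Q : ℝ) ^ 18 := by
      rw [hDsq]
      field_simp
      ring
    have e3 : 3 / (M : ℝ) ^ 2 * (S1 + S2 + 9 * M ^ 2 * (Q : ℝ) ^ 18) ≤
        3 / (M : ℝ) ^ 2 * (3 * M * (D ^ 2 * (160000 * M * ℓ ^ 9)) +
        3 * M * (D ^ 2 * (12 * M * ℓ ^ 9)) + 9 * M ^ 2 * (Q : ℝ) ^ 18) := by
      apply mul_le_mul_of_nonneg_left _ (by positivity)
      linarith
    refine e3.trans ?_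
    rw [e2]
    have h6 := hK6 Q X R6
    have e4 : (Real.log X) ^ (9 : ℝ) = ℓ ^ 9 := by
      rw [hℓ, ← Real.rpow_natCast]; norm_num
    rw [e4] at h6
    have h8 : 1440108 * ℓ ^ 9 * ((r : ℝ) * r * (Q : ℝ) ^ (-(1 / 2) : ℝ)) ≤
        1 / 2 * (Q : ℝ) ^ (-(1 / 5) : ℝ) := by
      calc 1440108 * ℓ ^ 9 * ((r : ℝ) * r * (Q : ℝ) ^ (-(1 / 2) : ℝ)) ≤
            (1 / 2 * (Q : ℝ) ^ (1 / 10 : ℝ)) * ((Q : ℝ) ^ (1 / 100 : ℝ) * (Q : ℝ) ^ (1 / 100 : ℝ) *
              (Q : ℝ) ^ (-(1 / 2) : ℝ)) := by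
            have h7 : 1440108 * ℓ ^ 9 ≤ 1 / 2 * (Q : ℝ) ^ (1 / 10 : ℝ) := by linarith
            gcongr
        _ = 1 / 2 * (Q : ℝ) ^ (1 / 10 + (1 / 100 + 1 / 100 + -(1 / 2)) : ℝ) := by
            rw [Real.rpow_add hQ0, Real.rpow_add hQ0, Real.rpow_add hQ0]
            ring
        _ ≤ 1 / 2 * (Q : ℝ) ^ (-(1 / 5) : ℝ) := by
            apply mul_le_mul_of_nonneg_left _ (by norm_num)
            exact Real.rpow_le_rpow_of_exponent_le hQ1r (by norm_num)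
    have h9 : 27 * (Q : ℝ) ^ 18 ≤ (M : ℝ) ^ 2 * (1 / 2 * (Q : ℝ) ^ (-(1 / 5) : ℝ)) := by
      have h10 : (Q : ℝ) ^ 20 ≤ (M : ℝ) ^ 2 := by
        calc (Q : ℝ) ^ 20 = ((Q : ℝ) ^ 10) ^ 2 := by ring
          _ ≤ (M : ℝ) ^ 2 := pow_le_pow_left₀ (by positivity) hQM 2
      have h11 : (Q : ℝ) ^ (-(1 : ℝ)) ≤ (Q : ℝ) ^ (-(1 / 5) : ℝ) :=
        Real.rpow_le_rpow_of_exponent_le hQ1r (by norm_num)
      rw [Real.rpow_neg_one] at h11
      calc 27 * (Q : ℝ) ^ 18 ≤ (Q : ℝ) ^ 20 * (1 / 2 * (Q : ℝ)⁻¹) := by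
            have : (Q : ℝ) ^ 20 * (1 / 2 * (Q : ℝ)⁻¹) = 1 / 2 * Q * (Q : ℝ) ^ 18 := by
              field_simp
            rw [this]
            apply mul_le_mul_of_nonneg_right _ (by positivity)
            linarith
        _ ≤ (M : ℝ) ^ 2 * (1 / 2 * (Q : ℝ) ^ (-(1 / 5) : ℝ)) := by gcongr
    have hM2 : (0:ℝ) ≤ (M : ℝ) ^ 2 := by positivity
    have h10 := mul_le_mul_of_nonneg_left h8 hM2
    linarith
  · -- pairs
    intro s hs t ht hdd hpar
    have hs1 := mem_Ico.mp hs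
    have ht1 := mem_Ico.mp ht
    have hix : ∀ c ∈ range H, M ≤ ix H σ t c ∧ ix H σ t c + 2 ≤ 4 * M := fun c hc =>
      cp_ix_bd ht1.1 (by omega) (mem_range.mp hc)
    have ecast : ∑ c ∈ range H, lp ((a + r * (s + c) : ℕ) : ℤ) *
        lp ((b + r * ix H σ t c : ℕ) : ℤ) =
        ∑ c ∈ range H, lp (ma (s + c)) * lp (mb (ix H σ t c)) := by
      refine sum_congr rfl fun c _ => ?_
      simp only [hma, hmb]
      push_cast
      rfl
    rw [ecast]
    have esum : ∑ c ∈ range H, lp (ma (s + c)) * lp (mb (ix H σ t c)) =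
        ∑ c ∈ range H, ga (s + c) * gb (ix H σ t c) + ∑ c ∈ range H, ga (s + c) * ub (ix H σ t c) +
        ∑ c ∈ range H, ga (s + c) * vb (ix H σ t c) +
        ∑ c ∈ range H, ua (s + c) * lp (mb (ix H σ t c)) +
        ∑ c ∈ range H, va (s + c) * lp (mb (ix H σ t c)) := by
      simp only [← sum_add_distrib]
      refine sum_congr rfl fun c _ => ?_
      rw [hlpea, hlpe]
      ring
    rw [esum]
    -- the small parts
    have hdb2 : ∑ c ∈ range H, db (ix H σ t c) ^ 2 ≤ 2 * H * ℓ ^ 3 := by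
      rw [cp_ix_sum H σ t (fun l => db l ^ 2)]
      exact hdmb t
    have p1 : |∑ c ∈ range H, ga (s + c) * ub (ix H σ t c)| ≤ 200 * ℓ ^ 3 * τ * (2 * H * ℓ ^ 3) :=
      cp_small (d := fun c => da (s + c)) (d' := fun c => db (ix H σ t c)) (by positivity) hτ
        (fun c hc => hgabs _ (by omega)) (fun c hc => hubabs _ (hix c hc).1 (hix c hc).2)
        (fun c _ => by linarith [hd1a (s + c)]) (fun c _ => by linarith [hd1b (ix H σ t c)])
        (hdma s) hdb2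
    have p2 : |∑ c ∈ range H, ua (s + c) * lp (mb (ix H σ t c))| ≤
        τ * (2 * ℓ) * (2 * H * ℓ ^ 3) :=
      cp_small (d := fun c => da (s + c)) (d' := fun c => db (ix H σ t c)) hτ (by positivity)
        (fun c hc => huabs _ (by omega) (by have := mem_range.mp hc; omega))
        (fun c hc => by
          obtain ⟨h1, h2⟩ := hlpb _ (hix c hc).1 (by have := (hix c hc).2; omega)
          rw [abs_of_nonneg h1]
          nlinarith [hd1b (ix H σ t c)])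
        (fun c _ => by linarith [hd1a (s + c)]) (fun c _ => by linarith [hd1b (ix H σ t c)])
        (hdma s) hdb2
    -- the model
    have hmodel : ((r : ℝ) / Nat.totient r) ^ 2 *
          ((∑ c ∈ range H, (1 - χ a * ((a + r * (s + c) : ℕ) : ℝ) ^ (β - 1)) *
              (1 - χ b * ((b + r * ix H σ t c : ℕ) : ℝ) ^ (β - 1))) *
                (1 / 2 * Gp r (dd H r σ a b s t)) -
            C * H * (Q : ℝ) ^ (-(1 / 4) : ℝ) * Rk (dd H r σ a b s t)) - (Q : ℝ) ^ 9 ≤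
        ∑ c ∈ range H, ga (s + c) * gb (ix H σ t c) := by
      have hcx : IsCoprime ((a : ℤ) + r * s) (r : ℤ) :=
        (Nat.isCoprime_iff_coprime.mpr hca).add_mul_left_left _
      have hcy : ∀ l : ℤ, IsCoprime ((b : ℤ) + r * l) (r : ℤ) := fun l =>
        (Nat.isCoprime_iff_coprime.mpr hcb).add_mul_left_left _
      have h8 : 8 ≤ Q := by exact_mod_cast (by linarith : (8:ℝ) ≤ Q)
      have hx1 : (1 : ℤ) ≤ (a : ℤ) + r * s := hposa s hs1.1
      cases σ with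
      | true =>
        have hy1 : (1 : ℤ) ≤ (b : ℤ) + r * t := hposb t ht1.1
        have hddv : dd H r true a b s t = ((a : ℤ) + r * s) - (b + r * t) := rfl
        have h1 := hml Q H r r ((a : ℤ) + r * s) ((b : ℤ) + r * t) β (χ a) (χ b) hr hrQ h8
          (dvd_refl r) hcx (hcy t) hx1 (Or.inl hy1)
          (fun h => hdd (by rw [hddv, h, sub_self]))
          (by rw [← hddv]; exact hpar) hS.be hS.be1 (hS.chi1 _) (hS.chi1 _)
        rw [← hddv] at h1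
        have e1 : ∑ c ∈ range H, MM Q r (χ a) β ((a : ℤ) + r * s + r * (c : ℕ)) *
            MM Q r (χ b) β ((b : ℤ) + r * t + r * (c : ℕ)) =
            ∑ c ∈ range H, ga (s + c) * gb (ix H true t c) := by
          refine sum_congr rfl fun c _ => ?_
          have e2 : (a : ℤ) + r * s + r * (c : ℕ) = ma (s + c) := by
            simp only [hma]; push_cast; ring
          have e3 : (b : ℤ) + r * t + r * (c : ℕ) = mb (ix H true t c) := by
            simp only [hmb, ix, cond_true]; push_cast; ring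
          rw [e2, e3, cp_MM_pos _ _ _ _ _ (by have := hposa (s + c) (by omega); omega),
            cp_MM_pos _ _ _ _ _ (by
              have := hposb (ix H true t c) (by simp only [ix, cond_true]; omega); omega)]
        have e4 : ∑ c ∈ range H, (1 - χ a * |(((a : ℤ) + r * s + r * (c : ℕ) : ℤ) : ℝ)| ^ (β - 1)) *
            (1 - χ b * |(((b : ℤ) + r * t + r * (c : ℕ) : ℤ) : ℝ)| ^ (β - 1)) =
            ∑ c ∈ range H, (1 - χ a * ((a + r * (s + c) : ℕ) : ℝ) ^ (β - 1)) *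
              (1 - χ b * ((b + r * ix H true t c : ℕ) : ℝ) ^ (β - 1)) := by
          refine sum_congr rfl fun c _ => ?_
          have e2 : (((a : ℤ) + r * s + r * (c : ℕ) : ℤ) : ℝ) = ((a + r * (s + c) : ℕ) : ℝ) := by
            push_cast; ring
          have e3 : (((b : ℤ) + r * t + r * (c : ℕ) : ℤ) : ℝ) =
              ((b + r * ix H true t c : ℕ) : ℝ) := by
            simp only [ix, cond_true]; push_cast; ring
          rw [e2, e3, abs_of_nonneg (Nat.cast_nonneg _), abs_of_nonneg (Nat.cast_nonneg _)]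
        rw [e1, e4] at h1
        exact h1
      | false =>
        have hddv : dd H r false a b s t =
            ((a : ℤ) + r * s) - (-(b + r * (t + (H - 1 : ℕ)))) := by
          simp only [dd, cond_false]; ring
        have hcy' : IsCoprime (-((b : ℤ) + r * (t + (H - 1 : ℕ)))) (r : ℤ) := (hcy _).neg_left
        have hH1 : ((H - 1 : ℕ) : ℤ) = (H : ℤ) - 1 := by omega
        have hyneg : -((b : ℤ) + r * (t + (H - 1 : ℕ))) + r * H ≤ 0 := by
          rw [hH1]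
          have h2 : (r : ℤ) ≤ r * t := by
            have : r * 1 ≤ r * t := Nat.mul_le_mul_left _ (by omega)
            have h3 : ((r * 1 : ℕ) : ℤ) ≤ ((r * t : ℕ) : ℤ) := by exact_mod_cast this
            push_cast at h3
            linarith
          have h3 : (0 : ℤ) ≤ b := Int.natCast_nonneg _
          linarith
        have h1 := hml Q H r r ((a : ℤ) + r * s) (-((b : ℤ) + r * (t + (H - 1 : ℕ)))) β (χ a) (χ b)
          hr hrQ h8 (dvd_refl r) hcx hcy' hx1 (Or.inr hyneg)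
          (fun h => hdd (by rw [hddv, h, sub_self]))
          (by rw [← hddv]; exact hpar) hS.be hS.be1 (hS.chi1 _) (hS.chi1 _)
        rw [← hddv] at h1
        have key : ∀ c ∈ range H, -((b : ℤ) + r * (t + (H - 1 : ℕ))) + r * (c : ℕ) =
            -(mb (ix H false t c)) := by
          intro c hc
          have hc' := mem_range.mp hc
          have e5 : ((H - 1 - c : ℕ) : ℤ) = (H : ℤ) - 1 - c := by omega
          simp only [hmb, ix, cond_false]
          push_cast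
          rw [e5, hH1]
          ring
        have e1 : ∑ c ∈ range H, MM Q r (χ a) β ((a : ℤ) + r * s + r * (c : ℕ)) *
            MM Q r (χ b) β (-((b : ℤ) + r * (t + (H - 1 : ℕ))) + r * (c : ℕ)) =
            ∑ c ∈ range H, ga (s + c) * gb (ix H false t c) := by
          refine sum_congr rfl fun c hc => ?_
          have e2 : (a : ℤ) + r * s + r * (c : ℕ) = ma (s + c) := by
            simp only [hma]; push_cast; ring
          rw [e2, key c hc, cp_MM_neg,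
            cp_MM_pos _ _ _ _ _ (by have := hposa (s + c) (by omega); omega),
            cp_MM_pos _ _ _ _ _ (by have := hposb (ix H false t c) (hix c hc).1; omega)]
        have e4 : ∑ c ∈ range H, (1 - χ a * |(((a : ℤ) + r * s + r * (c : ℕ) : ℤ) : ℝ)| ^ (β - 1)) *
            (1 - χ b * |((-((b : ℤ) + r * (t + (H - 1 : ℕ))) + r * (c : ℕ) : ℤ) : ℝ)| ^ (β - 1)) =
            ∑ c ∈ range H, (1 - χ a * ((a + r * (s + c) : ℕ) : ℝ) ^ (β - 1)) *
              (1 - χ b * ((b + r * ix H false t c : ℕ) : ℝ) ^ (β - 1)) := by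
          refine sum_congr rfl fun c hc => ?_
          have e2 : (((a : ℤ) + r * s + r * (c : ℕ) : ℤ) : ℝ) = ((a + r * (s + c) : ℕ) : ℝ) := by
            push_cast; ring
          have e3 : ((-((b : ℤ) + r * (t + (H - 1 : ℕ))) + r * (c : ℕ) : ℤ) : ℝ) =
              -((b + r * ix H false t c : ℕ) : ℝ) := by
            rw [key c hc]
            simp only [hmb]
            push_cast
            ring
          rw [e2, e3, abs_neg, abs_of_nonneg (Nat.cast_nonneg _), abs_of_nonneg (Nat.cast_nonneg _)]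
        rw [e1, e4] at h1
        exact h1
    -- assembly
    set E1 := ∑ c ∈ range H, ga (s + c) * vb (ix H σ t c) with hE1
    set E2 := ∑ c ∈ range H, va (s + c) * lp (mb (ix H σ t c)) with hE2
    have hME : (M : ℝ) * ((|E1| + |E2| + (Q : ℝ) ^ 9) / M) = |E1| + |E2| + (Q : ℝ) ^ 9 := by
      field_simp
    have q1 := neg_abs_le E1
    have q2 := neg_abs_le E2
    have q3 := (abs_le.mp p1).1
    have q4 := (abs_le.mp p2).1
    have hτℓ : 200 * ℓ ^ 3 * τ * (2 * H * ℓ ^ 3) + τ * (2 * ℓ) * (2 * H * ℓ ^ 3) ≤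
        H * (τ * ℓ ^ 10) := by
      have h1 : 400 * ℓ ^ 6 + 4 * ℓ ^ 4 ≤ ℓ ^ 10 := by
        have h2 : (1000 : ℝ) ≤ ℓ ^ 4 := by
          calc (1000 : ℝ) ≤ ℓ := hlX
            _ = ℓ ^ 1 := (pow_one _).symm
            _ ≤ ℓ ^ 4 := pow_le_pow_right₀ (by linarith) (by norm_num)
        have h3 : ℓ ^ 4 ≤ ℓ ^ 6 := pow_le_pow_right₀ (by linarith) (by norm_num)
        have h4 : ℓ ^ 10 = ℓ ^ 4 * ℓ ^ 6 := by ring
        have h5 : 0 ≤ ℓ ^ 6 := by positivity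
        rw [h4]
        nlinarith
      calc 200 * ℓ ^ 3 * τ * (2 * H * ℓ ^ 3) + τ * (2 * ℓ) * (2 * H * ℓ ^ 3)
          = H * (τ * (400 * ℓ ^ 6 + 4 * ℓ ^ 4)) := by ring
        _ ≤ H * (τ * ℓ ^ 10) := by gcongr
    beta_reduce
    rw [hME]
    linarith

end Pool.Agent.Lib.H18E
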