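import Mathlib

/-!
# Chunk CL: pairs of values of a quadratic character
-/

open Finset

namespace Pool.Agent.Lib.H18E

/-- Let `θ` be the quadratic character modulo `p ≥ 7`. As `1 + a z ∈ {0, 1, 2}` detects `z = a` among
`z ∈ {0, 1, -1}`, the number of `y` is
`(1/4) ∑_{y ≠ ± x} (1 + a θ(x + y)) (1 + b θ(s (x - y)))`. Here `∑_{y ≠ ±x} 1 = p - 2`,
`∑_{y ≠ ±x} θ(x + y) = - θ(2 x)`, `∑_{y ≠ ±x} θ(s (x - y)) = - θ(s) θ(2 x)` (`MulChar.sum_eq_zero_of_ne_one`),
and `∑_y θ(x + y) θ(x - y) = θ(4 x^2) jacobiSum θ θ = - θ(-1)` by the substitution `y = x (2 t - 1)`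
(`jacobiSum_nontrivial_inv`, `θ⁻¹ = θ`). So the number is an integer at least `(p - 2 - 3)/4`; this is at
least `(p - 2)/10`. -/
theorem cl_local (p : ℕ) [Fact p.Prime] (hp : 7 ≤ p) (θ : MulChar (ZMod p) ℂ) (h1 : θ ≠ 1)
    (h2 : θ ^ 2 = 1) (x : ZMod p) (hx : x ≠ 0) (s : ZMod p) (hs : s = 1 ∨ s = -1) (a b : ℂ)
    (ha : a = 1 ∨ a = -1) (hb : b = 1 ∨ b = -1) :
    open Classical in
    ((p : ℝ) - 2) / 10 ≤
      ((univ.filter (fun y : ZMod p => θ (x + y) = a ∧ θ (s * (x - y)) = b)).card : ℝ) := by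
  classical
  have hs0 : s ≠ 0 := by rcases hs with rfl | rfl <;> simp
  have h20 : (2 : ZMod p) ≠ 0 := by
    intro h
    have h3 : ((2 : ℕ) : ZMod p) = 0 := by exact_mod_cast h
    rw [ZMod.natCast_eq_zero_iff] at h3
    have := Nat.le_of_dvd (by norm_num) h3
    omega
  have hval : ∀ z : ZMod p, z ≠ 0 → θ z = 1 ∨ θ z = -1 := by
    intro z hz
    have h3 : (θ ^ 2) z = 1 := by
      rw [h2]; exact MulChar.one_apply (isUnit_iff_ne_zero.2 hz)
    rw [MulChar.pow_apply' _ two_ne_zero] at h3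
    have h4 : (θ z - 1) * (θ z + 1) = 0 := by linear_combination h3
    rcases mul_eq_zero.1 h4 with h5 | h5
    · left; linear_combination h5
    · right; linear_combination h5
  have h00 : θ 0 = 0 := MulChar.map_zero θ
  have hnorm : ∀ z : ZMod p, ‖θ z‖ ≤ 1 := by
    intro z
    by_cases hz : z = 0
    · rw [hz, h00]; simp
    · rcases hval z hz with h | h <;> rw [h] <;> simp
  have hna : ‖a‖ = 1 := by rcases ha with rfl | rfl <;> simp
  have hnb : ‖b‖ = 1 := by rcases hb with rfl | rfl <;> simp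
  -- the three sums
  have hS1 : ∑ y, θ (x + y) = 0 := by
    rw [← MulChar.sum_eq_zero_of_ne_one h1]
    exact Fintype.sum_equiv (Equiv.addLeft x) _ _ (fun y => rfl)
  have hS2 : ∑ y, θ (s * (x - y)) = 0 := by
    have : ∀ y, θ (s * (x - y)) = θ s * θ (x - y) := fun y => map_mul θ _ _
    simp_rw [this]
    rw [← mul_sum]
    have h3 : ∑ y, θ (x - y) = 0 := by
      rw [← MulChar.sum_eq_zero_of_ne_one h1]
      exact Fintype.sum_equiv (Equiv.subLeft x) _ _ (fun y => rfl)
    rw [h3, mul_zero]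
  have hinv : θ⁻¹ = θ := inv_eq_of_mul_eq_one_right (by rw [← sq, h2])
  have hJ : jacobiSum θ θ = -θ (-1) := by
    have := jacobiSum_nontrivial_inv h1
    rwa [hinv] at this
  have h2x : (2 : ZMod p) * x ≠ 0 := mul_ne_zero h20 hx
  have hS3 : ∑ y, θ (x + y) * θ (s * (x - y)) = θ s * (θ (2 * x) ^ 2 * jacobiSum θ θ) := by
    have hbij : Function.Bijective (fun t : ZMod p => x * (2 * t - 1)) := by
      constructor
      · intro t t' h
        have h3 := mul_left_cancel₀ hx h
        have h4 : (2 : ZMod p) * t = 2 * t' := by linear_combination h3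
        exact mul_left_cancel₀ h20 h4
      · intro y
        refine ⟨(y / x + 1) / 2, ?_⟩
        simp only
        field_simp
        ring
    rw [← hbij.sum_comp (fun y => θ (x + y) * θ (s * (x - y)))]
    unfold jacobiSum
    rw [mul_sum, mul_sum]
    refine sum_congr rfl fun t _ => ?_
    rw [show x + x * (2 * t - 1) = 2 * x * t by ring,
      show s * (x - x * (2 * t - 1)) = s * (2 * x) * (1 - t) by ring]
    simp only [map_mul]
    ring
  -- the sum over all `y`
  have hall : ∑ y, (1 + a * θ (x + y)) * (1 + b * θ (s * (x - y))) =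
      p + a * b * (θ s * (θ (2 * x) ^ 2 * jacobiSum θ θ)) := by
    have h3 : ∀ y, (1 + a * θ (x + y)) * (1 + b * θ (s * (x - y))) =
        1 + a * θ (x + y) + b * θ (s * (x - y)) + a * b * (θ (x + y) * θ (s * (x - y))) :=
      fun y => by ring
    simp_rw [h3]
    rw [sum_add_distrib, sum_add_distrib, sum_add_distrib, ← mul_sum, ← mul_sum, ← mul_sum, hS1, hS2,
      hS3]
    simp [ZMod.card]
  -- the two exceptional points
  have hxx : x ≠ -x := by
    intro h
    apply h2x
    linear_combination h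
  have hsplit : ∑ y, (1 + a * θ (x + y)) * (1 + b * θ (s * (x - y))) =
      (∑ y ∈ (univ.erase x).erase (-x), (1 + a * θ (x + y)) * (1 + b * θ (s * (x - y)))) +
        (1 + b * θ (s * (2 * x))) + (1 + a * θ (2 * x)) := by
    rw [← sum_erase_add _ _ (mem_univ x), ← sum_erase_add _ _
      (mem_erase.2 ⟨hxx.symm, mem_univ (-x)⟩)]
    rw [show x + x = 2 * x by ring, show x - x = 0 by ring, show x + -x = 0 by ring,
      show x - -x = 2 * x by ring, mul_zero, h00]
    ring
  -- the count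
  have hcount : (4 : ℂ) * ((univ.filter (fun y : ZMod p => θ (x + y) = a ∧
      θ (s * (x - y)) = b)).card : ℂ) =
      ∑ y ∈ (univ.erase x).erase (-x), (1 + a * θ (x + y)) * (1 + b * θ (s * (x - y))) := by
    have hfac : ∀ c z : ℂ, (c = 1 ∨ c = -1) → (z = 1 ∨ z = -1) →
        1 + c * z = if z = c then 2 else 0 := by
      intro c z hc hz
      rcases hc with rfl | rfl <;> rcases hz with rfl | rfl <;> norm_num
    have h3 : univ.filter (fun y : ZMod p => θ (x + y) = a ∧ θ (s * (x - y)) = b) =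
        ((univ.erase x).erase (-x)).filter
          (fun y : ZMod p => θ (x + y) = a ∧ θ (s * (x - y)) = b) := by
      ext y
      simp only [mem_filter, mem_univ, true_and, mem_erase, and_true]
      constructor
      · rintro ⟨h4, h5⟩
        refine ⟨⟨?_, ?_⟩, h4, h5⟩
        · rintro rfl
          rw [show x + -x = 0 by ring, h00] at h4
          rcases ha with rfl | rfl <;> norm_num at h4
        · rintro rfl
          rw [show y - y = 0 by ring, mul_zero, h00] at h5
          rcases hb with rfl | rfl <;> norm_num at h5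
      · rintro ⟨-, h4⟩; exact h4
    rw [h3, card_filter]
    push_cast
    rw [mul_sum]
    refine sum_congr rfl fun y hy => ?_
    rw [mem_erase, mem_erase] at hy
    have h4 : x + y ≠ 0 := fun h => hy.1 (by linear_combination h)
    have h5 : s * (x - y) ≠ 0 := mul_ne_zero hs0 (fun h => hy.2.1 (by linear_combination -h))
    rw [hfac a _ ha (hval _ h4), hfac b _ hb (hval _ h5)]
    generalize θ (x + y) = u1
    generalize θ (s * (x - y)) = v1
    by_cases h6 : u1 = a
    · by_cases h7 : v1 = b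
      · rw [if_pos h6, if_pos h7, if_pos ⟨h6, h7⟩]; norm_num
      · rw [if_neg h7, if_neg (fun h => h7 h.2)]; ring
    · rw [if_neg h6, if_neg (fun h => h6 h.1)]; ring
  have hfin : (4 : ℂ) * ((univ.filter (fun y : ZMod p => θ (x + y) = a ∧
      θ (s * (x - y)) = b)).card : ℂ) - ((p : ℂ) - 2) =
      a * b * (θ s * (θ (2 * x) ^ 2 * jacobiSum θ θ)) - b * θ (s * (2 * x)) - a * θ (2 * x) := by
    rw [hcount]
    rw [hall] at hsplit
    linear_combination -hsplit
  have hle : ‖(4 : ℂ) * ((univ.filter (fun y : ZMod p => θ (x + y) = a ∧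
      θ (s * (x - y)) = b)).card : ℂ) - ((p : ℂ) - 2)‖ ≤ 3 := by
    rw [hfin]
    have e1 : ‖a * b * (θ s * (θ (2 * x) ^ 2 * jacobiSum θ θ))‖ ≤ 1 := by
      rw [norm_mul, norm_mul, norm_mul, norm_mul, norm_pow, hna, hnb, hJ, norm_neg]
      have n1 := hnorm s
      have n2 := hnorm (2 * x)
      have n3 := hnorm (-1)
      have n4 : ‖θ (2 * x)‖ ^ 2 ≤ 1 := pow_le_one₀ (norm_nonneg _) n2
      calc 1 * 1 * (‖θ s‖ * (‖θ (2 * x)‖ ^ 2 * ‖θ (-1)‖)) ≤ 1 * 1 * (1 * (1 * 1)) := by
            gcongr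
        _ = 1 := by norm_num
    have e2 : ‖b * θ (s * (2 * x))‖ ≤ 1 := by
      rw [norm_mul, hnb, one_mul]; exact hnorm _
    have e3 : ‖a * θ (2 * x)‖ ≤ 1 := by
      rw [norm_mul, hna, one_mul]; exact hnorm _
    calc _ ≤ ‖a * b * (θ s * (θ (2 * x) ^ 2 * jacobiSum θ θ)) - b * θ (s * (2 * x))‖ +
          ‖a * θ (2 * x)‖ := norm_sub_le _ _
      _ ≤ ‖a * b * (θ s * (θ (2 * x) ^ 2 * jacobiSum θ θ))‖ + ‖b * θ (s * (2 * x))‖ +
          ‖a * θ (2 * x)‖ := by gcongr; exact norm_sub_le _ _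
      _ ≤ 3 := by linarith
  have hre : ‖(4 : ℂ) * ((univ.filter (fun y : ZMod p => θ (x + y) = a ∧
      θ (s * (x - y)) = b)).card : ℂ) - ((p : ℂ) - 2)‖ =
      |4 * ((univ.filter (fun y : ZMod p => θ (x + y) = a ∧
      θ (s * (x - y)) = b)).card : ℝ) - ((p : ℝ) - 2)| := by
    rw [← Real.norm_eq_abs, ← Complex.norm_real]
    push_cast
    rfl
  rw [hre] at hle
  have h8 := (abs_le.1 hle).1
  have h9 : (7 : ℝ) ≤ p := by exact_mod_cast hp
  linarith

end Pool.Agent.Lib.H18E
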