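import Mathlib

/-!
# Chunk CO: conductors of quadratic characters
-/

open Finset

namespace Pool.Agent.Lib.H18E

theorem CO_factor (r : ℕ) [NeZero r] (ψ : DirichletCharacter ℂ r) (hψ : ψ.IsPrimitive)
    (h2 : ψ ^ 2 = 1) (m : ℕ) (hm : m ∣ r) (hlt : m < r)
    (H : ∀ k : ZMod r, ∃ v : ZMod r, 1 + k * (m : ZMod r) = v ^ 2) : False := by
  have hm0 : 0 < m := Nat.pos_of_dvd_of_pos hm (NeZero.pos r)
  have hf : DirichletCharacter.FactorsThrough ψ m := by
    rw [DirichletCharacter.factorsThrough_iff_ker_unitsMap hm]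
    intro u hu
    rw [MonoidHom.mem_ker] at hu ⊢
    have h1 : ((u : ZMod r).cast : ZMod m) = 1 := by
      have := congrArg (fun z : (ZMod m)ˣ => (z : ZMod m)) hu
      simpa [ZMod.unitsMap_def] using this
    obtain ⟨k, hk⟩ : ∃ k : ZMod r, (u : ZMod r) = 1 + k * (m : ZMod r) := by
      rw [ZMod.cast_eq_val] at h1
      have h3 : (((u : ZMod r).val : ℤ) : ZMod m) = ((1 : ℤ) : ZMod m) := by
        push_cast; exact h1
      rw [ZMod.intCast_eq_intCast_iff_dvd_sub] at h3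
      obtain ⟨j, hj⟩ := h3
      refine ⟨((-j : ℤ) : ZMod r), ?_⟩
      have h4 : ((u : ZMod r).val : ℤ) = 1 + (-j) * m := by linarith
      have h5 : (((u : ZMod r).val : ℤ) : ZMod r) = ((1 + (-j) * m : ℤ) : ZMod r) := by rw [h4]
      push_cast at h5 ⊢
      rw [← h5]
      simp
    obtain ⟨v, hv⟩ := H k
    rw [← hk] at hv
    have hvu : IsUnit v := by
      have : IsUnit (v ^ 2) := hv ▸ u.isUnit
      exact (isUnit_pow_iff two_ne_zero).1 this
    obtain ⟨w, rfl⟩ := hvu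
    have hw : u = w ^ 2 := by
      apply Units.ext
      simpa using hv
    have h6 := congrArg (fun f : DirichletCharacter ℂ r => f (w : ZMod r)) h2
    simp only [MulChar.pow_apply_coe, MulChar.one_apply_coe] at h6
    apply Units.ext
    rw [hw, map_pow]
    simpa using h6
  have h7 : ψ.conductor ≤ m :=
    Nat.le_of_dvd hm0 (DirichletCharacter.conductor_dvd_of_mem_conductorSet _ hf)
  rw [(DirichletCharacter.isPrimitive_def ψ).1 hψ] at h7
  omega

/-- Let `ψ` be primitive modulo `r`, `ψ ^ 2 = 1`, `p ∣ r` a prime. If every unit `≡ 1` modulo `r / p`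
is a square modulo `r`, then `ψ` is trivial on these units, and factors through `r / p`
(`DirichletCharacter.factorsThrough_iff_ker_unitsMap`), which contradicts primitivity
(`DirichletCharacter.conductor_dvd_of_mem_conductorSet`). If `p` is odd and `p ^ 2 ∣ r`, then
`1 + k r/p ≡ (1 + k (p+1)/2 · r/p)^2` modulo `r`, since `r ∣ (r/p)^2`. -/
theorem sq_not_dvd (r : ℕ) [NeZero r] (ψ : DirichletCharacter ℂ r) (hψ : ψ.IsPrimitive)
    (h2 : ψ ^ 2 = 1) (p : ℕ) (hp : p.Prime) (hodd : p ≠ 2) : ¬ p ^ 2 ∣ r := by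
  rintro ⟨q, hq⟩
  have hr : 0 < r := NeZero.pos r
  have hq0 : 0 < q := by
    rcases Nat.eq_zero_or_pos q with h | h
    · rw [h] at hq; omega
    · exact h
  obtain ⟨b, hb⟩ := hp.odd_of_ne_two hodd
  refine CO_factor r ψ hψ h2 (p * q) ⟨p, by rw [hq]; ring⟩ ?_ ?_
  · rw [hq]
    have := hp.two_le
    have h3 : 0 < p * q := Nat.mul_pos hp.pos hq0
    calc p * q < p * (p * q) := by nlinarith
      _ = p ^ 2 * q := by ring
  · intro k
    refine ⟨1 + k * ((b + 1 : ℕ) : ZMod r) * ((p * q : ℕ) : ZMod r), ?_⟩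
    have hrz : ((p ^ 2 * q : ℕ) : ZMod r) = 0 := by
      rw [← hq]; exact ZMod.natCast_self r
    have hpb : (p : ZMod r) = 2 * b + 1 := by
      have : ((p : ℕ) : ZMod r) = ((2 * b + 1 : ℕ) : ZMod r) := by rw [← hb]
      push_cast at this; exact this
    push_cast at hrz ⊢
    have e1 : ((p : ZMod r) * q) ^ 2 = 0 := by
      have : ((p : ZMod r) * q) ^ 2 = (p ^ 2 * q) * q := by ring
      rw [this, hrz, zero_mul]
    have e2 : 2 * ((b : ZMod r) + 1) = p + 1 := by rw [hpb]; ring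
    have e3 : (p : ZMod r) * (p * q) = 0 := by
      have : (p : ZMod r) * (p * q) = p ^ 2 * q := by ring
      rw [this, hrz]
    calc 1 + k * ((p : ZMod r) * q) = 1 + k * (p * q) + k * (p * (p * q)) +
          (k * (b + 1)) ^ 2 * (p * q) ^ 2 := by rw [e3, e1]; ring
      _ = 1 + k * ((p + 1) * (p * q)) + (k * (b + 1)) ^ 2 * (p * q) ^ 2 := by ring
      _ = 1 + k * (2 * (b + 1) * (p * q)) + (k * (b + 1)) ^ 2 * (p * q) ^ 2 := by rw [e2]
      _ = _ := by ring

/-- If `16 ∣ r`, then `1 + k r/2 ≡ (1 + k r/4)^2` modulo `r` since `r ∣ (r/4)^2`. -/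
theorem sixteen_not_dvd (r : ℕ) [NeZero r] (ψ : DirichletCharacter ℂ r) (hψ : ψ.IsPrimitive)
    (h2 : ψ ^ 2 = 1) : ¬ 16 ∣ r := by
  rintro ⟨q, hq⟩
  have hr : 0 < r := NeZero.pos r
  refine CO_factor r ψ hψ h2 (8 * q) ⟨2, by rw [hq]; ring⟩ (by omega) ?_
  intro k
  refine ⟨1 + k * ((4 * q : ℕ) : ZMod r), ?_⟩
  have hrz : ((16 * q : ℕ) : ZMod r) = 0 := by
    rw [← hq]; exact ZMod.natCast_self r
  push_cast at hrz ⊢
  have e1 : k ^ 2 * ((16 : ZMod r) * q) * q = 0 := by rw [hrz]; ring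
  calc 1 + k * ((8 : ZMod r) * q) = 1 + k * (8 * q) + k ^ 2 * ((16 : ZMod r) * q) * q := by
        rw [e1, add_zero]
    _ = _ := by ring

/-- If no prime `p ≥ 7` divides `r`, then `r ∣ 8 * 3 * 5`. -/
theorem cond_big (r : ℕ) [NeZero r] (ψ : DirichletCharacter ℂ r) (hψ : ψ.IsPrimitive)
    (h2 : ψ ^ 2 = 1) (hr : 120 < r) : ∃ p : ℕ, p.Prime ∧ 7 ≤ p ∧ p ∣ r := by
  by_contra hcon
  push Not at hcon
  have hd : r ∣ 120 := by
    rw [Nat.dvd_iff_prime_pow_dvd_dvd]
    intro p k hp hk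
    rcases Nat.eq_zero_or_pos k with rfl | hk0
    · simp
    have hpr : p ∣ r := (dvd_pow_self p hk0.ne').trans hk
    have hp7 : p < 7 := by
      by_contra h
      exact hcon p hp (by omega) hpr
    have hp2 := hp.two_le
    have hsq : p ≠ 2 → k = 1 := by
      intro hne
      by_contra hk1
      exact sq_not_dvd r ψ hψ h2 p hp hne ((pow_dvd_pow p (by omega)).trans hk)
    interval_cases p
    · have hk3 : k ≤ 3 := by
        by_contra h
        have h16 : (16 : ℕ) ∣ 2 ^ k := by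
          have : (2 : ℕ) ^ 4 ∣ 2 ^ k := pow_dvd_pow 2 (by omega)
          simpa using this
        exact sixteen_not_dvd r ψ hψ h2 (h16.trans hk)
      exact (pow_dvd_pow 2 hk3).trans (by norm_num)
    · rw [hsq (by norm_num)]; norm_num
    · exact absurd hp (by norm_num)
    · rw [hsq (by norm_num)]; norm_num
    · exact absurd hp (by norm_num)
  have := Nat.le_of_dvd (by norm_num) hd
  omega

end Pool.Agent.Lib.H18E
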