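import Pool.Agent.Lib.H68X.XDefs
import Pool.Agent.Lib.GoldbachGraph.Proportion

/-!
# Project H18E (MP_443e5f_co): tiny exceptional sets for the Goldbach graphs

Everything is stated for halved vertices: `X ~ Y` iff `X + Y` and `|X - Y|` are odd primes (`hadj`),
`hdeg n X` is the number of neighbours of `X` in `[1, n]`, `SE X = ∏_{p ∣ X, p > 2} (p-1)/(p-2)`.

Target: for every `a < 1/2` and all large `n` there is a set `Γ` of all but `n exp (-(log n)^a)`
vertices, containing all vertices of degree at least `n exp (-(log n)^a)`, whose elements are pairwise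
at distance at most `11`.
-/

open Finset Pool.Agent.Lib.H68T

namespace Pool.Agent.Lib.H18E

noncomputable section

/-- The structured model of the primes in a class on which the exceptional character is `ε`
(`ε = 0`: no exceptional character). It is even in `m`; for `m > 0` it is `Mod Q r ε β m`. -/
def MM (Q r : ℕ) (ε β : ℝ) (m : ℤ) : ℝ := G Q m - ε * |(m : ℝ)| ^ (β - 1) * Gam Q r m

/-- Rankin's factor `∏_{p ∣ D} (1 + √p/(p-1))`. -/
def Rk (D : ℤ) : ℝ := ∏ p ∈ D.natAbs.primeFactors, (1 + Real.sqrt p / ((p : ℝ) - 1))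

/-- `∏_{p ∣ D, p ∤ W} (1 + 1/(p-1))`. -/
def Gp (W : ℕ) (D : ℤ) : ℝ :=
  ∏ p ∈ D.natAbs.primeFactors.filter (fun p => ¬ p ∣ W), (1 + 1 / ((p : ℝ) - 1))

/-- What is known about the primes in `[X, 4X]` at the level `Q`: the projection `Lk` of the primes is
the model with exceptional modulus `r`, real exceptional zero `β` and real exceptional character
`χ` (as a function on the integers; `χ = 0` and `r = 1` if there is none), up to `τ dQ`. -/
structure Str (Q X r : ℕ) (τ β : ℝ) (χ : ℤ → ℝ) : Prop where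
  r0 : 0 < r
  tau0 : 0 ≤ τ
  be : 1 / 2 ≤ β
  be1 : β ≤ 1
  chi1 : ∀ m, |χ m| ≤ 1
  per : ∀ m k : ℤ, χ (m + r * k) = χ m
  main : ∀ m : ℤ, (X : ℤ) ≤ m → m ≤ 4 * X →
    |Lk Q (X / Q ^ 2) m - Mod Q r (χ m) β m| ≤ τ * dQ Q m

/-- The index of the second prime: increasing (`σ = true`, differences) or decreasing
(`σ = false`, sums). -/
def ix (H : ℕ) (σ : Bool) (t c : ℕ) : ℕ := bif σ then t + c else t + (H - 1 - c)

/-- The difference `m - m'` (`σ = true`) resp. the sum `m + m'` (`σ = false`) of the two primes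
`m = u + r (s + c)`, `m' = v + r (ix H σ t c)`. -/
def dd (H r : ℕ) (σ : Bool) (u v s t : ℕ) : ℤ :=
  bif σ then ((u : ℤ) + r * s) - (v + r * t) else ((u : ℤ) + r * s) + (v + r * (t + (H - 1 : ℕ)))

/-- The arithmetic factor `∏_{p ∣ x, p > 2} (p-1)/(p-2)` of Hardy and Littlewood (the same as
`Pool.Agent.Lib.H18GB.SH`). -/
def SE (x : ℕ) : ℝ :=
  ∏ p ∈ x.primeFactors.filter (fun p => 2 < p), (((p : ℝ) - 1) / (p - 2))

/-- The classes modulo `r` compatible with `x`. -/
def compat (r x : ℕ) : Finset ℕ :=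
  open Classical in (range r).filter (fun y => IsCoprime ((x : ℤ) + y) r ∧ IsCoprime ((x : ℤ) - y) r)

/-- The number of neighbours of `x` in the class `y0` modulo `r`. -/
def cdeg (n r x y0 : ℕ) : ℕ :=
  open Classical in ((Icc 1 n).filter (fun Y => Pool.Agent.Lib.GoldbachGraph.hadj x Y ∧ Y % r = y0)).card

end

end Pool.Agent.Lib.H18E
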