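import Pool.Agent.Lib.H18E.CL
import Pool.Agent.Lib.H18E.CO
import Pool.Agent.Lib.H18E.Defs

/-!
# Chunk CM: many classes on which the exceptional character is `-1` twice
-/

open Finset

namespace Pool.Agent.Lib.H18E

theorem CM_compat (r x : ℕ) [NeZero r] (P : ZMod r → Prop) :
    open Classical in
    ((compat r x).filter (fun y : ℕ => P (y : ZMod r))).card =
      (univ.filter (fun y : ZMod r => (IsUnit ((x : ZMod r) + y) ∧ IsUnit ((x : ZMod r) - y)) ∧
        P y)).card := by
  classical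
  have hu : ∀ y : ℕ, (IsCoprime ((x : ℤ) + y) r ∧ IsCoprime ((x : ℤ) - y) r) ↔
      (IsUnit ((x : ZMod r) + (y : ZMod r)) ∧ IsUnit ((x : ZMod r) - (y : ZMod r))) := by
    intro y
    have h1 : IsUnit ((x : ZMod r) + (y : ZMod r)) ↔ IsCoprime ((x : ℤ) + y) r := by
      have := ZMod.coe_int_isUnit_iff_isCoprime ((x : ℤ) + y) r
      push_cast at this
      rw [this]
      exact isCoprime_comm
    have h2 : IsUnit ((x : ZMod r) - (y : ZMod r)) ↔ IsCoprime ((x : ℤ) - y) r := by
      have := ZMod.coe_int_isUnit_iff_isCoprime ((x : ℤ) - y) r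
      push_cast at this
      rw [this]
      exact isCoprime_comm
    rw [h1, h2]
  apply Finset.card_bij (fun (y : ℕ) _ => (y : ZMod r))
  · intro y hy
    rw [mem_filter, compat, mem_filter, hu] at hy
    rw [mem_filter]
    exact ⟨mem_univ _, hy.1.2, hy.2⟩
  · intro y hy z hz hyz
    rw [mem_filter, compat, mem_filter, mem_range] at hy hz
    rw [ZMod.natCast_eq_natCast_iff'] at hyz
    rwa [Nat.mod_eq_of_lt hy.1.1, Nat.mod_eq_of_lt hz.1.1] at hyz
  · intro y hy
    rw [mem_filter] at hy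
    refine ⟨y.val, ?_, by simp⟩
    rw [mem_filter, compat, mem_filter, mem_range, hu]
    have : ((y.val : ℕ) : ZMod r) = y := by simp
    rw [this]
    exact ⟨⟨ZMod.val_lt y, hy.2.1⟩, hy.2.2⟩

theorem CM_ex (r : ℕ) [NeZero r] (ψ : DirichletCharacter ℂ r) (hψ : ψ.IsPrimitive)
    (m : ℕ) (hm : m ∣ r) (hlt : m < r) :
    ∃ u : (ZMod r)ˣ, ZMod.unitsMap hm u = 1 ∧ ψ (u : ZMod r) ≠ 1 := by
  by_contra hcon
  push Not at hcon
  have hm0 : 0 < m := Nat.pos_of_dvd_of_pos hm (NeZero.pos r)
  have hf : DirichletCharacter.FactorsThrough ψ m := by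
    rw [DirichletCharacter.factorsThrough_iff_ker_unitsMap hm]
    intro u hu
    rw [MonoidHom.mem_ker] at hu ⊢
    apply Units.ext
    simpa using hcon u hu
  have h7 : ψ.conductor ≤ m :=
    Nat.le_of_dvd hm0 (DirichletCharacter.conductor_dvd_of_mem_conductorSet _ hf)
  rw [(DirichletCharacter.isPrimitive_def ψ).1 hψ] at h7
  omega

theorem CM_val (r : ℕ) [NeZero r] (ψ : DirichletCharacter ℂ r) (h2 : ψ ^ 2 = 1) (z : ZMod r)
    (hz : IsUnit z) : ψ z = 1 ∨ ψ z = -1 := by
  have h3 : (ψ ^ 2) z = 1 := by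
    rw [h2]; exact MulChar.one_apply hz
  rw [MulChar.pow_apply' _ two_ne_zero] at h3
  have h4 : (ψ z - 1) * (ψ z + 1) = 0 := by linear_combination h3
  rcases mul_eq_zero.1 h4 with h5 | h5
  · left; linear_combination h5
  · right; linear_combination h5

/-- `r = p r'` with `(p, r') = 1` (`sq_not_dvd`). By the Chinese remainder theorem (`ZMod.chineseRemainder`)
`ψ(z) = θ(z mod p) ψ'(z mod r')` with `θ(u) = ψ((u,1))`, `ψ'(v) = ψ((1,v))`; `θ ≠ 1`, otherwise `ψ`
factors through `r'` (contradiction to primitivity). The compatible classes `y` modulo `r` are the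
pairs of a class `y'` modulo `r'` with `x ± y'` units and a class modulo `p` with `y ≠ ± x` (`p - 2`
classes, as `p ∤ 2 x`). For each `y'` the values `ψ'(x + y')`, `ψ'(s (x - y'))` are `± 1` and `cl_local`
gives at least `(p-2)/10` classes modulo `p`. -/
theorem cm_class (r : ℕ) [NeZero r] (ψ : DirichletCharacter ℂ r) (hψ : ψ.IsPrimitive)
    (h2 : ψ ^ 2 = 1) (p : ℕ) (hp : p.Prime) (h7 : 7 ≤ p) (hpr : p ∣ r) (x : ℕ) (hx : ¬ p ∣ x)
    (s : ℤ) (hs : s = 1 ∨ s = -1) :
    open Classical in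
    ((compat r x).card : ℝ) / 10 ≤
      (((compat r x).filter (fun y : ℕ => ψ ((x : ZMod r) + y) = -1 ∧
        ψ ((s : ZMod r) * ((x : ZMod r) - y)) = -1)).card : ℝ) := by
  classical
  obtain ⟨q, rfl⟩ := hpr
  have hq0 : q ≠ 0 := by
    rintro rfl
    exact NeZero.ne (p * 0) (by simp)
  have : NeZero q := ⟨hq0⟩
  have : Fact p.Prime := ⟨hp⟩
  have hcop : Nat.Coprime p q := by
    rw [hp.coprime_iff_not_dvd]
    rintro ⟨k, rfl⟩
    exact sq_not_dvd _ ψ hψ h2 p hp (by omega) ⟨k, by ring⟩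
  obtain ⟨e, he⟩ : ∃ e : ZMod (p * q) ≃+* ZMod p × ZMod q, e = ZMod.chineseRemainder hcop := ⟨_, rfl⟩
  have hc1 : ((compat (p * q) x).card : ℝ) = ((univ.filter (fun y : ZMod (p * q) =>
      (IsUnit ((x : ZMod (p * q)) + y) ∧ IsUnit ((x : ZMod (p * q)) - y)) ∧ True)).card : ℝ) := by
    have h := CM_compat (p * q) x (fun _ => True)
    have h' := congrArg (fun k : ℕ => (k : ℝ)) h
    refine Eq.trans ?_ (Eq.trans h' ?_)
    · have : (compat (p * q) x) = (compat (p * q) x).filter (fun _ => True) := by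
        ext y
        simp
      exact congrArg (fun F : Finset ℕ => (F.card : ℝ)) (this.trans (by congr!))
    · exact congrArg (fun F : Finset (ZMod (p * q)) => (F.card : ℝ)) (by congr!)
  have hc2 : (((compat (p * q) x).filter (fun y : ℕ => ψ ((x : ZMod (p * q)) + y) = -1 ∧
        ψ ((s : ZMod (p * q)) * ((x : ZMod (p * q)) - y)) = -1)).card : ℝ) =
      ((univ.filter (fun y : ZMod (p * q) =>
      (IsUnit ((x : ZMod (p * q)) + y) ∧ IsUnit ((x : ZMod (p * q)) - y)) ∧
      (ψ ((x : ZMod (p * q)) + y) = -1 ∧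
        ψ ((s : ZMod (p * q)) * ((x : ZMod (p * q)) - y)) = -1))).card : ℝ) := by
    have h := CM_compat (p * q) x (fun y => ψ ((x : ZMod (p * q)) + y) = -1 ∧
        ψ ((s : ZMod (p * q)) * ((x : ZMod (p * q)) - y)) = -1)
    exact_mod_cast h
  -- the local character
  have hunit : ∀ z : ZMod p × ZMod q, IsUnit (e.symm z) ↔ IsUnit z.1 ∧ IsUnit z.2 := by
    intro z
    rw [← Prod.isUnit_iff]
    exact MulEquiv.isUnit_map e.symm
  have hθ : ∃ θ : MulChar (ZMod p) ℂ, ∀ z, θ z = ψ (e.symm (z, 1)) := by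
    refine ⟨{ toFun := fun z => ψ (e.symm (z, 1)), map_one' := ?_, map_mul' := ?_,
              map_nonunit' := ?_ }, fun z => rfl⟩
    · have : ((1 : ZMod p), (1 : ZMod q)) = 1 := rfl
      simp only [this, map_one]
    · intro a b
      rw [← map_mul, ← map_mul]
      simp
    · intro a ha
      apply MulChar.map_nonunit
      rw [hunit]
      exact fun h => ha h.1
  obtain ⟨θ, hθ⟩ := hθ
  have hmul : ∀ (a : ZMod p) (b : ZMod q), ψ (e.symm (a, b)) = θ a * ψ (e.symm (1, b)) := by
    intro a b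
    rw [hθ, ← map_mul, ← map_mul]
    simp
  have hθ2 : θ ^ 2 = 1 := by
    apply MulChar.ext
    intro a
    rw [MulChar.pow_apply_coe, MulChar.one_apply_coe, hθ]
    have h3 : IsUnit (e.symm ((a : ZMod p), (1 : ZMod q))) := (hunit _).2 ⟨a.isUnit, isUnit_one⟩
    rcases CM_val _ ψ h2 _ h3 with h | h <;> rw [h] <;> norm_num
  have hθ1 : θ ≠ 1 := by
    intro h
    have hlt : q < p * q := by
      have : 0 < q := Nat.pos_of_ne_zero hq0
      nlinarith
    obtain ⟨u, hu1, hu2⟩ := CM_ex (p * q) ψ hψ q (Dvd.intro_left p rfl) hlt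
    apply hu2
    have h3 : (e (u : ZMod (p * q))).2 = 1 := by
      have h4 : (RingHom.snd (ZMod p) (ZMod q)).comp (e : ZMod (p * q) →+* ZMod p × ZMod q) =
          ZMod.castHom (Dvd.intro_left p rfl : q ∣ p * q) (ZMod q) := Subsingleton.elim _ _
      have h5 : (e (u : ZMod (p * q))).2 = ZMod.castHom (Dvd.intro_left p rfl : q ∣ p * q) (ZMod q)
          (u : ZMod (p * q)) := by rw [← h4]; rfl
      rw [h5]
      have := congrArg (fun z : (ZMod q)ˣ => (z : ZMod q)) hu1
      simpa [ZMod.unitsMap_def] using this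
    have h6 : (u : ZMod (p * q)) = e.symm ((e (u : ZMod (p * q))).1, 1) := by
      rw [← h3]; simp
    have h7 : IsUnit (e (u : ZMod (p * q))).1 := by
      have := ((hunit ((e (u : ZMod (p * q))).1, 1)).1 (h6 ▸ u.isUnit)).1
      exact this
    rw [h6, ← hθ, h]
    exact MulChar.one_apply h7
  have hex : ∀ (a : ZMod p) (b : ZMod q), (x : ZMod (p * q)) + e.symm (a, b) =
      e.symm ((x : ZMod p) + a, (x : ZMod q) + b) := by
    intro a b
    apply e.injective
    rw [map_add, e.apply_symm_apply, e.apply_symm_apply, map_natCast]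
    rfl
  have hex2 : ∀ (a : ZMod p) (b : ZMod q), (x : ZMod (p * q)) - e.symm (a, b) =
      e.symm ((x : ZMod p) - a, (x : ZMod q) - b) := by
    intro a b
    apply e.injective
    rw [map_sub, e.apply_symm_apply, e.apply_symm_apply, map_natCast]
    rfl
  have hex3 : ∀ (a : ZMod p) (b : ZMod q), (s : ZMod (p * q)) * e.symm (a, b) =
      e.symm ((s : ZMod p) * a, (s : ZMod q) * b) := by
    intro a b
    apply e.injective
    rw [map_mul, e.apply_symm_apply, e.apply_symm_apply, map_intCast]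
    rfl
  have hx0 : (x : ZMod p) ≠ 0 := by
    rw [Ne, ZMod.natCast_eq_zero_iff]; exact hx
  have h20 : (2 : ZMod p) ≠ 0 := by
    intro h
    have h3 : ((2 : ℕ) : ZMod p) = 0 := by exact_mod_cast h
    rw [ZMod.natCast_eq_zero_iff] at h3
    have := Nat.le_of_dvd (by norm_num) h3
    omega
  -- both sides as sums over the second coordinate
  have hsum : ∀ P : ZMod (p * q) → Prop,
      ((univ.filter (fun y : ZMod (p * q) => P y)).card : ℝ) =
        ∑ b : ZMod q, ((univ.filter (fun a : ZMod p => P (e.symm (a, b)))).card : ℝ) := by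
    intro P
    have h3 : ((univ.filter (fun y : ZMod (p * q) => P y)).card : ℝ) =
        ∑ y : ZMod (p * q), if P y then (1 : ℝ) else 0 := by
      rw [Finset.sum_boole]
    rw [h3, ← Fintype.sum_equiv e.symm.toEquiv (fun z => if P (e.symm z) then (1 : ℝ) else 0)
      (fun y => if P y then (1 : ℝ) else 0) (fun z => rfl), Fintype.sum_prod_type_right]
    apply Finset.sum_congr rfl
    intro b _
    rw [Finset.sum_boole]
  have e1 := hsum (fun y => (IsUnit ((x : ZMod (p * q)) + y) ∧ IsUnit ((x : ZMod (p * q)) - y)) ∧ True)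
  have e2 := hsum (fun y => (IsUnit ((x : ZMod (p * q)) + y) ∧ IsUnit ((x : ZMod (p * q)) - y)) ∧
      (ψ ((x : ZMod (p * q)) + y) = -1 ∧
        ψ ((s : ZMod (p * q)) * ((x : ZMod (p * q)) - y)) = -1))
  have e1' : ((compat (p * q) x).card : ℝ) = _ := hc1.trans (Eq.trans (by congr!) e1)
  have e2' : (((compat (p * q) x).filter (fun y : ℕ => ψ ((x : ZMod (p * q)) + y) = -1 ∧
        ψ ((s : ZMod (p * q)) * ((x : ZMod (p * q)) - y)) = -1)).card : ℝ) = _ :=
    hc2.trans (Eq.trans (by congr!) e2)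
  rw [e1']
  refine le_trans ?_ (le_of_eq (Eq.trans e2'.symm (by congr!)))
  rw [Finset.sum_div]
  apply Finset.sum_le_sum
  intro b _
  simp only [hex, hex2, hex3, hunit, and_true]
  by_cases hb : IsUnit ((x : ZMod q) + b) ∧ IsUnit ((x : ZMod q) - b)
  · -- good class
    have hsu : IsUnit (s : ZMod q) := by rcases hs with rfl | rfl <;> simp
    have hA : ((univ.filter (fun a : ZMod p => (IsUnit ((x : ZMod p) + a) ∧ IsUnit ((x : ZMod q) + b)) ∧
        IsUnit ((x : ZMod p) - a) ∧ IsUnit ((x : ZMod q) - b))).card : ℝ) ≤ p - 2 := by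
      have h3 : (univ.filter (fun a : ZMod p => (IsUnit ((x : ZMod p) + a) ∧
          IsUnit ((x : ZMod q) + b)) ∧ IsUnit ((x : ZMod p) - a) ∧ IsUnit ((x : ZMod q) - b))) ⊆
          univ \ {(x : ZMod p), -(x : ZMod p)} := by
        intro a ha
        rw [mem_filter] at ha
        rw [mem_sdiff, mem_insert, mem_singleton]
        refine ⟨mem_univ _, ?_⟩
        rintro (rfl | rfl)
        · exact (ha.2.2.1.ne_zero) (sub_self _)
        · exact (ha.2.1.1.ne_zero) (add_neg_cancel _)
      have h4 : (x : ZMod p) ≠ -(x : ZMod p) := by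
        intro h
        have : (2 : ZMod p) * x = 0 := by
          linear_combination h
        rcases mul_eq_zero.1 this with h | h
        · exact h20 h
        · exact hx0 h
      have h5 := card_le_card h3
      rw [card_sdiff_of_subset (subset_univ _), card_pair h4, card_univ, ZMod.card] at h5
      have h6 : ((univ.filter (fun a : ZMod p => (IsUnit ((x : ZMod p) + a) ∧
          IsUnit ((x : ZMod q) + b)) ∧ IsUnit ((x : ZMod p) - a) ∧ IsUnit ((x : ZMod q) - b))).card :
          ℝ) ≤ ((p - 2 : ℕ) : ℝ) := by exact_mod_cast h5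
      rw [Nat.cast_sub (by omega)] at h6
      push_cast at h6
      exact h6
    have hv1 := CM_val _ ψ h2 (e.symm (1, (x : ZMod q) + b)) ((hunit _).2 ⟨isUnit_one, hb.1⟩)
    have hv2 := CM_val _ ψ h2 (e.symm (1, (s : ZMod q) * ((x : ZMod q) - b)))
      ((hunit _).2 ⟨isUnit_one, hsu.mul hb.2⟩)
    have hcl := cl_local p h7 θ hθ1 hθ2 (x : ZMod p) hx0 (s : ZMod p)
      (by rcases hs with rfl | rfl <;> simp)
      (-ψ (e.symm (1, (x : ZMod q) + b))) (-ψ (e.symm (1, (s : ZMod q) * ((x : ZMod q) - b))))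
      (by rcases hv1 with h | h <;> rw [h] <;> simp) (by rcases hv2 with h | h <;> rw [h] <;> simp)
    have hfin : ((univ.filter (fun y : ZMod p => θ ((x : ZMod p) + y) =
        -ψ (e.symm (1, (x : ZMod q) + b)) ∧ θ ((s : ZMod p) * ((x : ZMod p) - y)) =
        -ψ (e.symm (1, (s : ZMod q) * ((x : ZMod q) - b))))).card : ℝ) ≤
        ((univ.filter (fun a : ZMod p => ((IsUnit ((x : ZMod p) + a) ∧ IsUnit ((x : ZMod q) + b)) ∧
        IsUnit ((x : ZMod p) - a) ∧ IsUnit ((x : ZMod q) - b)) ∧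
        ψ (e.symm ((x : ZMod p) + a, (x : ZMod q) + b)) = -1 ∧
        ψ (e.symm ((s : ZMod p) * ((x : ZMod p) - a), (s : ZMod q) * ((x : ZMod q) - b))) = -1)).card :
        ℝ) := by
      apply Nat.cast_le.2
      apply card_le_card
      intro a ha
      rw [mem_filter] at ha ⊢
      obtain ⟨_, ha1, ha2⟩ := ha
      have hu1 : IsUnit ((x : ZMod p) + a) := by
        by_contra h
        rw [MulChar.map_nonunit θ h] at ha1
        rcases hv1 with h | h <;> rw [h] at ha1 <;> norm_num at ha1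
      have hu2 : IsUnit ((s : ZMod p) * ((x : ZMod p) - a)) := by
        by_contra h
        rw [MulChar.map_nonunit θ h] at ha2
        rcases hv2 with h | h <;> rw [h] at ha2 <;> norm_num at ha2
      have hu3 : IsUnit ((x : ZMod p) - a) := isUnit_of_mul_isUnit_right hu2
      refine ⟨mem_univ _, ⟨⟨hu1, hb.1⟩, hu3, hb.2⟩, ?_, ?_⟩
      · rw [hmul, ha1]
        rcases hv1 with h | h <;> rw [h] <;> norm_num
      · rw [hmul, ha2]
        rcases hv2 with h | h <;> rw [h] <;> norm_num
    refine le_trans ?_ (hcl.trans hfin)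
    linarith
  · -- empty class
    have h3 : (univ.filter (fun a : ZMod p => (IsUnit ((x : ZMod p) + a) ∧ IsUnit ((x : ZMod q) + b)) ∧
        IsUnit ((x : ZMod p) - a) ∧ IsUnit ((x : ZMod q) - b))) = ∅ := by
      apply Finset.filter_eq_empty_iff.2
      intro a _ h
      exact hb ⟨h.1.2, h.2.2⟩
    rw [h3]
    simp only [card_empty, Nat.cast_zero, zero_div]
    exact Nat.cast_nonneg _

end Pool.Agent.Lib.H18E
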