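import Pool.Agent.Lib.H18E.ST
import Pool.Agent.Lib.H18E.XC
import Pool.Agent.Lib.H18E.CC
import Pool.Agent.Lib.H18E.CM
import Pool.Agent.Lib.H18E.DE0
import Pool.Agent.Lib.H18E.DG

/-!
# Chunk DE: degrees, exceptional levels
-/

open Finset Pool.Agent.Lib.H68T Pool.Agent.Lib.GoldbachGraph

namespace Pool.Agent.Lib.H18E

theorem DE_exp (x : ℝ) (h0 : 0 ≤ x) (h1 : x ≤ 1) : Real.exp (-x) ≤ 1 - x / 2 := by
  have h2 : Real.exp (-x) ≤ 1 / (1 + x) := by
    rw [Real.exp_neg, ← one_div]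
    apply one_div_le_one_div_of_le (by linarith)
    linarith [Real.add_one_le_exp x]
  refine h2.trans ?_
  rw [div_le_iff₀ (by linarith)]
  nlinarith

/-- The factor `κ` for arbitrary characters. -/
theorem DE_kappa (y β a b : ℝ) (hy : 4 ≤ y) (hβ0 : 1 / 2 ≤ β) (hβ : β ≤ 1) (ha : |a| ≤ 1)
    (hb : |b| ≤ 1) :
    ((1 - β) / 2) ^ 2 ≤ (1 - y ^ (β - 1)) ^ 2 ∧ ∀ m m' : ℝ, y ≤ m → y ≤ m' →
      (1 - y ^ (β - 1)) ^ 2 ≤ (1 - a * m ^ (β - 1)) * (1 - b * m' ^ (β - 1)) := by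
  have hy0 : 0 < y := by linarith
  have hlog : 1 ≤ Real.log y := by
    rw [Real.le_log_iff_exp_le hy0]
    have := Real.exp_one_lt_d9
    linarith
  have h1 : y ^ (β - 1) ≤ 1 - (1 - β) / 2 := by
    rw [Real.rpow_def_of_pos hy0]
    refine le_trans ?_ (DE_exp (1 - β) (by linarith) (by linarith))
    apply Real.exp_le_exp.2
    nlinarith
  refine ⟨?_, fun m m' hm hm' => ?_⟩
  · apply pow_le_pow_left₀ (by linarith)
    linarith
  · have key : ∀ (c z : ℝ), |c| ≤ 1 → y ≤ z → 1 - y ^ (β - 1) ≤ 1 - c * z ^ (β - 1) := by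
      intro c z hc hz
      have h2 : z ^ (β - 1) ≤ y ^ (β - 1) :=
        Real.rpow_le_rpow_of_nonpos hy0 hz (by linarith)
      have h3 : 0 ≤ z ^ (β - 1) := Real.rpow_nonneg (by linarith) _
      have h4 : c * z ^ (β - 1) ≤ 1 * z ^ (β - 1) :=
        mul_le_mul_of_nonneg_right ((le_abs_self c).trans hc) h3
      linarith
    rw [sq]
    apply mul_le_mul (key a m ha hm) (key b m' hb hm') (by linarith)
    have := key a m ha hm
    linarith

theorem DE_alg (c r φ g n : ℝ) (hr : 0 < r) (hφ : 0 < φ) :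
    c / 10 * ((r / φ) ^ 2 * (1 / 4 * g) * (n / (64 * r))) =
        c * (r / φ ^ 2) * g * (n / 2560) := by
  have h5 : (r / φ) ^ 2 * (n / (64 * r)) = (r / φ ^ 2) * (n / 64) := by
    field_simp
  calc c / 10 * ((r / φ) ^ 2 * (1 / 4 * g) * (n / (64 * r))) =
        c / 10 * (1 / 4 * g) * ((r / φ) ^ 2 * (n / (64 * r))) := by ring
    _ = c / 10 * (1 / 4 * g) * ((r / φ ^ 2) * (n / 64)) := by rw [h5]
    _ = _ := by ring

/-- **Degrees at an exceptional level.** Use `x_class` with `χ m = Re ψ(m)`, `τ = sw K Q X`,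
`X = 3 n/(8 r) · r ∈ [n/4, n]` (`str_exc`, `reg_shift`), `de_err`; `r/φ(r) ≤ r`.

Weak bound for all `x ∉ B`: `compat r x` is nonempty (`compat_gp`); for one class `y0`,
`κ = (1 - (n/4)^(β-1))^2` (as `|χ| ≤ 1`, `m, m' ≥ n/4`) and
`1 - (n/4)^(β-1) = 1 - exp (-(1-β) log (n/4)) ≥ (1-β)/2 ≥ δ/(2 r^2)`, so `κ ≥ δ^2/(4 r^4)`,
which dominates the error terms (at most `(3/4) r^2 r^(-10) ≤ r^(-7)`, `r ≥ R(δ)`), so
`hdeg n x ≥ cdeg ≥ (κ/4) (n/(64 r))/(log 2n)^2 ≥ n/(r^6 (log n)^3)` for `K` large.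

Strong bound if some prime `p ≥ 7`, `p ∣ r`, does not divide `x`: for the classes `y0 ∈ S` of `cm_class`
(`s = 1` if `2 x > n`, `s = -1` if `2 x ≤ n`) `χ = -1` at both arguments, so `κ = 1` is allowed; for
each of them `cdeg n r x y0 (log 2n)^2 ≥ (r/φ(r))^2 (1/4) Gp r (2x) n/(64 r)` (the error terms are at most
`1/4`, `Gp ≥ 1`); sum over `S` (`sum_cdeg`), `|S| ≥ |compat r x|/10`, and use `compat_gp`. -/
theorem deg_exc (c' C δ : ℝ) (hc' : 0 < c') (hδ : 0 < δ) :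
    ∃ K c0 R : ℝ, ∃ E : ℕ, 1 ≤ K ∧ 0 < c0 ∧ ∀ (n Q r : ℕ) [NeZero r]
    (ψ : DirichletCharacter ℂ r) (β : ℝ), Reg K Q n → ExcData c' C Q r ψ β → ψ.IsPrimitive →
    R ≤ r → δ / (r : ℝ) ^ 2 ≤ 1 - β → (r : ℝ) ^ E ≤ Q → E * Real.log r * Real.log Q ≤ Real.log n →
    ∃ B : Finset ℕ, B ⊆ Icc 1 n ∧ (B.card : ℝ) ≤ n * (Q : ℝ) ^ (-(1 / 20) : ℝ) ∧
      ∀ x ∈ Icc 1 n, x ∉ B → (n : ℝ) ≤ hdeg n x * ((r : ℝ) ^ 6 * (Real.log n) ^ 3) ∧
        ((∃ p : ℕ, p.Prime ∧ 7 ≤ p ∧ p ∣ r ∧ ¬ p ∣ x) →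
          c0 * SE x * n / (Real.log n) ^ 2 ≤ hdeg n x) := by
  classical
  obtain ⟨K1, C1, hK1, hC1, hxc⟩ := x_class
  obtain ⟨K2, hK2, hst⟩ := str_exc c' C hc'
  obtain ⟨K0, hK0, hsh⟩ := reg_shift
  obtain ⟨K3, E, hE, hK3, herr⟩ := de_err K2 C1 hK2 hC1
  refine ⟨K1 + 2 * K2 + K0 + K3 + 300, 1 / 20480, 16 / δ ^ 2 + 2, E, by linarith, by norm_num, ?_⟩
  intro n Q r _ ψ β hR hexc hψ hRr hδβ hrE hrn
  set K := K1 + 2 * K2 + K0 + K3 + 300 with hKdef
  have hKpos : (0 : ℝ) < K := by rw [hKdef]; linarith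
  have hR1 : Reg K1 Q n := hR.mono hKpos.le (by rw [hKdef]; linarith)
  have hR2 : Reg (2 * K2 + K0) Q n := hR.mono hKpos.le (by rw [hKdef]; linarith)
  have hR4 : Reg K3 Q n := hR.mono hKpos.le (by rw [hKdef]; linarith)
  have hK300 : 300 ≤ K := by rw [hKdef]; linarith
  have hn300 : (300 : ℝ) ≤ n := by
    have := hR.X_ge hKpos
    linarith
  have hn8 : 300 ≤ n := by exact_mod_cast hn300
  have hL300 : 300 ≤ Real.log n := by
    have h1 := hR.logX_ge hKpos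
    have h2 := Real.add_one_le_exp K
    linarith
  have hlogQ : 300 ≤ Real.log Q := by
    have := hR.logQ_ge (by linarith)
    linarith
  have hr1 : 1 ≤ r := NeZero.one_le
  have hδ2 : 0 ≤ 16 / δ ^ 2 := by positivity
  have hr2 : (2 : ℝ) ≤ r := by linarith
  have hr0 : (0 : ℝ) < r := by linarith
  have hlr : 0 ≤ Real.log r := Real.log_natCast_nonneg r
  have hE100 : (100 : ℝ) ≤ E := by exact_mod_cast hE
  have h8r : 8 * r ≤ n := by
    have h1 : 100 * Real.log r ≤ Real.log n := by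
      have h2 : 100 * Real.log r * 1 ≤ E * Real.log r * Real.log Q := by
        apply mul_le_mul _ (by linarith) zero_le_one (by positivity)
        exact mul_le_mul_of_nonneg_right hE100 hlr
      linarith
    have h3 : Real.log (8 * r) ≤ Real.log n := by
      rw [Real.log_mul (by norm_num) hr0.ne']
      have : Real.log 8 ≤ 8 := by
        have := Real.log_le_sub_one_of_pos (show (0 : ℝ) < 8 by norm_num)
        linarith
      linarith
    have h4 := (Real.log_le_log_iff (by positivity) (by linarith)).1 h3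
    exact_mod_cast h4
  have hX := DG_X n r hr1 h8r
  have hR3 : Reg K2 Q (3 * n / (8 * r) * r) := hsh K2 (by linarith) Q n _ hR2 hX.1 hX.2
  have hS := hst Q _ hR3 r ψ β hr1 hexc
  have hr100 : r ^ 100 ≤ Q := by
    have h1 : (r : ℝ) ^ 100 ≤ (r : ℝ) ^ E := pow_le_pow_right₀ (by linarith) hE
    have h2 := h1.trans hrE
    exact_mod_cast h2
  obtain ⟨B, hB, hBx⟩ := hxc n Q r _ β _ hR1 hS hr100
  obtain ⟨e1, e2, e3⟩ := herr n Q _ r hR4 hX.1 hX.2 hr1 hrE hrn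
  -- small quantities
  have hphi0 : (0 : ℝ) < Nat.totient r := by exact_mod_cast Nat.totient_pos.2 hr1
  have hrphi : 1 ≤ ((r : ℝ) / Nat.totient r) ^ 2 := by
    have : (Nat.totient r : ℝ) ≤ r := by exact_mod_cast Nat.totient_le r
    have h1 : 1 ≤ (r : ℝ) / Nat.totient r := by
      rw [le_div_iff₀ hphi0]; linarith
    nlinarith
  set P := ((r : ℝ) / Nat.totient r) ^ 2 with hP
  have hr5 : (r : ℝ) ^ 10 = (r : ℝ) ^ 5 * (r : ℝ) ^ 5 := by ring
  have hr5' : 32 ≤ (r : ℝ) ^ 5 := by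
    calc (32 : ℝ) = 2 ^ 5 := by norm_num
      _ ≤ (r : ℝ) ^ 5 := pow_le_pow_left₀ (by norm_num) hr2 5
  have hε : 1 / (4 * (r : ℝ) ^ 10) ≤ 1 / 128 * (1 / (r : ℝ) ^ 5) := by
    rw [hr5, div_mul_div_comm, one_mul]
    apply one_div_le_one_div_of_le (by positivity)
    nlinarith [mul_le_mul_of_nonneg_right hr5' (by positivity : (0 : ℝ) ≤ (r : ℝ) ^ 5)]
  set ε := 1 / (4 * (r : ℝ) ^ 10) with hεdef
  have hr5i : 1 / (r : ℝ) ^ 5 ≤ 1 / 32 := one_div_le_one_div_of_le (by norm_num) hr5'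
  obtain ⟨hl0, hl2⟩ := DG_log n (by omega)
  have hL0 : 0 < Real.log n := by linarith
  set τ := sw K2 Q (3 * n / (8 * r) * r) with hτ
  refine ⟨B ∩ Icc 1 n, inter_subset_right, ?_, ?_⟩
  · refine le_trans ?_ hB
    exact_mod_cast card_le_card inter_subset_left
  intro x hx hxB
  have hxB' : x ∉ B := fun h => hxB (mem_inter.2 ⟨h, hx⟩)
  have hx1 : 1 ≤ x := (mem_Icc.1 hx).1
  have hgp := compat_gp r x hr1 hx1
  have hgp1 := one_le_Gp r (2 * (x : ℤ))
  have hSE := DG_SE x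
  set g := Gp r (2 * (x : ℤ)) with hg
  have hn64 : (0 : ℝ) < n / (64 * r) := by positivity
  refine ⟨?_, ?_⟩
  · -- weak bound
    have hne : (compat r x).Nonempty := by
      rw [Finset.nonempty_iff_ne_empty]
      intro h0
      rw [h0, card_empty, Nat.cast_zero, zero_mul, zero_mul] at hgp
      linarith
    obtain ⟨y0, hy0⟩ := hne
    obtain ⟨k1, k2⟩ := DE_kappa ((n : ℝ) / 4) β
      ((ψ ((((x : ℤ) + y0 : ℤ)) : ZMod r)).re)
      ((ψ (((if 2 * x ≤ n then (y0 : ℤ) - x else (x : ℤ) - y0 : ℤ)) : ZMod r)).re)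
      (by linarith) hexc.half hexc.lt.le
      ((Complex.abs_re_le_norm _).trans (DirichletCharacter.norm_le_one ψ _))
      ((Complex.abs_re_le_norm _).trans (DirichletCharacter.norm_le_one ψ _))
    have h1 := hBx x hx hxB' y0 hy0 _ (sq_nonneg (1 - ((n : ℝ) / 4) ^ (β - 1))) k2
    set κ := (1 - ((n : ℝ) / 4) ^ (β - 1)) ^ 2 with hκ
    have hκ1 : 4 * (1 / (r : ℝ) ^ 5) ≤ κ := by
      refine le_trans ?_ k1
      have h2 : δ / (2 * (r : ℝ) ^ 2) ≤ (1 - β) / 2 := by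
        have : δ / (2 * (r : ℝ) ^ 2) = δ / (r : ℝ) ^ 2 / 2 := by field_simp
        rw [this]; linarith
      have h3 : (δ / (2 * (r : ℝ) ^ 2)) ^ 2 ≤ ((1 - β) / 2) ^ 2 :=
        pow_le_pow_left₀ (by positivity) h2 2
      refine le_trans ?_ h3
      have h4 : (δ / (2 * (r : ℝ) ^ 2)) ^ 2 = δ ^ 2 * r / (4 * (r : ℝ) ^ 5) := by
        field_simp
        ring
      rw [h4, mul_one_div, div_le_div_iff₀ (by positivity) (by positivity)]
      have h5 : 16 ≤ δ ^ 2 * r := by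
        have h6 : 16 / δ ^ 2 ≤ r := by linarith
        rw [div_le_iff₀ (by positivity)] at h6
        linarith
      nlinarith [mul_le_mul_of_nonneg_right h5 (by positivity : (0 : ℝ) ≤ (r : ℝ) ^ 5)]
    have hbr : 1 / (r : ℝ) ^ 5 ≤ P * (κ * (1 / 2 * g) - C1 * (Q : ℝ) ^ (-(1 / 8) : ℝ)) -
        τ * (Real.log n) ^ 10 - C1 * (Q : ℝ) ^ (-(1 / 20) : ℝ) := by
      have hκ0 : 0 ≤ κ := sq_nonneg _
      have h2 : κ * (1 / 2) ≤ κ * (1 / 2 * g) := by
        apply mul_le_mul_of_nonneg_left _ hκ0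
        linarith
      have h5 : 0 ≤ 1 / (r : ℝ) ^ 5 := by positivity
      have h3 : 1.5 * (1 / (r : ℝ) ^ 5) ≤ κ * (1 / 2 * g) - C1 * (Q : ℝ) ^ (-(1 / 8) : ℝ) := by
        nlinarith
      have h4 : 1 * (1.5 * (1 / (r : ℝ) ^ 5)) ≤
          P * (κ * (1 / 2 * g) - C1 * (Q : ℝ) ^ (-(1 / 8) : ℝ)) := by
        apply mul_le_mul hrphi h3 (by positivity) (by linarith)
      nlinarith
    have h2 : 1 / (r : ℝ) ^ 5 * (n / (64 * r)) ≤ cdeg n r x y0 * (Real.log (2 * n)) ^ 2 :=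
      (mul_le_mul_of_nonneg_right hbr hn64.le).trans h1
    have hdg : cdeg n r x y0 ≤ hdeg n x := by
      have := sum_cdeg n r x {y0} (by simpa using hy0)
      simpa using this
    have hd1 : (cdeg n r x y0 : ℝ) ≤ hdeg n x := by exact_mod_cast hdg
    have h3 : 1 / (r : ℝ) ^ 5 * (n / (64 * r)) ≤ hdeg n x * (4 * (Real.log n) ^ 2) :=
      h2.trans (mul_le_mul hd1 hl2 (by positivity) (by positivity))
    have h4 : 1 / (r : ℝ) ^ 5 * ((n : ℝ) / (64 * r)) = n / (64 * (r : ℝ) ^ 6) := by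
      field_simp
    rw [h4, div_le_iff₀ (by positivity)] at h3
    refine h3.trans ?_
    have h5 : hdeg n x * (4 * (Real.log n) ^ 2) * (64 * (r : ℝ) ^ 6) =
        hdeg n x * (r : ℝ) ^ 6 * (Real.log n) ^ 2 * 256 := by ring
    have h6 : hdeg n x * ((r : ℝ) ^ 6 * (Real.log n) ^ 3) =
        hdeg n x * (r : ℝ) ^ 6 * (Real.log n) ^ 2 * Real.log n := by ring
    rw [h5, h6]
    apply mul_le_mul_of_nonneg_left (by linarith) (by positivity)
  · -- strong bound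
    rintro ⟨p, hp, h7, hpr, hpx⟩
    set s : ℤ := if 2 * x ≤ n then -1 else 1 with hs
    have hs1 : s = 1 ∨ s = -1 := by
      rw [hs]; split_ifs
      · right; rfl
      · left; rfl
    have hcm := cm_class r ψ hψ hexc.sq p hp h7 hpr x hpx s hs1
    set S := (compat r x).filter (fun y : ℕ => ψ ((x : ZMod r) + y) = -1 ∧
        ψ ((s : ZMod r) * ((x : ZMod r) - y)) = -1) with hSdef
    have hcl : ∀ y0 ∈ S, P * (1 / 4 * g) * (n / (64 * r)) ≤
        cdeg n r x y0 * (Real.log (2 * n)) ^ 2 := by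
      intro y0 hy0
      rw [hSdef, mem_filter] at hy0
      obtain ⟨hy1, hy2, hy3⟩ := hy0
      have hv1 : (ψ ((((x : ℤ) + y0 : ℤ)) : ZMod r)).re = -1 := by
        push_cast
        rw [hy2]; norm_num
      have hv2 : (ψ (((if 2 * x ≤ n then (y0 : ℤ) - x else (x : ℤ) - y0 : ℤ)) : ZMod r)).re = -1 := by
        by_cases h2x : 2 * x ≤ n
        · rw [if_pos h2x]
          rw [hs, if_pos h2x] at hy3
          push_cast at hy3 ⊢
          have : (y0 : ZMod r) - x = -1 * ((x : ZMod r) - y0) := by ring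
          rw [this, hy3]; norm_num
        · rw [if_neg h2x]
          rw [hs, if_neg h2x] at hy3
          push_cast at hy3 ⊢
          rw [one_mul] at hy3
          rw [hy3]; norm_num
      have h1 := hBx x hx hxB' y0 hy1 1 zero_le_one (by
        intro m m' hm hm'
        simp only [hv1, hv2]
        have h2 : 0 ≤ m ^ (β - 1) := Real.rpow_nonneg (by linarith) _
        have h3 : 0 ≤ m' ^ (β - 1) := Real.rpow_nonneg (by linarith) _
        nlinarith [mul_nonneg h2 h3])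
      refine le_trans ?_ h1
      apply mul_le_mul_of_nonneg_right _ hn64.le
      have h3 : 1 / 4 * g + 1 / 8 ≤ 1 * (1 / 2 * g) - C1 * (Q : ℝ) ^ (-(1 / 8) : ℝ) := by
        linarith
      have h4 : P * (1 / 4 * g + 1 / 8) ≤
          P * (1 * (1 / 2 * g) - C1 * (Q : ℝ) ^ (-(1 / 8) : ℝ)) :=
        mul_le_mul_of_nonneg_left h3 (by linarith)
      linarith
    have hsum := Finset.sum_le_sum hcl
    rw [Finset.sum_const, nsmul_eq_mul, ← Finset.sum_mul] at hsum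
    have hsc := sum_cdeg n r x S (filter_subset _ _)
    have hsc' : (∑ y0 ∈ S, (cdeg n r x y0 : ℝ)) ≤ hdeg n x := by exact_mod_cast hsc
    have h1 : (S.card : ℝ) * (P * (1 / 4 * g) * (n / (64 * r))) ≤
        hdeg n x * (4 * (Real.log n) ^ 2) :=
      hsum.trans (mul_le_mul hsc' hl2 (by positivity) (by positivity))
    have hg0 : 0 ≤ g := by linarith
    have hP0 : 0 ≤ P := by linarith
    have h2 : ((compat r x).card : ℝ) / 10 * (P * (1 / 4 * g) * (n / (64 * r))) ≤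
        hdeg n x * (4 * (Real.log n) ^ 2) :=
      (mul_le_mul_of_nonneg_right hcm (by positivity)).trans h1
    have h3 : ((compat r x).card : ℝ) / 10 * (P * (1 / 4 * g) * ((n : ℝ) / (64 * r))) =
        ((compat r x).card : ℝ) * (r / (Nat.totient r : ℝ) ^ 2) * g * (n / 2560) := by
      rw [hP]
      exact DE_alg _ _ _ _ _ hr0 hphi0
    rw [h3] at h2
    have h4 : 1 / 2 * SE x * ((n : ℝ) / 2560) ≤ hdeg n x * (4 * (Real.log n) ^ 2) :=
      (mul_le_mul_of_nonneg_right hgp (by positivity)).trans h2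
    rw [div_le_iff₀ (by positivity)]
    nlinarith

end Pool.Agent.Lib.H18E
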