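import Pool.Agent.Lib.H18E.TG
import Pool.Agent.Lib.H18GB.Transfer

/-!
# Chunk FN: the final statement for both families of graphs
-/

open Finset Pool.Agent.Lib.H68T Pool.Agent.Lib.H18GB Pool.Agent.Lib.GoldbachGraph
  Pool.Agent.Goldbach

namespace Pool.Agent.Lib.H18E

theorem FN_primes : ∃ n0 : ℕ, ∀ n : ℕ, n0 ≤ n → 2 ≤ n ∧
    (n : ℝ) / 2 ≤ (((Icc 1 n).filter Nat.Prime).card : ℝ) * Real.log n ∧ 100 * Real.log n ≤ n := by
  have hev : ∀ᶠ y : ℝ in Filter.atTop, 100 * Real.log y + 10 ≤ y ^ (1 / 4 : ℝ) ∧ 100 ≤ y := by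
    filter_upwards [PA_log (1 / 4) 100 10 (by norm_num), Filter.eventually_ge_atTop (100 : ℝ)]
      with y h1 h2
    exact ⟨h1, h2⟩
  obtain ⟨n0, hn0⟩ := Filter.eventually_atTop.1 (tendsto_natCast_atTop_atTop.eventually hev)
  refine ⟨n0, fun n hn => ?_⟩
  obtain ⟨h1, h2⟩ := hn0 n hn
  have hn0' : (0 : ℝ) < n := by linarith
  have hn2 : 2 ≤ n := by
    have : (2 : ℝ) ≤ n := by linarith
    exact_mod_cast this
  have hq : (n : ℝ) ^ (1 / 4 : ℝ) ≤ n := by
    calc (n : ℝ) ^ (1 / 4 : ℝ) ≤ (n : ℝ) ^ (1 : ℝ) :=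
          Real.rpow_le_rpow_of_exponent_le (by linarith) (by norm_num)
      _ = n := Real.rpow_one _
  have hL0 : 0 ≤ Real.log n := Real.log_natCast_nonneg n
  refine ⟨hn2, ?_, by linarith⟩
  have hth := Chebyshev.theta_ge n
  have h3 : 2 * Real.sqrt n * Real.log n ≤ n / 50 := by
    have h4 : Real.sqrt n * (n : ℝ) ^ (1 / 4 : ℝ) ≤ n := by
      rw [Real.sqrt_eq_rpow, ← Real.rpow_add hn0']
      calc (n : ℝ) ^ (1 / 2 + 1 / 4 : ℝ) ≤ (n : ℝ) ^ (1 : ℝ) :=
            Real.rpow_le_rpow_of_exponent_le (by linarith) (by norm_num)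
        _ = n := Real.rpow_one _
    have h5 : 0 ≤ Real.sqrt n := Real.sqrt_nonneg _
    nlinarith
  have h4 : Real.log ((n : ℝ) + 1) ≤ n / 50 := by
    have h5 : Real.log ((n : ℝ) + 1) ≤ Real.log (2 * n) := by
      apply Real.log_le_log (by linarith)
      linarith
    rw [Real.log_mul (by norm_num) hn0'.ne'] at h5
    have h6 := Real.log_two_lt_d9
    linarith
  have h5 : (n : ℝ) / 2 ≤ Chebyshev.theta n := by
    have h6 := Real.log_two_gt_d9
    nlinarith
  refine h5.trans ?_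
  have h6 : Chebyshev.theta n = ∑ p ∈ (Icc 1 n).filter Nat.Prime, Real.log p := by
    unfold Chebyshev.theta
    rw [Nat.floor_natCast]
    rfl
  rw [h6, ← nsmul_eq_mul]
  apply Finset.sum_le_card_nsmul
  intro p hp
  rw [mem_filter, mem_Icc] at hp
  apply Real.log_le_log
  · exact_mod_cast hp.2.pos
  · exact_mod_cast hp.1.2

/-- For large `n`, for every set `B` of at most `n exp (-(log n)^a)` numbers and every `r1 ≠ 1` there is
an odd prime `q ≤ n`, `q ∉ B`, not divisible by `r1`: the number of primes up to `n` is at least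
`θ(n)/log n ≥ c n/log n` (`Chebyshev.theta_ge`), which exceeds `|B| + 2`. -/
theorem fn_prime (a : ℝ) (ha : 0 < a) : ∃ n0 : ℕ, ∀ n : ℕ, n0 ≤ n → ∀ B : Finset ℕ,
    (B.card : ℝ) ≤ n * Real.exp (-(Real.log n) ^ a) → ∀ r1 : ℕ, r1 ≠ 1 →
    ∃ q ∈ Icc 1 n, q.Prime ∧ Odd q ∧ q ∉ B ∧ ¬ r1 ∣ q := by
  classical
  obtain ⟨n0, hn0⟩ := FN_primes
  have hev : ∀ᶠ y : ℝ in Filter.atTop, 2 * Real.log y + 4 ≤ y ^ a ∧ 1 ≤ y := by
    filter_upwards [PA_log a 2 4 ha, Filter.eventually_ge_atTop (1 : ℝ)] with y h1 h2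
    exact ⟨h1, h2⟩
  obtain ⟨n1, hn1⟩ := Filter.eventually_atTop.1
    ((Real.tendsto_log_atTop.comp tendsto_natCast_atTop_atTop).eventually hev)
  refine ⟨max n0 n1, fun n hn B hB r1 hr1 => ?_⟩
  obtain ⟨hn2, hP, hnL⟩ := hn0 n ((le_max_left _ _).trans hn)
  obtain ⟨h1, h2⟩ := hn1 n ((le_max_right _ _).trans hn)
  simp only [Function.comp] at h1 h2
  set L := Real.log n with hL
  have hL0 : 0 < L := by linarith
  have hnR : (0 : ℝ) < n := by
    have : (2 : ℝ) ≤ n := by exact_mod_cast hn2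
    linarith
  have hexp : Real.exp (-L ^ a) * (4 * L) ≤ 1 := by
    have h3 : Real.exp (-L ^ a) ≤ Real.exp (-(2 * Real.log L) - 4) := Real.exp_le_exp.2 (by linarith)
    have h4 : Real.exp (-(2 * Real.log L) - 4) * (4 * L) =
        4 * (Real.exp (-(Real.log L) - 4)) := by
      have : Real.exp (-(2 * Real.log L) - 4) = Real.exp (-(Real.log L) - 4) * Real.exp (-Real.log L) := by
        rw [← Real.exp_add]; congr 1; ring
      rw [this, Real.exp_neg (Real.log L), Real.exp_log hL0]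
      field_simp
    have h5 : Real.exp (-(Real.log L) - 4) ≤ Real.exp (-4) := by
      apply Real.exp_le_exp.2
      have := Real.log_nonneg h2
      linarith
    have h6 : Real.exp (-4) ≤ 1 / 4 := by
      rw [Real.exp_neg, ← one_div]
      apply one_div_le_one_div_of_le (by norm_num)
      linarith [Real.add_one_le_exp 4]
    calc Real.exp (-L ^ a) * (4 * L) ≤ Real.exp (-(2 * Real.log L) - 4) * (4 * L) :=
          mul_le_mul_of_nonneg_right h3 (by linarith)
      _ ≤ 1 := by rw [h4]; linarith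
  have hcard : (B.card : ℝ) + 2 < (((Icc 1 n).filter Nat.Prime).card : ℝ) := by
    have h3 : ((B.card : ℝ) + 2) * L < n / 2 := by
      have h4 : (B.card : ℝ) * L ≤ n / 4 := by
        calc (B.card : ℝ) * L ≤ n * Real.exp (-L ^ a) * L := mul_le_mul_of_nonneg_right hB hL0.le
          _ = n * (Real.exp (-L ^ a) * (4 * L)) / 4 := by ring
          _ ≤ n * 1 / 4 := by
              have := mul_le_mul_of_nonneg_left hexp hnR.le
              linarith
          _ = n / 4 := by ring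
      linarith
    have h5 := h3.trans_le hP
    exact lt_of_mul_lt_mul_right h5 hL0.le
  have hcard2 : (B ∪ {2, r1}).card < ((Icc 1 n).filter Nat.Prime).card := by
    have h3 : (B ∪ {2, r1}).card ≤ B.card + 2 :=
      (card_union_le _ _).trans (Nat.add_le_add_left Finset.card_le_two _)
    have h4 : B.card + 2 < ((Icc 1 n).filter Nat.Prime).card := by exact_mod_cast hcard
    omega
  obtain ⟨q, hq1, hq2⟩ := Finset.exists_mem_notMem_of_card_lt_card hcard2
  rw [mem_filter] at hq1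
  simp only [mem_union, mem_insert, mem_singleton, not_or] at hq2
  refine ⟨q, hq1.1, hq1.2, hq1.2.odd_of_ne_two hq2.2.1, hq2.1, fun h => ?_⟩
  rcases (Nat.dvd_prime hq1.2).1 h with h | h
  · exact hr1 h
  · exact hq2.2.2 h.symm

/-- **The final statement** (`V`, `S` as in `H18GB/Transfer.lean`). `Γ` consists of `0` (if it is a vertex),
of the `2 p` with `p` an odd prime if `0` is a vertex, of the vertices `2 x` with `x ∉ B`, and of all
vertices of degree at least `n exp (-(log n)^a)` (`B`, `g` of `tg_main`). The complement of `Γ` injects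
into `B` by halving. Every element of `Γ` is at distance at most `2` from an element of
`2 g`: `0` is adjacent to `2 q` (`q` of `fn_prime`), `2 p` is adjacent to `0`; for `2 x` with
`x ≥ 1` of large degree, `deg_le` gives `hdeg n x ≥ n exp (-(log n)^a) - 4 > |B|`, then `tg_main` and
`edist_transfer`. The elements of `2 g` are pairwise at distance at most `7`. -/
theorem fn_main (a : ℝ) (ha : 0 < a) (ha2 : a < 1 / 2) : ∃ n0 : ℕ, ∀ n : ℕ, n0 ≤ n →
    ∀ V S : Set ℕ, (∀ a ∈ V, Even a ∧ a ≤ 2 * n) → (∀ x ∈ Finset.Icc 1 n, 2 * x ∈ V) →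
    (∀ m, m.Prime → Odd m → m < 2 * n → m ∈ S) → (∀ m ∈ S, m = 1 ∨ (m.Prime ∧ Odd m)) →
    ∃ Γ : Set V, (Γᶜ.ncard : ℝ) ≤ n * Real.exp (-(Real.log n) ^ a) ∧
      (∀ u : V, n * Real.exp (-(Real.log n) ^ a) ≤ ((halfGraph V S).neighborSet u).ncard → u ∈ Γ) ∧
      (∀ u : V, (u : ℕ) = 0 → u ∈ Γ) ∧
      ((0 : ℕ) ∈ V → ∀ u : V, ∀ p : ℕ, p.Prime → Odd p → (u : ℕ) = 2 * p → u ∈ Γ) ∧
      ∀ u ∈ Γ, ∀ v ∈ Γ, (halfGraph V S).edist u v ≤ 11 := by
  classical
  obtain ⟨n0, hn0⟩ := tg_main a ha ha2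
  obtain ⟨n1, hn1⟩ := fn_prime a ha
  have hev : ∀ᶠ y : ℝ in Filter.atTop, 1 * y ^ a + 10 ≤ y ^ (1 : ℝ) :=
    PA_pow 1 a 1 10 ha (by linarith)
  obtain ⟨n2, hn2⟩ := Filter.eventually_atTop.1
    ((Real.tendsto_log_atTop.comp tendsto_natCast_atTop_atTop).eventually hev)
  refine ⟨max (max n0 n1) (max n2 2), fun n hn V S hV hV2 hS hS' => ?_⟩
  have hn0' : n0 ≤ n := ((le_max_left _ _).trans (le_max_left _ _)).trans hn
  have hn1' : n1 ≤ n := ((le_max_right _ _).trans (le_max_left _ _)).trans hn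
  have hn2' : n2 ≤ n := ((le_max_left _ _).trans (le_max_right _ _)).trans hn
  have hn3 : 2 ≤ n := ((le_max_right _ _).trans (le_max_right _ _)).trans hn
  have hnR : (0 : ℝ) < n := by
    have : (2 : ℝ) ≤ n := by exact_mod_cast hn3
    linarith
  obtain ⟨B, g, hB1, hB2, hg1, hg7, hBx, hg2, r1, hr1, hBg⟩ := hn0 n hn0'
  set T := (n : ℝ) * Real.exp (-(Real.log n) ^ a) with hT
  have hT0 : 0 < T := by positivity
  have hT8 : 8 < T := by
    have h1 := hn2 n hn2'
    simp only [Function.comp, one_mul, Real.rpow_one] at h1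
    have h2 : T = Real.exp (Real.log n - (Real.log n) ^ a) := by
      rw [hT, Real.exp_sub, Real.exp_log hnR, Real.exp_neg]
      rfl
    rw [h2]
    have h3 := Real.add_one_le_exp (Real.log n - (Real.log n) ^ a)
    linarith
  have hBT : (B.card : ℝ) ≤ T := by linarith
  obtain ⟨q, hq1, hq2, hq3, hq4, hq5⟩ := hn1 n hn1' B hBT r1 (by omega)
  have hqg : q ∈ g := hBg q hq1 hq4 hq5
  have hqS : q ∈ S := hS q hq2 hq3 (by rw [mem_Icc] at hq1; omega)
  have hfin : Finite V := finite_of_le hV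
  -- the points at distance at most two from `2 g`
  have h0q : ∀ h0 : (0 : ℕ) ∈ V, (halfGraph V S).Adj ⟨0, h0⟩ ⟨2 * q, hV2 q hq1⟩ := by
    intro h0
    rw [halfGraph_adj_iff (x := 0) (y := q) rfl rfl]
    refine ⟨hq2.ne_zero.symm, by simpa using hqS, by simpa using hqS⟩
  have hzero : ∀ u : V, (u : ℕ) = 0 → ∃ z, ∃ hz : z ∈ g,
      (halfGraph V S).edist u ⟨2 * z, hV2 z (hg1 hz)⟩ ≤ 2 := by
    rintro ⟨u, hu⟩ hu0
    simp only at hu0
    subst hu0
    refine ⟨q, hqg, ?_⟩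
    refine (SimpleGraph.edist_le (.cons (h0q hu) .nil)).trans ?_
    norm_num
  have hx : ∀ x (hx : x ∈ Icc 1 n), B.card < hdeg n x → ∃ z, ∃ hz : z ∈ g,
      (halfGraph V S).edist ⟨2 * x, hV2 x hx⟩ ⟨2 * z, hV2 z (hg1 hz)⟩ ≤ 2 := by
    intro x hx hd
    obtain ⟨z, hz, he⟩ := hg2 x hx hd
    exact ⟨z, hz, edist_transfer hV2 hS hx (hg1 hz) (k := 2) he⟩
  set Γ : Set V := {u : V | ∃ z, ∃ hz : z ∈ g,
      (halfGraph V S).edist u ⟨2 * z, hV2 z (hg1 hz)⟩ ≤ 2} with hΓ
  refine ⟨Γ, ?_, ?_, fun u hu => hzero u hu, ?_, ?_⟩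
  · have h1 : (Γᶜ).ncard ≤ B.card := by
      rw [← Set.ncard_coe_finset]
      apply Set.ncard_le_ncard_of_injOn (fun b : V => (b : ℕ) / 2)
      · rintro ⟨b, hb⟩ hbΓ
        obtain ⟨⟨x, hx'⟩, hbn⟩ := hV b hb
        have hbx : b = 2 * x := by omega
        subst hbx
        simp only [Nat.mul_div_cancel_left _ (by norm_num : 0 < 2), Finset.mem_coe]
        by_contra hxB
        apply hbΓ
        by_cases hx0 : x = 0
        · exact hzero _ (by simp [hx0])
        · have hx1 : x ∈ Icc 1 n := mem_Icc.2 ⟨by omega, by omega⟩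
          exact hx x hx1 (hBx x hx1 hxB)
      · rintro ⟨b, hb⟩ - ⟨b', hb'⟩ - hbb
        have h1 := (hV b hb).1
        have h2 := (hV b' hb').1
        simp only at hbb
        ext
        simp only
        obtain ⟨k, hk⟩ := h1
        obtain ⟨l, hl⟩ := h2
        omega
    have h2 : ((Γᶜ).ncard : ℝ) ≤ B.card := by exact_mod_cast h1
    exact h2.trans hBT
  · rintro ⟨b, hb⟩ hdeg1
    obtain ⟨⟨x, hx'⟩, hbn⟩ := hV b hb
    have hbx : b = 2 * x := by omega
    subst hbx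
    by_cases hx0 : x = 0
    · exact hzero _ (by simp [hx0])
    · have hx1 : x ∈ Icc 1 n := mem_Icc.2 ⟨by omega, by omega⟩
      apply hx x hx1
      have h1 : (((halfGraph V S).neighborSet ⟨2 * x, hb⟩).ncard : ℝ) ≤ hdeg n x + 4 := by
        exact_mod_cast deg_le hV hS' x hb
      have h2 : (B.card : ℝ) < hdeg n x := by linarith
      exact_mod_cast h2
  · rintro h0 ⟨u, hu⟩ p hp hodd hup
    simp only at hup
    subst hup
    have hpn : p < 2 * n := by
      have := (hV _ hu).2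
      omega
    have hpS : p ∈ S := hS p hp hodd hpn
    have hadj1 : (halfGraph V S).Adj ⟨2 * p, hu⟩ ⟨0, h0⟩ := by
      rw [halfGraph_adj_iff (x := p) (y := 0) rfl rfl]
      refine ⟨hp.ne_zero, by simpa using hpS, by simpa using hpS⟩
    refine ⟨q, hqg, ?_⟩
    refine (SimpleGraph.edist_le (.cons hadj1 (.cons (h0q h0) .nil))).trans ?_
    norm_num
  · rintro u ⟨z, hz, hu⟩ v ⟨w, hw, hv⟩
    have h7 := edist_transfer hV2 hS (hg1 hz) (hg1 hw) (k := 7) (hg7 z hz w hw)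
    rw [SimpleGraph.edist_comm] at hv
    calc (halfGraph V S).edist u v ≤
          (halfGraph V S).edist u ⟨2 * w, hV2 w (hg1 hw)⟩ +
            (halfGraph V S).edist ⟨2 * w, hV2 w (hg1 hw)⟩ v := SimpleGraph.edist_triangle
      _ ≤ ((halfGraph V S).edist u ⟨2 * z, hV2 z (hg1 hz)⟩ +
            (halfGraph V S).edist ⟨2 * z, hV2 z (hg1 hz)⟩ ⟨2 * w, hV2 w (hg1 hw)⟩) +
            (halfGraph V S).edist ⟨2 * w, hV2 w (hg1 hw)⟩ v :=
          add_le_add_left SimpleGraph.edist_triangle _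
      _ ≤ (2 + 7) + 2 := add_le_add (add_le_add hu h7) hv
      _ = 11 := by norm_num

end Pool.Agent.Lib.H18E
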