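import Pool.Agent.Lib.H18E.FN

/-!
# The final statement with the better constant for almost all vertices
-/

open Finset Pool.Agent.Lib.H68T Pool.Agent.Lib.H18GB Pool.Agent.Lib.GoldbachGraph
  Pool.Agent.Goldbach

namespace Pool.Agent.Lib.H18E

/-- Every vertex outside `B` is at distance at most `1` from a good vertex. -/
theorem fn_one (n : ℕ) (B g : Finset ℕ) (r1 : ℕ) (h1 : r1 = 0 ∨ 7 ≤ r1)
    (hB : ∀ x ∈ Icc 1 n, x ∉ B → B.card < hdeg n x)
    (hg : ∀ x ∈ Icc 1 n, x ∉ B → ¬ r1 ∣ x → x ∈ g) (x : ℕ) (hx : x ∈ Icc 1 n) (hxB : x ∉ B) :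
    ∃ z ∈ g, (HG n).edist x z ≤ 1 := by
  by_cases h : r1 ∣ x
  · obtain ⟨Y, hY, hYB, hXY, hadj1⟩ := TG_step n B x hx (hB x hx hxB)
    have h2 : ¬ r1 ∣ Y := fun h3 =>
      tg_nd r1 x Y (by omega) (mem_Icc.1 hx).1 (mem_Icc.1 hY).1 hXY ⟨h, h3⟩
    refine ⟨Y, hg Y hY hYB h2, ?_⟩
    refine (SimpleGraph.edist_le (.cons hadj1 .nil)).trans ?_
    norm_num
  · exact ⟨x, hg x hx hxB h, by rw [SimpleGraph.edist_self]; exact zero_le⟩

/-- **The final statement.** For large `n`, all but `n exp (-(log n)^a)` vertices (the set `Γ`) are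
pairwise at distance at most `9`; together with all vertices of degree at least `n exp (-(log n)^a)`, the
vertex `0` and (if `0` is a vertex) all `2 p` with `p` an odd prime, they are pairwise at distance at
most `11`. -/
theorem fn_main2 (a : ℝ) (ha : 0 < a) (ha2 : a < 1 / 2) : ∃ n0 : ℕ, ∀ n : ℕ, n0 ≤ n →
    ∀ V S : Set ℕ, (∀ a ∈ V, Even a ∧ a ≤ 2 * n) → (∀ x ∈ Finset.Icc 1 n, 2 * x ∈ V) →
    (∀ m, m.Prime → Odd m → m < 2 * n → m ∈ S) → (∀ m ∈ S, m = 1 ∨ (m.Prime ∧ Odd m)) →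
    ∃ Γ : Set V, (Γᶜ.ncard : ℝ) ≤ n * Real.exp (-(Real.log n) ^ a) ∧
      (∀ u ∈ Γ, ∀ v ∈ Γ, (halfGraph V S).edist u v ≤ 9) ∧
      ∀ u v : V,
        (u ∈ Γ ∨ n * Real.exp (-(Real.log n) ^ a) ≤ ((halfGraph V S).neighborSet u).ncard ∨
          (u : ℕ) = 0 ∨ ((0 : ℕ) ∈ V ∧ ∃ p : ℕ, p.Prime ∧ Odd p ∧ (u : ℕ) = 2 * p)) →
        (v ∈ Γ ∨ n * Real.exp (-(Real.log n) ^ a) ≤ ((halfGraph V S).neighborSet v).ncard ∨
          (v : ℕ) = 0 ∨ ((0 : ℕ) ∈ V ∧ ∃ p : ℕ, p.Prime ∧ Odd p ∧ (v : ℕ) = 2 * p)) →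
        (halfGraph V S).edist u v ≤ 11 := by
  classical
  obtain ⟨n0, hn0⟩ := tg_main a ha ha2
  obtain ⟨n1, hn1⟩ := fn_prime a ha
  have hev : ∀ᶠ y : ℝ in Filter.atTop, 1 * y ^ a + 10 ≤ y ^ (1 : ℝ) :=
    PA_pow 1 a 1 10 ha (by linarith)
  obtain ⟨n2, hn2⟩ := Filter.eventually_atTop.1
    ((Real.tendsto_log_atTop.comp tendsto_natCast_atTop_atTop).eventually hev)
  refine ⟨max (max n0 n1) (max n2 2), fun n hn V S hV hV2 hS hS' => ?_⟩
  have hn0' : n0 ≤ n := ((le_max_left _ _).trans (le_max_left _ _)).trans hn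
  have hn1' : n1 ≤ n := ((le_max_right _ _).trans (le_max_left _ _)).trans hn
  have hn2' : n2 ≤ n := ((le_max_left _ _).trans (le_max_right _ _)).trans hn
  have hn3 : 2 ≤ n := ((le_max_right _ _).trans (le_max_right _ _)).trans hn
  have hnR : (0 : ℝ) < n := by
    have : (2 : ℝ) ≤ n := by exact_mod_cast hn3
    linarith
  obtain ⟨B, g, hB1, hB2, hg1, hg7, hBx, hg2, r1, hr1, hBg⟩ := hn0 n hn0'
  set T := (n : ℝ) * Real.exp (-(Real.log n) ^ a) with hT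
  have hT0 : 0 < T := by positivity
  have hT8 : 8 < T := by
    have h1 := hn2 n hn2'
    simp only [Function.comp, one_mul, Real.rpow_one] at h1
    have h2 : T = Real.exp (Real.log n - (Real.log n) ^ a) := by
      rw [hT, Real.exp_sub, Real.exp_log hnR, Real.exp_neg]
      rfl
    rw [h2]
    have h3 := Real.add_one_le_exp (Real.log n - (Real.log n) ^ a)
    linarith
  have hBT : (B.card : ℝ) ≤ T := by linarith
  obtain ⟨q, hq1, hq2, hq3, hq4, hq5⟩ := hn1 n hn1' B hBT r1 (by omega)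
  have hqg : q ∈ g := hBg q hq1 hq4 hq5
  have hqS : q ∈ S := hS q hq2 hq3 (by rw [mem_Icc] at hq1; omega)
  have hfin : Finite V := finite_of_le hV
  have h0q : ∀ h0 : (0 : ℕ) ∈ V, (halfGraph V S).Adj ⟨0, h0⟩ ⟨2 * q, hV2 q hq1⟩ := by
    intro h0
    rw [halfGraph_adj_iff (x := 0) (y := q) rfl rfl]
    refine ⟨hq2.ne_zero.symm, by simpa using hqS, by simpa using hqS⟩
  -- the points at distance at most one from `2 g`
  have hzero : ∀ u : V, (u : ℕ) = 0 → ∃ z, ∃ hz : z ∈ g,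
      (halfGraph V S).edist u ⟨2 * z, hV2 z (hg1 hz)⟩ ≤ 1 := by
    rintro ⟨u, hu⟩ hu0
    simp only at hu0
    subst hu0
    refine ⟨q, hqg, ?_⟩
    refine (SimpleGraph.edist_le (.cons (h0q hu) .nil)).trans ?_
    norm_num
  have hx1 : ∀ x (hx : x ∈ Icc 1 n), x ∉ B → ∃ z, ∃ hz : z ∈ g,
      (halfGraph V S).edist ⟨2 * x, hV2 x hx⟩ ⟨2 * z, hV2 z (hg1 hz)⟩ ≤ 1 := by
    intro x hx hxB
    obtain ⟨z, hz, he⟩ := fn_one n B g r1 hr1 hBx hBg x hx hxB
    exact ⟨z, hz, edist_transfer hV2 hS hx (hg1 hz) (k := 1) he⟩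
  -- the points at distance at most two from `2 g`
  have hx : ∀ x (hx : x ∈ Icc 1 n), B.card < hdeg n x → ∃ z, ∃ hz : z ∈ g,
      (halfGraph V S).edist ⟨2 * x, hV2 x hx⟩ ⟨2 * z, hV2 z (hg1 hz)⟩ ≤ 2 := by
    intro x hx hd
    obtain ⟨z, hz, he⟩ := hg2 x hx hd
    exact ⟨z, hz, edist_transfer hV2 hS hx (hg1 hz) (k := 2) he⟩
  have htri : ∀ (k : ℕ∞) (u v : V), (∃ z, ∃ hz : z ∈ g,
      (halfGraph V S).edist u ⟨2 * z, hV2 z (hg1 hz)⟩ ≤ k) → (∃ z, ∃ hz : z ∈ g,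
      (halfGraph V S).edist v ⟨2 * z, hV2 z (hg1 hz)⟩ ≤ k) →
      (halfGraph V S).edist u v ≤ (k + 7) + k := by
    rintro k u v ⟨z, hz, hu⟩ ⟨w, hw, hv⟩
    have h7 := edist_transfer hV2 hS (hg1 hz) (hg1 hw) (k := 7) (hg7 z hz w hw)
    rw [SimpleGraph.edist_comm] at hv
    calc (halfGraph V S).edist u v ≤
          (halfGraph V S).edist u ⟨2 * w, hV2 w (hg1 hw)⟩ +
            (halfGraph V S).edist ⟨2 * w, hV2 w (hg1 hw)⟩ v := SimpleGraph.edist_triangle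
      _ ≤ ((halfGraph V S).edist u ⟨2 * z, hV2 z (hg1 hz)⟩ +
            (halfGraph V S).edist ⟨2 * z, hV2 z (hg1 hz)⟩ ⟨2 * w, hV2 w (hg1 hw)⟩) +
            (halfGraph V S).edist ⟨2 * w, hV2 w (hg1 hw)⟩ v :=
          add_le_add_left SimpleGraph.edist_triangle _
      _ ≤ (k + 7) + k := add_le_add (add_le_add hu h7) hv
  set Γ : Set V := {u : V | ∃ z, ∃ hz : z ∈ g,
      (halfGraph V S).edist u ⟨2 * z, hV2 z (hg1 hz)⟩ ≤ 1} with hΓ
  have hall : ∀ u : V, (u ∈ Γ ∨ T ≤ ((halfGraph V S).neighborSet u).ncard ∨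
          (u : ℕ) = 0 ∨ ((0 : ℕ) ∈ V ∧ ∃ p : ℕ, p.Prime ∧ Odd p ∧ (u : ℕ) = 2 * p)) →
      ∃ z, ∃ hz : z ∈ g, (halfGraph V S).edist u ⟨2 * z, hV2 z (hg1 hz)⟩ ≤ 2 := by
    have h12 : (1 : ℕ∞) ≤ 2 := by norm_num
    rintro ⟨u, hu⟩ (h | h | h | ⟨h0, p, hp, hodd, hup⟩)
    · obtain ⟨z, hz, he⟩ := h
      exact ⟨z, hz, he.trans h12⟩
    · obtain ⟨⟨x, hx'⟩, hbn⟩ := hV u hu
      have hbx : u = 2 * x := by omega
      subst hbx
      by_cases hx0 : x = 0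
      · obtain ⟨z, hz, he⟩ := hzero ⟨2 * x, hu⟩ (by simp [hx0])
        exact ⟨z, hz, he.trans h12⟩
      · have hx2 : x ∈ Icc 1 n := mem_Icc.2 ⟨by omega, by omega⟩
        apply hx x hx2
        have h1 : (((halfGraph V S).neighborSet ⟨2 * x, hu⟩).ncard : ℝ) ≤ hdeg n x + 4 := by
          exact_mod_cast deg_le hV hS' x hu
        have h2 : (B.card : ℝ) < hdeg n x := by linarith
        exact_mod_cast h2
    · obtain ⟨z, hz, he⟩ := hzero ⟨u, hu⟩ h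
      exact ⟨z, hz, he.trans h12⟩
    · simp only at hup
      subst hup
      have hpn : p < 2 * n := by
        have := (hV _ hu).2
        omega
      have hpS : p ∈ S := hS p hp hodd hpn
      have hadj1 : (halfGraph V S).Adj ⟨2 * p, hu⟩ ⟨0, h0⟩ := by
        rw [halfGraph_adj_iff (x := p) (y := 0) rfl rfl]
        refine ⟨hp.ne_zero, by simpa using hpS, by simpa using hpS⟩
      refine ⟨q, hqg, ?_⟩
      refine (SimpleGraph.edist_le (.cons hadj1 (.cons (h0q h0) .nil))).trans ?_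
      norm_num
  refine ⟨Γ, ?_, ?_, ?_⟩
  · have h1 : (Γᶜ).ncard ≤ B.card := by
      rw [← Set.ncard_coe_finset]
      apply Set.ncard_le_ncard_of_injOn (fun b : V => (b : ℕ) / 2)
      · rintro ⟨b, hb⟩ hbΓ
        obtain ⟨⟨x, hx'⟩, hbn⟩ := hV b hb
        have hbx : b = 2 * x := by omega
        subst hbx
        simp only [Nat.mul_div_cancel_left _ (by norm_num : 0 < 2), Finset.mem_coe]
        by_contra hxB
        apply hbΓ
        by_cases hx0 : x = 0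
        · exact hzero _ (by simp [hx0])
        · exact hx1 x (mem_Icc.2 ⟨by omega, by omega⟩) hxB
      · rintro ⟨b, hb⟩ - ⟨b', hb'⟩ - hbb
        have h1 := (hV b hb).1
        have h2 := (hV b' hb').1
        simp only at hbb
        ext
        simp only
        obtain ⟨k, hk⟩ := h1
        obtain ⟨l, hl⟩ := h2
        omega
    have h2 : ((Γᶜ).ncard : ℝ) ≤ B.card := by exact_mod_cast h1
    exact h2.trans hBT
  · intro u hu v hv
    refine (htri 1 u v hu hv).trans ?_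
    norm_num
  · intro u v hu hv
    refine (htri 2 u v (hall u hu) (hall v hv)).trans ?_
    norm_num

end Pool.Agent.Lib.H18E
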