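import Pool.Agent.Lib.H68X.XDefs

/-!
# Chunk PA: choice of the parameters
-/

open Finset Pool.Agent.Lib.H68T

namespace Pool.Agent.Lib.H18E

theorem PA_pow (b b' C D : ℝ) (hb' : 0 < b') (h : b' < b) :
    ∀ᶠ y : ℝ in Filter.atTop, C * y ^ b' + D ≤ y ^ b := by
  have h1 := tendsto_rpow_atTop (show 0 < b - b' by linarith)
  filter_upwards [h1.eventually_ge_atTop (|C| + |D|), Filter.eventually_ge_atTop (1 : ℝ)] with y hy hy1
  have hy0 : 0 < y := by linarith
  have h2 : y ^ b = y ^ b' * y ^ (b - b') := by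
    rw [← Real.rpow_add hy0]; congr 1; ring
  have h3 : 1 ≤ y ^ b' := Real.one_le_rpow hy1 hb'.le
  rw [h2]
  have h4 : y ^ b' * (|C| + |D|) ≤ y ^ b' * y ^ (b - b') :=
    mul_le_mul_of_nonneg_left hy (by linarith)
  have h5 : C * y ^ b' ≤ |C| * y ^ b' := mul_le_mul_of_nonneg_right (le_abs_self C) (by linarith)
  have h6 : D ≤ |D| * y ^ b' := by
    have := abs_nonneg D
    have := le_abs_self D
    nlinarith
  nlinarith

theorem PA_log (b C D : ℝ) (hb : 0 < b) :
    ∀ᶠ y : ℝ in Filter.atTop, C * Real.log y + D ≤ y ^ b := by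
  filter_upwards [PA_pow b (b / 2) (|C| * (2 / b)) D (by linarith) (by linarith),
    Filter.eventually_ge_atTop (1 : ℝ)] with y hy hy1
  have h1 := Real.log_le_rpow_div (by linarith : (0 : ℝ) ≤ y) (by linarith : 0 < b / 2)
  have h2 : 0 ≤ Real.log y := Real.log_nonneg hy1
  have h3 : C * Real.log y ≤ |C| * Real.log y := mul_le_mul_of_nonneg_right (le_abs_self C) h2
  have h4 : |C| * Real.log y ≤ |C| * (y ^ (b / 2) / (b / 2)) :=
    mul_le_mul_of_nonneg_left h1 (abs_nonneg C)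
  have h5 : |C| * (y ^ (b / 2) / (b / 2)) = |C| * (2 / b) * y ^ (b / 2) := by
    field_simp
  linarith

theorem PA_floor (u : ℝ) (hu : 1 ≤ u) :
    (0 : ℝ) < (⌊Real.exp u⌋₊ : ℝ) ∧ u - 1 ≤ Real.log (⌊Real.exp u⌋₊ : ℝ) ∧
      Real.log (⌊Real.exp u⌋₊ : ℝ) ≤ u := by
  have h1 : Real.exp u / 2 ≤ (⌊Real.exp u⌋₊ : ℝ) := by
    have h2 := Nat.lt_floor_add_one (Real.exp u)
    have h3 : 2 ≤ Real.exp u := by linarith [Real.add_one_le_exp u]
    linarith
  have h0 : (0 : ℝ) < (⌊Real.exp u⌋₊ : ℝ) := lt_of_lt_of_le (by positivity) h1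
  refine ⟨h0, ?_, ?_⟩
  · have h2 : Real.exp (u - 1) ≤ Real.exp u / 2 := by
      rw [Real.exp_sub]
      apply div_le_div_of_nonneg_left (Real.exp_pos u).le (by norm_num)
      linarith [Real.add_one_le_exp 1]
    have h3 := Real.log_le_log (Real.exp_pos _) (h2.trans h1)
    rwa [Real.log_exp] at h3
  · have h2 := Real.log_le_log h0 (Nat.floor_le (Real.exp_pos u).le)
    rwa [Real.log_exp] at h2

theorem PA_exp2 (x y : ℝ) (h : x + 1 ≤ y) : Real.exp (-y) ≤ Real.exp (-x) / 2 := by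
  have h1 : Real.exp (-y) ≤ Real.exp (-x - 1) := Real.exp_le_exp.2 (by linarith)
  refine h1.trans ?_
  rw [Real.exp_sub]
  apply div_le_div_of_nonneg_left (Real.exp_pos _).le (by norm_num)
  linarith [Real.add_one_le_exp 1]

/-- All for large `n`, `L = log n`, `Q = ⌊exp √L⌋`, `log Q = √L + O(1)`. Use `a < t < 1/2`. -/
theorem pa_main (a t K : ℝ) (E : ℕ) (ha : 0 < a) (hat : a < t) (ht : t < 1 / 2) :
    ∃ n0 : ℕ, ∀ n : ℕ, n0 ≤ n →
      Reg K ⌊Real.exp (Real.sqrt (Real.log n))⌋₊ n ∧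
      K ≤ Real.log (⌊Real.exp (Real.sqrt (Real.log n))⌋₊ : ℝ) ∧
      ((⌊Real.exp (Real.sqrt (Real.log n))⌋₊ : ℕ) : ℝ) ^ (-(1 / 20) : ℝ) ≤
        Real.exp (-(Real.log n) ^ a) / 2 ∧
      (∀ r : ℕ, (Real.log n) ^ t < Real.log r → r ≤ ⌊Real.exp (Real.sqrt (Real.log n))⌋₊ →
        Reg K (r - 1) n ∧ K ≤ r ∧
          ((r - 1 : ℕ) : ℝ) ^ (-(1 / 20) : ℝ) ≤ Real.exp (-(Real.log n) ^ a) / 2) ∧
      (∀ r : ℕ, 1 ≤ r → Real.log r ≤ (Real.log n) ^ t →
        (r : ℝ) ^ E ≤ ⌊Real.exp (Real.sqrt (Real.log n))⌋₊ ∧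
        E * Real.log r * Real.log (⌊Real.exp (Real.sqrt (Real.log n))⌋₊ : ℝ) ≤ Real.log n ∧
        (r : ℝ) ^ 6 * (Real.log n) ^ 3 *
          ((⌊Real.exp (Real.sqrt (Real.log n))⌋₊ : ℕ) : ℝ) ^ (-(1 / 20) : ℝ) < 1) ∧
      K * (Real.log n) ^ 2 * Real.exp (-(Real.log n) ^ a) < 1 := by
  set K' := max K 1 with hK'
  have hKK : K ≤ K' := le_max_left _ _
  have hK1 : 1 ≤ K' := le_max_right _ _
  have hev : ∀ᶠ y : ℝ in Filter.atTop, (K' + 10) * 1 + 0 ≤ Real.log y ∧
      20 * K' * Real.log y + 20 ≤ y ^ (1 / 2 : ℝ) ∧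
      20 * y ^ a + 40 ≤ y ^ (1 / 2 : ℝ) ∧ 20 * K' * Real.log y + 20 ≤ y ^ t ∧
      20 * y ^ a + 40 ≤ y ^ t ∧ E * y ^ t + 1 ≤ y ^ (1 / 2 : ℝ) ∧
      240 * y ^ t + 10 ≤ y ^ (1 / 2 : ℝ) ∧ 120 * Real.log y + 10 ≤ y ^ (1 / 2 : ℝ) ∧
      2 * Real.log y + (K' + 1) ≤ y ^ a ∧ 1 ≤ y := by
    filter_upwards [Real.tendsto_log_atTop.eventually_ge_atTop ((K' + 10) * 1 + 0),
      PA_log (1 / 2) (20 * K') 20 (by norm_num), PA_pow (1 / 2) a 20 40 ha (by linarith),
      PA_log t (20 * K') 20 (by linarith), PA_pow t a 20 40 ha hat,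
      PA_pow (1 / 2) t E 1 (by linarith) ht, PA_pow (1 / 2) t 240 10 (by linarith) ht,
      PA_log (1 / 2) 120 10 (by norm_num), PA_log a 2 (K' + 1) ha,
      Filter.eventually_ge_atTop (1 : ℝ)] with y h1 h2 h3 h4 h5 h6 h7 h8 h9 h10
    exact ⟨h1, h2, h3, h4, h5, h6, h7, h8, h9, h10⟩
  have hev2 := (Real.tendsto_log_atTop.comp tendsto_natCast_atTop_atTop).eventually hev
  rw [Filter.eventually_atTop] at hev2
  obtain ⟨n0, hn0⟩ := hev2
  refine ⟨n0, fun n hn => ?_⟩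
  obtain ⟨f1, f2, f3, f4, f5, f6, f7, f8, f9, f10⟩ := hn0 n hn
  simp only [Function.comp] at f1 f2 f3 f4 f5 f6 f7 f8 f9 f10
  have hu : Real.sqrt (Real.log n) = (Real.log n) ^ (1 / 2 : ℝ) := Real.sqrt_eq_rpow _
  set L := Real.log n with hL
  rw [← hu] at f2 f3 f6 f7 f8
  have hL0 : 0 ≤ L := by linarith
  have huu : Real.sqrt L * Real.sqrt L = L := Real.mul_self_sqrt hL0
  set u := Real.sqrt L with hudef
  have hl1 : 10 ≤ Real.log L := by linarith
  have hKl : 1 * Real.log L ≤ K' * Real.log L := mul_le_mul_of_nonneg_right hK1 (by linarith)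
  have hu1 : 1 ≤ u := by linarith
  obtain ⟨hQ0, hQ1, hQ2⟩ := PA_floor u hu1
  generalize hQ : ⌊Real.exp u⌋₊ = Q at hQ0 hQ1 hQ2 ⊢
  have hta : 0 ≤ L ^ a := Real.rpow_nonneg hL0 _
  have htt : 0 ≤ L ^ t := Real.rpow_nonneg hL0 _
  have hreg : ∀ y : ℝ, K' * Real.log L ≤ y → y ≤ u →
      K ≤ Real.log L ∧ K * Real.log L ≤ y ∧ K * (y * Real.log L) ≤ L := by
    intro y h1 h2
    have hy0 : 0 ≤ y := by nlinarith
    refine ⟨by linarith, ?_, ?_⟩
    · refine le_trans ?_ h1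
      exact mul_le_mul_of_nonneg_right hKK (by linarith)
    · have h3 : K * (y * Real.log L) ≤ K' * (y * Real.log L) :=
        mul_le_mul_of_nonneg_right hKK (by positivity)
      have h4 : K' * (y * Real.log L) ≤ K' * (u * Real.log L) := by
        apply mul_le_mul_of_nonneg_left _ (by linarith)
        exact mul_le_mul_of_nonneg_right h2 (by linarith)
      have h5 : K' * Real.log L ≤ u := by linarith
      have h6 : K' * (u * Real.log L) ≤ u * u := by nlinarith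
      linarith
  have hQrpow : ∀ {q : ℝ}, 0 < q → q ^ (-(1 / 20) : ℝ) = Real.exp (-(Real.log q / 20)) := by
    intro q hq
    rw [Real.rpow_def_of_pos hq]
    congr 1
    ring
  refine ⟨?_, ?_, ?_, ?_, ?_, ?_⟩
  · exact hreg _ (by linarith) hQ2
  · linarith
  · rw [hQrpow hQ0]
    apply PA_exp2
    linarith
  · intro r hr1 hr2
    have hr0 : (0 : ℝ) < r := by
      by_contra h
      have h' : (r : ℝ) = 0 := le_antisymm (not_lt.1 h) (Nat.cast_nonneg r)
      rw [h', Real.log_zero] at hr1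
      linarith
    have hrlog : Real.log r ≤ r - 1 := Real.log_le_sub_one_of_pos hr0
    have hr2' : (2 : ℝ) ≤ r := by linarith
    have hr2n : 2 ≤ r := by exact_mod_cast hr2'
    have hc : ((r - 1 : ℕ) : ℝ) = r - 1 := by
      rw [Nat.cast_sub (by omega)]; norm_num
    have hpos : (0 : ℝ) < ((r - 1 : ℕ) : ℝ) := by rw [hc]; linarith
    have hlow : L ^ t - 1 ≤ Real.log ((r - 1 : ℕ) : ℝ) := by
      have h1 : (r : ℝ) / 2 ≤ ((r - 1 : ℕ) : ℝ) := by rw [hc]; linarith
      have h2 := Real.log_le_log (by positivity) h1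
      rw [Real.log_div hr0.ne' (by norm_num)] at h2
      have h3 : Real.log 2 ≤ 1 := by
        have := Real.log_le_sub_one_of_pos (show (0 : ℝ) < 2 by norm_num)
        linarith
      linarith
    have hupp : Real.log ((r - 1 : ℕ) : ℝ) ≤ u := by
      refine le_trans ?_ hQ2
      apply Real.log_le_log hpos
      have : (r : ℝ) ≤ Q := by exact_mod_cast hr2
      rw [hc]; linarith
    refine ⟨?_, ?_, ?_⟩
    · exact hreg _ (by linarith) hupp
    · linarith
    · rw [hQrpow hpos]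
      apply PA_exp2
      linarith
  · intro r hr1 hr2
    have hr0 : (0 : ℝ) < r := by exact_mod_cast hr1
    have hrl : 0 ≤ Real.log r := Real.log_natCast_nonneg r
    have hE0 : (0 : ℝ) ≤ E := Nat.cast_nonneg E
    have hEr : E * Real.log r ≤ E * L ^ t := mul_le_mul_of_nonneg_left hr2 hE0
    refine ⟨?_, ?_, ?_⟩
    · have h1 : (r : ℝ) ^ E = Real.exp (E * Real.log r) := by
        rw [mul_comm, Real.exp_mul, Real.exp_log hr0]
        norm_cast
      rw [h1, ← Real.exp_log hQ0]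
      apply Real.exp_le_exp.2
      linarith
    · have h1 : E * Real.log r * Real.log Q ≤ u * u := by
        apply mul_le_mul (by linarith) hQ2 _ (by linarith)
        exact Real.log_natCast_nonneg Q
      linarith
    · rw [hQrpow hQ0]
      have h1 : (r : ℝ) ^ 6 = Real.exp (6 * Real.log r) := by
        rw [mul_comm, Real.exp_mul, Real.exp_log hr0]
        norm_cast
      have h2 : L ^ 3 = Real.exp (3 * Real.log L) := by
        have hL1 : 0 < L := by linarith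
        rw [mul_comm, Real.exp_mul, Real.exp_log hL1]
        norm_cast
      rw [h1, h2, ← Real.exp_add, ← Real.exp_add]
      rw [Real.exp_lt_one_iff]
      linarith
  · have hL1 : 0 < L := by linarith
    have h2 : L ^ 2 = Real.exp (2 * Real.log L) := by
      rw [mul_comm, Real.exp_mul, Real.exp_log hL1]
      norm_cast
    have h3 : K ≤ Real.exp K' := by linarith [Real.add_one_le_exp K']
    calc K * L ^ 2 * Real.exp (-L ^ a) ≤ Real.exp K' * Real.exp (2 * Real.log L) *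
          Real.exp (-L ^ a) := by
          rw [h2]
          apply mul_le_mul_of_nonneg_right _ (Real.exp_pos _).le
          exact mul_le_mul_of_nonneg_right h3 (Real.exp_pos _).le
      _ = Real.exp (K' + 2 * Real.log L + -L ^ a) := by rw [← Real.exp_add, ← Real.exp_add]
      _ < 1 := by
          rw [Real.exp_lt_one_iff]
          linarith

end Pool.Agent.Lib.H18E
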