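import Pool.Agent.Lib.H18E.DG
import Pool.Agent.Lib.H18E.DE
import Pool.Agent.Lib.H18E.PA
import Pool.Agent.Lib.H68X.XEX
import Pool.Agent.Lib.H68X.XSIE

/-!
# Chunk MD: the degrees of almost all vertices (dichotomy)
-/

open Finset Pool.Agent.Lib.H68T Pool.Agent.Lib.GoldbachGraph

namespace Pool.Agent.Lib.H18E

/-- The case of a good level. -/
theorem MD_good (a c0 K L q : ℝ) (n : ℕ) (B : Finset ℕ) (hc0 : 0 < c0) (hn : 0 < n)
    (hL : L = Real.log n) (hL0 : 0 < L)
    (hK : 1 / c0 ≤ K) (hp : K * L ^ 2 * Real.exp (-L ^ a) < 1)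
    (hq : q ≤ Real.exp (-L ^ a) / 2) (hB : (B.card : ℝ) ≤ n * q)
    (h : ∀ x ∈ Icc 1 n, x ∉ B → c0 * SE x * n / L ^ 2 ≤ hdeg n x) :
    (B.card : ℝ) ≤ n * Real.exp (-L ^ a) / 2 ∧ ∀ x ∈ Icc 1 n, x ∉ B → B.card < hdeg n x := by
  have hn0 : (0 : ℝ) < n := by exact_mod_cast hn
  have h1 : (B.card : ℝ) ≤ n * Real.exp (-L ^ a) / 2 := by
    refine hB.trans ?_
    have := mul_le_mul_of_nonneg_left hq hn0.le
    linarith
  refine ⟨h1, fun x hx hxB => ?_⟩
  have h2 := h x hx hxB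
  have hSE := DG_SE x
  have h3 : (B.card : ℝ) < c0 * SE x * n / L ^ 2 := by
    rw [lt_div_iff₀ (by positivity)]
    have h4 : 1 / c0 * L ^ 2 * Real.exp (-L ^ a) < 1 := by
      refine lt_of_le_of_lt ?_ hp
      apply mul_le_mul_of_nonneg_right _ (Real.exp_pos _).le
      exact mul_le_mul_of_nonneg_right hK (by positivity)
    have h5 : L ^ 2 * Real.exp (-L ^ a) < c0 := by
      have : 1 / c0 * L ^ 2 * Real.exp (-L ^ a) = (L ^ 2 * Real.exp (-L ^ a)) / c0 := by ring
      rw [this, div_lt_one hc0] at h4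
      exact h4
    have h6 : (B.card : ℝ) * L ^ 2 ≤ n * Real.exp (-L ^ a) / 2 * L ^ 2 :=
      mul_le_mul_of_nonneg_right h1 (by positivity)
    have h7 : (n : ℝ) * Real.exp (-L ^ a) / 2 * L ^ 2 = n * (L ^ 2 * Real.exp (-L ^ a)) / 2 := by ring
    have h8 : (n : ℝ) * (L ^ 2 * Real.exp (-L ^ a)) < n * c0 := mul_lt_mul_of_pos_left h5 hn0
    have h9 : (n : ℝ) * c0 ≤ c0 * SE x * n := by nlinarith [mul_pos hn0 hc0]
    have h10 : 0 < (n : ℝ) * c0 := by positivity
    linarith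
  have h4 : (B.card : ℝ) < hdeg n x := lt_of_lt_of_le h3 h2
  exact_mod_cast h4

/-- **The degrees of almost all vertices.** Let `(c₁, K₁)` be as in `good_below`, `(c₂, c', C, K₂)` as in
`exc_data`, `c = min c₁ c₂`, `δ` as in `zero_elementary`, `t = (a + 1/2)/2`, `Q = ⌊exp √(log n)⌋` and `n`
large.
* If `Good c Q`: `deg_good c` at the level `Q`, `r1 = 0`.
* Otherwise there are `r ≤ Q`, `ψ` primitive modulo `r`, `ψ ≠ 1`, `ψ^2 = 1` and a zero
  `β ∈ [1 - c/log Q, 1]`; `β < 1` as `L(1, ψ) ≠ 0` (`DirichletCharacter.LFunction_apply_one_ne_zero`):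
  `Exc c Q r ψ β`. By `zero_elementary` `δ/r^2 ≤ 1 - β ≤ c/log Q`, so `r` is large with `n`.
  * If `log r > (log n)^t`: `Good c₁ (r - 1)` by `good_below`; `deg_good c₁` at the level `r - 1`, `r1 = 0`.
  * If `log r ≤ (log n)^t`: `exc_data` (`Exc.mono`) and `deg_exc`; `r1` is the product of the primes
    `p ≥ 7` dividing `r`, `r1 ≥ 7` by `cond_big`; if `¬ r1 ∣ x` then some prime `p ≥ 7`, `p ∣ r`, does not
    divide `x` (`Finset.prod_primes_dvd`).
All estimates of the parameters are in `pa_main` (with `K` the maximum of all constants, `E` of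
`deg_exc`). In the first two cases `|B| < c0 n/(log n)^2 ≤ c0 SE x n/(log n)^2 ≤ hdeg n x` by the last
inequality of `pa_main` (`SE x ≥ 1`). -/
theorem main_deg (a : ℝ) (ha : 0 < a) (ha2 : a < 1 / 2) : ∃ c0 : ℝ, 0 < c0 ∧ ∃ n0 : ℕ, ∀ n : ℕ,
    n0 ≤ n → ∃ B : Finset ℕ, B ⊆ Icc 1 n ∧
      (B.card : ℝ) ≤ n * Real.exp (-(Real.log n) ^ a) / 2 ∧ ∃ r1 : ℕ, (r1 = 0 ∨ 7 ≤ r1) ∧
      ∀ x ∈ Icc 1 n, x ∉ B → B.card < hdeg n x ∧
        (¬ r1 ∣ x → c0 * SE x * n / (Real.log n) ^ 2 ≤ hdeg n x) := by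
  classical
  obtain ⟨c1, K1, hc1, hgb⟩ := good_below
  obtain ⟨c2, c', C, K2, hc2, hc', hC, hed⟩ := exc_data
  obtain ⟨δ, hδ, hze⟩ := zero_elementary
  set c := min c1 c2 with hcdef
  have hc : 0 < c := lt_min hc1 hc2
  obtain ⟨Kg, cg, hKg, hcg, hdg⟩ := deg_good c hc
  obtain ⟨Ke, ce, R, E, hKe, hce, hde⟩ := deg_exc c' C δ hc' hδ
  set R' := |R| + 200 with hR'
  have hRR : R ≤ R' := by rw [hR']; linarith [le_abs_self R]
  have hR200 : 200 ≤ R' := by rw [hR']; linarith [abs_nonneg R]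
  set K := |K1| + |K2| + Kg + Ke + 1 / cg + c * R' ^ 2 / δ + 1 with hKdef
  have hK1' : 0 ≤ |K1| := abs_nonneg _
  have hK2' : 0 ≤ |K2| := abs_nonneg _
  have hcg' : 0 < 1 / cg := by positivity
  have hcR : 0 ≤ c * R' ^ 2 / δ := by positivity
  have hKK1 : K1 ≤ K := by rw [hKdef]; linarith [le_abs_self K1]
  have hKK2 : K2 ≤ K := by rw [hKdef]; linarith [le_abs_self K2]
  have hKKg : Kg ≤ K := by rw [hKdef]; linarith
  have hKKe : Ke ≤ K := by rw [hKdef]; linarith
  have hKcg : 1 / cg ≤ K := by rw [hKdef]; linarith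
  have hKcR : c * R' ^ 2 / δ ≤ K := by rw [hKdef]; linarith
  have hKpos : 0 < K := by rw [hKdef]; linarith
  have hat : a < (a + 1 / 2) / 2 := by linarith
  have ht : (a + 1 / 2) / 2 < 1 / 2 := by linarith
  obtain ⟨n0, hn0⟩ := pa_main a ((a + 1 / 2) / 2) K E ha hat ht
  refine ⟨min cg ce, lt_min hcg hce, max n0 3, fun n hn => ?_⟩
  obtain ⟨p1, p2, p3, p4, p5, p6⟩ := hn0 n ((le_max_left _ _).trans hn)
  have hn3 : 3 ≤ n := (le_max_right _ _).trans hn
  have hnpos : 0 < n := by omega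
  have hnR : (0 : ℝ) < n := by exact_mod_cast hnpos
  set Q := ⌊Real.exp (Real.sqrt (Real.log n))⌋₊ with hQ
  set t := (a + 1 / 2) / 2 with htdef
  have hL0 : 0 < Real.log n := p1.logX_pos hKpos
  have hmono : ∀ x ∈ Icc 1 n, ∀ c3, min cg ce ≤ c3 →
      c3 * SE x * n / (Real.log n) ^ 2 ≤ hdeg n x →
      min cg ce * SE x * n / (Real.log n) ^ 2 ≤ hdeg n x := by
    intro x _ c3 h1 h2
    refine le_trans ?_ h2
    have hSE := DG_SE x
    apply div_le_div_of_nonneg_right _ (by positivity)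
    apply mul_le_mul_of_nonneg_right _ hnR.le
    exact mul_le_mul_of_nonneg_right h1 (by linarith)
  by_cases hG : Good c Q
  · -- a good level
    obtain ⟨B, hB1, hB2, hB3⟩ := hdg n Q (p1.mono hKpos.le hKKg) hG
    obtain ⟨g1, g2⟩ := MD_good a cg K (Real.log n) _ n B hcg hnpos rfl hL0 hKcg p6 p3 hB2 hB3
    exact ⟨B, hB1, g1, 0, Or.inl rfl, fun x hx hxB => ⟨g2 x hx hxB, fun _ =>
      hmono x hx cg (min_le_left _ _) (hB3 x hx hxB)⟩⟩
  · -- an exceptional level
    unfold Good at hG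
    push Not at hG
    obtain ⟨r, hne, ψ, hrQ, hprim, hψ1, hψ2, β, hβ1, hβ2, hβ0⟩ := hG
    have hβlt : β < 1 := by
      rcases lt_or_eq_of_le hβ2 with h | h
      · exact h
      · exfalso
        rw [h] at hβ0
        exact DirichletCharacter.LFunction_apply_one_ne_zero hψ1 (by simpa using hβ0)
    have hexc : Exc c Q r ψ β := ⟨hrQ, hprim, hψ1, hψ2, hβ1, hβlt, hβ0⟩
    have hze' := hze r ψ hψ1 hψ2 β hβlt hβ0
    have hr1 : 1 ≤ r := Nat.one_le_iff_ne_zero.2 (NeZero.ne r)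
    have hr0 : (0 : ℝ) < r := by exact_mod_cast hr1
    by_cases hlr : (Real.log n) ^ t < Real.log r
    · -- a large exceptional modulus
      obtain ⟨q1, q2, q3⟩ := p4 r hlr hrQ
      have hG2 : Good c1 (r - 1) := hgb Q r ψ β (hKK1.trans q2) (hexc.mono (min_le_left _ _))
      have hG3 : Good c (r - 1) := hG2.mono (min_le_left _ _)
      obtain ⟨B, hB1, hB2, hB3⟩ := hdg n (r - 1) (q1.mono hKpos.le hKKg) hG3
      obtain ⟨g1, g2⟩ := MD_good a cg K (Real.log n) _ n B hcg hnpos rfl hL0 hKcg p6 q3 hB2 hB3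
      exact ⟨B, hB1, g1, 0, Or.inl rfl, fun x hx hxB => ⟨g2 x hx hxB, fun _ =>
        hmono x hx cg (min_le_left _ _) (hB3 x hx hxB)⟩⟩
    · -- a small exceptional modulus
      obtain ⟨q1, q2, q3⟩ := p5 r hr1 (not_lt.1 hlr)
      have hQK : K ≤ Q := p1.Q_ge (by rw [hKdef]; linarith)
      have hdat := hed Q (hKK2.trans hQK) r ψ β (hexc.mono (min_le_right _ _))
      have hRr : R' ≤ r := by
        by_contra hlt
        rw [not_le] at hlt
        have hlogQ : 0 < Real.log Q := by linarith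
        have h1 : 1 - β ≤ c / Real.log Q := by linarith
        have h2 : c / Real.log Q ≤ δ / R' ^ 2 := by
          rw [div_le_div_iff₀ hlogQ (by positivity)]
          have h3 : c * R' ^ 2 / δ ≤ Real.log Q := hKcR.trans p2
          rw [div_le_iff₀ hδ] at h3
          linarith
        have h3 : δ / R' ^ 2 < δ / (r : ℝ) ^ 2 := by
          apply div_lt_div_of_pos_left hδ (by positivity)
          exact pow_lt_pow_left₀ hlt hr0.le two_ne_zero
        linarith
      obtain ⟨B, hB1, hB2, hB3⟩ := hde n Q r ψ β (p1.mono hKpos.le hKKe) hdat hprim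
        (hRR.trans hRr) hze' q1 q2
      set r1 := ∏ p ∈ r.primeFactors.filter (fun p => 7 ≤ p), p with hr1def
      have hr1pos : 0 < r1 := Finset.prod_pos (fun p hp =>
        (Nat.prime_of_mem_primeFactors (mem_filter.1 hp).1).pos)
      have hr17 : 7 ≤ r1 := by
        have h120 : 120 < r := by
          have : (200 : ℝ) ≤ r := hR200.trans hRr
          have : 200 ≤ r := by exact_mod_cast this
          omega
        obtain ⟨p, hp, h7, hpr⟩ := cond_big r ψ hprim hψ2 h120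
        have hmem : p ∈ r.primeFactors.filter (fun p => 7 ≤ p) :=
          mem_filter.2 ⟨Nat.mem_primeFactors.2 ⟨hp, hpr, by omega⟩, h7⟩
        exact h7.trans (Nat.le_of_dvd hr1pos (Finset.dvd_prod_of_mem (fun p => p) hmem))
      refine ⟨B, hB1, ?_, r1, Or.inr hr17, fun x hx hxB => ⟨?_, fun hx1 => ?_⟩⟩
      · refine hB2.trans ?_
        have := mul_le_mul_of_nonneg_left p3 hnR.le
        linarith
      · have h1 := (hB3 x hx hxB).1
        have hpos : (0 : ℝ) < hdeg n x := by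
          by_contra h
          have h0 : (hdeg n x : ℝ) = 0 := le_antisymm (not_lt.1 h) (Nat.cast_nonneg _)
          rw [h0, zero_mul] at h1
          linarith
        have hQ0 : (0 : ℝ) ≤ (Q : ℝ) ^ (-(1 / 20) : ℝ) := Real.rpow_nonneg (Nat.cast_nonneg _) _
        have h2 : (B.card : ℝ) < hdeg n x := by
          calc (B.card : ℝ) ≤ n * (Q : ℝ) ^ (-(1 / 20) : ℝ) := hB2
            _ ≤ hdeg n x * ((r : ℝ) ^ 6 * (Real.log n) ^ 3) * (Q : ℝ) ^ (-(1 / 20) : ℝ) :=
                mul_le_mul_of_nonneg_right h1 hQ0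
            _ = hdeg n x * ((r : ℝ) ^ 6 * (Real.log n) ^ 3 * (Q : ℝ) ^ (-(1 / 20) : ℝ)) := by ring
            _ < hdeg n x * 1 := mul_lt_mul_of_pos_left q3 hpos
            _ = hdeg n x := mul_one _
        exact_mod_cast h2
      · apply hmono x hx ce (min_le_right _ _)
        apply (hB3 x hx hxB).2
        by_contra hcon
        push Not at hcon
        apply hx1
        apply Finset.prod_primes_dvd
        · intro p hp
          exact (Nat.prime_of_mem_primeFactors (mem_filter.1 hp).1).prime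
        · intro p hp
          rw [mem_filter] at hp
          exact hcon p (Nat.prime_of_mem_primeFactors hp.1) hp.2 (Nat.dvd_of_mem_primeFactors hp.1)

end Pool.Agent.Lib.H18E
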