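import Pool.Agent.Lib.H18E.PG
import Pool.Agent.Lib.H68X.XPAIR

/-!
# Chunk PG2: weighted correlations
-/

open Finset Pool.Agent.Lib.H68T

namespace Pool.Agent.Lib.H18E

/-- Copy of `pair_general` (file `H68X/XPAIR.lean`) with arbitrary starting points; use `corr_gen`
instead of `cg1_corr`. -/
theorem pair_gen (Q N W : ℕ) (hW : 0 < W) (x y : ℤ)
    (A A' : ℕ → ℕ → ℝ) (D : ℝ) (hD : 0 ≤ D) (hA0 : ∀ q c, 0 ≤ A q c) (hAD : ∀ q c, A q c ≤ D)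
    (hA0' : ∀ q c, 0 ≤ A' q c) (hAD' : ∀ q c, A' q c ≤ D)
    (hA : ∀ q, Antitone (A q) ∨ Monotone (A q)) (hA' : ∀ q, Antitone (A' q) ∨ Monotone (A' q)) :
    |(∑ c ∈ range N,
        (∑ q ∈ QW Q W, (ArithmeticFunction.moebius q : ℝ) / (Nat.totient q : ℝ) *
          cq q (x + W * (c : ℕ)) * A q c) *
        (∑ q ∈ QW Q W, (ArithmeticFunction.moebius q : ℝ) / (Nat.totient q : ℝ) *
          cq q (y + W * (c : ℕ)) * A' q c)) -
      ∑ q ∈ QW Q W, ((ArithmeticFunction.moebius q : ℝ) / (Nat.totient q : ℝ)) ^ 2 *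
        cq q (x - y) * ∑ c ∈ range N, A q c * A' q c| ≤ 2 * D ^ 2 * (Q : ℝ) ^ 6 := by
  set α : ℕ → ℝ := fun q => (ArithmeticFunction.moebius q : ℝ) / (Nat.totient q : ℝ) with hα
  set xx : ℕ → ℕ → ℕ → ℝ := fun q₁ q₂ c =>
    cq q₁ (x + W * (c : ℕ)) * cq q₂ (y + W * (c : ℕ)) -
      (if q₁ = q₂ then cq q₁ (x - y) else 0) with hx
  have hmain : (∑ c ∈ range N,
        (∑ q ∈ QW Q W, α q * cq q (x + W * (c : ℕ)) * A q c) *
        (∑ q ∈ QW Q W, α q * cq q (y + W * (c : ℕ)) * A' q c)) -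
      ∑ q ∈ QW Q W, (α q) ^ 2 * cq q (x - y) * ∑ c ∈ range N, A q c * A' q c =
      ∑ q₁ ∈ QW Q W, ∑ q₂ ∈ QW Q W, α q₁ * α q₂ *
        ∑ c ∈ range N, A' q₂ c * (A q₁ c * xx q₁ q₂ c) := by
    have h1 : (∑ c ∈ range N,
        (∑ q ∈ QW Q W, α q * cq q (x + W * (c : ℕ)) * A q c) *
        (∑ q ∈ QW Q W, α q * cq q (y + W * (c : ℕ)) * A' q c)) =
        ∑ q₁ ∈ QW Q W, ∑ q₂ ∈ QW Q W, α q₁ * α q₂ *
        ∑ c ∈ range N, A' q₂ c * (A q₁ c *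
          (cq q₁ (x + W * (c : ℕ)) * cq q₂ (y + W * (c : ℕ)))) := by
      have h2 : ∀ c ∈ range N,
        (∑ q ∈ QW Q W, α q * cq q (x + W * (c : ℕ)) * A q c) *
        (∑ q ∈ QW Q W, α q * cq q (y + W * (c : ℕ)) * A' q c) =
        ∑ q₁ ∈ QW Q W, ∑ q₂ ∈ QW Q W, α q₁ * α q₂ *
          (A' q₂ c * (A q₁ c *
          (cq q₁ (x + W * (c : ℕ)) * cq q₂ (y + W * (c : ℕ))))) := by
        intro c _
        rw [sum_mul_sum]
        apply sum_congr rfl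
        intro q₁ _
        apply sum_congr rfl
        intro q₂ _
        ring
      rw [sum_congr rfl h2, sum_comm]
      apply sum_congr rfl
      intro q₁ _
      rw [sum_comm]
      apply sum_congr rfl
      intro q₂ _
      rw [mul_sum]
    have h3 : ∑ q ∈ QW Q W, (α q) ^ 2 * cq q (x - y) * ∑ c ∈ range N, A q c * A' q c =
        ∑ q₁ ∈ QW Q W, ∑ q₂ ∈ QW Q W, α q₁ * α q₂ *
        ∑ c ∈ range N, A' q₂ c * (A q₁ c * (if q₁ = q₂ then cq q₁ (x - y) else 0)) := by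
      apply sum_congr rfl
      intro q₁ hq₁
      symm
      refine (sum_eq_single q₁ ?_ ?_).trans ?_
      · intro q₂ _ hne
        rw [if_neg (Ne.symm hne)]
        simp
      · intro h
        exact absurd hq₁ h
      · rw [if_pos rfl, mul_sum, mul_sum]
        apply sum_congr rfl
        intro c _
        ring
    rw [h1, h3, ← sum_sub_distrib]
    apply sum_congr rfl
    intro q₁ _
    rw [← sum_sub_distrib]
    apply sum_congr rfl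
    intro q₂ _
    rw [← mul_sub, ← sum_sub_distrib]
    congr 1
    apply sum_congr rfl
    intro c _
    rw [hx]
    ring
  rw [hmain]
  rcases Nat.lt_or_ge Q 2 with hQ | hQ
  · have hzero : ∑ q₁ ∈ QW Q W, ∑ q₂ ∈ QW Q W, α q₁ * α q₂ *
        ∑ c ∈ range N, A' q₂ c * (A q₁ c * xx q₁ q₂ c) = 0 := by
      apply sum_eq_zero
      intro q₁ hq₁
      apply sum_eq_zero
      intro q₂ hq₂
      have h1 := XPAIR_mem hq₁
      have h2 := XPAIR_mem hq₂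
      have e1 : q₁ = 1 := by omega
      have e2 : q₂ = 1 := by omega
      rw [e1, e2]
      have : ∑ c ∈ range N, A' 1 c * (A 1 c * xx 1 1 c) = 0 := by
        apply sum_eq_zero
        intro c _
        rw [hx]
        simp [XPAIR_cq_one]
      rw [this, mul_zero]
    rw [hzero, abs_zero]
    positivity
  have hterm : ∀ q₁ ∈ QW Q W, ∀ q₂ ∈ QW Q W,
      |α q₁ * α q₂ * ∑ c ∈ range N, A' q₂ c * (A q₁ c * xx q₁ q₂ c)| ≤
      4 * D ^ 2 * ((|α q₁| * ∑ d ∈ q₁.divisors, (d : ℝ)) *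
        (|α q₂| * ∑ d ∈ q₂.divisors, (d : ℝ))) := by
    intro q₁ hq₁ q₂ hq₂
    have h1 := XPAIR_mem hq₁
    have h2 := XPAIR_mem hq₂
    have h3 := XPAIR_two N (A q₁) (A' q₂) (xx q₁ q₂) D
      ((∑ d ∈ q₁.divisors, (d : ℝ)) * ∑ d ∈ q₂.divisors, (d : ℝ)) hD (fun N' _ => ?_)
      (hA0 q₁) (hAD q₁) (hA q₁) (hA0' q₂) (hAD' q₂) (hA' q₂)
    · rw [abs_mul, abs_mul]
      calc |α q₁| * |α q₂| * |∑ c ∈ range N, A' q₂ c * (A q₁ c * xx q₁ q₂ c)|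
          ≤ |α q₁| * |α q₂| * (4 * D ^ 2 * ((∑ d ∈ q₁.divisors, (d : ℝ)) *
            ∑ d ∈ q₂.divisors, (d : ℝ))) := mul_le_mul_of_nonneg_left h3 (by positivity)
        _ = _ := by ring
    · have h4 := corr_gen q₁ q₂ W N' x y h1.1 h2.1 h1.2.1 h2.2.1
      have h5 : ∑ c ∈ range N', xx q₁ q₂ c = ∑ c ∈ range N', cq q₁ (x + W * (c : ℕ)) *
          cq q₂ (y + W * (c : ℕ)) -
          N' * (if q₁ = q₂ then cq q₁ (x - y) else 0) := by
        rw [hx]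
        simp only
        rw [sum_sub_distrib, sum_const, card_range, nsmul_eq_mul]
      rw [h5]
      exact h4
  set Y : ℕ → ℝ := fun q => |α q| * ∑ d ∈ q.divisors, (d : ℝ) with hY
  have hS : ∑ q ∈ QW Q W, Y q ≤ (Q : ℝ) ^ 2 := XPAIR_sum_le Q W
  have hS0 : 0 ≤ ∑ q ∈ QW Q W, Y q := by
    apply sum_nonneg
    intro q _
    rw [hY]
    positivity
  have hQ2 : (2 : ℝ) ≤ Q := by exact_mod_cast hQ
  calc |∑ q₁ ∈ QW Q W, ∑ q₂ ∈ QW Q W, α q₁ * α q₂ *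
        ∑ c ∈ range N, A' q₂ c * (A q₁ c * xx q₁ q₂ c)|
      ≤ ∑ q₁ ∈ QW Q W, ∑ q₂ ∈ QW Q W, 4 * D ^ 2 * (Y q₁ * Y q₂) :=
        (abs_sum_le_sum_abs _ _).trans (sum_le_sum fun q₁ hq₁ =>
          (abs_sum_le_sum_abs _ _).trans (sum_le_sum fun q₂ hq₂ => hterm q₁ hq₁ q₂ hq₂))
    _ = 4 * D ^ 2 * ((∑ q ∈ QW Q W, Y q) * (∑ q ∈ QW Q W, Y q)) := by
        rw [sum_mul_sum, mul_sum]
        apply sum_congr rfl
        intro q₁ _
        rw [mul_sum]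
    _ ≤ 4 * D ^ 2 * ((Q : ℝ) ^ 2 * (Q : ℝ) ^ 2) := by
        apply mul_le_mul_of_nonneg_left _ (by positivity)
        exact mul_le_mul hS hS hS0 (by positivity)
    _ ≤ 2 * D ^ 2 * (Q : ℝ) ^ 6 := by
        have h6 : (4 : ℝ) ≤ (Q : ℝ) ^ 2 := by nlinarith
        have h7 : 0 ≤ D ^ 2 * (Q : ℝ) ^ 4 := by positivity
        nlinarith

end Pool.Agent.Lib.H18E
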