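import Pool.Agent.Lib.H18E.Defs

/-!
# Chunk SS3: the mean of Rankin's factor
-/

open Finset Pool.Agent.Lib.H68T

namespace Pool.Agent.Lib.H18E

theorem SS3_g0 (p : ℕ) (hp : 2 ≤ p) : 0 ≤ Real.sqrt p / ((p : ℝ) - 1) := by
  have : (2 : ℝ) ≤ p := by exact_mod_cast hp
  exact div_nonneg (Real.sqrt_nonneg _) (by linarith)

theorem SS3_g1 (p : ℕ) (hp : 2 ≤ p) :
    Real.sqrt p / ((p : ℝ) - 1) / p ≤ 2 * (p : ℝ) ^ (-(3 / 2) : ℝ) := by
  have h2 : (2 : ℝ) ≤ p := by exact_mod_cast hp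
  have hp0 : (0 : ℝ) < p := by linarith
  have e : (p : ℝ) ^ (-(3 / 2) : ℝ) = Real.sqrt p / (p : ℝ) ^ 2 := by
    rw [Real.sqrt_eq_rpow, eq_div_iff (by positivity), ← Real.rpow_natCast,
      ← Real.rpow_add hp0]
    norm_num
  rw [e, div_div]
  have hs : 0 ≤ Real.sqrt p := Real.sqrt_nonneg _
  rw [← mul_div_assoc, div_le_div_iff₀ (by nlinarith) (by positivity)]
  nlinarith [mul_nonneg hs (mul_nonneg hp0.le (by linarith : (0 : ℝ) ≤ p - 2))]

theorem SS3_count (n : ℕ) (S : Finset ℕ) (hS : ∀ p ∈ S, p.Prime) :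
    (((Icc 1 n).filter (fun x => S ⊆ x.primeFactors)).card : ℝ) ≤ n * ∏ p ∈ S, (1 / (p : ℝ)) := by
  have h1 : ((Icc 1 n).filter (fun x => S ⊆ x.primeFactors)) ⊆
      (Ioc 0 n).filter (fun x => (∏ p ∈ S, p) ∣ x) := by
    intro x hx
    rw [mem_filter, mem_Icc] at hx
    rw [mem_filter, mem_Ioc]
    refine ⟨⟨by omega, hx.1.2⟩, ?_⟩
    exact Finset.prod_primes_dvd x (fun p hp => (hS p hp).prime)
      (fun p hp => Nat.dvd_of_mem_primeFactors (hx.2 hp))
  have h2 := card_le_card h1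
  rw [Nat.Ioc_filter_dvd_card_eq_div] at h2
  have h3 : (((Icc 1 n).filter (fun x => S ⊆ x.primeFactors)).card : ℝ) ≤
      ((n / (∏ p ∈ S, p) : ℕ) : ℝ) := by exact_mod_cast h2
  refine h3.trans ?_
  refine (Nat.cast_div_le).trans ?_
  rw [div_eq_mul_inv]
  push_cast
  rw [← Finset.prod_inv_distrib]
  simp only [one_div]
  exact le_refl _

theorem SS3_mean (n : ℕ) : ∑ x ∈ Icc 1 n, ∏ p ∈ x.primeFactors,
    (1 + Real.sqrt p / ((p : ℝ) - 1)) ≤
    n * ∏ p ∈ (Icc 1 n).filter Nat.Prime, (1 + Real.sqrt p / ((p : ℝ) - 1) / p) := by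
  set P := (Icc 1 n).filter Nat.Prime with hP
  have h1 : ∀ x ∈ Icc 1 n, ∏ p ∈ x.primeFactors, (1 + Real.sqrt p / ((p : ℝ) - 1)) =
      ∑ S ∈ P.powerset, if S ⊆ x.primeFactors then ∏ p ∈ S, Real.sqrt p / ((p : ℝ) - 1) else 0 := by
    intro x hx
    rw [mem_Icc] at hx
    rw [Finset.prod_one_add, ← Finset.sum_filter]
    apply Finset.sum_congr _ (fun _ _ => rfl)
    ext S
    simp only [mem_powerset, mem_filter]
    constructor
    · intro h
      refine ⟨fun p hp => ?_, h⟩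
      have h3 := h hp
      rw [Nat.mem_primeFactors] at h3
      rw [hP, mem_filter, mem_Icc]
      have := Nat.le_of_dvd (by omega) h3.2.1
      exact ⟨⟨h3.1.one_lt.le, by omega⟩, h3.1⟩
    · exact fun h => h.2
  rw [Finset.sum_congr rfl h1, Finset.sum_comm]
  rw [Finset.prod_one_add, Finset.mul_sum]
  apply Finset.sum_le_sum
  intro S hS
  rw [mem_powerset] at hS
  have hSp : ∀ p ∈ S, p.Prime := fun p hp => (mem_filter.1 (hS hp)).2
  rw [← Finset.sum_filter, Finset.sum_const, nsmul_eq_mul]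
  have h4 := SS3_count n S hSp
  have h5 : 0 ≤ ∏ p ∈ S, Real.sqrt p / ((p : ℝ) - 1) :=
    Finset.prod_nonneg (fun p hp => SS3_g0 p (hSp p hp).two_le)
  calc _ ≤ (n * ∏ p ∈ S, (1 / (p : ℝ))) * ∏ p ∈ S, Real.sqrt p / ((p : ℝ) - 1) :=
        mul_le_mul_of_nonneg_right h4 h5
    _ = n * ∏ p ∈ S, (Real.sqrt p / ((p : ℝ) - 1) / p) := by
        rw [mul_assoc, ← Finset.prod_mul_distrib]
        congr 1
        apply Finset.prod_congr rfl
        intro p hp
        ring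

theorem SS3_prod : ∃ C : ℝ, 0 ≤ C ∧ ∀ n : ℕ,
    ∏ p ∈ (Icc 1 n).filter Nat.Prime, (1 + Real.sqrt p / ((p : ℝ) - 1) / p) ≤ C := by
  have hs : Summable (fun m : ℕ => 2 * (m : ℝ) ^ (-(3 / 2) : ℝ)) :=
    (Real.summable_nat_rpow.2 (by norm_num)).mul_left 2
  refine ⟨Real.exp (∑' m : ℕ, 2 * (m : ℝ) ^ (-(3 / 2) : ℝ)), (Real.exp_pos _).le, fun n => ?_⟩
  calc ∏ p ∈ (Icc 1 n).filter Nat.Prime, (1 + Real.sqrt p / ((p : ℝ) - 1) / p)
      ≤ ∏ p ∈ (Icc 1 n).filter Nat.Prime, Real.exp (2 * (p : ℝ) ^ (-(3 / 2) : ℝ)) := by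
        apply Finset.prod_le_prod
        · intro p hp
          have := SS3_g0 p (mem_filter.1 hp).2.two_le
          positivity
        · intro p hp
          have h1 := SS3_g1 p (mem_filter.1 hp).2.two_le
          have h2 := Real.add_one_le_exp (2 * (p : ℝ) ^ (-(3 / 2) : ℝ))
          linarith
    _ = Real.exp (∑ p ∈ (Icc 1 n).filter Nat.Prime, 2 * (p : ℝ) ^ (-(3 / 2) : ℝ)) := by
        rw [Real.exp_sum]
    _ ≤ _ := by
        apply Real.exp_le_exp.2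
        exact hs.sum_le_tsum _ (fun m _ => by positivity)

/-- `Rk (2 x) ≤ (1 + √2) ∏_{p ∣ x} (1 + g(p))`, `g(p) = √p/(p-1)`, and
`∏_{p ∣ x} (1 + g(p)) = ∑_{d ∣ x, squarefree} g(d)` (`Finset.prod_one_add`; `g(d) = ∏_{p ∣ d} g(p)`), so
`∑_{x ≤ n} ≤ n ∑_{d ≤ n} g(d)/d ≤ n ∏_{p ≤ n} (1 + g(p)/p) ≤ C n`, since
`g(p)/p ≤ 2 p^(-3/2)`. -/
theorem rk_mean : ∃ C : ℝ, 1 ≤ C ∧ ∀ n : ℕ, ∑ x ∈ Icc 1 n, Rk (2 * (x : ℤ)) ≤ C * n := by
  obtain ⟨C, hC0, hC⟩ := SS3_prod
  refine ⟨max 1 (3 * C), le_max_left _ _, fun n => ?_⟩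
  have h1 : ∀ x ∈ Icc 1 n, Rk (2 * (x : ℤ)) ≤
      3 * ∏ p ∈ x.primeFactors, (1 + Real.sqrt p / ((p : ℝ) - 1)) := by
    intro x hx
    rw [mem_Icc] at hx
    have hab : (2 * (x : ℤ)).natAbs = 2 * x := by omega
    unfold Rk
    rw [hab]
    have hsub : (2 * x).primeFactors ⊆ insert 2 x.primeFactors := by
      rw [Nat.primeFactors_mul (by norm_num) (by omega), Nat.Prime.primeFactors Nat.prime_two]
      intro p hp
      simpa using hp
    have hge : ∀ p ∈ insert 2 x.primeFactors, 1 ≤ 1 + Real.sqrt p / ((p : ℝ) - 1) := by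
      intro p hp
      rw [mem_insert] at hp
      have h2 : 2 ≤ p := by
        rcases hp with h | h
        · omega
        · exact (Nat.prime_of_mem_primeFactors h).two_le
      linarith [SS3_g0 p h2]
    have hge' : ∀ p ∈ x.primeFactors, 1 ≤ 1 + Real.sqrt p / ((p : ℝ) - 1) :=
      fun p hp => hge p (mem_insert_of_mem hp)
    have h3 : ∏ p ∈ (2 * x).primeFactors, (1 + Real.sqrt p / ((p : ℝ) - 1)) ≤
        ∏ p ∈ insert 2 x.primeFactors, (1 + Real.sqrt p / ((p : ℝ) - 1)) := by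
      exact Finset.prod_le_prod_of_subset_of_one_le hsub (fun p hp => by linarith [hge p (hsub hp)])
        (fun p hp _ => hge p hp)
    refine h3.trans ?_
    have hpos : 0 ≤ ∏ p ∈ x.primeFactors, (1 + Real.sqrt p / ((p : ℝ) - 1)) :=
      Finset.prod_nonneg (fun p hp => by linarith [hge' p hp])
    by_cases h2 : 2 ∈ x.primeFactors
    · rw [Finset.insert_eq_of_mem h2]
      linarith
    · rw [Finset.prod_insert h2]
      apply mul_le_mul_of_nonneg_right _ hpos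
      have : Real.sqrt 2 ≤ 2 := by
        rw [Real.sqrt_le_left (by norm_num)]; norm_num
      norm_num
      linarith
  calc ∑ x ∈ Icc 1 n, Rk (2 * (x : ℤ)) ≤ ∑ x ∈ Icc 1 n,
        3 * ∏ p ∈ x.primeFactors, (1 + Real.sqrt p / ((p : ℝ) - 1)) := Finset.sum_le_sum h1
    _ = 3 * ∑ x ∈ Icc 1 n, ∏ p ∈ x.primeFactors, (1 + Real.sqrt p / ((p : ℝ) - 1)) := by
        rw [Finset.mul_sum]
    _ ≤ 3 * (n * C) := by
        apply mul_le_mul_of_nonneg_left _ (by norm_num)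
        exact (SS3_mean n).trans (mul_le_mul_of_nonneg_left (hC n) (Nat.cast_nonneg n))
    _ = (3 * C) * n := by ring
    _ ≤ _ := mul_le_mul_of_nonneg_right (le_max_right _ _) (Nat.cast_nonneg n)

/-- `Gp W D ≥ 1`, `Rk D ≥ 1`. -/
theorem one_le_Gp (W : ℕ) (D : ℤ) : 1 ≤ Gp W D := by
  unfold Gp
  apply Finset.one_le_prod
  intro p hp
  have h2 := (Nat.prime_of_mem_primeFactors (mem_filter.1 hp).1).two_le
  have h3 : (2 : ℝ) ≤ p := by exact_mod_cast h2
  have h4 : 0 ≤ 1 / ((p : ℝ) - 1) := div_nonneg zero_le_one (by linarith)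
  linarith

theorem one_le_Rk (D : ℤ) : 1 ≤ Rk D := by
  unfold Rk
  apply Finset.one_le_prod
  intro p hp
  have h2 := (Nat.prime_of_mem_primeFactors hp).two_le
  linarith [SS3_g0 p h2]

/-- `Gp W D ≤ Rk D`. -/
theorem Gp_le_Rk (W : ℕ) (D : ℤ) : Gp W D ≤ Rk D := by
  unfold Gp Rk
  have h1 : ∀ p ∈ D.natAbs.primeFactors, (1 : ℝ) ≤ p ∧ 0 ≤ 1 / ((p : ℝ) - 1) ∧
      1 / ((p : ℝ) - 1) ≤ Real.sqrt p / ((p : ℝ) - 1) := by
    intro p hp
    have h2 := (Nat.prime_of_mem_primeFactors hp).two_le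
    have h3 : (2 : ℝ) ≤ p := by exact_mod_cast h2
    have h4 : 0 ≤ 1 / ((p : ℝ) - 1) := div_nonneg zero_le_one (by linarith)
    refine ⟨by linarith, h4, ?_⟩
    apply div_le_div_of_nonneg_right _ (by linarith)
    rw [Real.one_le_sqrt]
    linarith
  calc ∏ p ∈ D.natAbs.primeFactors.filter (fun p => ¬ p ∣ W), (1 + 1 / ((p : ℝ) - 1))
      ≤ ∏ p ∈ D.natAbs.primeFactors.filter (fun p => ¬ p ∣ W), (1 + Real.sqrt p / ((p : ℝ) - 1)) := by
        apply Finset.prod_le_prod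
        · intro p hp
          have := h1 p (mem_filter.1 hp).1
          linarith [this.2.1]
        · intro p hp
          have := h1 p (mem_filter.1 hp).1
          linarith [this.2.2]
    _ ≤ _ := by
        apply Finset.prod_le_prod_of_subset_of_one_le (filter_subset _ _)
        · intro p hp
          have := h1 p (mem_filter.1 hp).1
          linarith [this.2.1, this.2.2]
        · intro p hp _
          have := h1 p hp
          linarith [this.2.1, this.2.2]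

end Pool.Agent.Lib.H18E
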