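import Pool.Agent.Lib.H18E.SS2
import Pool.Agent.Lib.H18E.SS3
import Pool.Agent.Lib.H18E.PG2
import Pool.Agent.Lib.H68X.XG1
import Pool.Agent.Lib.H68X.XTW
import Pool.Agent.Lib.H68X.XCG

/-!
# Chunk ML: lower bound for the correlations of the model
-/

open Finset Pool.Agent.Lib.H68T

namespace Pool.Agent.Lib.H18E

/-- The weight `|x + W c|^(β-1)` along the class, constant for `c ≥ H - 1`. -/
noncomputable def ml_w (H W : ℕ) (x : ℤ) (β : ℝ) (c : ℕ) : ℝ :=
  |((x + W * (min c (H - 1) : ℕ) : ℤ) : ℝ)| ^ (β - 1)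

theorem ml_one_le {H W : ℕ} {x : ℤ} (hH : 1 ≤ H) (hW : 0 < W) (hx : 1 ≤ x ∨ x + W * H ≤ 0)
    (c : ℕ) : (1 : ℝ) ≤ |((x + W * (min c (H - 1) : ℕ) : ℤ) : ℝ)| := by
  have hc : min c (H - 1) ≤ H - 1 := min_le_right _ _
  set k := min c (H - 1) with hk
  have hW' : (0 : ℤ) < W := by exact_mod_cast hW
  have hk0 : (0 : ℤ) ≤ (W : ℤ) * k := by positivity
  have hk1 : (W : ℤ) * k + W ≤ W * H := by
    have : W * (k + 1) ≤ W * H := Nat.mul_le_mul_left _ (by omega)
    have h3 : ((W * (k + 1) : ℕ) : ℤ) ≤ ((W * H : ℕ) : ℤ) := by exact_mod_cast this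
    push_cast at h3
    linarith
  rw [← Int.cast_abs]
  have : (1 : ℤ) ≤ |x + W * (k : ℕ)| := by
    rcases hx with hx | hx
    · rw [abs_of_pos (by linarith)]
      linarith
    · rw [abs_of_neg (by linarith)]
      linarith
  exact_mod_cast this

theorem ml_w_nonneg (H W : ℕ) (x : ℤ) (β : ℝ) (c : ℕ) : 0 ≤ ml_w H W x β c := by
  unfold ml_w
  positivity

theorem ml_w_le {H W : ℕ} {x : ℤ} {β : ℝ} (hH : 1 ≤ H) (hW : 0 < W)
    (hx : 1 ≤ x ∨ x + W * H ≤ 0) (hβ1 : β ≤ 1) (c : ℕ) : ml_w H W x β c ≤ 1 := by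
  unfold ml_w
  exact Real.rpow_le_one_of_one_le_of_nonpos (ml_one_le hH hW hx c) (by linarith)

theorem ml_w_mono {H W : ℕ} {x : ℤ} {β : ℝ} (hH : 1 ≤ H) (hW : 0 < W)
    (hx : 1 ≤ x ∨ x + W * H ≤ 0) (hβ1 : β ≤ 1) :
    Antitone (ml_w H W x β) ∨ Monotone (ml_w H W x β) := by
  have hW' : (0 : ℤ) < W := by exact_mod_cast hW
  have key : ∀ c c' : ℕ, c ≤ c' → (W : ℤ) * (min c (H - 1) : ℕ) ≤ W * (min c' (H - 1) : ℕ) := by
    intro c c' h
    have : min c (H - 1) ≤ min c' (H - 1) := min_le_min_right _ h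
    have h2 : ((min c (H - 1) : ℕ) : ℤ) ≤ ((min c' (H - 1) : ℕ) : ℤ) := by exact_mod_cast this
    nlinarith
  have hb : ∀ c : ℕ, (0 : ℤ) ≤ (W : ℤ) * (min c (H - 1) : ℕ) ∧
      (W : ℤ) * (min c (H - 1) : ℕ) + W ≤ W * H := by
    intro c
    refine ⟨by positivity, ?_⟩
    have h1 : min c (H - 1) ≤ H - 1 := min_le_right _ _
    have : W * (min c (H - 1) + 1) ≤ W * H := Nat.mul_le_mul_left _ (by omega)
    have h3 : ((W * (min c (H - 1) + 1) : ℕ) : ℤ) ≤ ((W * H : ℕ) : ℤ) := by exact_mod_cast this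
    push_cast at h3 ⊢
    linarith
  rcases hx with hx | hx
  · left
    intro c c' h
    unfold ml_w
    apply Real.rpow_le_rpow_of_nonpos
    · exact lt_of_lt_of_le one_pos (ml_one_le hH hW (Or.inl hx) c)
    · rw [← Int.cast_abs, ← Int.cast_abs]
      have h1 := key c c' h
      have h2 := hb c
      have h3 := hb c'
      have : |x + W * (min c (H - 1) : ℕ)| ≤ |x + W * (min c' (H - 1) : ℕ)| := by
        rw [abs_of_pos (by linarith [h2.1]), abs_of_pos (by linarith [h3.1])]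
        linarith
      exact_mod_cast this
    · linarith
  · right
    intro c c' h
    unfold ml_w
    apply Real.rpow_le_rpow_of_nonpos
    · exact lt_of_lt_of_le one_pos (ml_one_le hH hW (Or.inr hx) c')
    · rw [← Int.cast_abs, ← Int.cast_abs]
      have h1 := key c c' h
      have h2 := hb c
      have h3 := hb c'
      have : |x + W * (min c' (H - 1) : ℕ)| ≤ |x + W * (min c (H - 1) : ℕ)| := by
        rw [abs_of_neg (by linarith [h3.2]), abs_of_neg (by linarith [h2.2])]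
        linarith
      exact_mod_cast this
    · linarith

/-- The weighted expansion. -/
noncomputable def ml_S (Q W : ℕ) (x : ℤ) (A : ℕ → ℕ → ℝ) (c : ℕ) : ℝ :=
  ∑ q ∈ QW Q W, (ArithmeticFunction.moebius q : ℝ) / (Nat.totient q : ℝ) *
    cq q (x + W * (c : ℕ)) * A q c

theorem ml_MM_eq (Q H W r : ℕ) (x : ℤ) (c : ℕ) (β ε : ℝ) (hW : 0 < W) (hr : r ∣ W)
    (hx : IsCoprime x (W : ℤ)) (hc : c < H) :
    MM Q r ε β (x + W * (c : ℕ)) =
      ml_S Q W x (fun q _ => TW Q W q) c -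
        ε * ml_S Q W x (fun q c => ml_w H W x β c * TWr Q W r q) c := by
  have hm : IsCoprime (x + W * (c : ℕ)) (W : ℤ) := hx.add_mul_left_left _
  unfold MM ml_S
  rw [G_coprime Q W hW _ hm, Gam_coprime Q W r hW hr _ hm, mul_sum, mul_sum]
  congr 1
  apply sum_congr rfl
  intro q _
  have hc' : |((x + W * (c : ℕ) : ℤ) : ℝ)| ^ (β - 1) = ml_w H W x β c := by
    unfold ml_w
    have : min c (H - 1) = c := by omega
    rw [this]
  rw [hc']
  ring

/-- Lower bound version of `x_pair` (file `H68X/XCG.lean`), for two starting points `x`, `y`.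

All `m = x + W c`, `m' = y + W c`, `c < H`, are coprime to `W`, nonzero; `|m|` is increasing in `c`
and `|m'|` is increasing (if `1 ≤ y`) or decreasing (if `y + W H ≤ 0`). By `G_coprime`, `Gam_coprime`
(`XG1.lean`) `MM(m) = ∑_{q ∈ QW Q W} (μ(q)/φ(q)) c_q(m) (A q c - ε B q c)`, `A q c = TW Q W q`,
`B q c = |m|^(β-1) TWr Q W r q`, all in `[0, W/φ(W)]`, monotone in `c` (extend the weights monotonically
outside `c < H`, e.g. replace `c` by `min c (H - 1)`); similarly `m'`. Expand the product into four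
correlations, apply `pair_gen` to each (`D = W/φ(W)`): up to `8 D² Q^6 ≤ Q^9` the sum is
`∑_q (μ(q)/φ(q))² c_q(x-y) ∑_c (A - ε B)(A' - ε' B')`. For `q² ≤ Q` (so `W q ≤ Q`, as `W^100 ≤ Q`)
`TW_eq`, `TWr_eq` (file `XTW.lean`) give the inner sum
`(W/φ(W))² ∑_c (1 - ε |m|^(β-1))(1 - ε' |m'|^(β-1)) ≥ 0`, and `ss_low` applies to the sum over these
`q`. For `q² > Q` the inner sum is at most `4 (W/φ(W))² H` in absolute value, the terms vanish unless
`q` is squarefree, `|c_q(D)| ≤ φ((q,D))` (`cq_squarefree`): `ss_tail`. Note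
`∑_c (1 - ..)(1 - ..) ≤ 4 H`. -/
theorem model_low : ∃ C : ℝ, 1 ≤ C ∧ ∀ (Q H W r : ℕ) (x y : ℤ) (β ε ε' : ℝ), 0 < W →
    W ^ 100 ≤ Q → 8 ≤ Q → r ∣ W → IsCoprime x (W : ℤ) → IsCoprime y (W : ℤ) → 1 ≤ x →
    (1 ≤ y ∨ y + W * H ≤ 0) → x ≠ y → (2 ∣ W ∨ (2 : ℤ) ∣ x - y) → 1 / 2 ≤ β → β ≤ 1 →
    |ε| ≤ 1 → |ε'| ≤ 1 →
    ((W : ℝ) / Nat.totient W) ^ 2 *
        ((∑ c ∈ range H, (1 - ε * |((x + W * (c : ℕ) : ℤ) : ℝ)| ^ (β - 1)) *
            (1 - ε' * |((y + W * (c : ℕ) : ℤ) : ℝ)| ^ (β - 1))) * (1 / 2 * Gp W (x - y)) -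
          C * H * (Q : ℝ) ^ (-(1 / 4) : ℝ) * Rk (x - y)) - (Q : ℝ) ^ 9 ≤
      ∑ c ∈ range H, MM Q r ε β (x + W * (c : ℕ)) * MM Q r ε' β (y + W * (c : ℕ)) := by
  obtain ⟨C1, hC1, hlow⟩ := ss_low
  obtain ⟨C2, hC2, htail⟩ := ss_tail
  refine ⟨4 * C1 + 4 * C2, by linarith, ?_⟩
  intro Q H W r x y β ε ε' hW hWQ hQ hr hx hy hx1 hy1 hxy hpar hβ hβ1 hε hε'
  have hQr : (8 : ℝ) ≤ Q := by exact_mod_cast hQ
  by_cases hH0 : H = 0
  · subst hH0
    simp only [range_zero, sum_empty, Nat.cast_zero, zero_mul, mul_zero, sub_zero]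
    have : 0 ≤ (Q : ℝ) ^ 9 := by positivity
    linarith
  have hH : 1 ≤ H := by omega
  have hH' : (1 : ℝ) ≤ H := by exact_mod_cast hH
  set D : ℝ := (W : ℝ) / Nat.totient W with hD
  have hD0 : 0 ≤ D := by positivity
  set d : ℤ := x - y with hd
  have hd0 : d ≠ 0 := sub_ne_zero.mpr hxy
  set A : ℕ → ℕ → ℝ := fun q _ => TW Q W q with hA
  set B : ℕ → ℕ → ℝ := fun q c => ml_w H W x β c * TWr Q W r q with hB
  set B' : ℕ → ℕ → ℝ := fun q c => ml_w H W y β c * TWr Q W r q with hB'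
  have hA0 : ∀ q c, 0 ≤ A q c := fun q _ => TW_nonneg Q W q
  have hAD : ∀ q c, A q c ≤ D := fun q _ => TW_le Q W q hW
  have hAm : ∀ q, Antitone (A q) ∨ Monotone (A q) := fun q => Or.inl (fun _ _ _ => le_refl _)
  have gB0 : ∀ (z : ℤ) (q c : ℕ), 0 ≤ ml_w H W z β c * TWr Q W r q := fun z q c =>
    mul_nonneg (ml_w_nonneg H W z β c) (TWr_nonneg Q W r q)
  have gBD : ∀ z : ℤ, (1 ≤ z ∨ z + W * H ≤ 0) → ∀ q c : ℕ,
      ml_w H W z β c * TWr Q W r q ≤ D := fun z hz q c => by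
    have h1 := ml_w_le hH hW hz hβ1 c
    have h3 := TWr_nonneg Q W r q
    have h4 := TWr_le Q W r q hW hr
    calc ml_w H W z β c * TWr Q W r q ≤ 1 * TWr Q W r q := mul_le_mul_of_nonneg_right h1 h3
      _ ≤ D := by rw [one_mul]; exact h4
  have gBm : ∀ z : ℤ, (1 ≤ z ∨ z + W * H ≤ 0) → ∀ q : ℕ,
      Antitone (fun c => ml_w H W z β c * TWr Q W r q) ∨
        Monotone (fun c => ml_w H W z β c * TWr Q W r q) := fun z hz q => by
    rcases ml_w_mono hH hW hz hβ1 with h | h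
    · exact Or.inl (fun c c' hc => mul_le_mul_of_nonneg_right (h hc) (TWr_nonneg Q W r q))
    · exact Or.inr (fun c c' hc => mul_le_mul_of_nonneg_right (h hc) (TWr_nonneg Q W r q))
  have hx1' : 1 ≤ x ∨ x + W * H ≤ 0 := Or.inl hx1
  have hB0 : ∀ q c, 0 ≤ B q c := gB0 x
  have hB0' : ∀ q c, 0 ≤ B' q c := gB0 y
  have hBD : ∀ q c, B q c ≤ D := gBD x hx1'
  have hBD' : ∀ q c, B' q c ≤ D := gBD y hy1
  have hBm : ∀ q, Antitone (B q) ∨ Monotone (B q) := gBm x hx1'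
  have hBm' : ∀ q, Antitone (B' q) ∨ Monotone (B' q) := gBm y hy1
  -- the four correlations
  set T : (ℕ → ℕ → ℝ) → (ℕ → ℕ → ℝ) → ℝ := fun U V => ∑ c ∈ range H,
    ml_S Q W x U c * ml_S Q W y V c with hT
  set Z : (ℕ → ℕ → ℝ) → (ℕ → ℕ → ℝ) → ℝ := fun U V =>
    ∑ q ∈ QW Q W, ((ArithmeticFunction.moebius q : ℝ) / (Nat.totient q : ℝ)) ^ 2 *
        cq q d * ∑ c ∈ range H, U q c * V q c with hZ
  have hAA' : |T A A - Z A A| ≤ 2 * D ^ 2 * (Q : ℝ) ^ 6 :=
    pair_gen Q H W hW x y A A D hD0 hA0 hAD hA0 hAD hAm hAm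
  have hAB' : |T A B' - Z A B'| ≤ 2 * D ^ 2 * (Q : ℝ) ^ 6 :=
    pair_gen Q H W hW x y A B' D hD0 hA0 hAD hB0' hBD' hAm hBm'
  have hBA' : |T B A - Z B A| ≤ 2 * D ^ 2 * (Q : ℝ) ^ 6 :=
    pair_gen Q H W hW x y B A D hD0 hB0 hBD hA0 hAD hBm hAm
  have hBB' : |T B B' - Z B B'| ≤ 2 * D ^ 2 * (Q : ℝ) ^ 6 :=
    pair_gen Q H W hW x y B B' D hD0 hB0 hBD hB0' hBD' hBm hBm'
  have hE0 : 0 ≤ 2 * D ^ 2 * (Q : ℝ) ^ 6 := by positivity
  have hexp : ∑ c ∈ range H, MM Q r ε β (x + W * (c : ℕ)) * MM Q r ε' β (y + W * (c : ℕ)) =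
      T A A - ε' * T A B' - ε * T B A + ε * ε' * T B B' := by
    simp only [hT]
    rw [mul_sum, mul_sum, mul_sum, ← sum_sub_distrib, ← sum_sub_distrib, ← sum_add_distrib]
    apply sum_congr rfl
    intro c hc
    rw [ml_MM_eq Q H W r x c β ε hW hr hx (mem_range.mp hc),
      ml_MM_eq Q H W r y c β ε' hW hr hy (mem_range.mp hc)]
    simp only [hA, hB, hB']
    ring
  have herr : Z A A - ε' * Z A B' - ε * Z B A + ε * ε' * Z B B' - 8 * D ^ 2 * (Q : ℝ) ^ 6 ≤
      T A A - ε' * T A B' - ε * T B A + ε * ε' * T B B' := by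
    have gen : ∀ (η u v : ℝ), |η| ≤ 1 → |u - v| ≤ 2 * D ^ 2 * (Q : ℝ) ^ 6 →
        η * v - 2 * D ^ 2 * (Q : ℝ) ^ 6 ≤ η * u := by
      intro η u v h1 h2
      have h3 : |η * (u - v)| ≤ 2 * D ^ 2 * (Q : ℝ) ^ 6 := by
        rw [abs_mul]
        calc |η| * |u - v| ≤ 1 * (2 * D ^ 2 * (Q : ℝ) ^ 6) :=
              mul_le_mul h1 h2 (abs_nonneg _) (by norm_num)
          _ = _ := one_mul _
      have h4 := (abs_le.mp h3).1
      have h5 : η * (u - v) = η * u - η * v := by ring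
      linarith
    have e1 := gen 1 _ _ (by norm_num) hAA'
    have e2 := gen (-ε') _ _ (by rw [abs_neg]; exact hε') hAB'
    have e3 := gen (-ε) _ _ (by rw [abs_neg]; exact hε) hBA'
    have e4 := gen (ε * ε') _ _ (by
      rw [abs_mul]
      exact mul_le_one₀ hε (abs_nonneg _) hε') hBB'
    linarith
  have herr2 : 8 * D ^ 2 * (Q : ℝ) ^ 6 ≤ (Q : ℝ) ^ 9 := by
    have h1 : D ^ 2 ≤ Q := XCG_D_sq Q W hW hWQ
    calc 8 * D ^ 2 * (Q : ℝ) ^ 6 ≤ Q * Q * (Q : ℝ) ^ 6 := by gcongr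
      _ = (Q : ℝ) ^ 8 := by ring
      _ ≤ (Q : ℝ) ^ 9 := pow_le_pow_right₀ (by linarith) (by norm_num)
  -- the main term
  set I : ℕ → ℝ := fun q => ∑ c ∈ range H, (A q c - ε * B q c) * (A q c - ε' * B' q c) with hI
  have hmain : Z A A - ε' * Z A B' - ε * Z B A + ε * ε' * Z B B' =
      ∑ q ∈ QW Q W, ((ArithmeticFunction.moebius q : ℝ) / (Nat.totient q : ℝ)) ^ 2 *
        cq q d * I q := by
    simp only [hZ, hI]
    rw [mul_sum, mul_sum, mul_sum, ← sum_sub_distrib, ← sum_sub_distrib, ← sum_add_distrib]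
    apply sum_congr rfl
    intro q _
    have h1 : ∑ c ∈ range H, (A q c - ε * B q c) * (A q c - ε' * B' q c) =
        ∑ c ∈ range H, A q c * A q c - ε' * ∑ c ∈ range H, A q c * B' q c -
          ε * ∑ c ∈ range H, B q c * A q c + ε * ε' * ∑ c ∈ range H, B q c * B' q c := by
      rw [mul_sum, mul_sum, mul_sum, ← sum_sub_distrib, ← sum_sub_distrib, ← sum_add_distrib]
      apply sum_congr rfl
      intro c _
      ring
    rw [h1]
    ring
  set Sg : ℝ := ∑ c ∈ range H, (1 - ε * |((x + W * (c : ℕ) : ℤ) : ℝ)| ^ (β - 1)) *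
            (1 - ε' * |((y + W * (c : ℕ) : ℤ) : ℝ)| ^ (β - 1)) with hSg
  have hSgw : Sg = ∑ c ∈ range H, (1 - ε * ml_w H W x β c) * (1 - ε' * ml_w H W y β c) := by
    rw [hSg]
    refine sum_congr rfl fun c hc => ?_
    have hc' := mem_range.mp hc
    unfold ml_w
    have : min c (H - 1) = c := by omega
    rw [this]
  have hone : ∀ (z : ℤ) (η : ℝ), |η| ≤ 1 → (1 ≤ z ∨ z + W * H ≤ 0) → ∀ c : ℕ,
      0 ≤ 1 - η * ml_w H W z β c ∧ 1 - η * ml_w H W z β c ≤ 2 := by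
    intro z η hη hz c
    have h1 := ml_w_le hH hW hz hβ1 c
    have h2 := ml_w_nonneg H W z β c
    have h3 := abs_le.mp hη
    constructor <;> nlinarith
  have hSg0 : 0 ≤ Sg := by
    rw [hSgw]
    exact sum_nonneg fun c _ => mul_nonneg (hone x ε hε hx1' c).1 (hone y ε' hε' hy1 c).1
  have hSg4 : Sg ≤ 4 * H := by
    rw [hSgw]
    calc _ ≤ ∑ _c ∈ range H, (4 : ℝ) := by
          apply sum_le_sum
          intro c _
          have h1 := hone x ε hε hx1' c
          have h2 := hone y ε' hε' hy1 c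
          calc _ ≤ (2 : ℝ) * 2 := mul_le_mul h1.2 h2.2 h2.1 (by norm_num)
            _ = 4 := by norm_num
      _ = 4 * H := by rw [sum_const, card_range, nsmul_eq_mul]; ring
  have hIsmall : ∀ q : ℕ, q ^ 2 ≤ Q → I q = D ^ 2 * Sg := by
    intro q hq
    have hWq : W * q ≤ Q := by
      have h1 := XCG_W_sq Q W hW hWQ
      have h2 : (W * q) ^ 2 ≤ Q ^ 2 := by
        calc (W * q) ^ 2 = W ^ 2 * q ^ 2 := by ring
          _ ≤ Q * Q := Nat.mul_le_mul h1 hq
          _ = Q ^ 2 := by ring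
      exact (Nat.pow_le_pow_iff_left (by norm_num)).mp h2
    rw [hSgw]
    simp only [hI]
    rw [mul_sum]
    apply sum_congr rfl
    intro c _
    simp only [hA, hB, hB']
    rw [TW_eq Q W q hW hWq, TWr_eq Q W r q hW hr hWq]
    ring
  have hIbig : ∀ q : ℕ, |I q| ≤ H * (4 * D ^ 2) := by
    intro q
    simp only [hI]
    refine (abs_sum_le_sum_abs _ _).trans ?_
    calc ∑ c ∈ range H, |(A q c - ε * B q c) * (A q c - ε' * B' q c)|
        ≤ ∑ _c ∈ range H, 4 * D ^ 2 := by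
          apply sum_le_sum
          intro c _
          rw [abs_mul]
          have key : ∀ η u v : ℝ, |η| ≤ 1 → 0 ≤ u → u ≤ D → 0 ≤ v → v ≤ D →
              |u - η * v| ≤ 2 * D := by
            intro η u v hη hu hu' hv hv'
            have h1 : |η * v| ≤ D := by
              rw [abs_mul, abs_of_nonneg hv]
              calc |η| * v ≤ 1 * D := mul_le_mul hη hv' hv (by norm_num)
                _ = D := one_mul _
            have h2 := abs_le.mp h1
            rw [abs_le]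
            constructor <;> linarith
          have h1 := key _ _ _ hε (hA0 q c) (hAD q c) (hB0 q c) (hBD q c)
          have h2 := key _ _ _ hε' (hA0 q c) (hAD q c) (hB0' q c) (hBD' q c)
          calc |A q c - ε * B q c| * |A q c - ε' * B' q c| ≤ (2 * D) * (2 * D) :=
                mul_le_mul h1 h2 (abs_nonneg _) (by positivity)
            _ = 4 * D ^ 2 := by ring
      _ = H * (4 * D ^ 2) := by rw [sum_const, card_range, nsmul_eq_mul]
  set q4 := (Q : ℝ) ^ (-(1 / 4) : ℝ) with hq4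
  have hq40 : 0 ≤ q4 := by positivity
  have hRk : 1 ≤ Rk d := one_le_Rk d
  have hbound : D ^ 2 * (Sg * (1 / 2 * Gp W d) - (4 * C1 + 4 * C2) * H * q4 * Rk d) ≤
      ∑ q ∈ QW Q W, ((ArithmeticFunction.moebius q : ℝ) / (Nat.totient q : ℝ)) ^ 2 *
        cq q d * I q := by
    rw [← sum_filter_add_sum_filter_not (QW Q W) (fun q => q ^ 2 ≤ Q)]
    have p1 : D ^ 2 * (Sg * (1 / 2 * Gp W d) - 4 * C1 * H * q4 * Rk d) ≤
        ∑ q ∈ (QW Q W).filter (fun q => q ^ 2 ≤ Q),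
        ((ArithmeticFunction.moebius q : ℝ) / (Nat.totient q : ℝ)) ^ 2 * cq q d * I q := by
      have h1 := hlow Q W d hd0 hW (by omega) (by
        rcases hpar with h | h
        · exact Or.inl h
        · exact Or.inr h)
      have h2 : ∑ q ∈ (QW Q W).filter (fun q => q ^ 2 ≤ Q),
          ((ArithmeticFunction.moebius q : ℝ) / (Nat.totient q : ℝ)) ^ 2 * cq q d * I q =
          (D ^ 2 * Sg) * ∑ q ∈ (QW Q W).filter (fun q => q ^ 2 ≤ Q),
          ((ArithmeticFunction.moebius q : ℝ) / (Nat.totient q : ℝ)) ^ 2 * cq q d := by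
        rw [mul_sum]
        refine sum_congr rfl fun q hq => ?_
        rw [hIsmall q (mem_filter.mp hq).2]
        ring
      rw [h2]
      refine le_trans ?_ (mul_le_mul_of_nonneg_left h1 (by positivity))
      have h3 : D ^ 2 * Sg * (C1 * q4 * Rk d) ≤ D ^ 2 * (4 * H) * (C1 * q4 * Rk d) := by
        have : 0 ≤ C1 * q4 * Rk d := by positivity
        gcongr
      have h4 : D ^ 2 * Sg * (1 / 2 * Gp W d - C1 * q4 * Rk d) =
        D ^ 2 * (Sg * (1 / 2 * Gp W d)) - D ^ 2 * Sg * (C1 * q4 * Rk d) := by ring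
      rw [h4]
      have h5 : D ^ 2 * (Sg * (1 / 2 * Gp W d) - 4 * C1 * H * q4 * Rk d) =
        D ^ 2 * (Sg * (1 / 2 * Gp W d)) - D ^ 2 * (4 * H) * (C1 * q4 * Rk d) := by ring
      rw [h5]
      linarith
    have p2 : -(D ^ 2 * (4 * C2 * H * q4 * Rk d)) ≤
        ∑ q ∈ (QW Q W).filter (fun q => ¬ q ^ 2 ≤ Q),
        ((ArithmeticFunction.moebius q : ℝ) / (Nat.totient q : ℝ)) ^ 2 * cq q d * I q := by
      have h1 : |∑ q ∈ (QW Q W).filter (fun q => ¬ q ^ 2 ≤ Q),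
        ((ArithmeticFunction.moebius q : ℝ) / (Nat.totient q : ℝ)) ^ 2 * cq q d * I q| ≤
          D ^ 2 * (4 * C2 * H * q4 * Rk d) := by
        refine (abs_sum_le_sum_abs _ _).trans ?_
        calc ∑ q ∈ (QW Q W).filter (fun q => ¬ q ^ 2 ≤ Q),
              |((ArithmeticFunction.moebius q : ℝ) / (Nat.totient q : ℝ)) ^ 2 * cq q d * I q|
            ≤ ∑ q ∈ (QW Q W).filter (fun q => ¬ q ^ 2 ≤ Q),
              (if Squarefree q then (Nat.totient (Nat.gcd q d.natAbs) : ℝ) /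
                (Nat.totient q : ℝ) ^ 2 else 0) * (H * (4 * D ^ 2)) := by
              apply sum_le_sum
              intro q _
              rw [abs_mul, abs_mul]
              have h2 : |((ArithmeticFunction.moebius q : ℝ) / (Nat.totient q : ℝ)) ^ 2| =
                  ((ArithmeticFunction.moebius q : ℝ) / (Nat.totient q : ℝ)) ^ 2 :=
                abs_of_nonneg (by positivity)
              rw [h2]
              exact mul_le_mul (XCG_cq_le q d) (hIbig q) (abs_nonneg _) (by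
                split_ifs <;> positivity)
          _ = (∑ q ∈ ((QW Q W).filter (fun q => ¬ q ^ 2 ≤ Q)).filter Squarefree,
                (Nat.totient (Nat.gcd q d.natAbs) : ℝ) / (Nat.totient q : ℝ) ^ 2) *
                  (H * (4 * D ^ 2)) := by
              rw [← sum_mul, sum_filter (s := (QW Q W).filter (fun q => ¬ q ^ 2 ≤ Q))]
          _ ≤ (C2 * q4 * Rk d) * (H * (4 * D ^ 2)) := by
              apply mul_le_mul_of_nonneg_right _ (by positivity)
              apply htail Q d hd0 (by omega)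
              intro q hq
              rw [mem_filter, mem_filter] at hq
              exact ⟨hq.2, not_le.mp hq.1.2⟩
          _ = _ := by ring
      exact (abs_le.mp h1).1
    have h6 : D ^ 2 * (Sg * (1 / 2 * Gp W d) - (4 * C1 + 4 * C2) * H * q4 * Rk d) =
      D ^ 2 * (Sg * (1 / 2 * Gp W d) - 4 * C1 * H * q4 * Rk d) +
        -(D ^ 2 * (4 * C2 * H * q4 * Rk d)) := by ring
    rw [h6]
    exact add_le_add p1 p2
  rw [hexp]
  rw [← hmain] at hbound
  linarith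

end Pool.Agent.Lib.H18E
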