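import Pool.Agent.Lib.H18E.Defs
import Pool.Agent.Lib.H68T.CG1

/-!
# Chunk PG: weighted correlations of Ramanujan sums along a progression
-/

open Finset Pool.Agent.Lib.H68T

namespace Pool.Agent.Lib.H18E

theorem pg_cq_congr {q : ℕ} {m m' : ℤ} (h : (q : ℤ) ∣ m - m') : cq q m = cq q m' := by
  unfold cq
  refine sum_congr (filter_congr fun d hd => ?_) fun _ _ => rfl
  have hdq : (d : ℤ) ∣ m - m' :=
    (Int.natCast_dvd_natCast.mpr (Nat.dvd_of_mem_divisors hd)).trans h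
  constructor
  · intro h1
    have := dvd_sub h1 hdq
    simpa using this
  · intro h1
    have := dvd_add hdq h1
    simpa using this

theorem pg_cq_mul {q W : ℕ} (h : Nat.Coprime q W) (m : ℤ) : cq q (W * m) = cq q m := by
  unfold cq
  refine sum_congr (filter_congr fun d hd => ?_) fun _ _ => rfl
  have hc : IsCoprime (d : ℤ) (W : ℤ) :=
    Nat.isCoprime_iff_coprime.mpr (Nat.Coprime.coprime_dvd_left (Nat.dvd_of_mem_divisors hd) h)
  exact ⟨fun h1 => hc.dvd_of_dvd_mul_left h1, fun h1 => dvd_mul_of_dvd_right h1 _⟩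

theorem pg_exists {q W : ℕ} (hq : 0 < q) (h : Nat.Coprime q W) (x : ℤ) :
    ∃ s : ℕ, (q : ℤ) ∣ x - W * s := by
  obtain ⟨a, b, hab⟩ := Nat.isCoprime_iff_coprime.mpr h
  have hq' : (0 : ℤ) < q := by exact_mod_cast hq
  refine ⟨((x * b) % q).toNat, ?_⟩
  rw [Int.toNat_of_nonneg (Int.emod_nonneg _ hq'.ne'), Int.emod_def]
  refine ⟨x * a + W * (x * b / q), ?_⟩
  linear_combination (-x) * hab

/-- As `cg1_corr` (file `H68T/CG1.lean`, with `cg1_count`), for arbitrary starting points: `x + W c`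
instead of `b + W (s + c)`, `y + W c` instead of `b + W (s' + c)`; the condition
`gcd(d₁,d₂) ∣ s - s'` becomes `gcd(d₁,d₂) ∣ x - y`. -/
theorem corr_gen (q₁ q₂ W N : ℕ) (x y : ℤ) (h₁ : 0 < q₁) (h₂ : 0 < q₂)
    (c₁ : Nat.Coprime q₁ W) (c₂ : Nat.Coprime q₂ W) :
    |∑ c ∈ range N, cq q₁ (x + W * (c : ℕ)) * cq q₂ (y + W * (c : ℕ)) -
      N * (if q₁ = q₂ then cq q₁ (x - y) else 0)| ≤
      (∑ d ∈ q₁.divisors, (d : ℝ)) * ∑ d ∈ q₂.divisors, (d : ℝ) := by
  obtain ⟨s, hs⟩ := pg_exists h₁ c₁ x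
  obtain ⟨s', hs'⟩ := pg_exists h₂ c₂ y
  have h := cg1_corr q₁ q₂ W 0 s s' N h₁ h₂ c₁ c₂
  have e1 : ∑ c ∈ range N, cq q₁ (x + W * (c : ℕ)) * cq q₂ (y + W * (c : ℕ)) =
      ∑ c ∈ range N, cq q₁ (((0 : ℕ) : ℤ) + W * (s + c : ℕ)) *
        cq q₂ (((0 : ℕ) : ℤ) + W * (s' + c : ℕ)) := by
    refine sum_congr rfl fun c _ => ?_
    congr 1
    · apply pg_cq_congr
      have : x + W * (c : ℕ) - (((0 : ℕ) : ℤ) + W * (s + c : ℕ)) = x - W * s := by push_cast; ring
      rw [this]; exact hs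
    · apply pg_cq_congr
      have : y + W * (c : ℕ) - (((0 : ℕ) : ℤ) + W * (s' + c : ℕ)) = y - W * s' := by
        push_cast; ring
      rw [this]; exact hs'
  have e2 : (if q₁ = q₂ then cq q₁ (x - y) else 0) =
      (if q₁ = q₂ then cq q₁ ((s : ℤ) - s') else 0) := by
    split_ifs with hq
    · subst hq
      rw [← pg_cq_mul c₁ ((s : ℤ) - s')]
      apply pg_cq_congr
      have := dvd_sub hs hs'
      have e : x - y - W * ((s : ℤ) - s') = x - W * s - (y - W * s') := by ring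
      rw [e]; exact this
    · rfl
  rw [e1, e2]
  exact h

end Pool.Agent.Lib.H18E
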