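import Pool.Agent.Lib.H18E.Defs

/-!
# Chunk SS1: the tail of the singular series (Rankin's trick)
-/

open Finset Pool.Agent.Lib.H68T

namespace Pool.Agent.Lib.H18E

/-- the local factor of Rankin's majorant -/
noncomputable def SS1_f (D : ℕ) (p : ℕ) : ℝ :=
  if p ∣ D then Real.sqrt p / ((p : ℝ) - 1) else Real.sqrt p / ((p : ℝ) - 1) ^ 2

theorem SS1_tot {q : ℕ} (hq : Squarefree q) :
    (Nat.totient q : ℝ) = ∏ p ∈ q.primeFactors, ((p : ℝ) - 1) := by
  have h1 := Nat.totient_eq_div_primeFactors_mul q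
  rw [Nat.prod_primeFactors_of_squarefree hq,
    Nat.div_self (Nat.pos_of_ne_zero hq.ne_zero), one_mul] at h1
  rw [h1, Nat.cast_prod]
  refine prod_congr rfl fun p hp => ?_
  have h2 := (Nat.prime_of_mem_primeFactors hp).one_le
  rw [Nat.cast_sub h2, Nat.cast_one]

theorem SS1_term {q D : ℕ} (hq : Squarefree q) (hD : D ≠ 0) :
    Real.sqrt q * ((Nat.totient (Nat.gcd q D) : ℝ) / (Nat.totient q : ℝ) ^ 2) =
      ∏ p ∈ q.primeFactors, SS1_f D p := by
  have hg : Squarefree (Nat.gcd q D) := hq.squarefree_of_dvd (Nat.gcd_dvd_left q D)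
  have h1 : (Nat.gcd q D).primeFactors = q.primeFactors.filter (fun p => p ∣ D) := by
    rw [Nat.primeFactors_gcd hq.ne_zero hD]
    ext p
    simp only [mem_inter, mem_filter, Nat.mem_primeFactors]
    constructor
    · rintro ⟨⟨a, b, c⟩, d, e, f⟩
      exact ⟨⟨a, b, c⟩, e⟩
    · rintro ⟨⟨a, b, c⟩, e⟩
      exact ⟨⟨a, b, c⟩, a, e, hD⟩
  have h2 : Real.sqrt q = ∏ p ∈ q.primeFactors, Real.sqrt p := by
    rw [← Real.sqrt_prod _ (fun p _ => Nat.cast_nonneg p), ← Nat.cast_prod,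
      Nat.prod_primeFactors_of_squarefree hq]
  rw [SS1_tot hg, SS1_tot hq, h1, prod_filter, h2, ← prod_pow, ← prod_div_distrib,
    ← prod_mul_distrib]
  refine prod_congr rfl fun p hp => ?_
  have h3 : (1 : ℝ) < p := by exact_mod_cast (Nat.prime_of_mem_primeFactors hp).one_lt
  have h4 : (p : ℝ) - 1 ≠ 0 := by linarith
  unfold SS1_f
  split_ifs
  · field_simp
  · field_simp

theorem SS1_f_nonneg (D : ℕ) {p : ℕ} (hp : 1 < p) : 0 ≤ SS1_f D p := by
  have h3 : (1 : ℝ) < p := by exact_mod_cast hp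
  have h4 : 0 < (p : ℝ) - 1 := by linarith
  unfold SS1_f
  split_ifs <;> positivity

theorem SS1_sum (S : Finset ℕ) (hS : ∀ q ∈ S, Squarefree q) (D : ℕ) :
    ∑ q ∈ S, ∏ p ∈ q.primeFactors, SS1_f D p ≤
      ∏ p ∈ S.biUnion Nat.primeFactors, (1 + SS1_f D p) := by
  rw [prod_one_add]
  have hinj : Set.InjOn Nat.primeFactors (S : Set ℕ) := by
    intro a ha b hb hab
    rw [← Nat.prod_primeFactors_of_squarefree (hS a ha), hab,
      Nat.prod_primeFactors_of_squarefree (hS b hb)]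
  rw [← sum_image (f := fun T => ∏ p ∈ T, SS1_f D p) hinj]
  refine sum_le_sum_of_subset_of_nonneg ?_ ?_
  · intro T hT
    obtain ⟨q, hq, rfl⟩ := mem_image.1 hT
    rw [mem_powerset]
    exact subset_biUnion_of_mem Nat.primeFactors hq
  · intro T hT _
    refine prod_nonneg fun p hp => ?_
    have h1 := (mem_powerset.1 hT) hp
    obtain ⟨q, _, hq⟩ := mem_biUnion.1 h1
    exact SS1_f_nonneg D (Nat.prime_of_mem_primeFactors hq).one_lt

theorem SS1_small {p : ℕ} (hp : 1 < p) :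
    Real.sqrt p / ((p : ℝ) - 1) ^ 2 ≤ 4 * (1 / (p : ℝ) ^ (3 / 2 : ℝ)) := by
  have h2 : (2 : ℝ) ≤ p := by exact_mod_cast hp
  have h0 : (0 : ℝ) < p := by linarith
  have h4 : 0 < (p : ℝ) - 1 := by linarith
  have h5 : (p : ℝ) ^ (3 / 2 : ℝ) * Real.sqrt p = (p : ℝ) ^ 2 := by
    rw [Real.sqrt_eq_rpow, ← Real.rpow_add h0, ← Real.rpow_natCast]
    norm_num
  have h6 : 0 < (p : ℝ) ^ (3 / 2 : ℝ) := Real.rpow_pos_of_pos h0 _
  rw [mul_one_div, div_le_div_iff₀ (by positivity) h6, mul_comm (Real.sqrt p), h5]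
  nlinarith

/-- Every `q` in the sum is squarefree with `√q > Q^(1/4)`, so the term is at most
`Q^(-1/4) f(q)`, `f(q) = √q φ((q,D))/φ(q)^2`, multiplicative on squarefree numbers:
`f(p) = √p/(p-1)` if `p ∣ D`, `f(p) = √p/(p-1)^2` otherwise. A sum of `f` over a finite set of
squarefree numbers is at most `∏ (1 + f(p))` over a finite set of primes containing all their prime
factors (`Finset.prod_one_add`), and this is at most
`Rk D * ∏_p (1 + √p/(p-1)^2) ≤ Rk D * exp (∑_p √p/(p-1)^2)`, a convergent sum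
(`√p/(p-1)^2 ≤ 4 p^(-3/2)`). -/
theorem ss_tail : ∃ C : ℝ, 1 ≤ C ∧ ∀ (Q : ℕ) (D : ℤ), D ≠ 0 → 1 ≤ Q → ∀ S : Finset ℕ,
    (∀ q ∈ S, Squarefree q ∧ Q < q ^ 2) →
    ∑ q ∈ S, (Nat.totient (Nat.gcd q D.natAbs) : ℝ) / (Nat.totient q : ℝ) ^ 2 ≤
      C * (Q : ℝ) ^ (-(1 / 4) : ℝ) * Rk D := by
  have hsum : Summable (fun n : ℕ => 1 / (n : ℝ) ^ (3 / 2 : ℝ)) :=
    Real.summable_one_div_nat_rpow.2 (by norm_num)
  have hsum0 : 0 ≤ ∑' n : ℕ, 1 / (n : ℝ) ^ (3 / 2 : ℝ) := tsum_nonneg fun n => by positivity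
  refine ⟨Real.exp (4 * ∑' n : ℕ, 1 / (n : ℝ) ^ (3 / 2 : ℝ)),
    Real.one_le_exp (by linarith), ?_⟩
  intro Q D hD hQ S hS
  have hD' : D.natAbs ≠ 0 := Int.natAbs_ne_zero.2 hD
  have hQ0 : (0 : ℝ) < Q := by exact_mod_cast hQ
  have hQ1 : 0 < (Q : ℝ) ^ (-(1 / 4) : ℝ) := Real.rpow_pos_of_pos hQ0 _
  -- pointwise bound
  have h1 : ∀ q ∈ S, (Nat.totient (Nat.gcd q D.natAbs) : ℝ) / (Nat.totient q : ℝ) ^ 2 ≤
      (Q : ℝ) ^ (-(1 / 4) : ℝ) * ∏ p ∈ q.primeFactors, SS1_f D.natAbs p := by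
    intro q hq
    obtain ⟨hsq, hlt⟩ := hS q hq
    rw [← SS1_term hsq hD', ← mul_assoc]
    have h2 : 1 ≤ (Q : ℝ) ^ (-(1 / 4) : ℝ) * Real.sqrt q := by
      have h3 : (Q : ℝ) ^ (1 / 4 : ℝ) ≤ Real.sqrt q := by
        have h4 : (Q : ℝ) ≤ (q : ℝ) ^ 2 := by exact_mod_cast hlt.le
        have h5 : (Q : ℝ) ^ (1 / 4 : ℝ) ≤ ((q : ℝ) ^ 2) ^ (1 / 4 : ℝ) :=
          Real.rpow_le_rpow hQ0.le h4 (by norm_num)
        refine h5.trans (le_of_eq ?_)
        rw [← Real.rpow_natCast, ← Real.rpow_mul (Nat.cast_nonneg q), Real.sqrt_eq_rpow]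
        norm_num
      have h6 : (Q : ℝ) ^ (-(1 / 4) : ℝ) * (Q : ℝ) ^ (1 / 4 : ℝ) = 1 := by
        rw [← Real.rpow_add hQ0]
        norm_num
      exact h6.symm.le.trans (mul_le_mul_of_nonneg_left h3 hQ1.le)
    have h7 : 0 ≤ (Nat.totient (Nat.gcd q D.natAbs) : ℝ) / (Nat.totient q : ℝ) ^ 2 := by
      positivity
    nlinarith
  refine (sum_le_sum h1).trans ?_
  rw [← mul_sum]
  have h2 := SS1_sum S (fun q hq => (hS q hq).1) D.natAbs
  -- the product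
  set P := S.biUnion Nat.primeFactors with hP
  have hPp : ∀ p ∈ P, p.Prime := by
    intro p hp
    obtain ⟨q, _, hq⟩ := mem_biUnion.1 hp
    exact Nat.prime_of_mem_primeFactors hq
  have hA : ∏ p ∈ P.filter (fun p => p ∣ D.natAbs), (1 + SS1_f D.natAbs p) ≤ Rk D := by
    unfold Rk
    have hsub : P.filter (fun p => p ∣ D.natAbs) ⊆ D.natAbs.primeFactors := by
      intro p hp
      rw [mem_filter] at hp
      exact Nat.mem_primeFactors.2 ⟨hPp p hp.1, hp.2, hD'⟩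
    rw [← prod_sdiff hsub]
    have e1 : ∏ p ∈ P.filter (fun p => p ∣ D.natAbs), (1 + SS1_f D.natAbs p) =
        ∏ p ∈ P.filter (fun p => p ∣ D.natAbs), (1 + Real.sqrt p / ((p : ℝ) - 1)) := by
      refine prod_congr rfl fun p hp => ?_
      rw [SS1_f, if_pos (mem_filter.1 hp).2]
    rw [e1]
    have hone : ∀ p ∈ D.natAbs.primeFactors, 1 ≤ 1 + Real.sqrt p / ((p : ℝ) - 1) := by
      intro p hp
      have h3 : (1 : ℝ) < p := by exact_mod_cast (Nat.prime_of_mem_primeFactors hp).one_lt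
      have h4 : 0 < (p : ℝ) - 1 := by linarith
      have h5 : 0 ≤ Real.sqrt p / ((p : ℝ) - 1) := by positivity
      linarith
    have h3 : 1 ≤ ∏ p ∈ D.natAbs.primeFactors \ P.filter (fun p => p ∣ D.natAbs),
        (1 + Real.sqrt p / ((p : ℝ) - 1)) := by
      have h4 := prod_le_prod (s := D.natAbs.primeFactors \ P.filter (fun p => p ∣ D.natAbs))
        (f := fun _ => (1 : ℝ)) (g := fun p : ℕ => (1 + Real.sqrt p / ((p : ℝ) - 1)))
        (fun _ _ => zero_le_one) (fun p hp => hone p (mem_sdiff.1 hp).1)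
      rwa [prod_const_one] at h4
    have h4 : 0 ≤ ∏ p ∈ P.filter (fun p => p ∣ D.natAbs), (1 + Real.sqrt p / ((p : ℝ) - 1)) :=
      prod_nonneg fun p hp => zero_le_one.trans (hone p (hsub hp))
    nlinarith
  have hB : ∏ p ∈ P.filter (fun p => ¬ p ∣ D.natAbs), (1 + SS1_f D.natAbs p) ≤
      Real.exp (4 * ∑' n : ℕ, 1 / (n : ℝ) ^ (3 / 2 : ℝ)) := by
    calc ∏ p ∈ P.filter (fun p => ¬ p ∣ D.natAbs), (1 + SS1_f D.natAbs p)
        ≤ ∏ p ∈ P.filter (fun p => ¬ p ∣ D.natAbs), Real.exp (4 * (1 / (p : ℝ) ^ (3 / 2 : ℝ))) := by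
          refine prod_le_prod ?_ ?_
          · intro p hp
            have := SS1_f_nonneg D.natAbs (hPp p (mem_filter.1 hp).1).one_lt
            linarith
          · intro p hp
            rw [mem_filter] at hp
            have h3 := SS1_small (hPp p hp.1).one_lt
            rw [SS1_f, if_neg hp.2]
            have h4 := Real.add_one_le_exp (4 * (1 / (p : ℝ) ^ (3 / 2 : ℝ)))
            linarith
      _ = Real.exp (4 * ∑ p ∈ P.filter (fun p => ¬ p ∣ D.natAbs), 1 / (p : ℝ) ^ (3 / 2 : ℝ)) := by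
          rw [mul_sum, Real.exp_sum]
      _ ≤ _ := by
          rw [Real.exp_le_exp]
          have h3 := hsum.sum_le_tsum (P.filter (fun p => ¬ p ∣ D.natAbs))
            (fun n _ => by positivity)
          linarith
  have hprod : ∏ p ∈ P, (1 + SS1_f D.natAbs p) ≤
      Real.exp (4 * ∑' n : ℕ, 1 / (n : ℝ) ^ (3 / 2 : ℝ)) * Rk D := by
    rw [← prod_filter_mul_prod_filter_not P (fun p => p ∣ D.natAbs), mul_comm]
    refine mul_le_mul hB hA ?_ (Real.exp_pos _).le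
    refine prod_nonneg fun p hp => ?_
    have := SS1_f_nonneg D.natAbs (hPp p (mem_filter.1 hp).1).one_lt
    linarith
  calc (Q : ℝ) ^ (-(1 / 4) : ℝ) * ∑ q ∈ S, ∏ p ∈ q.primeFactors, SS1_f D.natAbs p
      ≤ (Q : ℝ) ^ (-(1 / 4) : ℝ) *
          (Real.exp (4 * ∑' n : ℕ, 1 / (n : ℝ) ^ (3 / 2 : ℝ)) * Rk D) :=
        mul_le_mul_of_nonneg_left (h2.trans hprod) hQ1.le
    _ = _ := by ring

end Pool.Agent.Lib.H18E
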