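import Pool.Agent.Lib.H18E.SS1
import Pool.Agent.Lib.H68T.CQ2

/-!
# Chunk SS2: lower bound of the truncated singular series
-/

open Finset Pool.Agent.Lib.H68T

namespace Pool.Agent.Lib.H18E

/-- the local factor -/
noncomputable def SS2_h (D : ℕ) (p : ℕ) : ℝ :=
  if p ∣ D then 1 / ((p : ℝ) - 1) else -(1 / ((p : ℝ) - 1) ^ 2)

theorem SS2_gcd {q D : ℕ} (hq : Squarefree q) (hD : D ≠ 0) :
    (Nat.gcd q D).primeFactors = q.primeFactors.filter (fun p => p ∣ D) := by
  rw [Nat.primeFactors_gcd hq.ne_zero hD]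
  ext p
  simp only [mem_inter, mem_filter, Nat.mem_primeFactors]
  constructor
  · rintro ⟨⟨a, b, c⟩, d, e, f⟩
    exact ⟨⟨a, b, c⟩, e⟩
  · rintro ⟨⟨a, b, c⟩, e⟩
    exact ⟨⟨a, b, c⟩, a, e, hD⟩

theorem SS2_div {q D : ℕ} (hq : Squarefree q) (hD : D ≠ 0) :
    (q / Nat.gcd q D).primeFactors = q.primeFactors.filter (fun p => ¬ p ∣ D) := by
  have hq0 := hq.ne_zero
  obtain ⟨h, hh⟩ := Nat.gcd_dvd_left q D
  set g := Nat.gcd q D with hg
  have hg0 : 0 < g := Nat.pos_of_ne_zero (fun h0 => hq0 (by rw [hh, h0, zero_mul]))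
  have hcop : Nat.Coprime g h := by
    rw [hh] at hq
    exact Nat.coprime_of_squarefree_mul hq
  have hqg : q / g = h := by
    conv_lhs => rw [hh]
    exact Nat.mul_div_cancel_left _ hg0
  have h1 : q.primeFactors = g.primeFactors ∪ h.primeFactors := by
    conv_lhs => rw [hh]
    exact hcop.primeFactors_mul
  have h2 := SS2_gcd hq hD
  rw [← hg] at h2
  have h3 : Disjoint g.primeFactors h.primeFactors := hcop.disjoint_primeFactors
  rw [hqg]
  ext p
  rw [mem_filter]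
  constructor
  · intro hp
    have hpq : p ∈ q.primeFactors := by rw [h1]; exact mem_union_right _ hp
    refine ⟨hpq, fun hpD => ?_⟩
    have hpg : p ∈ g.primeFactors := by rw [h2]; exact mem_filter.2 ⟨hpq, hpD⟩
    exact (disjoint_left.1 h3 hpg) hp
  · rintro ⟨hpq, hpD⟩
    rw [h1, mem_union] at hpq
    rcases hpq with hp | hp
    · rw [h2, mem_filter] at hp
      exact absurd hp.2 hpD
    · exact hp

theorem SS2_mu {n : ℕ} (hn : Squarefree n) :
    (ArithmeticFunction.moebius n : ℝ) = ∏ _p ∈ n.primeFactors, (-1 : ℝ) := by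
  have h := ArithmeticFunction.isMultiplicative_moebius.map_prod_of_prime n.primeFactors
    (fun p hp => Nat.prime_of_mem_primeFactors hp)
  rw [Nat.prod_primeFactors_of_squarefree hn] at h
  rw [h, Int.cast_prod]
  refine prod_congr rfl fun p hp => ?_
  rw [ArithmeticFunction.moebius_apply_prime (Nat.prime_of_mem_primeFactors hp)]
  norm_num

theorem SS2_term {q : ℕ} {D : ℤ} (hq : Squarefree q) (hD : D ≠ 0) :
    ((ArithmeticFunction.moebius q : ℝ) / (Nat.totient q : ℝ)) ^ 2 * cq q D =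
      ∏ p ∈ q.primeFactors, SS2_h D.natAbs p := by
  have hD' : D.natAbs ≠ 0 := Int.natAbs_ne_zero.2 hD
  have hg : Squarefree (Nat.gcd q D.natAbs) := hq.squarefree_of_dvd (Nat.gcd_dvd_left q _)
  have hqg : Squarefree (q / Nat.gcd q D.natAbs) :=
    hq.squarefree_of_dvd (Nat.div_dvd_of_dvd (Nat.gcd_dvd_left q _))
  have h1 : (ArithmeticFunction.moebius q : ℝ) ^ 2 = 1 := by
    exact_mod_cast ArithmeticFunction.moebius_sq_eq_one_of_squarefree hq
  rw [cq_squarefree q hq D, div_pow, h1, SS2_mu hqg, SS1_tot hg, SS1_tot hq, SS2_gcd hq hD',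
    SS2_div hq hD', prod_filter, prod_filter, ← prod_pow, ← prod_mul_distrib,
    one_div, ← prod_inv_distrib, ← prod_mul_distrib]
  refine prod_congr rfl fun p hp => ?_
  have h3 : (1 : ℝ) < p := by exact_mod_cast (Nat.prime_of_mem_primeFactors hp).one_lt
  have h4 : (p : ℝ) - 1 ≠ 0 := by linarith
  unfold SS2_h
  by_cases hpD : p ∣ D.natAbs
  · simp only [hpD, not_true_eq_false, if_false, if_true]
    field_simp
  · simp only [hpD, not_false_eq_true, if_false, if_true]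
    field_simp

theorem SS2_abs {q D : ℕ} (hq : Squarefree q) (hD : D ≠ 0) :
    ∏ p ∈ q.primeFactors, |SS2_h D p| =
      (Nat.totient (Nat.gcd q D) : ℝ) / (Nat.totient q : ℝ) ^ 2 := by
  have hg : Squarefree (Nat.gcd q D) := hq.squarefree_of_dvd (Nat.gcd_dvd_left q D)
  rw [SS1_tot hg, SS1_tot hq, SS2_gcd hq hD, prod_filter, ← prod_pow, ← prod_div_distrib]
  refine prod_congr rfl fun p hp => ?_
  have h3 : (1 : ℝ) < p := by exact_mod_cast (Nat.prime_of_mem_primeFactors hp).one_lt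
  have h4 : 0 < (p : ℝ) - 1 := by linarith
  unfold SS2_h
  split_ifs
  · rw [abs_of_pos (by positivity)]
    field_simp
  · rw [abs_neg, abs_of_pos (by positivity)]

theorem SS2_sqf (A : Finset ℕ) (hA : ∀ p ∈ A, p.Prime) : Squarefree (∏ p ∈ A, p) := by
  apply Finset.squarefree_prod_of_pairwise_isCoprime
  · intro a ha b hb hab
    exact Nat.coprime_iff_isRelPrime.1 ((Nat.coprime_primes (hA a ha) (hA b hb)).2 hab)
  · intro p hp
    exact (hA p hp).prime.squarefree

/-- the telescoping product -/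
theorem SS2_tele (Z : ℕ) (hZ : 1 ≤ Z) :
    ∏ m ∈ Icc 2 Z, (1 - 1 / (m : ℝ) ^ 2) = ((Z : ℝ) + 1) / (2 * Z) := by
  induction Z, hZ using Nat.le_induction with
  | base => norm_num
  | succ n hn ih =>
    rw [prod_Icc_succ_top (by omega), ih]
    have h0 : (0 : ℝ) < n := by exact_mod_cast hn
    push_cast
    field_simp
    ring

theorem SS2_ge (Z : ℕ) (B : Finset ℕ) (hB : B ⊆ Icc 2 Z) :
    1 / 2 ≤ ∏ m ∈ B, (1 - 1 / (m : ℝ) ^ 2) := by
  rcases Nat.eq_zero_or_pos Z with hZ | hZ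
  · have h1 : B = ∅ := by
      rw [hZ] at hB
      exact subset_empty.1 hB
    rw [h1, prod_empty]
    norm_num
  · have h1 := SS2_tele Z hZ
    have hb : ∀ m ∈ Icc 2 Z, 0 ≤ 1 - 1 / (m : ℝ) ^ 2 ∧ 1 - 1 / (m : ℝ) ^ 2 ≤ 1 := by
      intro m hm
      have h2 : (2 : ℝ) ≤ m := by exact_mod_cast (mem_Icc.1 hm).1
      have h3 : 1 / (m : ℝ) ^ 2 ≤ 1 := by
        rw [div_le_one (by positivity)]
        nlinarith
      have h4 : 0 ≤ 1 / (m : ℝ) ^ 2 := by positivity
      constructor <;> linarith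
    rw [← prod_sdiff hB] at h1
    have h2 : ∏ m ∈ Icc 2 Z \ B, (1 - 1 / (m : ℝ) ^ 2) ≤ 1 :=
      prod_le_one (fun m hm => (hb m (mem_sdiff.1 hm).1).1) (fun m hm => (hb m (mem_sdiff.1 hm).1).2)
    have h3 : 0 ≤ ∏ m ∈ B, (1 - 1 / (m : ℝ) ^ 2) := prod_nonneg fun m hm => (hb m (hB hm)).1
    have h4 : (1 : ℝ) / 2 ≤ ((Z : ℝ) + 1) / (2 * Z) := by
      have h0 : (0 : ℝ) < Z := by exact_mod_cast hZ
      rw [div_le_div_iff₀ (by norm_num) (by positivity)]
      linarith
    nlinarith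

/-- Let `Z = Q + |D| + 2` and let `T` be the set of the squarefree numbers composed of primes `p ≤ Z`,
`p ∤ W` (a finite set: the products of the subsets). By multiplicativity (`cq_squarefree`,
`Finset.prod_one_add`)
`∑_{q ∈ T} (μ(q)/φ(q))^2 c_q(D) = ∏_{p ≤ Z, p ∤ W} (1 + c_p(D)/(p-1)^2)`, where `c_p(D) = p-1` if
`p ∣ D` and `-1` otherwise: this is `Gp W D * ∏_{p ≤ Z, p ∤ W, p ∤ D} (1 - 1/(p-1)^2)`. All primes
of the second product are `≥ 3` (as `2 ∣ W` or `2 ∣ D`), so it is at least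
`∏_{2 ≤ m ≤ Z} (1 - 1/m^2) ≥ 1/2` (telescoping). The terms of `T` which are not in the sum have
`q^2 > Q` (if `q ≤ Q` is squarefree, coprime to `W`, then `q ∈ T`); they are at most
`φ((q,D))/φ(q)^2` in absolute value: `ss_tail`. (Terms of `QW Q W` which are not squarefree vanish;
`QW Q W` is the set of the `q ∈ [1, Q]` coprime to `W`.) -/
theorem ss_low : ∃ C : ℝ, 1 ≤ C ∧ ∀ (Q W : ℕ) (D : ℤ), D ≠ 0 → 0 < W → 1 ≤ Q →
    (2 ∣ W ∨ (2 : ℤ) ∣ D) →
    1 / 2 * Gp W D - C * (Q : ℝ) ^ (-(1 / 4) : ℝ) * Rk D ≤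
      ∑ q ∈ (QW Q W).filter (fun q => q ^ 2 ≤ Q),
        ((ArithmeticFunction.moebius q : ℝ) / (Nat.totient q : ℝ)) ^ 2 * cq q D := by
  obtain ⟨C, hC1, hC⟩ := ss_tail
  refine ⟨C, hC1, fun Q W D hD hW hQ h2 => ?_⟩
  have hD' : D.natAbs ≠ 0 := Int.natAbs_ne_zero.2 hD
  have h2' : 2 ∣ W ∨ 2 ∣ D.natAbs := by
    rcases h2 with h | h
    · exact Or.inl h
    · right
      have := Int.natAbs_dvd_natAbs.2 h
      exact this
  set d := D.natAbs with hd
  set Z := Q + d + 2 with hZ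
  set PZ := (range (Z + 1)).filter (fun p => p.Prime ∧ ¬ p ∣ W) with hPZ
  have hPp : ∀ p ∈ PZ, p.Prime := fun p hp => (mem_filter.1 hp).2.1
  -- the sum over squarefree numbers
  have e1 : ∑ q ∈ (QW Q W).filter (fun q => q ^ 2 ≤ Q),
        ((ArithmeticFunction.moebius q : ℝ) / (Nat.totient q : ℝ)) ^ 2 * cq q D =
      ∑ A ∈ PZ.powerset.filter (fun A => (∏ p ∈ A, p) ^ 2 ≤ Q), ∏ p ∈ A, SS2_h d p := by
    have e2 : ∑ q ∈ (QW Q W).filter (fun q => q ^ 2 ≤ Q),
        ((ArithmeticFunction.moebius q : ℝ) / (Nat.totient q : ℝ)) ^ 2 * cq q D =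
        ∑ q ∈ ((QW Q W).filter (fun q => q ^ 2 ≤ Q)).filter Squarefree,
        ((ArithmeticFunction.moebius q : ℝ) / (Nat.totient q : ℝ)) ^ 2 * cq q D := by
      symm
      apply sum_filter_of_ne
      intro q _ hne
      by_contra hsq
      apply hne
      rw [ArithmeticFunction.moebius_eq_zero_of_not_squarefree hsq]
      simp
    rw [e2]
    refine sum_nbij' (fun q => q.primeFactors) (fun A => ∏ p ∈ A, p) ?_ ?_ ?_ ?_ ?_
    · intro q hq
      rw [mem_filter, mem_filter, QW, mem_filter, mem_Icc] at hq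
      obtain ⟨⟨⟨⟨hq1, hqQ⟩, hqW⟩, hq2⟩, hsq⟩ := hq
      rw [mem_filter, mem_powerset, Nat.prod_primeFactors_of_squarefree hsq]
      refine ⟨fun p hp => ?_, hq2⟩
      have hpp := Nat.prime_of_mem_primeFactors hp
      have hpq := Nat.dvd_of_mem_primeFactors hp
      rw [hPZ, mem_filter, mem_range]
      refine ⟨?_, hpp, fun hpW => ?_⟩
      · have := Nat.le_of_dvd hq1 hpq
        omega
      · have h3 := Nat.dvd_gcd hpq hpW
        rw [hqW] at h3
        exact hpp.one_lt.ne' (Nat.dvd_one.1 h3)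
    · intro A hA
      rw [mem_filter, mem_powerset] at hA
      obtain ⟨hA1, hA2⟩ := hA
      have hAp : ∀ p ∈ A, p.Prime := fun p hp => hPp p (hA1 hp)
      have hsq := SS2_sqf A hAp
      have hpos : 0 < ∏ p ∈ A, p := Nat.pos_of_ne_zero hsq.ne_zero
      rw [mem_filter, mem_filter, QW, mem_filter, mem_Icc]
      refine ⟨⟨⟨⟨hpos, ?_⟩, ?_⟩, hA2⟩, hsq⟩
      · nlinarith
      · apply Nat.Coprime.prod_left
        intro p hp
        rw [(hAp p hp).coprime_iff_not_dvd]
        exact (mem_filter.1 (hA1 hp)).2.2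
    · intro q hq
      exact Nat.prod_primeFactors_of_squarefree (mem_filter.1 hq).2
    · intro A hA
      rw [mem_filter, mem_powerset] at hA
      exact Nat.primeFactors_prod fun p hp => hPp p (hA.1 hp)
    · intro q hq
      exact SS2_term (mem_filter.1 hq).2 hD
  -- the full product
  have e3 : ∏ p ∈ PZ, (1 + SS2_h d p) =
      ∑ A ∈ PZ.powerset.filter (fun A => (∏ p ∈ A, p) ^ 2 ≤ Q), ∏ p ∈ A, SS2_h d p +
      ∑ A ∈ PZ.powerset.filter (fun A => ¬ (∏ p ∈ A, p) ^ 2 ≤ Q), ∏ p ∈ A, SS2_h d p := by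
    rw [prod_one_add, sum_filter_add_sum_filter_not]
  -- the tail
  have e4 : ∑ A ∈ PZ.powerset.filter (fun A => ¬ (∏ p ∈ A, p) ^ 2 ≤ Q), ∏ p ∈ A, SS2_h d p ≤
      C * (Q : ℝ) ^ (-(1 / 4) : ℝ) * Rk D := by
    have hinj : Set.InjOn (fun A : Finset ℕ => ∏ p ∈ A, p)
        ((PZ.powerset.filter (fun A => ¬ (∏ p ∈ A, p) ^ 2 ≤ Q) : Finset (Finset ℕ)) :
          Set (Finset ℕ)) := by
      intro A hA B hB hAB
      rw [mem_coe, mem_filter, mem_powerset] at hA hB
      have h3 := congrArg Nat.primeFactors hAB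
      simp only at h3
      rwa [Nat.primeFactors_prod fun p hp => hPp p (hA.1 hp),
        Nat.primeFactors_prod fun p hp => hPp p (hB.1 hp)] at h3
    have h3 := hC Q D hD hQ ((PZ.powerset.filter (fun A => ¬ (∏ p ∈ A, p) ^ 2 ≤ Q)).image
      (fun A => ∏ p ∈ A, p)) (by
        intro q hq
        obtain ⟨A, hA, rfl⟩ := mem_image.1 hq
        rw [mem_filter, mem_powerset] at hA
        exact ⟨SS2_sqf A fun p hp => hPp p (hA.1 hp), not_le.1 hA.2⟩)
    rw [sum_image hinj] at h3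
    refine le_trans (sum_le_sum fun A hA => ?_) h3
    rw [mem_filter, mem_powerset] at hA
    have hAp : ∀ p ∈ A, p.Prime := fun p hp => hPp p (hA.1 hp)
    rw [← SS2_abs (SS2_sqf A hAp) hD', Nat.primeFactors_prod hAp, ← abs_prod]
    exact le_abs_self _
  -- the main term
  have e5 : 1 / 2 * Gp W D ≤ ∏ p ∈ PZ, (1 + SS2_h d p) := by
    rw [← prod_filter_mul_prod_filter_not PZ (fun p => p ∣ d)]
    have h3 : ∏ p ∈ PZ.filter (fun p => p ∣ d), (1 + SS2_h d p) = Gp W D := by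
      unfold Gp
      refine prod_congr ?_ ?_
      · ext p
        rw [mem_filter, hPZ, mem_filter, mem_range, mem_filter, Nat.mem_primeFactors]
        constructor
        · rintro ⟨⟨_, hp, hpW⟩, hpd⟩
          exact ⟨⟨hp, hpd, hD'⟩, hpW⟩
        · rintro ⟨⟨hp, hpd, _⟩, hpW⟩
          have hle := Nat.le_of_dvd (Nat.pos_of_ne_zero hD') hpd
          exact ⟨⟨by omega, hp, hpW⟩, hpd⟩
      · intro p hp
        have hpd : p ∣ d := Nat.dvd_of_mem_primeFactors (mem_filter.1 hp).1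
        rw [SS2_h, if_pos hpd]
    have h4 : 0 ≤ Gp W D := by
      unfold Gp
      refine prod_nonneg fun p hp => ?_
      have h5 : (1 : ℝ) < p := by
        exact_mod_cast (Nat.prime_of_mem_primeFactors (mem_filter.1 hp).1).one_lt
      have h6 : 0 < (p : ℝ) - 1 := by linarith
      positivity
    have h5 : 1 / 2 ≤ ∏ p ∈ PZ.filter (fun p => ¬ p ∣ d), (1 + SS2_h d p) := by
      have h6 : ∏ p ∈ PZ.filter (fun p => ¬ p ∣ d), (1 + SS2_h d p) =
          ∏ m ∈ (PZ.filter (fun p => ¬ p ∣ d)).image (fun p : ℕ => p - 1),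
            (1 - 1 / (m : ℝ) ^ 2) := by
        rw [prod_image]
        · refine prod_congr rfl fun p hp => ?_
          rw [mem_filter] at hp
          have h7 := (hPp p hp.1).one_le
          rw [SS2_h, if_neg hp.2, Nat.cast_sub h7, Nat.cast_one]
          ring
        · intro a ha b hb hab
          rw [mem_coe, mem_filter] at ha hb
          have h7 := (hPp a ha.1).one_le
          have h8 := (hPp b hb.1).one_le
          simp only at hab
          omega
      rw [h6]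
      apply SS2_ge Z
      intro m hm
      obtain ⟨p, hp, rfl⟩ := mem_image.1 hm
      rw [mem_filter, hPZ, mem_filter, mem_range] at hp
      obtain ⟨⟨hpZ, hpp, hpW⟩, hpd⟩ := hp
      have h7 : p ≠ 2 := by
        rintro rfl
        rcases h2' with h | h
        · exact hpW h
        · exact hpd h
      have h8 := hpp.two_le
      rw [mem_Icc]
      omega
    rw [h3]
    nlinarith
  rw [e1]
  linarith

end Pool.Agent.Lib.H18E
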