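import Pool.Agent.Lib.H18E.MD
import Pool.Agent.Lib.H18GB2.Alpha

/-!
# Chunk TG: distances
-/

open Finset Pool.Agent.Lib.H68T Pool.Agent.Lib.H18GB Pool.Agent.Lib.GoldbachGraph

namespace Pool.Agent.Lib.H18E

/-- Two neighbours `y`, `z ≥ 1` are not both divisible by a number `r1 ≥ 2` (nor by `0`): the odd primes
`y + z` and `|y - z|` would both be `r1`, so that `y = 0` or `z = 0`. -/
theorem tg_nd (r1 y z : ℕ) (h1 : r1 ≠ 1) (hy : 1 ≤ y) (hz : 1 ≤ z) (h : hadj y z) :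
    ¬ (r1 ∣ y ∧ r1 ∣ z) := by
  rintro ⟨h2, h3⟩
  rcases (Nat.dvd_prime h.1).1 (Dvd.dvd.add h2 h3) with h4 | h4
  · exact h1 h4
  · have := Nat.le_of_dvd hy h2
    omega

theorem TG_step (n : ℕ) (B : Finset ℕ) (X : ℕ) (hX : X ∈ Icc 1 n) (hd : B.card < hdeg n X) :
    ∃ Y ∈ Icc 1 n, Y ∉ B ∧ hadj X Y ∧ (HG n).Adj X Y := by
  obtain ⟨Y, hY1, hY2⟩ := Finset.exists_mem_notMem_of_card_lt_card hd
  rw [mem_filter] at hY1
  exact ⟨Y, hY1.1, hY2, hY1.2, hY1.2, hX, hY1.1⟩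

/-- A vertex with more than `|B|` neighbours has a neighbour `Y ∉ B`; if `r1 ∣ Y` then `Y` again has a
neighbour `Z ∉ B`, and `¬ r1 ∣ Z` (`tg_nd`). So it has distance at most `2` from a vertex
`Z ∉ B` with `¬ r1 ∣ Z`. -/
theorem tg_two (n : ℕ) (B : Finset ℕ) (r1 : ℕ) (h1 : r1 = 0 ∨ 7 ≤ r1)
    (hB : ∀ x ∈ Icc 1 n, x ∉ B → B.card < hdeg n x) (X : ℕ) (hX : X ∈ Icc 1 n)
    (hd : B.card < hdeg n X) :
    ∃ Z ∈ Icc 1 n, Z ∉ B ∧ ¬ r1 ∣ Z ∧ (HG n).edist X Z ≤ 2 := by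
  obtain ⟨Y, hY, hYB, hXY, hadj1⟩ := TG_step n B X hX hd
  by_cases h : r1 ∣ Y
  · obtain ⟨Z, hZ, hZB, hYZ, hadj2⟩ := TG_step n B Y hY (hB Y hY hYB)
    refine ⟨Z, hZ, hZB, ?_, ?_⟩
    · intro h2
      exact tg_nd r1 Y Z (by omega) (mem_Icc.1 hY).1 (mem_Icc.1 hZ).1 hYZ ⟨h, h2⟩
    · refine (SimpleGraph.edist_le (.cons hadj1 (.cons hadj2 .nil))).trans ?_
      norm_num
  · refine ⟨Y, hY, hYB, h, ?_⟩
    refine (SimpleGraph.edist_le (.cons hadj1 .nil)).trans ?_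
    norm_num

/-- **The core.** There is a constant `c0 > 0` such that for all large `n` there is a set `B` of at most
`n exp (-(log n)^a)/2` vertices, such that every vertex outside `B` has more than `|B|` neighbours, and
every vertex with more than `|B|` neighbours is at distance at most `2` from the set of good
vertices; the good vertices are pairwise at distance at most `7` (`gr6s c0`), and all vertices
outside `B`, except the multiples of some `r1 ≥ 7`, are good. -/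
theorem tg_main (a : ℝ) (ha : 0 < a) (ha2 : a < 1 / 2) : ∃ n0 : ℕ, ∀ n : ℕ, n0 ≤ n →
    ∃ B g : Finset ℕ, B ⊆ Icc 1 n ∧ (B.card : ℝ) ≤ n * Real.exp (-(Real.log n) ^ a) / 2 ∧
      g ⊆ Icc 1 n ∧ (∀ x ∈ g, ∀ y ∈ g, (HG n).edist x y ≤ 7) ∧
      (∀ x ∈ Icc 1 n, x ∉ B → B.card < hdeg n x) ∧
      (∀ x ∈ Icc 1 n, B.card < hdeg n x → ∃ z ∈ g, (HG n).edist x z ≤ 2) ∧
      ∃ r1 : ℕ, (r1 = 0 ∨ 7 ≤ r1) ∧ ∀ x ∈ Icc 1 n, x ∉ B → ¬ r1 ∣ x → x ∈ g := by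
  classical
  obtain ⟨c0, hc0, n0, hn0⟩ := main_deg a ha ha2
  obtain ⟨n1, hn1⟩ := gr6s c0 hc0
  refine ⟨max n0 n1, fun n hn => ?_⟩
  obtain ⟨B, hB1, hB2, r1, hr1, hBx⟩ := hn0 n ((le_max_left _ _).trans hn)
  have hgr := hn1 n ((le_max_right _ _).trans hn)
  set g := (Icc 1 n).filter (fun x => c0 * SE x * n / (Real.log n) ^ 2 ≤ hdeg n x) with hg
  have hBg : ∀ x ∈ Icc 1 n, x ∉ B → ¬ r1 ∣ x → x ∈ g := by
    intro x hx hxB hrx
    rw [hg, mem_filter]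
    exact ⟨hx, (hBx x hx hxB).2 hrx⟩
  refine ⟨B, g, hB1, hB2, filter_subset _ _, ?_, fun x hx hxB => (hBx x hx hxB).1, ?_, r1, hr1, hBg⟩
  · intro x hx y hy
    rw [hg, mem_filter] at hx hy
    exact hgr x hx.1 y hy.1 hx.2 hy.2
  · intro x hx hd
    obtain ⟨Z, hZ, hZB, hrZ, he⟩ := tg_two n B r1 hr1 (fun x hx hxB => (hBx x hx hxB).1) x hx hd
    exact ⟨Z, hBg Z hZ hZB hrZ, he⟩

end Pool.Agent.Lib.H18E
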